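import Pool.Agent.Lib.MP_566bac_pr.CountK

/-!
# Almost sure properties
-/

open SimpleGraph Finset Filter MeasureTheory ProbabilityTheory unitInterval
open scoped ENNReal

namespace Pool.Agent.Lib.MP_566bac_pr

lemma ofReal_pow_tendsto {C γ : ℝ} (h0 : 0 < γ) (h1 : γ < 1) :
    Tendsto (fun r : ℕ => ENNReal.ofReal (C * γ ^ r)) atTop (nhds 0) := by
  have h2 : Tendsto (fun r : ℕ => C * γ ^ r) atTop (nhds (C * 0)) :=
    (tendsto_pow_atTop_nhds_zero_of_lt_one h0.le h1).const_mul C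
  rw [mul_zero] at h2
  have h3 := (ENNReal.continuous_ofReal.tendsto 0).comp h2
  rw [ENNReal.ofReal_zero] at h3
  exact h3

lemma ae_tame {p : I} (hp : 1 / 2 < (p : ℝ)) : ∀ᵐ S ∂(perc p), Tame S := by
  obtain ⟨C, γ, A, hC, h0, h1, hA, hup⟩ := up_prob hp
  unfold Tame
  rw [ae_all_iff]
  intro k
  rw [ae_all_iff]
  intro x
  rw [ae_iff]
  apply le_antisymm _ bot_le
  refine ge_of_tendsto (ofReal_pow_tendsto (C := C) h0 h1) (Eventually.of_forall fun r => ?_)
  refine (measure_mono ?_).trans (hup k x r)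
  intro S hS
  simp only [not_exists, not_forall, not_not, Set.mem_ofPred_eq] at hS
  obtain ⟨h', hh, hr⟩ := hS ((A * k + r : ℕ) : ℤ)
  exact ⟨h', hh, hr⟩

lemma ae_dualFin {p : I} (hp : 1 / 2 < (p : ℝ)) : ∀ᵐ S ∂(perc p), DualFin S := by
  have hσ : ((σ p : I) : ℝ) < 1 / 2 := by
    rw [coe_symm_eq]; linarith
  obtain ⟨C, γ, hC, h0, h1, hdec⟩ := subcritical hσ
  unfold DualFin
  rw [ae_all_iff]
  intro f
  rw [ae_iff]
  apply le_antisymm _ bot_le
  refine ge_of_tendsto (ofReal_pow_tendsto (C := C) h0 h1) (Eventually.of_forall fun n => ?_)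
  have hsub : {S | ¬ {g | (openGraph (dualize S)).Reachable f g}.Finite} ⊆
      dualize ⁻¹' Far n f := by
    intro S hS
    by_contra hcon
    apply hS
    apply (Lam f n).finite_toSet.subset
    intro z hz
    rw [Finset.mem_coe, mem_Lam]
    by_contra hz'
    exact hcon ⟨z, by omega, hz⟩
  refine (measure_mono hsub).trans ?_
  rw [ENNReal.le_ofReal_iff_toReal_le (measure_ne_top _ _) (by positivity)]
  change (perc p).real (dualize ⁻¹' Far n f) ≤ _
  rw [perc_dual p (far_loc n f), perc_far]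
  exact hdec n

lemma ae_density2 {p : I} (hp : 1 / 2 < (p : ℝ)) : ∃ Q : ℕ, 1 ≤ Q ∧ ∀ᵐ S ∂(perc p),
    ∀ᶠ N : ℕ in atTop, ∀ x : ℤ, -N ≤ x → x ≤ 0 → ∀ h : ℤ, N ≤ h → ¬ Rk S (N / Q) (x, h) := by
  obtain ⟨C, γ, A, hC, h0, h1, hA, hup⟩ := up_prob hp
  refine ⟨2 * A, by omega, ?_⟩
  set δ := Real.sqrt γ with hδ
  have hδ0 : 0 < δ := Real.sqrt_pos.mpr h0
  have hδ1 : δ < 1 := by
    rw [hδ, Real.sqrt_lt' one_pos]
    simpa using h1
  have hδ2 : δ ^ 2 = γ := Real.sq_sqrt h0.le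
  set D : ℕ → Set (Set Edge) := fun N => ⋃ j ∈ Finset.range (N + 1), Up (N / (2 * A)) (-(j : ℤ)) N
    with hD
  have hb : ∀ N : ℕ, perc p (D N) ≤ ENNReal.ofReal (C * (((N : ℝ) + 1) * δ ^ N)) := by
    intro N
    have hr : A * (N / (2 * A)) + (N - A * (N / (2 * A))) = N := by
      have : A * (N / (2 * A)) ≤ N := by
        have h2 := Nat.mul_div_le N (2 * A)
        nlinarith
      omega
    have hr2 : N ≤ 2 * (N - A * (N / (2 * A))) := by
      have h2 := Nat.mul_div_le N (2 * A)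
      have h3 : 2 * A * (N / (2 * A)) = 2 * (A * (N / (2 * A))) := by ring
      omega
    have hj : ∀ j ∈ Finset.range (N + 1), perc p (Up (N / (2 * A)) (-(j : ℤ)) N) ≤
        ENNReal.ofReal (C * δ ^ N) := by
      intro j _
      have h2 := hup (N / (2 * A)) (-(j : ℤ)) (N - A * (N / (2 * A)))
      rw [hr] at h2
      refine h2.trans (ENNReal.ofReal_le_ofReal ?_)
      apply mul_le_mul_of_nonneg_left _ hC
      rw [← hδ2, ← pow_mul]
      exact pow_le_pow_of_le_one hδ0.le hδ1.le hr2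
    calc perc p (D N) ≤ ∑ j ∈ Finset.range (N + 1), perc p (Up (N / (2 * A)) (-(j : ℤ)) N) :=
          measure_biUnion_finset_le _ _
      _ ≤ ∑ j ∈ Finset.range (N + 1), ENNReal.ofReal (C * δ ^ N) := sum_le_sum hj
      _ = ENNReal.ofReal (C * (((N : ℝ) + 1) * δ ^ N)) := by
          rw [sum_const, card_range, nsmul_eq_mul, ← ENNReal.ofReal_natCast,
            ← ENNReal.ofReal_mul (by positivity)]
          congr 1
          push_cast
          ring
  have hsum : Summable fun N : ℕ => C * (((N : ℝ) + 1) * δ ^ N) := by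
    apply Summable.mul_left
    have hn : ‖δ‖ < 1 := by rwa [Real.norm_of_nonneg hδ0.le]
    have s1 := summable_pow_mul_geometric_of_norm_lt_one 1 hn
    have s2 := summable_geometric_of_lt_one hδ0.le hδ1
    refine (s1.add s2).congr fun N => ?_
    ring
  have h2 : ∑' N, perc p (D N) ≠ ∞ := by
    apply ne_top_of_le_ne_top _ (ENNReal.tsum_le_tsum hb)
    rw [← ENNReal.ofReal_tsum_of_nonneg (fun N => by positivity) hsum]
    exact ENNReal.ofReal_ne_top
  filter_upwards [ae_eventually_notMem h2] with S hS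
  filter_upwards [hS] with N hN x hx1 hx2 h hh hr
  apply hN
  simp only [hD, Set.mem_iUnion]
  refine ⟨x.natAbs, ?_, h, hh, ?_⟩
  · rw [Finset.mem_range]
    omega
  · have e : -(x.natAbs : ℤ) = x := by omega
    rw [e]
    exact hr

open Classical in
/-- the probability of the local event is bounded below uniformly in the size of the box -/
theorem Bev_prob {p : I} (hp : 1 / 2 < (p : ℝ)) :
    ∃ A : ℕ, 1 ≤ A ∧ ∀ m, ((8 * A : ℕ) : ℝ≥0∞)⁻¹ ≤ perc p {S | Bev (1 / (2 * A)) m 0 S} := by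
  obtain ⟨C, γ, A1, hC, h0, hγ1, hA, hup⟩ := up_prob hp
  -- the choice of `A`
  obtain ⟨s, hs⟩ := exists_pow_lt_of_lt_one (show 0 < 1 / (4 * (C + 1)) by positivity) hγ1
  have hs' : C * γ ^ s ≤ 1 / 4 := by
    have : C * γ ^ s ≤ C * (1 / (4 * (C + 1))) := mul_le_mul_of_nonneg_left hs.le hC
    refine this.trans ?_
    rw [mul_one_div, div_le_div_iff₀ (by positivity) (by norm_num)]
    nlinarith
  refine ⟨A1 + s, by omega, ?_⟩
  intro m
  set A := A1 + s with hAdef
  set K : ℕ := 8 * (m + 1) with hK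
  set n : ℕ := A * K with hn
  set B : ℤ → Set (Set Edge) := fun y => {S | Bev (1 / (2 * A)) m y S} with hB
  set R : Finset ℤ := Finset.Icc (1 : ℤ) n with hR
  set f : Set Edge → ℝ≥0∞ := fun S => ∑ y ∈ R, (B y).indicator 1 S with hf
  have hmeas : Measurable f := by
    apply Finset.measurable_sum
    intro y _
    exact measurable_one.indicator (measurableSet_Bev _ m y)
  have hint : ∫⁻ S, f S ∂(perc p) ≤ (n : ℕ) * perc p {S | Bev (1 / (2 * A)) m 0 S} := by
    rw [hf, lintegral_finsetSum _ (fun y _ => measurable_one.indicator (measurableSet_Bev _ m y))]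
    have h1 : ∀ y ∈ R, ∫⁻ S, (B y).indicator 1 S ∂(perc p) ≤
        perc p {S | Bev (1 / (2 * A)) m 0 S} := by
      intro y _
      rw [lintegral_indicator_one (measurableSet_Bev _ m y)]
      exact Bev_prob_shift p _ m y
    refine (sum_le_sum h1).trans ?_
    rw [sum_const, nsmul_eq_mul, hR, Int.card_Icc]
    have : ((n : ℤ) + 1 - 1).toNat = n := by omega
    rw [this]
  have hgood : (2⁻¹ : ℝ≥0∞) ≤ perc p {S | ((2 * (m + 1) : ℕ) : ℝ≥0∞) ≤ f S} := by
    have hbad : perc p {S | ((2 * (m + 1) : ℕ) : ℝ≥0∞) ≤ f S}ᶜ ≤ 2⁻¹ := by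
      have h1 : {S | ((2 * (m + 1) : ℕ) : ℝ≥0∞) ≤ f S}ᶜ ⊆
          (Up K 0 n ∪ Up K 1 n) ∪ {S | ¬ Tame S} := by
        intro S hS
        by_contra hcon
        rw [Set.mem_union, Set.mem_union, not_or, not_or] at hcon
        obtain ⟨⟨h2, h2'⟩, h3⟩ := hcon
        simp only [Set.mem_ofPred_eq, not_not] at h3
        apply hS
        have h4 := countK h3 m A (by omega)
          (fun h hh hr => h2 ⟨h, hh, hr⟩) (fun h hh hr => h2' ⟨h, hh, hr⟩)
        have h5 : f S = ((({y ∈ R | Bev (1 / (2 * A)) m y S}.card : ℕ)) : ℝ≥0∞) := by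
          simp only [hf, Set.indicator_apply, Pi.one_apply]
          rw [Finset.card_filter]
          push_cast
          rfl
        change ((2 * (m + 1) : ℕ) : ℝ≥0∞) ≤ f S
        rw [h5]
        exact_mod_cast h4
      have h2 : perc p {S | ¬ Tame S} = 0 := ae_iff.mp (ae_tame hp)
      have hone : ∀ x : ℤ, perc p (Up K x n) ≤ 4⁻¹ := by
        intro x
        have e : n = A1 * K + s * K := by
          rw [hn, hAdef]
          ring
        rw [e]
        refine (hup K x (s * K)).trans ?_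
        have h5 : C * γ ^ (s * K) ≤ 1 / 4 := by
          refine le_trans ?_ hs'
          apply mul_le_mul_of_nonneg_left _ hC
          apply pow_le_pow_of_le_one h0.le hγ1.le
          nlinarith
        refine (ENNReal.ofReal_le_ofReal h5).trans ?_
        rw [one_div, ENNReal.ofReal_inv_of_pos (by norm_num)]
        norm_num
      calc perc p {S | ((2 * (m + 1) : ℕ) : ℝ≥0∞) ≤ f S}ᶜ
          ≤ perc p (Up K 0 n ∪ Up K 1 n) + perc p {S | ¬ Tame S} :=
            (measure_mono h1).trans (measure_union_le _ _)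
        _ ≤ (perc p (Up K 0 n) + perc p (Up K 1 n)) + 0 := by
            rw [h2]
            gcongr
            exact measure_union_le _ _
        _ ≤ (4⁻¹ + 4⁻¹) + 0 := by
            gcongr
            · exact hone 0
            · exact hone 1
        _ = 2⁻¹ := by
            rw [add_zero, ← two_mul, show (4 : ℝ≥0∞) = 2 * 2 by norm_num,
              ENNReal.mul_inv (by simp) (by simp), ← mul_assoc,
              ENNReal.mul_inv_cancel (by simp) (by simp), one_mul]
    have hm2 : MeasurableSet {S | ((2 * (m + 1) : ℕ) : ℝ≥0∞) ≤ f S} :=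
      measurableSet_le measurable_const hmeas
    have h3 := prob_add_prob_compl (μ := perc p) hm2
    have h4 : (1 : ℝ≥0∞) ≤ perc p {S | ((2 * (m + 1) : ℕ) : ℝ≥0∞) ≤ f S} + 2⁻¹ := by
      rw [← h3]
      gcongr
    have h5 : (2⁻¹ : ℝ≥0∞) + 2⁻¹ = 1 := ENNReal.inv_two_add_inv_two
    rw [← h5] at h4
    exact (ENNReal.add_le_add_iff_right (by simp)).mp h4
  have h1 := mul_meas_ge_le_lintegral hmeas ((2 * (m + 1) : ℕ) : ℝ≥0∞) (μ := perc p)
  have h2 : ((2 * (m + 1) : ℕ) : ℝ≥0∞) * 2⁻¹ ≤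
      (n : ℕ) * perc p {S | Bev (1 / (2 * A)) m 0 S} :=
    ((mul_le_mul_right hgood _).trans h1).trans hint
  have hA0 : ((8 * A : ℕ) : ℝ≥0∞) ≠ 0 := by
    rw [Nat.cast_ne_zero]
    omega
  have h3 : ((2 * (m + 1) : ℕ) : ℝ≥0∞) * 2⁻¹ = ((n : ℕ) : ℝ≥0∞) * ((8 * A : ℕ) : ℝ≥0∞)⁻¹ := by
    have e1 : ((2 * (m + 1) : ℕ) : ℝ≥0∞) = ((m + 1 : ℕ) : ℝ≥0∞) * 2 := by
      push_cast
      ring
    have e2 : ((n : ℕ) : ℝ≥0∞) = ((m + 1 : ℕ) : ℝ≥0∞) * ((8 * A : ℕ) : ℝ≥0∞) := by
      rw [hn, hK]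
      push_cast
      ring
    rw [e1, e2, mul_assoc, mul_assoc, ENNReal.mul_inv_cancel (by simp) (by simp),
      ENNReal.mul_inv_cancel hA0 (ENNReal.natCast_ne_top _)]
  rw [h3] at h2
  refine (ENNReal.mul_le_mul_iff_right ?_ (ENNReal.natCast_ne_top _)).mp h2
  rw [Nat.cast_ne_zero, hn]
  have : 0 < A * K := by positivity
  omega

lemma Bev_anti {κ : ℝ} {m : ℕ} {y : ℤ} {S : Set Edge} (h : Bev κ (m + 1) y S) : Bev κ m y S := by
  obtain ⟨h0, u, h1, h2, h3, h4⟩ := h
  refine ⟨h0, u, h1, ?_, h3, h4⟩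
  intro v hv a1 a2
  apply h2 v hv
  · push_cast; linarith
  · push_cast; linarith

theorem Bev_all_prob {p : I} {κ : ℝ} {c : ℝ≥0∞} (h : ∀ m, c ≤ perc p {S | Bev κ m 0 S}) :
    c ≤ perc p {S | ∀ m, Bev κ m 0 S} := by
  have h1 : {S | ∀ m, Bev κ m 0 S} = ⋂ m : ℕ, {S | Bev κ m 0 S} := by
    ext S
    simp
  have hanti : Antitone fun m : ℕ => {S | Bev κ m 0 S} := by
    apply antitone_nat_of_succ_le
    intro m S hS
    exact Bev_anti hS
  have h2 := tendsto_measure_iInter_atTop (μ := perc p)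
    (fun m => (measurableSet_Bev κ m 0).nullMeasurableSet) hanti ⟨0, measure_ne_top _ _⟩
  rw [h1]
  exact ge_of_tendsto h2 (Eventually.of_forall fun m => h m)

end Pool.Agent.Lib.MP_566bac_pr
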