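import Pool.Agent.Lib.MP_566bac_pr.Lines

/-!
# Almost sure properties of the lines
-/

open MeasureTheory ProbabilityTheory Finset unitInterval Filter
open scoped ENNReal

namespace Pool.Agent.Lib.MP_566bac_pr

variable (p : I) (hp : (toNNReal (σ p) : ℝ≥0∞) ≤ (16⁻¹) ^ 4)
include hp

lemma rch_prob (k r : ℕ) (x : ℤ) :
    perc p {S | Rch S k x (4 * k + r)} ≤ 2 * (16⁻¹ : ℝ≥0∞) ^ r :=
  valid_prob p hp k r (x, 4 * k + r) rfl

lemma tendsto_bound : Tendsto (fun r : ℕ => 2 * (16⁻¹ : ℝ≥0∞) ^ r) atTop (nhds 0) := by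
  have h1 : Tendsto (fun r : ℕ => (16⁻¹ : ℝ≥0∞) ^ r) atTop (nhds 0) :=
    ENNReal.tendsto_pow_atTop_nhds_zero_of_lt_one (by simp)
  have h2 := ENNReal.Tendsto.const_mul (a := 2) h1 (Or.inr (by simp))
  simpa using h2

lemma ae_fin : ∀ᵐ S ∂(perc p), Fin' S := by
  unfold Fin'
  rw [ae_all_iff]
  intro k
  rw [ae_all_iff]
  intro x
  rw [ae_iff]
  apply le_antisymm _ bot_le
  refine ge_of_tendsto (tendsto_bound p hp) (Eventually.of_forall fun r => ?_)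
  refine (measure_mono ?_).trans (rch_prob p hp k r x)
  intro S hS
  simp only [not_exists, not_not, Set.mem_ofPred_eq] at hS
  exact hS _

lemma ae_growth : ∀ᵐ S ∂(perc p), ∀ k, ∃ C : ℤ, ∀ x : ℤ, 2 * FF S k x ≤ C + |x| := by
  rw [ae_all_iff]
  intro k
  -- the bad events
  set A : ℕ → ℤ → Set (Set (Sym2 (ℤ × ℤ))) := fun C x =>
    {S | Rch S k x (4 * k + ((C + x.natAbs / 2 : ℕ) : ℤ))} with hA
  have h1 : ∀ C : ℕ, perc p (⋃ x : ℤ, A C x) ≤ 32 * (16⁻¹ : ℝ≥0∞) ^ C := by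
    intro C
    have hle : (⋃ x : ℤ, A C x) ⊆ ⋃ n : ℕ, (A C n ∪ A C (-n)) := by
      intro S hS
      rw [Set.mem_iUnion] at hS ⊢
      obtain ⟨x, hx⟩ := hS
      refine ⟨x.natAbs, ?_⟩
      rcases Int.natAbs_eq x with h | h
      · left; rwa [← h]
      · right; rwa [← h]
    have hn : ∀ n : ℕ, perc p (A C n ∪ A C (-n)) ≤ 16 * (16⁻¹ : ℝ≥0∞) ^ C * (2⁻¹ : ℝ≥0∞) ^ n := by
      intro n
      have e1 : perc p (A C n) ≤ 2 * (16⁻¹ : ℝ≥0∞) ^ (C + n / 2) := by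
        have := rch_prob p hp k (C + n / 2) n
        simpa [hA] using this
      have e2 : perc p (A C (-n)) ≤ 2 * (16⁻¹ : ℝ≥0∞) ^ (C + n / 2) := by
        have := rch_prob p hp k (C + n / 2) (-n)
        simpa [hA] using this
      have e3 : (16⁻¹ : ℝ≥0∞) ^ (n / 2) ≤ 4 * (2⁻¹ : ℝ≥0∞) ^ n := by
        have h16 : (16⁻¹ : ℝ≥0∞) = (2⁻¹) ^ 4 := by
          rw [← ENNReal.inv_pow]
          norm_num
        have h4 : (4 : ℝ≥0∞) * (2⁻¹) ^ 2 = 1 := by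
          rw [← ENNReal.inv_pow, show (2 : ℝ≥0∞) ^ 2 = 4 by norm_num]
          exact ENNReal.mul_inv_cancel (by simp) (by simp)
        calc (16⁻¹ : ℝ≥0∞) ^ (n / 2) = (2⁻¹) ^ (4 * (n / 2)) := by rw [h16, pow_mul]
          _ = 4 * (2⁻¹) ^ 2 * (2⁻¹) ^ (4 * (n / 2)) := by rw [h4, one_mul]
          _ = 4 * (2⁻¹) ^ (2 + 4 * (n / 2)) := by rw [pow_add]; ring
          _ ≤ 4 * (2⁻¹ : ℝ≥0∞) ^ n := by
              gcongr 4 * ?_
              apply pow_le_pow_right_of_le_one'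
              · simp
              · omega
      calc perc p (A C n ∪ A C (-n)) ≤ perc p (A C n) + perc p (A C (-n)) := measure_union_le _ _
        _ ≤ 2 * (16⁻¹ : ℝ≥0∞) ^ (C + n / 2) + 2 * (16⁻¹ : ℝ≥0∞) ^ (C + n / 2) := add_le_add e1 e2
        _ = 4 * (16⁻¹ : ℝ≥0∞) ^ C * (16⁻¹ : ℝ≥0∞) ^ (n / 2) := by
            rw [pow_add, ← two_mul, ← mul_assoc, ← mul_assoc]
            norm_num
        _ ≤ 4 * (16⁻¹ : ℝ≥0∞) ^ C * (4 * (2⁻¹ : ℝ≥0∞) ^ n) := by gcongr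
        _ = 16 * (16⁻¹ : ℝ≥0∞) ^ C * (2⁻¹ : ℝ≥0∞) ^ n := by ring
    calc perc p (⋃ x : ℤ, A C x) ≤ perc p (⋃ n : ℕ, (A C n ∪ A C (-n))) := measure_mono hle
      _ ≤ ∑' n : ℕ, perc p (A C n ∪ A C (-n)) := measure_iUnion_le _
      _ ≤ ∑' n : ℕ, 16 * (16⁻¹ : ℝ≥0∞) ^ C * (2⁻¹ : ℝ≥0∞) ^ n := ENNReal.tsum_le_tsum hn
      _ = 32 * (16⁻¹ : ℝ≥0∞) ^ C := by
          rw [ENNReal.tsum_mul_left, ENNReal.tsum_geometric_two]
          ring
  have h2 : perc p (⋂ C : ℕ, ⋃ x : ℤ, A C x) = 0 := by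
    apply le_antisymm _ bot_le
    have h3 : Tendsto (fun C : ℕ => 32 * (16⁻¹ : ℝ≥0∞) ^ C) atTop (nhds 0) := by
      have h1 : Tendsto (fun r : ℕ => (16⁻¹ : ℝ≥0∞) ^ r) atTop (nhds 0) :=
        ENNReal.tendsto_pow_atTop_nhds_zero_of_lt_one (by simp)
      have h2 := ENNReal.Tendsto.const_mul (a := 32) h1 (Or.inr (by simp))
      simpa using h2
    refine ge_of_tendsto h3 (Eventually.of_forall fun C => ?_)
    exact (measure_mono (Set.iInter_subset _ C)).trans (h1 C)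
  have h3 : ∀ᵐ S ∂(perc p), S ∉ ⋂ C : ℕ, ⋃ x : ℤ, A C x := measure_eq_zero_iff_ae_notMem.mp h2
  filter_upwards [h3, ae_fin p hp] with S hS hfin
  simp only [Set.mem_iInter, Set.mem_iUnion, not_forall, not_exists] at hS
  obtain ⟨C, hC⟩ := hS
  refine ⟨8 * k + 2 * C, ?_⟩
  intro x
  have h4 : ¬ Rch S k x (4 * k + ((C + x.natAbs / 2 : ℕ) : ℤ)) := hC x
  rw [rch_iff hfin] at h4
  push Not at h4
  push_cast at h4
  have h5 : (x.natAbs : ℤ) = |x| := Int.natCast_natAbs x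
  omega

lemma ae_density : ∀ᵐ S ∂(perc p), ∀ᶠ N : ℕ in atTop, ∀ x : ℤ, -N ≤ x → x ≤ 0 →
    FF S (N / 8) x ≤ N := by
  set D : ℕ → Set (Set (Sym2 (ℤ × ℤ))) := fun N =>
    ⋃ j ∈ Finset.range (N + 1), {S | Rch S (N / 8) (-(j : ℤ)) N} with hD
  have h1 : ∀ N : ℕ, perc p (D N) ≤ 2 * (2⁻¹ : ℝ≥0∞) ^ N := by
    intro N
    have hj : ∀ j ∈ Finset.range (N + 1), perc p {S | Rch S (N / 8) (-(j : ℤ)) N} ≤
        2 * ((2⁻¹ : ℝ≥0∞) ^ N * (2⁻¹ : ℝ≥0∞) ^ N) := by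
      intro j _
      have := rch_prob p hp (N / 8) (N - 4 * (N / 8)) (-(j : ℤ))
      have e : (4 * ((N / 8 : ℕ) : ℤ) + ((N - 4 * (N / 8) : ℕ) : ℤ)) = N := by omega
      rw [e] at this
      refine this.trans ?_
      gcongr 2 * ?_
      have h16 : (16⁻¹ : ℝ≥0∞) = (2⁻¹) ^ 4 := by
        rw [← ENNReal.inv_pow]
        norm_num
      rw [h16, ← pow_mul, ← pow_add]
      apply pow_le_pow_right_of_le_one'
      · simp
      · omega
    calc perc p (D N) ≤ ∑ j ∈ Finset.range (N + 1), perc p {S | Rch S (N / 8) (-(j : ℤ)) N} :=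
          measure_biUnion_finset_le _ _
      _ ≤ ∑ j ∈ Finset.range (N + 1), 2 * ((2⁻¹ : ℝ≥0∞) ^ N * (2⁻¹ : ℝ≥0∞) ^ N) :=
          sum_le_sum hj
      _ = 2 * (((N + 1 : ℕ) : ℝ≥0∞) * (2⁻¹ : ℝ≥0∞) ^ N) * (2⁻¹ : ℝ≥0∞) ^ N := by
          rw [sum_const, card_range, nsmul_eq_mul]
          ring
      _ ≤ 2 * 1 * (2⁻¹ : ℝ≥0∞) ^ N := by
          gcongr
          have h3 : ((N + 1 : ℕ) : ℝ≥0∞) ≤ 2 ^ N := by
            have : N + 1 ≤ 2 ^ N := Nat.lt_two_pow_self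
            exact_mod_cast this
          calc ((N + 1 : ℕ) : ℝ≥0∞) * (2⁻¹ : ℝ≥0∞) ^ N ≤ 2 ^ N * (2⁻¹ : ℝ≥0∞) ^ N := by gcongr
            _ = 1 := by
                rw [← mul_pow, ENNReal.mul_inv_cancel (by simp) (by simp), one_pow]
      _ = 2 * (2⁻¹ : ℝ≥0∞) ^ N := by rw [mul_one]
  have h2 : ∑' N, perc p (D N) ≠ ∞ := by
    apply ne_top_of_le_ne_top _ (ENNReal.tsum_le_tsum h1)
    rw [ENNReal.tsum_mul_left, ENNReal.tsum_geometric_two]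
    norm_num
  have h3 := ae_eventually_notMem h2
  filter_upwards [h3, ae_fin p hp] with S hS hfin
  filter_upwards [hS] with N hN x hx1 hx2
  by_contra hcon
  push Not at hcon
  apply hN
  simp only [hD, Set.mem_iUnion, Finset.mem_range, Set.mem_ofPred_eq, exists_prop]
  refine ⟨(-x).toNat, by omega, ?_⟩
  have e : -(((-x).toNat : ℕ) : ℤ) = x := by omega
  rw [e, rch_iff hfin]
  exact hcon

end Pool.Agent.Lib.MP_566bac_pr
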