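import Pool.Agent.Lib.MP_566bac_pr.SharpA

/-!
# Zero-one law for translation invariant events
-/

open MeasureTheory ProbabilityTheory Finset unitInterval SimpleGraph
open scoped ENNReal symmDiff

namespace Pool.Agent.Lib.MP_566bac_pr

lemma isSetRing_det : IsSetRing {A : Set (Set Edge) | ∃ E : Finset Edge, Det E A} where
  empty_mem := ⟨∅, fun _ _ _ h => h⟩
  union_mem := by
    classical
    rintro s t ⟨E, hE⟩ ⟨F, hF⟩
    exact ⟨E ∪ F, det_union (det_mono subset_union_left hE) (det_mono subset_union_right hF)⟩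
  sdiff_mem := by
    classical
    rintro s t ⟨E, hE⟩ ⟨F, hF⟩
    exact ⟨E ∪ F, det_inter (det_mono subset_union_left hE)
      (det_compl (det_mono subset_union_right hF))⟩

lemma generate_det : (Set.instMeasurableSpace : MeasurableSpace (Set Edge)) =
    MeasurableSpace.generateFrom {A : Set (Set Edge) | ∃ E : Finset Edge, Det E A} := by
  apply le_antisymm
  · refine iSup_le fun a => ?_
    rintro s ⟨t, _, rfl⟩
    apply MeasurableSpace.measurableSet_generateFrom
    refine ⟨{a}, ?_⟩
    intro S S' h h1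
    have h2 : (a ∈ S) = (a ∈ S') := propext (h a (by simp))
    change (a ∈ S') ∈ t
    rw [← h2]
    exact h1
  · apply MeasurableSpace.generateFrom_le
    rintro A ⟨E, hE⟩
    exact det_measurable hE

/-- approximation by local events -/
lemma approx (p : I) {A : Set (Set Edge)} (hA : MeasurableSet A) {ε : ℝ} (hε : 0 < ε) :
    ∃ B, Loc B ∧ (perc p).real (B ∆ A) < ε := by
  classical
  obtain ⟨B, ⟨E, hE⟩, hB⟩ := exists_measure_symmDiff_lt_of_generateFrom_isSetRing
    (μ := perc p) isSetRing_det ⟨{Set.univ}, Set.countable_singleton _, by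
      rintro _ rfl
      exact ⟨∅, fun _ _ _ h => h⟩, by simp⟩ generate_det hA (ε := ENNReal.ofReal ε) (by simpa using hε)
  -- the lattice part
  set B' : Set (Set Edge) := {S | S ∩ lattice.edgeSet ∈ B} with hB'
  have hloc : Loc B' := by
    refine ⟨E.filter fun e => e ∈ lattice.edgeSet, ?_, ?_⟩
    · intro e he
      exact (Finset.mem_filter.mp he).2
    · intro S S' h h1
      refine hE _ _ ?_ h1
      intro e he
      simp only [Set.mem_inter_iff]
      by_cases h2 : e ∈ lattice.edgeSet
      · simp only [h2, and_true]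
        exact h e (Finset.mem_filter.mpr ⟨he, h2⟩)
      · simp only [h2, and_false]
  refine ⟨B', hloc, ?_⟩
  have hae : (B' ∆ A : Set (Set Edge)) =ᵐ[perc p] (B ∆ A : Set (Set Edge)) := by
    filter_upwards [setBernoulli_ae_subset (u := lattice.edgeSet) (p := p)] with S hS
    have h1 : S ∩ lattice.edgeSet = S := Set.inter_eq_left.mpr hS
    have h2 : (S ∈ B') = (S ∈ B) := by
      change (S ∩ lattice.edgeSet ∈ B) = (S ∈ B)
      rw [h1]
    change (S ∈ B' ∆ A) = (S ∈ B ∆ A)
    rw [Set.mem_symmDiff, Set.mem_symmDiff, h2]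
  rw [measureReal_congr hae, measureReal_def]
  have h3 := (ENNReal.toReal_lt_toReal (measure_ne_top _ _) ENNReal.ofReal_ne_top).mpr hB
  rwa [ENNReal.toReal_ofReal hε.le] at h3

lemma det_pull (φ : (ℤ × ℤ) ≃ (ℤ × ℤ)) {E : Finset Edge} {A : Set (Set Edge)} (hA : Det E A) :
    Det (by classical exact E.image (Sym2.map φ)) (pull φ ⁻¹' A) := by
  classical
  intro S S' h h1
  refine hA (pull φ S) (pull φ S') ?_ h1
  intro e he
  exact h (Sym2.map φ e) (Finset.mem_image_of_mem _ he)

lemma lat_image {φ : (ℤ × ℤ) ≃ (ℤ × ℤ)} (hφ : IsAuto φ) {E : Finset Edge} (hE : Lat E) :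
    Lat (by classical exact E.image (Sym2.map φ)) := by
  classical
  intro e he
  obtain ⟨f, hf, rfl⟩ := Finset.mem_image.mp he
  have := hE f hf
  induction f using Sym2.ind with
  | _ a b =>
    rw [Sym2.map_mk, SimpleGraph.mem_edgeSet] at *
    exact (hφ a b).mpr this

lemma Loc.pull {φ : (ℤ × ℤ) ≃ (ℤ × ℤ)} (hφ : IsAuto φ) {A : Set (Set Edge)} (hA : Loc A) :
    Loc (Pool.Agent.Lib.MP_566bac_pr.pull φ ⁻¹' A) := by
  obtain ⟨E, hE, hA⟩ := hA
  exact ⟨_, lat_image hφ hE, det_pull φ hA⟩

lemma exists_Ein {E : Finset Edge} (hE : Lat E) : ∃ n, E ⊆ Ein (Lam 0 n) := by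
  classical
  induction E using Finset.induction_on with
  | empty => exact ⟨0, by simp⟩
  | insert e E _ ih =>
    obtain ⟨n, hn⟩ := ih fun f hf => hE f (Finset.mem_insert_of_mem hf)
    have he := hE e (Finset.mem_insert_self _ _)
    induction e using Sym2.ind with
    | _ a b =>
      refine ⟨max n (max (dst a 0) (dst b 0)), ?_⟩
      intro f hf
      rw [Finset.mem_insert] at hf
      rcases hf with rfl | hf
      · rw [mem_Ein, mem_Lam, mem_Lam]
        exact ⟨(le_max_left _ _).trans (le_max_right _ _), (le_max_right _ _).trans (le_max_right _ _), he⟩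
      · refine Ein_mono ?_ (hn hf)
        intro x hx
        rw [mem_Lam] at hx ⊢
        exact hx.trans (le_max_left _ _)

lemma shift_indep (p : I) {E : Finset Edge} {n : ℕ} (hE : E ⊆ Ein (Lam 0 n)) (hL : Lat E)
    {B : Set (Set Edge)} (hB : Det E B) {c : ℤ × ℤ} (hc : 2 * n < dst c 0) :
    (perc p).real (B ∩ pull (transE c) ⁻¹' B) = (perc p).real B * (perc p).real B := by
  classical
  have hd : Disjoint E (E.image (Sym2.map (transE c))) := by
    rw [Finset.disjoint_left]
    intro e he he'
    obtain ⟨f, hf, hfe⟩ := Finset.mem_image.mp he'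
    have h1 := hE he
    have h2 := hE hf
    induction f using Sym2.ind with
    | _ a b =>
      rw [Sym2.map_mk] at hfe
      rw [← hfe, mem_Ein, mem_Lam] at h1
      rw [mem_Ein, mem_Lam] at h2
      have h3 := dst_tri c (a + c) 0
      have h4 : dst c (a + c) = dst a 0 := by
        unfold dst
        simp only [Prod.fst_add, Prod.snd_add, Prod.fst_zero, Prod.snd_zero, sub_zero]
        have e1 : c.1 - (a.1 + c.1) = -a.1 := by ring
        have e2 : c.2 - (a.2 + c.2) = -a.2 := by ring
        rw [e1, e2, Int.natAbs_neg, Int.natAbs_neg]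
      have h5 : dst (transE c a) 0 ≤ n := h1.1
      rw [transE_apply] at h5
      omega
  rw [perc_indep p hL (lat_image (isAuto_transE c) hL) hd hB (det_pull _ hB),
    perc_pull (isAuto_transE c) p (det_measurable hB)]

/-- **Zero-one law.** -/
theorem zero_one (p : I) {A : Set (Set Edge)} (hA : MeasurableSet A)
    (hinv : ∀ N : ℕ, ∃ c : ℤ × ℤ, N ≤ dst c 0 ∧ pull (transE c) ⁻¹' A = A) :
    (perc p).real A = 0 ∨ (perc p).real A = 1 := by
  set a := (perc p).real A with ha
  have ha0 : 0 ≤ a := measureReal_nonneg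
  have ha1 : a ≤ 1 := measureReal_le_one
  have key : ∀ ε : ℝ, 0 < ε → |a - a * a| ≤ 4 * ε := by
    intro ε hε
    obtain ⟨B, ⟨E, hL, hB⟩, hBA⟩ := approx p hA hε
    obtain ⟨n, hn⟩ := exists_Ein hL
    obtain ⟨c, hc, hinv⟩ := hinv (2 * n + 1)
    set τ := pull (transE c) with hτ
    set b := (perc p).real B with hb
    have hBm := det_measurable hB
    have hb0 : 0 ≤ b := measureReal_nonneg
    have hb1 : b ≤ 1 := measureReal_le_one
    have hτm : Measurable τ := measurable_pull _
    have h1 : (perc p).real (B ∩ τ ⁻¹' B) = b * b := shift_indep p hn hL hB (by omega)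
    have h2 : (perc p).real ((τ ⁻¹' B) ∆ A) = (perc p).real (B ∆ A) := by
      have e1 : (τ ⁻¹' B) ∆ A = τ ⁻¹' (B ∆ A) := by
        conv_lhs => rw [← hinv]
        rfl
      rw [e1]
      exact perc_pull (isAuto_transE c) p (hBm.symmDiff hA)
    have hsub : ∀ X Y : Set (Set Edge), (perc p).real X ≤ (perc p).real Y + (perc p).real (X ∆ Y) := by
      intro X Y
      refine (perc_mono p ?_).trans (measureReal_union_le Y (X ∆ Y))
      intro S hS
      by_cases h : S ∈ Y
      · exact Or.inl h
      · exact Or.inr (Or.inl ⟨hS, h⟩)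
    have hab : |a - b| ≤ ε := by
      rw [abs_le]
      have e1 := hsub A B
      have e2 := hsub B A
      have e3 : A ∆ B = B ∆ A := symmDiff_comm A B
      rw [e3] at e1
      constructor <;> linarith
    have hX : |a - b * b| ≤ 2 * ε := by
      have e0 : (perc p).real ((B ∩ τ ⁻¹' B) ∆ A) ≤ 2 * ε := by
        have : (B ∩ τ ⁻¹' B) ∆ A ⊆ (B ∆ A) ∪ ((τ ⁻¹' B) ∆ A) := by
          intro S hS
          rcases hS with ⟨⟨h1, h2⟩, h3⟩ | ⟨h1, h2⟩
          · exact Or.inl (Or.inl ⟨h1, h3⟩)
          · by_cases h4 : S ∈ B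
            · right; right
              exact ⟨h1, fun h5 => h2 ⟨h4, h5⟩⟩
            · left; right
              exact ⟨h1, h4⟩
        refine (perc_mono p this).trans ((measureReal_union_le _ _).trans ?_)
        rw [h2]
        linarith
      have e1 := hsub A (B ∩ τ ⁻¹' B)
      have e2 := hsub (B ∩ τ ⁻¹' B) A
      have e3 : A ∆ (B ∩ τ ⁻¹' B) = (B ∩ τ ⁻¹' B) ∆ A := symmDiff_comm _ _
      rw [e3, h1] at e1
      rw [h1] at e2
      rw [abs_le]
      constructor <;> linarith
    have hbb : |b * b - a * a| ≤ 2 * ε := by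
      have e1 : b * b - a * a = (b - a) * (b + a) := by ring
      rw [e1, abs_mul, abs_sub_comm b a, abs_of_nonneg (by linarith : 0 ≤ b + a)]
      have e2 : b + a ≤ 2 := by linarith
      have e3 : 0 ≤ |a - b| := abs_nonneg _
      nlinarith
    calc |a - a * a| = |(a - b * b) + (b * b - a * a)| := by congr 1; ring
      _ ≤ |a - b * b| + |b * b - a * a| := abs_add_le _ _
      _ ≤ 4 * ε := by linarith
  have h0 : a - a * a = 0 := by
    by_contra h
    have h1 : 0 < |a - a * a| := abs_pos.mpr h
    have h2 := key (|a - a * a| / 8) (by positivity)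
    linarith
  have h1 : a * (1 - a) = 0 := by linarith
  rcases mul_eq_zero.mp h1 with h | h
  · exact Or.inl h
  · exact Or.inr (by linarith)

end Pool.Agent.Lib.MP_566bac_pr
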