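import Pool.Agent.Lib.MP_566bac_pr.Sep
import Pool.Agent.Lib.MP_566bac_pr.Ergodic

/-!
# The eight arcs of a square
-/

open MeasureTheory ProbabilityTheory Finset unitInterval SimpleGraph
open scoped ENNReal

namespace Pool.Agent.Lib.MP_566bac_pr

/-- the arc event: the upper half of the right side is connected to the boundary of a large
square, outside the small square -/
def Arc (c : ℤ) (k n : ℕ) : Set (Set Edge) :=
  {S | ∃ j : ℤ, 0 ≤ j ∧ j ≤ k ∧ s((((k : ℤ), j) : ℤ × ℤ), ((k : ℤ) + 1, j)) ∈ S ∧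
    ∃ z, z ∈ sq c n ∧ z ∉ sq c (n - 1) ∧
      (res (openGraph S) ((sq c n \ sq c k : Finset (ℤ × ℤ)) : Set (ℤ × ℤ))).Reachable
        ((k : ℤ) + 1, j) z}

lemma arc_inc (c : ℤ) (k n : ℕ) : Inc (Arc c k n) := by
  rintro S S' h ⟨j, h1, h2, h3, z, h4, h5, h6⟩
  exact ⟨j, h1, h2, h h3, z, h4, h5, Reachable.mono (res_mono (openGraph_mono h) le_rfl) h6⟩

lemma arc_loc {c : ℤ} (hc : c = 0 ∨ c = -1) {k n : ℕ} (hkn : k < n) : Loc (Arc c k n) := by
  refine ⟨Ein (sq c n), lat_Ein _, ?_⟩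
  rintro S S' h ⟨j, h1, h2, h3, z, h4, h5, h6⟩
  refine ⟨j, h1, h2, ?_, z, h4, h5, ?_⟩
  · refine (h _ ?_).mp h3
    rw [mem_Ein, mem_sq, mem_sq]
    refine ⟨by simp only; omega, by simp only; omega, adj_h _ _⟩
  · rw [← res_congr_Ein (S := S)]
    · exact h6
    · intro e he
      exact h e (Ein_mono sdiff_subset he)

/-- reflections -/
def flipX (c : ℤ) : (ℤ × ℤ) ≃ (ℤ × ℤ) where
  toFun v := (c - v.1, v.2)
  invFun v := (c - v.1, v.2)
  left_inv v := by simp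
  right_inv v := by simp

def flipY (c : ℤ) : (ℤ × ℤ) ≃ (ℤ × ℤ) where
  toFun v := (v.1, c - v.2)
  invFun v := (v.1, c - v.2)
  left_inv v := by simp
  right_inv v := by simp

def swp : (ℤ × ℤ) ≃ (ℤ × ℤ) := Equiv.prodComm ℤ ℤ

lemma auto_flipX (c : ℤ) : IsAuto (flipX c) := by
  intro x y
  change |c - x.1 - (c - y.1)| + |x.2 - y.2| = 1 ↔ |x.1 - y.1| + |x.2 - y.2| = 1
  rw [show c - x.1 - (c - y.1) = -(x.1 - y.1) by ring, abs_neg]

lemma auto_flipY (c : ℤ) : IsAuto (flipY c) := by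
  intro x y
  change |x.1 - y.1| + |c - x.2 - (c - y.2)| = 1 ↔ |x.1 - y.1| + |x.2 - y.2| = 1
  rw [show c - x.2 - (c - y.2) = -(x.2 - y.2) by ring, abs_neg]

lemma auto_swp : IsAuto swp := by
  intro x y
  change |x.2 - y.2| + |x.1 - y.1| = 1 ↔ |x.1 - y.1| + |x.2 - y.2| = 1
  rw [add_comm]

lemma auto_refl : IsAuto (Equiv.refl (ℤ × ℤ)) := fun _ _ => Iff.rfl

lemma IsAuto.trans {φ ψ : (ℤ × ℤ) ≃ (ℤ × ℤ)} (hφ : IsAuto φ) (hψ : IsAuto ψ) :
    IsAuto (φ.trans ψ) := fun x y => (hψ _ _).trans (hφ x y)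

/-- preserving the squares -/
def Psq (c : ℤ) (φ : (ℤ × ℤ) ≃ (ℤ × ℤ)) : Prop := ∀ m x, φ x ∈ sq c m ↔ x ∈ sq c m

lemma psq_flipX (c : ℤ) : Psq c (flipX c) := by
  intro m x
  rw [mem_sq, mem_sq]
  change (c - m ≤ c - x.1 ∧ c - x.1 ≤ m) ∧ _ ↔ _
  change (c - m ≤ c - x.1 ∧ c - x.1 ≤ m) ∧ (c - m ≤ x.2 ∧ x.2 ≤ m) ↔ _
  omega

lemma psq_flipY (c : ℤ) : Psq c (flipY c) := by
  intro m x
  rw [mem_sq, mem_sq]
  change (c - m ≤ x.1 ∧ x.1 ≤ m) ∧ (c - m ≤ c - x.2 ∧ c - x.2 ≤ m) ↔ _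
  omega

lemma psq_swp (c : ℤ) : Psq c swp := by
  intro m x
  rw [mem_sq, mem_sq]
  change (c - m ≤ x.2 ∧ x.2 ≤ m) ∧ (c - m ≤ x.1 ∧ x.1 ≤ m) ↔ _
  omega

lemma psq_refl (c : ℤ) : Psq c (Equiv.refl (ℤ × ℤ)) := fun _ _ => Iff.rfl

lemma Psq.trans {c : ℤ} {φ ψ : (ℤ × ℤ) ≃ (ℤ × ℤ)} (hφ : Psq c φ) (hψ : Psq c ψ) :
    Psq c (φ.trans ψ) := fun m x => (hψ m _).trans (hφ m x)

/-- the arc event seen through an automorphism -/
lemma arc_iff {c : ℤ} {φ : (ℤ × ℤ) ≃ (ℤ × ℤ)} (hφ : IsAuto φ) (hp : Psq c φ) {k n : ℕ}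
    {S : Set Edge} : pull φ S ∈ Arc c k n ↔ ∃ j : ℤ, 0 ≤ j ∧ j ≤ k ∧
      s(φ ((k : ℤ), j), φ ((k : ℤ) + 1, j)) ∈ S ∧ ∃ z, z ∈ sq c n ∧ z ∉ sq c (n - 1) ∧
      (res (openGraph S) ((sq c n \ sq c k : Finset (ℤ × ℤ)) : Set (ℤ × ℤ))).Reachable
        (φ ((k : ℤ) + 1, j)) z := by
  have himg : φ '' ((sq c n \ sq c k : Finset (ℤ × ℤ)) : Set (ℤ × ℤ)) =
      ((sq c n \ sq c k : Finset (ℤ × ℤ)) : Set (ℤ × ℤ)) := by
    ext x
    constructor
    · rintro ⟨y, hy, rfl⟩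
      rw [Finset.mem_coe, Finset.mem_sdiff] at *
      rw [hp, hp]
      exact hy
    · intro hx
      refine ⟨φ.symm x, ?_, by simp⟩
      rw [Finset.mem_coe, Finset.mem_sdiff] at *
      rw [← hp, ← hp k]
      simpa using hx
  constructor
  · rintro ⟨j, h1, h2, h3, z, h4, h5, h6⟩
    refine ⟨j, h1, h2, h3, φ z, (hp n z).mpr h4, fun h => h5 ((hp (n - 1) z).mp h), ?_⟩
    rw [pull_res_reach hφ, himg] at h6
    exact h6
  · rintro ⟨j, h1, h2, h3, z, h4, h5, h6⟩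
    refine ⟨j, h1, h2, h3, φ.symm z, ?_, ?_, ?_⟩
    · rw [← hp]; simpa using h4
    · rw [← hp]; simpa using h5
    · rw [pull_res_reach hφ, himg]
      simpa using h6

/-- the eight symmetries of the square -/
def syms (c : ℤ) : List ((ℤ × ℤ) ≃ (ℤ × ℤ)) :=
  [Equiv.refl _, flipY c, flipX c, (flipY c).trans (flipX c), swp, swp.trans (flipX c),
    swp.trans (flipY c), (swp.trans (flipY c)).trans (flipX c)]

lemma syms_prop {c : ℤ} {φ : (ℤ × ℤ) ≃ (ℤ × ℤ)} (h : φ ∈ syms c) : IsAuto φ ∧ Psq c φ := by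
  simp only [syms, List.mem_cons, List.not_mem_nil, or_false] at h
  rcases h with rfl | rfl | rfl | rfl | rfl | rfl | rfl | rfl
  · exact ⟨auto_refl, psq_refl c⟩
  · exact ⟨auto_flipY c, psq_flipY c⟩
  · exact ⟨auto_flipX c, psq_flipX c⟩
  · exact ⟨(auto_flipY c).trans (auto_flipX c), (psq_flipY c).trans (psq_flipX c)⟩
  · exact ⟨auto_swp, psq_swp c⟩
  · exact ⟨auto_swp.trans (auto_flipX c), (psq_swp c).trans (psq_flipX c)⟩
  · exact ⟨auto_swp.trans (auto_flipY c), (psq_swp c).trans (psq_flipY c)⟩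
  · exact ⟨(auto_swp.trans (auto_flipY c)).trans (auto_flipX c),
      ((psq_swp c).trans (psq_flipY c)).trans (psq_flipX c)⟩

/-- some vertex of the small square is connected to the outside of the large one -/
def Cov (c : ℤ) (k n : ℕ) : Set (Set Edge) :=
  {S | ∃ x ∈ sq c k, ∃ z, z ∉ sq c (n - 1) ∧ (openGraph S).Reachable x z}

lemma cov_arc {c : ℤ} (hc : c = 0 ∨ c = -1) {k n : ℕ} (hkn : k < n) {S : Set Edge}
    (h : S ∈ Cov c k n) : ∃ φ ∈ syms c, pull φ S ∈ Arc c k n := by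
  obtain ⟨x, hx, z, hz, hxz⟩ := h
  have hzk : z ∉ sq c k := by
    rw [mem_sq] at hz ⊢
    omega
  obtain ⟨u, v, h1, h2, h3, h4⟩ := exit_last (W := (sq c k : Set (ℤ × ℤ))) hxz hx hzk
  rw [Finset.mem_coe] at h1 h2
  -- the connection inside the annulus
  have harm : ∃ z, z ∈ sq c n ∧ z ∉ sq c (n - 1) ∧
      (res (openGraph S) ((sq c n \ sq c k : Finset (ℤ × ℤ)) : Set (ℤ × ℤ))).Reachable v z := by
    have hadj : ∀ a b : ℤ × ℤ, lattice.Adj a b → a ∈ sq c (n - 1) → b ∈ sq c n := by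
      intro a b hab ha
      rw [mem_sq] at ha ⊢
      rw [lattice_adj_iff] at hab
      rcases hab with h | h | h | h <;> rw [h] <;> simp only <;> omega
    by_cases hv : v ∈ sq c (n - 1)
    · obtain ⟨a, b, k1, k2, k3, k4⟩ := exit_first (W := (sq c (n - 1) : Set (ℤ × ℤ))) h4 hv hz
      rw [Finset.mem_coe] at k1 k2
      have hb : b ∈ sq c n := hadj a b k3.1.1 k1
      refine ⟨b, hb, k2, ?_⟩
      have hsub : ∀ w, w ∈ sq c (n - 1) → w ∈ sq c n := by
        intro w hw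
        rw [mem_sq] at hw ⊢
        omega
      have r1 : (res (openGraph S) ((sq c n \ sq c k : Finset (ℤ × ℤ)) : Set (ℤ × ℤ))).Reachable v a := by
        refine Reachable.mono ?_ k4
        rintro s t ⟨⟨g1, g2, g3⟩, g4, g5⟩
        refine ⟨g1, ?_, ?_⟩
        · rw [Finset.mem_coe, Finset.mem_sdiff]
          exact ⟨hsub s g4, g2⟩
        · rw [Finset.mem_coe, Finset.mem_sdiff]
          exact ⟨hsub t g5, g3⟩
      refine r1.trans (Adj.reachable ⟨k3.1, ?_, ?_⟩)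
      · rw [Finset.mem_coe, Finset.mem_sdiff]
        exact ⟨hsub a k1, k3.2.1⟩
      · rw [Finset.mem_coe, Finset.mem_sdiff]
        exact ⟨hb, k3.2.2⟩
    · refine ⟨v, ?_, hv, Reachable.refl _⟩
      apply hadj u v h3.1
      rw [mem_sq] at h1 ⊢
      omega
  have main : ∀ φ ∈ syms c, ∀ j : ℤ, 0 ≤ j → j ≤ k → φ ((k : ℤ), j) = u → φ ((k : ℤ) + 1, j) = v →
      ∃ φ ∈ syms c, pull φ S ∈ Arc c k n := by
    intro φ hφ j hj1 hj2 hu hv
    obtain ⟨g1, g2⟩ := syms_prop hφ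
    refine ⟨φ, hφ, (arc_iff g1 g2).mpr ⟨j, hj1, hj2, ?_, ?_⟩⟩
    · rw [hu, hv]; exact h3.2
    · rw [hv]; exact harm
  have h5 := h3.1
  obtain ⟨a, b⟩ := u
  rw [lattice_adj_iff] at h5
  rw [mem_sq] at h1 h2
  simp only at h1 h5
  rcases h5 with h5 | h5 | h5 | h5 <;> subst h5 <;> simp only at h2
  · -- right side
    have ha : a = k := by omega
    subst ha
    rcases le_or_gt 0 b with hb | hb
    · exact main (Equiv.refl _) (by simp [syms]) b hb (by omega) rfl rfl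
    · refine main (flipY c) (by simp [syms]) (c - b) (by omega) (by omega) ?_ ?_
      · simp [flipY]
      · simp [flipY]
  · -- left side
    have ha : a = c - k := by omega
    subst ha
    rcases le_or_gt 0 b with hb | hb
    · refine main (flipX c) (by simp [syms]) b hb (by omega) ?_ ?_
      · simp [flipX]
      · apply Prod.ext
        · change c - ((k : ℤ) + 1) = c - k - 1
          ring
        · rfl
    · refine main ((flipY c).trans (flipX c)) (by simp [syms]) (c - b) (by omega) (by omega) ?_ ?_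
      · simp [flipX, flipY]
      · simp only [flipX, flipY, Equiv.trans_apply, Equiv.coe_fn_mk, Prod.mk.injEq]
        omega
  · -- top side
    have hb : b = k := by omega
    subst hb
    rcases le_or_gt 0 a with ha | ha
    · refine main swp (by simp [syms]) a ha (by omega) ?_ ?_
      · simp [swp]
      · simp [swp]
    · refine main (swp.trans (flipX c)) (by simp [syms]) (c - a) (by omega) (by omega) ?_ ?_
      · simp [swp, flipX]
      · simp [swp, flipX]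
  · -- bottom side
    have hb : b = c - k := by omega
    subst hb
    rcases le_or_gt 0 a with ha | ha
    · refine main (swp.trans (flipY c)) (by simp [syms]) a ha (by omega) ?_ ?_
      · simp [swp, flipY]
      · apply Prod.ext
        · rfl
        · change c - ((k : ℤ) + 1) = c - k - 1
          ring
    · refine main ((swp.trans (flipY c)).trans (flipX c)) (by simp [syms]) (c - a) (by omega)
        (by omega) ?_ ?_
      · simp [swp, flipX, flipY]
      · simp only [swp, flipX, flipY, Equiv.trans_apply, Equiv.coe_fn_mk, Equiv.coe_prodComm,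
          Prod.swap_prod_mk, Prod.mk.injEq]
        omega

lemma pull_inc (φ : (ℤ × ℤ) ≃ (ℤ × ℤ)) {A : Set (Set Edge)} (hA : Inc A) : Inc (pull φ ⁻¹' A) :=
  fun _ _ h h1 => hA _ _ (Set.preimage_mono h) h1

/-- none of the arcs in the list is connected -/
def NA (c : ℤ) (k n : ℕ) (l : List ((ℤ × ℤ) ≃ (ℤ × ℤ))) : Set (Set Edge) :=
  {S | ∀ φ ∈ l, pull φ S ∉ Arc c k n}

lemma na_bound (p : I) {c : ℤ} (hc : c = 0 ∨ c = -1) {k n : ℕ} (hkn : k < n)
    (l : List ((ℤ × ℤ) ≃ (ℤ × ℤ))) (hl : ∀ φ ∈ l, IsAuto φ) :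
    Loc (NA c k n l) ∧ Dec (NA c k n l) ∧
      (1 - (perc p).real (Arc c k n)) ^ l.length ≤ (perc p).real (NA c k n l) := by
  induction l with
  | nil =>
    have h1 : NA c k n [] = Set.univ := by
      ext S
      simp [NA]
    rw [h1]
    refine ⟨⟨∅, by intro e he; simp at he, fun _ _ _ h => h⟩, ?_, ?_⟩
    · intro S S' _ h
      exact absurd (Set.mem_univ _) h
    · simp
  | cons φ l ih =>
    obtain ⟨i1, i2, i3⟩ := ih fun ψ hψ => hl ψ (List.mem_cons_of_mem _ hψ)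
    have hφ := hl φ List.mem_cons_self
    have e : NA c k n (φ :: l) = (pull φ ⁻¹' Arc c k n)ᶜ ∩ NA c k n l := by
      ext S
      simp [NA]
    have l1 : Loc (pull φ ⁻¹' Arc c k n)ᶜ := ((arc_loc hc hkn).pull hφ).compl
    have d1 : Dec (pull φ ⁻¹' Arc c k n)ᶜ := by
      unfold Dec
      rw [compl_compl]
      exact pull_inc φ (arc_inc c k n)
    rw [e]
    refine ⟨l1.inter i1, ?_, ?_⟩
    · unfold Dec
      rw [Set.compl_inter, compl_compl]
      rintro S S' h (h1 | h1)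
      · exact Or.inl (pull_inc φ (arc_inc c k n) _ _ h h1)
      · exact Or.inr (i2 _ _ h h1)
    · have h1 := perc_fkg_dec p l1 i1 d1 i2
      have h2 : (perc p).real (pull φ ⁻¹' Arc c k n)ᶜ = 1 - (perc p).real (Arc c k n) := by
        rw [measureReal_compl ((arc_loc hc hkn).pull hφ).meas, probReal_univ,
          perc_pull hφ p (arc_loc hc hkn).meas]
      rw [h2] at h1
      refine le_trans ?_ h1
      rw [List.length_cons, pow_succ, mul_comm]
      apply mul_le_mul_of_nonneg_left i3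
      have : (perc p).real (Arc c k n) ≤ 1 := measureReal_le_one
      linarith

/-- **The root trick.** -/
theorem arc_bound (p : I) {c : ℤ} (hc : c = 0 ∨ c = -1) {k n : ℕ} (hkn : k < n) {X : Set (Set Edge)}
    (hXm : MeasurableSet X) (hX : X ⊆ Cov c k n) :
    (1 - (perc p).real (Arc c k n)) ^ 8 ≤ 1 - (perc p).real X := by
  obtain ⟨_, _, h⟩ := na_bound p hc hkn (syms c) fun φ hφ => (syms_prop hφ).1
  have e : (syms c).length = 8 := rfl
  rw [e] at h
  refine h.trans ?_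
  rw [← probReal_univ (μ := perc p), ← measureReal_compl hXm]
  apply perc_mono
  intro S hS hSX
  obtain ⟨φ, h1, h2⟩ := cov_arc hc hkn (hX hSX)
  exact hS φ h1 h2

end Pool.Agent.Lib.MP_566bac_pr
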