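import Pool.Agent.Lib.MP_566bac_pr.Conn

/-!
# The counting lemma of Burton and Keane
-/

open Finset SimpleGraph

namespace Pool.Agent.Lib.MP_566bac_pr

section
variable {ι : Type*} {G : SimpleGraph (ℤ × ℤ)} {Q : ι → Set (ℤ × ℤ)} {y : ι → Fin 3 → ℤ × ℤ}
  {q : ι → ℤ × ℤ}

/-- connection avoiding `Q v` -/
def Rv (G : SimpleGraph (ℤ × ℤ)) (Q : ι → Set (ℤ × ℤ)) (v : ι) (a b : ℤ × ℤ) : Prop :=
  a ∉ Q v ∧ (res G (Q v)ᶜ).Reachable a b

lemma Rv.symm' {v : ι} {a b : ℤ × ℤ} (h : Rv G Q v a b) : Rv G Q v b a := by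
  refine ⟨?_, h.2.symm⟩
  have := res_mem h.2 (by simpa using h.1)
  simpa using this

lemma Rv.trans' {v : ι} {a b c : ℤ × ℤ} (h : Rv G Q v a b) (h' : Rv G Q v b c) : Rv G Q v a c :=
  ⟨h.1, h.2.trans h'.2⟩

lemma Rv.reach {v : ι} {a b : ℤ × ℤ} (h : Rv G Q v a b) : G.Reachable a b :=
  Reachable.mono (res_le _ _) h.2

/-- the hypotheses of the counting lemma -/
structure Tri (G : SimpleGraph (ℤ × ℤ)) (T : Finset ι) (Q : ι → Set (ℤ × ℤ))
    (y : ι → Fin 3 → ℤ × ℤ) (q : ι → ℤ × ℤ) (Bd : Finset (ℤ × ℤ)) : Prop where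
  qmem : ∀ v ∈ T, q v ∈ Q v
  conn : ∀ v ∈ T, ∀ a ∈ Q v, ∀ b ∈ Q v, (res G (Q v)).Reachable a b
  join : ∀ v ∈ T, ∀ i, ∃ a ∈ Q v, G.Adj a (y v i)
  out : ∀ v ∈ T, ∀ i, y v i ∉ Q v
  bdry : ∀ v ∈ T, ∀ i, ∃ x ∈ Bd, (res G (Q v)ᶜ).Reachable (y v i) x
  sep : ∀ v ∈ T, ∀ i j, i ≠ j → ¬ (res G (Q v)ᶜ).Reachable (y v i) (y v j)
  disj : ∀ v ∈ T, ∀ w ∈ T, v ≠ w → Disjoint (Q v) (Q w)

variable {T : Finset ι} {Bd : Finset (ℤ × ℤ)} (hT : Tri G T Q y q Bd)
include hT

lemma tri_in {v w : ι} (hv : v ∈ T) (hw : w ∈ T) (hvw : v ≠ w) {z : ℤ × ℤ} (hz : z ∈ Q w) :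
    Rv G Q v z (q w) := by
  have h1 := Set.disjoint_right.mp (hT.disj v hv w hw hvw)
  refine ⟨h1 hz, Reachable.mono (res_mono le_rfl ?_) (hT.conn w hw z hz (q w) (hT.qmem w hw))⟩
  intro a ha
  exact h1 ha

/-- a point in a branch of `v` which does not contain `w` is connected to `v` without `w` -/
lemma tri_key {v w : ι} (hv : v ∈ T) (hw : w ∈ T) (hvw : v ≠ w) {j : Fin 3} {x : ℤ × ℤ}
    (hx : Rv G Q v x (y v j)) (hwj : ¬ Rv G Q v (q w) (y v j)) : Rv G Q w x (q v) := by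
  have hav : ∀ z, Rv G Q v z (y v j) → z ∉ Q w := by
    intro z hz hzw
    exact hwj ((tri_in hT hv hw hvw hzw).symm'.trans' hz)
  have h1 : ∀ {a b : ℤ × ℤ} (p : (res G (Q v)ᶜ).Walk a b), b = y v j → Rv G Q v a b →
      (res G (Q w)ᶜ).Reachable a b := by
    intro a b p
    induction p with
    | nil => exact fun _ _ => Reachable.refl _
    | @cons a u b hadj p ih =>
      intro hb hab
      have hu : Rv G Q v u b := by
        refine ⟨?_, ⟨p⟩⟩
        have := hadj.2.2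
        simpa using this
      refine Reachable.trans (Adj.reachable ⟨hadj.1, ?_, ?_⟩) (ih hb hu)
      · rw [hb] at hab
        exact hav a hab
      · rw [hb] at hu
        exact hav u hu
  obtain ⟨p⟩ := hx.2
  have h2 := h1 p rfl hx
  obtain ⟨a, ha, hadj⟩ := hT.join v hv j
  have hy : y v j ∉ Q w := hav _ ⟨hT.out v hv j, Reachable.refl _⟩
  have haw : Rv G Q w a (q v) := tri_in hT hw hv hvw.symm ha
  exact ⟨hav x hx, (h2.trans (Adj.reachable ⟨hadj.symm, hy, haw.1⟩)).trans haw.2⟩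

lemma tri_dich {v w : ι} (hv : v ∈ T) (hw : w ∈ T) (hvw : v ≠ w) {x : ℤ × ℤ}
    (hx : G.Reachable x (q v)) : Rv G Q v x (q w) ∨ Rv G Q w x (q v) := by
  obtain ⟨p⟩ := hx
  have key : ∀ {a b : ℤ × ℤ} (p : G.Walk a b), b = q v → Rv G Q v a (q w) ∨ Rv G Q w a (q v) := by
    intro a b p
    induction p with
    | nil =>
      intro hb
      right
      rw [hb]
      exact tri_in hT hw hv hvw.symm (hT.qmem v hv)
    | @cons a u b hadj p ih =>
      intro hb
      by_cases h1 : a ∈ Q v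
      · right
        exact tri_in hT hw hv hvw.symm h1
      by_cases h2 : a ∈ Q w
      · left
        exact tri_in hT hv hw hvw h2
      rcases ih hb with h | h
      · left
        exact ⟨h1, Reachable.trans (Adj.reachable ⟨hadj, h1, h.1⟩) h.2⟩
      · right
        exact ⟨h2, Reachable.trans (Adj.reachable ⟨hadj, h2, h.1⟩) h.2⟩
  exact key p rfl

lemma tri_sep {v : ι} (hv : v ∈ T) {i j : Fin 3} {x : ℤ × ℤ} (h1 : Rv G Q v x (y v i))
    (h2 : Rv G Q v x (y v j)) : i = j := by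
  by_contra h
  exact hT.sep v hv i j h (h1.symm'.trans' h2).2

/-- two branches free of the other elements -/
lemma tri_free {T' : Finset ι} (hT' : T' ⊆ T) (hne : T'.Nonempty) :
    ∃ v ∈ T', ∃ i j : Fin 3, i ≠ j ∧ ∀ w ∈ T', w ≠ v →
      ¬ Rv G Q v (q w) (y v i) ∧ ¬ Rv G Q v (q w) (y v j) := by
  classical
  by_contra hcon
  push Not at hcon
  -- two occupied branches
  have hocc : ∀ v ∈ T', ∃ w ∈ T', ∃ w' ∈ T', ∃ i j : Fin 3, w ≠ v ∧ w' ≠ v ∧ i ≠ j ∧
      Rv G Q v (q w) (y v i) ∧ Rv G Q v (q w') (y v j) := by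
    intro v hv
    have hocc' : ∀ i j : Fin 3, i ≠ j → (∃ w ∈ T', w ≠ v ∧ Rv G Q v (q w) (y v i)) ∨
        (∃ w ∈ T', w ≠ v ∧ Rv G Q v (q w) (y v j)) := by
      intro i j hij
      obtain ⟨w, hw, hwv, h⟩ := hcon v hv i j hij
      by_cases h1 : Rv G Q v (q w) (y v i)
      · exact Or.inl ⟨w, hw, hwv, h1⟩
      · exact Or.inr ⟨w, hw, hwv, h h1⟩
    have pair : ∀ i j : Fin 3, i ≠ j → (∃ w ∈ T', w ≠ v ∧ Rv G Q v (q w) (y v i)) →
        (∃ w ∈ T', w ≠ v ∧ Rv G Q v (q w) (y v j)) → ∃ w ∈ T', ∃ w' ∈ T', ∃ i j : Fin 3,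
        w ≠ v ∧ w' ≠ v ∧ i ≠ j ∧ Rv G Q v (q w) (y v i) ∧ Rv G Q v (q w') (y v j) := by
      rintro i j hij ⟨w, hw, hwv, h1⟩ ⟨w', hw', hwv', h2⟩
      exact ⟨w, hw, w', hw', i, j, hwv, hwv', hij, h1, h2⟩
    rcases hocc' 0 1 (by decide) with h0 | h1
    · rcases hocc' 1 2 (by decide) with h1 | h2
      · exact pair 0 1 (by decide) h0 h1
      · exact pair 0 2 (by decide) h0 h2
    · rcases hocc' 0 2 (by decide) with h0 | h2
      · exact pair 0 1 (by decide) h0 h1
      · exact pair 1 2 (by decide) h1 h2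
  -- the pairs
  set P : Finset (ι × ι) := (T' ×ˢ T').filter fun t => t.1 ≠ t.2 ∧ G.Reachable (q t.1) (q t.2)
    with hP
  set U : ι × ι → Finset (ℤ × ℤ) := fun t =>
    Bd.filter fun x => G.Reachable x (q t.1) ∧ ¬ Rv G Q t.1 x (q t.2) with hU
  have hreach : ∀ v ∈ T', ∀ x i, Rv G Q v x (y v i) → G.Reachable x (q v) := by
    intro v hv x i h
    obtain ⟨a, ha, hadj⟩ := hT.join v (hT' hv) i
    exact (h.reach.trans hadj.symm.reachable).trans
      (Reachable.mono (res_le _ _) (hT.conn v (hT' hv) a ha (q v) (hT.qmem v (hT' hv))))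
  have hPne : P.Nonempty := by
    obtain ⟨v, hv⟩ := hne
    obtain ⟨w, hw, _, _, i, _, hwv, _, _, h1, _⟩ := hocc v hv
    refine ⟨(v, w), ?_⟩
    rw [hP, Finset.mem_filter, Finset.mem_product]
    exact ⟨⟨hv, hw⟩, hwv.symm, (hreach v hv _ i h1).symm⟩
  obtain ⟨⟨v, w⟩, hvw, hmin⟩ := Finset.exists_min_image P (fun t => (U t).card) hPne
  rw [hP, Finset.mem_filter, Finset.mem_product] at hvw
  obtain ⟨⟨hv, hw⟩, hne', hvwr⟩ := hvw
  simp only at hv hw hne' hvwr
  -- another occupied branch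
  obtain ⟨w', hw', hwv', hocc1, i', hi'⟩ : ∃ w' ∈ T', w' ≠ v ∧ ¬ Rv G Q v (q w') (q w) ∧
      ∃ i, Rv G Q v (q w') (y v i) := by
    obtain ⟨w1, hw1, w2, hw2, i, j, a1, a2, a3, a4, a5⟩ := hocc v hv
    by_cases h : Rv G Q v (q w1) (q w)
    · refine ⟨w2, hw2, a2, ?_, j, a5⟩
      intro h'
      exact a3 (tri_sep hT (hT' hv) (h.symm'.trans' a4) (h'.symm'.trans' a5))
    · exact ⟨w1, hw1, a1, h, i, a4⟩
  have hmem : (w', v) ∈ P := by
    rw [hP, Finset.mem_filter, Finset.mem_product]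
    exact ⟨⟨hw', hv⟩, hwv', hreach v hv _ i' hi'⟩
  have h1 := hmin (w', v) hmem
  have h2 : U (w', v) ⊂ U (v, w) := by
    rw [Finset.ssubset_iff_subset_ne]
    constructor
    · intro x hx
      rw [hU, Finset.mem_filter] at hx ⊢
      obtain ⟨b1, b2, b3⟩ := hx
      simp only at b1 b2 b3 ⊢
      have b4 : G.Reachable x (q v) := b2.trans (hreach v hv _ i' hi')
      refine ⟨b1, b4, ?_⟩
      rcases tri_dich hT (hT' hv) (hT' hw') hwv'.symm b4 with h | h
      · intro h'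
        exact hocc1 (h.symm'.trans' h')
      · exact absurd h b3
    · -- a third branch
      obtain ⟨k, hk1, hk2⟩ : ∃ k : Fin 3, ¬ Rv G Q v (q w') (y v k) ∧ ¬ Rv G Q v (q w) (y v k) := by
        by_contra hcon2
        push Not at hcon2
        have c0 := hcon2 0
        have c1 := hcon2 1
        have c2 := hcon2 2
        by_cases d0 : Rv G Q v (q w') (y v 0)
        · have n1 : ¬ Rv G Q v (q w') (y v 1) := fun h =>
            absurd (tri_sep hT (hT' hv) d0 h) (by decide)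
          have n2 : ¬ Rv G Q v (q w') (y v 2) := fun h =>
            absurd (tri_sep hT (hT' hv) d0 h) (by decide)
          exact absurd (tri_sep hT (hT' hv) (c1 n1) (c2 n2)) (by decide)
        · by_cases d1 : Rv G Q v (q w') (y v 1)
          · have n2 : ¬ Rv G Q v (q w') (y v 2) := fun h =>
              absurd (tri_sep hT (hT' hv) d1 h) (by decide)
            exact absurd (tri_sep hT (hT' hv) (c0 d0) (c2 n2)) (by decide)
          · exact absurd (tri_sep hT (hT' hv) (c0 d0) (c1 d1)) (by decide)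
      obtain ⟨x, hxB, hx⟩ := hT.bdry v (hT' hv) k
      have hx' : Rv G Q v x (y v k) :=
        Rv.symm' ⟨hT.out v (hT' hv) k, hx⟩
      intro heq
      have hxU : x ∈ U (v, w) := by
        rw [hU, Finset.mem_filter]
        exact ⟨hxB, hreach v hv x k hx', fun h => hk2 (h.symm'.trans' hx')⟩
      rw [← heq, hU, Finset.mem_filter] at hxU
      exact hxU.2.2 (tri_key hT (hT' hv) (hT' hw') hwv'.symm hx' hk1)
  have h3 := Finset.card_lt_card h2
  exact absurd h1 (not_le.mpr h3)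

/-- **The counting lemma of Burton and Keane.** -/
theorem tri_count : T.card ≤ Bd.card := by
  classical
  set g : ι → (ℤ × ℤ) → ℝ := fun v x => ∑ i : Fin 3, if Rv G Q v x (y v i) then ((i : ℕ) + 1 : ℝ) else 0
    with hg
  have hgval : ∀ v ∈ T, ∀ x i, Rv G Q v x (y v i) → g v x = (i : ℕ) + 1 := by
    intro v hv x i h
    simp only [hg]
    rw [Finset.sum_eq_single i]
    · rw [if_pos h]
    · intro j _ hj
      rw [if_neg]
      exact fun h' => hj (tri_sep hT hv h' h)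
    · intro h'
      exact absurd (Finset.mem_univ i) h'
  have hgeq : ∀ w, ∀ x x' z, Rv G Q w x z → Rv G Q w x' z → g w x = g w x' := by
    intro w x x' z h1 h2
    simp only [hg]
    apply sum_congr rfl
    intro i _
    have : Rv G Q w x (y w i) ↔ Rv G Q w x' (y w i) :=
      ⟨fun h => (h2.trans' h1.symm').trans' h, fun h => (h1.trans' h2.symm').trans' h⟩
    simp only [this]
  have hli : LinearIndependent ℝ (fun (v : T) (x : Bd) => g v x) := by
    rw [linearIndependent_iff']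
    intro s c hc
    by_contra hcon
    push Not at hcon
    obtain ⟨v0, hv0, hc0⟩ := hcon
    set T' : Finset ι := (s.filter fun v => c v ≠ 0).map (Function.Embedding.subtype _) with hT'def
    have hT' : T' ⊆ T := by
      intro v hv
      rw [hT'def, Finset.mem_map] at hv
      obtain ⟨u, _, rfl⟩ := hv
      exact u.2
    have hmemT' : ∀ v : T, (v : ι) ∈ T' ↔ v ∈ s ∧ c v ≠ 0 := by
      intro v
      rw [hT'def, Finset.mem_map]
      constructor
      · rintro ⟨u, hu, huv⟩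
        have : u = v := Subtype.ext huv
        subst this
        exact Finset.mem_filter.mp hu
      · intro h
        exact ⟨v, Finset.mem_filter.mpr h, rfl⟩
    obtain ⟨v, hv, i, j, hij, hfree⟩ := tri_free hT hT' ⟨v0, (hmemT' v0).mpr ⟨hv0, hc0⟩⟩
    have hvT := hT' hv
    obtain ⟨x1, hx1B, hx1⟩ := hT.bdry v hvT i
    obtain ⟨x2, hx2B, hx2⟩ := hT.bdry v hvT j
    have hx1' : Rv G Q v x1 (y v i) := Rv.symm' ⟨hT.out v hvT i, hx1⟩
    have hx2' : Rv G Q v x2 (y v j) := Rv.symm' ⟨hT.out v hvT j, hx2⟩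
    have e1 := congrFun hc ⟨x1, hx1B⟩
    have e2 := congrFun hc ⟨x2, hx2B⟩
    simp only [Finset.sum_apply, Pi.smul_apply, smul_eq_mul, Pi.zero_apply] at e1 e2
    have e3 : ∑ u ∈ s, c u * (g u x1 - g u x2) = 0 := by
      simp only [mul_sub, sum_sub_distrib]
      rw [e1, e2, sub_zero]
    have hvs := (hmemT' ⟨v, hvT⟩).mp hv
    rw [Finset.sum_eq_single (⟨v, hvT⟩ : T)] at e3
    · rcases mul_eq_zero.mp e3 with h | h
      · exact hvs.2 h
      · simp only at h
        rw [hgval v hvT x1 i hx1', hgval v hvT x2 j hx2'] at h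
        apply hij
        apply Fin.ext
        have : ((i : ℕ) : ℝ) = ((j : ℕ) : ℝ) := by linarith
        exact_mod_cast this
    · intro u hu huv
      by_cases hcu : c u = 0
      · rw [hcu, zero_mul]
      · have huT' := (hmemT' u).mpr ⟨hu, hcu⟩
        have hne : (u : ι) ≠ v := fun h => huv (Subtype.ext h)
        obtain ⟨f1, f2⟩ := hfree u huT' hne
        have g1 := tri_key hT hvT u.2 hne.symm hx1' f1
        have g2 := tri_key hT hvT u.2 hne.symm hx2' f2
        rw [hgeq u x1 x2 (q v) g1 g2, sub_self, mul_zero]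
    · intro h
      exact absurd hvs.1 h
  have h1 := hli.fintype_card_le_finrank
  rw [Module.finrank_fintype_fun_eq_card, Fintype.card_coe, Fintype.card_coe] at h1
  exact h1

end

end Pool.Agent.Lib.MP_566bac_pr
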