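import Pool.Agent.Lib.MP_566bac_pr.Nodal

/-!
# The planar nodal argument for general crossings
-/

open SimpleGraph Finset

namespace Pool.Agent.Lib.MP_566bac_pr

/-- **The nodal argument.** -/
theorem nodal2 {G : SimpleGraph (ℤ × ℤ)} (hG : G ≤ lattice) {m : ℤ} (hm : 1 ≤ m)
    {f : ℤ × ℤ → ℝ} (hfin : {x | f x ≠ 0}.Finite) (hsupp : ∀ x, f x ≠ 0 → 1 ≤ x.1 ∧ x.1 ≤ m)
    (hinf : ∀ x, f x ≠ 0 → {y | G.Reachable x y}.Infinite)
    {ι : Type*} [Finite ι] (s t : ι → ℤ × ℤ) (γ : ∀ i, G.Walk (s i) (t i))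
    (hs : ∀ i, (s i).1 = 1) (ht : ∀ i, (t i).1 = m + 1)
    (hγ : ∀ i, ∀ z ∈ (γ i).support, z = s i ∨
      (1 ≤ z.1 ∧ z.1 ≤ m + 1 ∧ ¬ (z.1 = 1 ∧ G.Adj z (0, z.2))))
    (hdisj : ∀ i k, i ≠ k → ∀ z ∈ (γ i).support, z ∉ (γ k).support)
    (hharm : ∀ x : ℤ × ℤ, 1 ≤ x.1 → ¬ (x.1 = 1 ∧ G.Adj x (0, x.2)) → lap G f x = 0)
    (h0 : ∀ x : ℤ × ℤ, x.1 = 1 → G.Adj x (0, x.2) → (∀ i, x ≠ s i) → f x = 0) :
    ∀ x, f x = 0 := by
  classical
  by_contra hcon
  push Not at hcon
  obtain ⟨x₀, hx₀⟩ := hcon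
  have hanc : ∀ x, f x ≠ 0 → ∃ i, (sg G f).Reachable x (s i) := by
    intro x hx
    obtain ⟨t, ⟨i, rfl⟩, ht⟩ := anchor hG hfin hinf (T := Set.range s) (by
      intro x hx hxT
      apply hharm x (hsupp x hx).1
      rintro ⟨h1, h2⟩
      exact hx (h0 x h1 h2 fun i h => hxT ⟨i, h.symm⟩)) hx
    exact ⟨i, ht⟩
  have : Nonempty ι := ⟨(hanc x₀ hx₀).choose⟩
  have hcomp : ∀ c : (sg G f).ConnectedComponent,
      (∃ x, (sg G f).connectedComponentMk x = c ∧ f x ≠ 0) →
      ∃ i, (sg G f).connectedComponentMk (s i) = c := by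
    rintro c ⟨x, rfl, hx⟩
    obtain ⟨i, hi⟩ := hanc x hx
    exact ⟨i, ConnectedComponent.sound hi.symm⟩
  choose! anc hanc' using hcomp
  have hanc2 : ∀ x, f x ≠ 0 →
      (sg G f).Reachable (s (anc ((sg G f).connectedComponentMk x))) x := by
    intro x hx
    exact ConnectedComponent.exact (hanc' _ ⟨x, rfl, hx⟩)
  set I : Set ι := {i | f (s i) ≠ 0} with hI
  have hancI : ∀ x, f x ≠ 0 → anc ((sg G f).connectedComponentMk x) ∈ I := by
    intro x hx
    have h1 := sg_reach_pos hx (hanc2 x hx).symm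
    intro h2
    rw [h2, mul_zero] at h1
    exact lt_irrefl _ h1
  have hft : ∀ i, f (t i) = 0 := by
    intro i
    by_contra h
    have h1 := (hsupp _ h).2
    have h2 := ht i
    omega
  -- the connectors
  have hconn : ∀ i ∈ I, ∃ P Q : ℤ × ℤ, 0 < f P ∧ f Q < 0 ∧
      (∃ r : lattice.Walk P (t i), ∀ z ∈ r.support, z = P ∨ (f z = 0 ∧ z ∈ (γ i).support)) ∧
      (∃ r : lattice.Walk Q (t i), ∀ z ∈ r.support, z = Q ∨ (f z = 0 ∧ z ∈ (γ i).support)) := by
    intro i hi
    obtain ⟨v, w, hvw, hv, hw, q, hq1, hq2⟩ := last_exit (γ i) (hft i) ⟨s i, by simp, hi⟩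
    have hw0 : f w = 0 := hq1 w (by simp)
    have hws : w ≠ s i := by
      rintro rfl
      exact hi hw0
    have hw2 : 1 ≤ w.1 ∧ w.1 ≤ m + 1 ∧ ¬ (w.1 = 1 ∧ G.Adj w (0, w.2)) := by
      rcases hγ i w hw with h | h
      · exact absurd h hws
      · exact h
    have hlap := hharm w hw2.1 hw2.2.2
    unfold lap at hlap
    have hne : ∃ y ∈ nb w, (if G.Adj w y then f w - f y else 0) ≠ 0 := by
      refine ⟨v, mem_nb.mpr (hG hvw.symm), ?_⟩
      rw [if_pos hvw.symm, hw0, zero_sub]
      exact neg_ne_zero.mpr hv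
    obtain ⟨Q, hQ, hQ'⟩ := Finset.exists_pos_of_sum_zero_of_exists_nonzero _ hlap hne
    have hlap' : ∑ y ∈ nb w, -(if G.Adj w y then f w - f y else 0) = 0 := by
      rw [sum_neg_distrib, hlap, neg_zero]
    obtain ⟨P, hP, hP'⟩ := Finset.exists_pos_of_sum_zero_of_exists_nonzero _ hlap' (by
      obtain ⟨y, hy, hy'⟩ := hne
      exact ⟨y, hy, neg_ne_zero.mpr hy'⟩)
    have hQadj : G.Adj w Q := by
      by_contra h
      rw [if_neg h] at hQ'
      exact lt_irrefl _ hQ'
    have hPadj : G.Adj w P := by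
      by_contra h
      rw [if_neg h, neg_zero] at hP'
      exact lt_irrefl _ hP'
    rw [if_pos hQadj, hw0] at hQ'
    rw [if_pos hPadj, hw0] at hP'
    have hwalk : ∀ X, G.Adj w X → ∃ r : lattice.Walk X (t i),
        ∀ z ∈ r.support, z = X ∨ (f z = 0 ∧ z ∈ (γ i).support) := by
      intro X hX
      refine ⟨Walk.cons (hG hX.symm) (q.mapLe hG), ?_⟩
      intro z hz
      simp only [Walk.support_cons, List.mem_cons, Walk.support_mapLe_eq_support] at hz
      rcases hz with hz | hz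
      · exact Or.inl hz
      · exact Or.inr ⟨hq1 z hz, hq2 z hz⟩
    exact ⟨P, Q, by linarith, by linarith, hwalk P hPadj, hwalk Q hQadj⟩
  choose! P Q hP hQ hPw hQw using hconn
  have hinjs : ∀ i k, s i = s k → i = k := by
    intro i k h
    by_contra hik
    exact hdisj i k hik (s i) (by simp) (by rw [h]; simp)
  have hinjt : ∀ i k, t i = t k → i = k := by
    intro i k h
    by_contra hik
    exact hdisj i k hik (t i) (by simp) (by rw [h]; simp)
  have hIne : I.Nonempty := ⟨_, hancI x₀ hx₀⟩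
  refine comb_contra (fun i => (s i).2) (fun i => (t i).2)
    (fun i => anc ((sg G f).connectedComponentMk (P i)))
    (fun i => anc ((sg G f).connectedComponentMk (Q i))) I hIne
    (fun i hi => hancI _ (hP i hi).ne') (fun i hi => hancI _ (hQ i hi).ne) ?_ ?_ ?_ ?_
  · intro i hi heq
    have h1 := hanc2 _ (hP i hi).ne'
    have h2 := hanc2 _ (hQ i hi).ne
    rw [← heq] at h2
    have h3 := sg_reach_pos (hP i hi).ne' (h1.symm.trans h2)
    have h4 := mul_neg_of_pos_of_neg (hP i hi) (hQ i hi)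
    linarith
  · intro i _ k _ h
    exact hinjs i k (Prod.ext (by rw [hs i, hs k]) h)
  · intro i _ k _ h
    exact hinjt i k (Prod.ext (by rw [ht i, ht k]) h)
  · intro i hi k hk hlt x hx y hy hxy
    have hik : i ≠ k := by
      rintro rfl
      exact lt_irrefl _ hlt
    -- a walk for each endpoint
    have hfull : ∀ j ∈ I, ∀ u, (u = anc ((sg G f).connectedComponentMk (P j)) ∨
        u = anc ((sg G f).connectedComponentMk (Q j))) → ∃ X, f X ≠ 0 ∧
        u = anc ((sg G f).connectedComponentMk X) ∧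
        ∃ r : lattice.Walk (s u) (t j), ∀ z ∈ r.support,
          (sg G f).Reachable X z ∨ (f z = 0 ∧ z ∈ (γ j).support) := by
      intro j hj u hu
      have hgen : ∀ X, f X ≠ 0 → u = anc ((sg G f).connectedComponentMk X) →
          (∃ r : lattice.Walk X (t j), ∀ z ∈ r.support, z = X ∨ (f z = 0 ∧ z ∈ (γ j).support)) →
          ∃ X, f X ≠ 0 ∧ u = anc ((sg G f).connectedComponentMk X) ∧
          ∃ r : lattice.Walk (s u) (t j), ∀ z ∈ r.support,
            (sg G f).Reachable X z ∨ (f z = 0 ∧ z ∈ (γ j).support) := by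
        rintro X hX hu' ⟨r, hr⟩
        refine ⟨X, hX, hu', ?_⟩
        have h1 := hanc2 X hX
        rw [← hu'] at h1
        obtain ⟨r', hr'⟩ := sg_walk hG h1
        refine ⟨r'.append r, ?_⟩
        intro z hz
        rw [Walk.mem_support_append_iff] at hz
        rcases hz with hz | hz
        · exact Or.inl (h1.symm.trans (hr' z hz))
        · rcases hr z hz with h | h
          · rw [h]
            exact Or.inl (Reachable.refl X)
          · exact Or.inr h
      rcases hu with hu | hu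
      · exact hgen (P j) (hP j hj).ne' hu (hPw j hj)
      · exact hgen (Q j) (hQ j hj).ne hu (hQw j hj)
    obtain ⟨X, hX, hxX, r, hr⟩ := hfull i hi x hx
    obtain ⟨Y, hY, hyY, r', hr'⟩ := hfull k hk y hy
    have hstrip : ∀ X j, f X ≠ 0 → ∀ z, ((sg G f).Reachable X z ∨
        (f z = 0 ∧ z ∈ (γ j).support)) → 1 ≤ z.1 ∧ z.1 ≤ m + 1 := by
      rintro X j hX z (h | h)
      · have h1 := sg_reach_pos hX h
        have h2 : f z ≠ 0 := by
          intro h2
          rw [h2, mul_zero] at h1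
          exact lt_irrefl _ h1
        have := hsupp z h2
        omega
      · rcases hγ j z h.2 with h3 | h3
        · rw [h3, hs j]
          omega
        · exact ⟨h3.1, h3.2.1⟩
    have hord := crossing_order (M := m + 1) (by omega) r r' (hs x) (ht i) (hs y) (ht k)
      (fun z hz => hstrip X i hX z (hr z hz)) (fun z hz => hstrip Y k hY z (hr' z hz)) (by
        intro z hz' hz
        rcases hr z hz with h1 | h1 <;> rcases hr' z hz' with h2 | h2
        · have h3 : (sg G f).connectedComponentMk X = (sg G f).connectedComponentMk Y :=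
            ConnectedComponent.sound (h1.trans h2.symm)
          rw [h3, ← hyY] at hxX
          exact hxy hxX
        · have h3 := sg_reach_pos hX h1
          rw [h2.1, mul_zero] at h3
          exact lt_irrefl _ h3
        · have h3 := sg_reach_pos hY h2
          rw [h1.1, mul_zero] at h3
          exact lt_irrefl _ h3
        · exact hdisj i k hik z h1.2 h2.2)
    exact hord.mpr hlt

end Pool.Agent.Lib.MP_566bac_pr
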