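import Pool.Agent.Lib.MP_566bac_pr.Uniq
import Pool.Agent.Lib.MP_566bac_pr.Window2

/-!
# Local events
-/

open SimpleGraph Finset Filter MeasureTheory ProbabilityTheory unitInterval
open scoped ENNReal

namespace Pool.Agent.Lib.MP_566bac_pr

/-- the vertices of the infinite cluster in column 1 whose left edge is open -/
def bd (S : Set (Sym2 (ℤ × ℤ))) : Set (ℤ × ℤ) :=
  {z | z ∈ infSet (openGraph S) ∧ z.1 = 1 ∧ (openGraph S).Adj z (0, z.2)}

/-- the local event -/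
def Bev (κ : ℝ) (m : ℕ) (y : ℤ) (S : Set (Sym2 (ℤ × ℤ))) : Prop :=
  (1, y) ∈ bd S ∧ ∃ h : ℤ × ℤ → ℝ,
    (∀ v ∈ infSet (openGraph S), v.1 ≤ 0 → |h v| ≤ 1) ∧
    (∀ v ∈ infSet (openGraph S), |v.1| ≤ m → |v.2 - y| ≤ m → lap (openGraph S) h v = 0) ∧
    κ ≤ h (1, y) ∧ ∀ F : Finset (ℤ × ℤ), (∀ z ∈ F, z ∈ bd S) → ∑ z ∈ F, h z ^ 2 ≤ 1

lemma lap_congr {G G' : SimpleGraph (ℤ × ℤ)} {h h' : ℤ × ℤ → ℝ} {v : ℤ × ℤ}
    (hG : ∀ w ∈ nb v, G.Adj v w ↔ G'.Adj v w) (hv : h v = h' v) (hw : ∀ w ∈ nb v, h w = h' w) :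
    lap G h v = lap G' h' v := by
  unfold lap
  apply sum_congr rfl
  intro w hwn
  rw [hv, hw w hwn]
  have h1 := hG w hwn
  split_ifs with h2 h3 h3
  · rfl
  · exact absurd (h1.mp h2) h3
  · exact absurd (h1.mpr h3) h2
  · rfl

/-- the box around `(0, y)` -/
noncomputable def box (m : ℕ) (y : ℤ) : Finset (ℤ × ℤ) :=
  Finset.Icc (-(m : ℤ)) m ×ˢ Finset.Icc (y - m) (y + m)

lemma mem_box {m : ℕ} {y : ℤ} {v : ℤ × ℤ} : v ∈ box m y ↔ |v.1| ≤ m ∧ |v.2 - y| ≤ m := by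
  rw [box, Finset.mem_product, Finset.mem_Icc, Finset.mem_Icc, abs_le, abs_le]
  constructor
  · rintro ⟨⟨h1, h2⟩, h3, h4⟩
    exact ⟨⟨h1, h2⟩, by omega, by omega⟩
  · rintro ⟨⟨h1, h2⟩, h3, h4⟩
    exact ⟨⟨h1, h2⟩, by omega, by omega⟩

lemma nb_box {m : ℕ} {y : ℤ} {v w : ℤ × ℤ} (hv : v ∈ box m y) (hw : w ∈ nb v) :
    w ∈ box (m + 1) y := by
  rw [mem_box, abs_le, abs_le] at *
  rw [mem_nb, lattice_adj_iff] at hw
  push_cast
  rcases hw with h | h | h | h <;> rw [h] <;> simp only <;> omega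

lemma box_mono {m : ℕ} {y : ℤ} {v : ℤ × ℤ} (hv : v ∈ box m y) : v ∈ box (m + 1) y := by
  rw [mem_box] at *
  push_cast
  omega

/-- the event is determined by the configuration in a box -/
lemma Bev_local {κ : ℝ} {m : ℕ} {y : ℤ} {S S' : Set (Sym2 (ℤ × ℤ))}
    (h1 : ∀ v ∈ box (m + 1) y, (v ∈ infSet (openGraph S) ↔ v ∈ infSet (openGraph S')))
    (h2 : ∀ v ∈ box (m + 1) y, ∀ w ∈ box (m + 1) y,
      ((openGraph S).Adj v w ↔ (openGraph S').Adj v w))
    (hB : Bev κ m y S) : Bev κ m y S' := by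
  classical
  have hbd : ∀ z ∈ box (m + 1) y, z ∈ bd S' → z ∈ bd S := by
    rintro z hz ⟨a1, a2, a3⟩
    have hz0 : (0, z.2) ∈ box (m + 1) y := by
      rw [mem_box] at hz ⊢
      refine ⟨?_, hz.2⟩
      simp only [abs_zero]
      positivity
    exact ⟨(h1 z hz).mpr a1, a2, (h2 z hz _ hz0).mpr a3⟩
  obtain ⟨hy, h, b1, b2, b3, b4⟩ := hB
  have hymem : (1, y) ∈ box (m + 1) y := by
    rw [mem_box]
    constructor
    · simp
    · simp only [sub_self, abs_zero]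
      positivity
  have hy0mem : (0, y) ∈ box (m + 1) y := by
    rw [mem_box]
    constructor
    · simp only [abs_zero]
      positivity
    · simp only [sub_self, abs_zero]
      positivity
  refine ⟨⟨(h1 _ hymem).mp hy.1, rfl, (h2 _ hymem _ hy0mem).mp hy.2.2⟩,
    fun v => if v ∈ box (m + 1) y then h v else 0, ?_, ?_, ?_, ?_⟩
  · intro v hv hv0
    simp only
    split_ifs with hb
    · exact b1 v ((h1 v hb).mpr hv) hv0
    · simp
  · intro v hv hv1 hv2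
    have hvb : v ∈ box m y := mem_box.mpr ⟨hv1, hv2⟩
    rw [← b2 v ((h1 v (box_mono hvb)).mpr hv) hv1 hv2]
    apply lap_congr
    · intro w hw
      exact (h2 v (box_mono hvb) w (nb_box hvb hw)).symm
    · rw [if_pos (box_mono hvb)]
    · intro w hw
      rw [if_pos (nb_box hvb hw)]
  · simp only
    rw [if_pos hymem]
    exact b3
  · intro F hF
    have e1 : ∑ z ∈ F, (if z ∈ box (m + 1) y then h z else 0) ^ 2 =
        ∑ z ∈ F.filter (fun z => z ∈ box (m + 1) y), h z ^ 2 := by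
      rw [Finset.sum_filter]
      apply sum_congr rfl
      intro z _
      split_ifs <;> simp
    simp only
    rw [e1]
    apply b4
    intro z hz
    rw [Finset.mem_filter] at hz
    exact hbd z hz.2 (hF z hz.1)

lemma measurableSet_adj (v w : ℤ × ℤ) :
    MeasurableSet {S : Set (Sym2 (ℤ × ℤ)) | (openGraph S).Adj v w} := by
  have : {S : Set (Sym2 (ℤ × ℤ)) | (openGraph S).Adj v w} =
      {S | lattice.Adj v w} ∩ {S | s(v, w) ∈ S} := rfl
  rw [this]
  exact (MeasurableSet.const _).inter (measurableSet_mem _)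

lemma measurableSet_Bev (κ : ℝ) (m : ℕ) (y : ℤ) : MeasurableSet {S | Bev κ m y S} := by
  let T : Set (Sym2 (ℤ × ℤ)) → (box (m + 1) y → Prop) × (box (m + 1) y × box (m + 1) y → Prop) :=
    fun S => (fun v => (v : ℤ × ℤ) ∈ infSet (openGraph S),
      fun q => (openGraph S).Adj (q.1 : ℤ × ℤ) (q.2 : ℤ × ℤ))
  have hT : Measurable T := by
    refine Measurable.prodMk ?_ ?_
    · rw [measurable_pi_iff]
      intro v
      exact measurableSet_setOfPred.mp (measurableSet_infSet v)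
    · rw [measurable_pi_iff]
      intro q
      exact measurableSet_setOfPred.mp (measurableSet_adj q.1 q.2)
  have heq : {S | Bev κ m y S} = T ⁻¹' (T '' {S | Bev κ m y S}) := by
    apply Set.Subset.antisymm (Set.subset_preimage_image _ _)
    rintro S' ⟨S, hS, hSS'⟩
    have e1 : ∀ v : box (m + 1) y, ((v : ℤ × ℤ) ∈ infSet (openGraph S)) =
        ((v : ℤ × ℤ) ∈ infSet (openGraph S')) := fun v => congrFun (congrArg Prod.fst hSS') v
    have e2 : ∀ q : box (m + 1) y × box (m + 1) y, (openGraph S).Adj (q.1 : ℤ × ℤ) (q.2 : ℤ × ℤ) =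
        (openGraph S').Adj (q.1 : ℤ × ℤ) (q.2 : ℤ × ℤ) :=
      fun q => congrFun (congrArg Prod.snd hSS') q
    refine Bev_local (S := S) ?_ ?_ hS
    · intro v hv
      exact iff_of_eq (e1 ⟨v, hv⟩)
    · intro v hv w hw
      exact iff_of_eq (e2 (⟨v, hv⟩, ⟨w, hw⟩))
  rw [heq]
  exact hT (MeasurableSet.of_discrete)

/-- vertical translation -/
def shiftE (c : ℤ) : (ℤ × ℤ) ≃ (ℤ × ℤ) where
  toFun v := (v.1, v.2 + c)
  invFun v := (v.1, v.2 - c)
  left_inv v := by simp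
  right_inv v := by simp

lemma isAuto_shiftE (c : ℤ) : IsAuto (shiftE c) := by
  intro x y
  change |x.1 - y.1| + |x.2 + c - (y.2 + c)| = 1 ↔ |x.1 - y.1| + |x.2 - y.2| = 1
  rw [show x.2 + c - (y.2 + c) = x.2 - y.2 by ring]

lemma nb_map {φ : (ℤ × ℤ) ≃ (ℤ × ℤ)} (hφ : IsAuto φ) (v : ℤ × ℤ) :
    nb (φ v) = (nb v).image φ := by
  ext w
  rw [mem_nb, Finset.mem_image]
  constructor
  · intro h
    refine ⟨φ.symm w, ?_, by simp⟩
    rw [mem_nb, ← hφ]
    simpa using h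
  · rintro ⟨u, hu, rfl⟩
    rw [hφ]
    exact mem_nb.mp hu

lemma lap_pull {φ : (ℤ × ℤ) ≃ (ℤ × ℤ)} (hφ : IsAuto φ) (S : Set (Sym2 (ℤ × ℤ)))
    (h : ℤ × ℤ → ℝ) (v : ℤ × ℤ) :
    lap (openGraph (pull φ S)) (fun w => h (φ w)) v = lap (openGraph S) h (φ v) := by
  classical
  unfold lap
  rw [nb_map hφ, Finset.sum_image (fun a _ b _ hab => φ.injective hab)]
  apply sum_congr rfl
  intro w _
  have h1 := pull_adj hφ S v w
  split_ifs with h2 h3 h3
  · rfl
  · exact absurd (h1.mp h2) h3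
  · exact absurd (h1.mpr h3) h2
  · rfl

lemma bd_shift (c : ℤ) (S : Set (Sym2 (ℤ × ℤ))) (z : ℤ × ℤ) :
    z ∈ bd (pull (shiftE c) S) ↔ shiftE c z ∈ bd S := by
  unfold bd
  rw [Set.mem_ofPred_eq, Set.mem_ofPred_eq, pull_inf (isAuto_shiftE c),
    pull_adj (isAuto_shiftE c)]
  rfl

lemma Bev_shift {κ : ℝ} {m : ℕ} {y : ℤ} {S : Set (Sym2 (ℤ × ℤ))} (hB : Bev κ m y S) :
    Bev κ m 0 (pull (shiftE y) S) := by
  classical
  have e : shiftE y (1, 0) = (1, y) := by simp [shiftE]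
  obtain ⟨hy, h, b1, b2, b3, b4⟩ := hB
  refine ⟨?_, fun v => h (shiftE y v), ?_, ?_, ?_, ?_⟩
  · rw [bd_shift, e]
    exact hy
  · intro v hv hv0
    exact b1 _ ((pull_inf (isAuto_shiftE y) S v).mp hv) hv0
  · intro v hv hv1 hv2
    rw [lap_pull (isAuto_shiftE y)]
    apply b2 _ ((pull_inf (isAuto_shiftE y) S v).mp hv) hv1
    change |v.2 + y - y| ≤ m
    rw [add_sub_cancel_right]
    simpa using hv2
  · simp only [e]
    exact b3
  · intro F hF
    have h1 : ∑ z ∈ F, h (shiftE y z) ^ 2 = ∑ z ∈ F.image (shiftE y), h z ^ 2 := by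
      rw [Finset.sum_image (fun a _ b _ hab => (shiftE y).injective hab)]
    rw [h1]
    apply b4
    intro z hz
    rw [Finset.mem_image] at hz
    obtain ⟨u, hu, rfl⟩ := hz
    exact (bd_shift y S u).mp (hF u hu)

lemma Bev_prob_shift (p : I) (κ : ℝ) (m : ℕ) (y : ℤ) :
    perc p {S | Bev κ m y S} ≤ perc p {S | Bev κ m 0 S} := by
  rw [← (pull_measurePreserving (isAuto_shiftE y) p).measure_preimage
    (measurableSet_Bev κ m 0).nullMeasurableSet]
  apply measure_mono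
  intro S hS
  exact Bev_shift hS

end Pool.Agent.Lib.MP_566bac_pr
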