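import Pool.Agent.Lib.MP_566bac_pr.Almost

/-!
# Uniqueness and density of the infinite cluster
-/

open SimpleGraph Finset Filter

namespace Pool.Agent.Lib.MP_566bac_pr

/-- reflection -/
def reflE : (ℤ × ℤ) ≃ (ℤ × ℤ) where
  toFun v := (v.1, -v.2)
  invFun v := (v.1, -v.2)
  left_inv v := by simp
  right_inv v := by simp

/-- exchange of the coordinates -/
def swapE : (ℤ × ℤ) ≃ (ℤ × ℤ) where
  toFun v := (v.2, v.1)
  invFun v := (v.2, v.1)
  left_inv v := by simp
  right_inv v := by simp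

/-- rotation -/
def leftE : (ℤ × ℤ) ≃ (ℤ × ℤ) where
  toFun v := (-v.2, v.1)
  invFun v := (v.2, -v.1)
  left_inv v := by simp
  right_inv v := by simp

lemma isAuto_refl : IsAuto (Equiv.refl _) := fun _ _ => Iff.rfl

lemma isAuto_reflE : IsAuto reflE := by
  intro x y
  change |x.1 - y.1| + |-x.2 - -y.2| = 1 ↔ |x.1 - y.1| + |x.2 - y.2| = 1
  rw [show -x.2 - -y.2 = -(x.2 - y.2) by ring, abs_neg]

lemma isAuto_swapE : IsAuto swapE := by
  intro x y
  change |x.2 - y.2| + |x.1 - y.1| = 1 ↔ |x.1 - y.1| + |x.2 - y.2| = 1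
  rw [add_comm]

lemma isAuto_leftE : IsAuto leftE := by
  intro x y
  change |-x.2 - -y.2| + |x.1 - y.1| = 1 ↔ |x.1 - y.1| + |x.2 - y.2| = 1
  rw [show -x.2 - -y.2 = -(x.2 - y.2) by ring, abs_neg, add_comm]

lemma pull_reachable {φ : (ℤ × ℤ) ≃ (ℤ × ℤ)} (hφ : IsAuto φ) (S : Set (Sym2 (ℤ × ℤ)))
    (x y : ℤ × ℤ) : (openGraph (pull φ S)).Reachable x y ↔ (openGraph S).Reachable (φ x) (φ y) := by
  let e : openGraph (pull φ S) ≃g openGraph S :=
    { toEquiv := φ
      map_rel_iff' := fun {a b} => (pull_adj hφ S a b).symm }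
  exact (Iso.reachable_iff (φ := e)).symm

lemma openGraph_le (S : Set (Sym2 (ℤ × ℤ))) : openGraph S ≤ lattice := fun _ _ h => h.1

/-- the lines exist and grow slowly -/
def Nice (S : Set (Sym2 (ℤ × ℤ))) : Prop :=
  Fin' S ∧ ∀ k, ∃ C : ℤ, ∀ x : ℤ, 2 * FF S k x ≤ C + |x|

lemma exit_frame {S : Set (Sym2 (ℤ × ℤ))} {φ : (ℤ × ℤ) ≃ (ℤ × ℤ)} (hφ : IsAuto φ)
    (hS : Fin' (pull φ S)) {k : ℕ} {x y : ℤ × ℤ} (hxy : (openGraph S).Reachable x y)
    (hx : (φ.symm x).2 < FF (pull φ S) k (φ.symm x).1)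
    (hy : FF (pull φ S) k (φ.symm y).1 ≤ (φ.symm y).2) :
    (openGraph S).Reachable x (φ (0, FF (pull φ S) k 0)) := by
  have h1 : (openGraph (pull φ S)).Reachable (φ.symm x) (φ.symm y) := by
    rw [pull_reachable hφ]
    simpa using hxy
  obtain ⟨p⟩ := h1
  obtain ⟨z, hz, hz'⟩ := hit_line (FF_lip1 hS k) (FF_lip2 hS k) (openGraph_le _) p hx hy
  have h2 : (openGraph (pull φ S)).Reachable (φ.symm x) z := ⟨p.takeUntil z hz⟩
  have h3 : z = (z.1, FF (pull φ S) k z.1) := Prod.ext rfl hz'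
  have h4 := line_reach (isLine_FF hS k) z.1 0
  rw [← h3] at h4
  have h5 := h2.trans h4
  rw [pull_reachable hφ] at h5
  simpa using h5

lemma pull_refl (S : Set (Sym2 (ℤ × ℤ))) : pull (Equiv.refl _) S = S := by
  unfold pull
  rw [Equiv.coe_refl, Sym2.map_id, Set.preimage_id]

lemma exit_top {S : Set (Sym2 (ℤ × ℤ))} (hS : Fin' S) {k : ℕ} {x y : ℤ × ℤ}
    (hxy : (openGraph S).Reachable x y) (hx : x.2 < FF S k x.1) (hy : FF S k y.1 ≤ y.2) :
    (openGraph S).Reachable x (0, FF S k 0) := by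
  have h := exit_frame isAuto_refl (S := S) (k := k) (x := x) (y := y)
  rw [pull_refl] at h
  exact h hS hxy hx hy

lemma cross {S : Set (Sym2 (ℤ × ℤ))} (hS : Nice S) (k : ℕ) (a : ℤ → ℤ)
    (ha : ∀ y y', (openGraph S).Reachable (a y, y) (a y', y'))
    (hg : ∃ C : ℤ, ∀ y, 2 * |a y| ≤ C + |y|) :
    (openGraph S).Reachable (a 0, 0) (0, FF S k 0) := by
  obtain ⟨C, hC⟩ := hS.2 k
  obtain ⟨C', hC'⟩ := hg
  have h0 := FF_pos hS.1 k (a 0)
  set Y : ℤ := |2 * C + C'| with hY
  have hY0 : 0 ≤ Y := abs_nonneg _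
  have h1 := hC (a Y)
  have h2 := hC' Y
  have h3 : 2 * C + C' ≤ Y := le_abs_self _
  rw [abs_of_nonneg hY0] at h2
  exact exit_top hS.1 (ha 0 Y) (by
    change (0 : ℤ) < FF S k (a 0)
    omega) (by
    change FF S k (a Y) ≤ Y
    omega)

/-- the four configurations are nice -/
def Nice4 (S : Set (Sym2 (ℤ × ℤ))) : Prop :=
  Nice S ∧ Nice (pull reflE S) ∧ Nice (pull swapE S) ∧ Nice (pull leftE S)

section
variable {S : Set (Sym2 (ℤ × ℤ))} (hS : Nice4 S)
include hS

lemma reach_right (k : ℕ) : (openGraph S).Reachable (swapE (0, FF (pull swapE S) k 0))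
    (0, FF S k 0) := by
  obtain ⟨h1, _, h3, _⟩ := hS
  have := cross h1 k (FF (pull swapE S) k) (by
    intro y y'
    have h5 := line_reach (isLine_FF h3.1 k) y y'
    rw [pull_reachable isAuto_swapE] at h5
    exact h5) (by
    obtain ⟨C, hC⟩ := h3.2 k
    refine ⟨C, fun y => ?_⟩
    rw [abs_of_nonneg (by have := FF_pos h3.1 k y; omega)]
    exact hC y)
  exact this

lemma reach_left (k : ℕ) : (openGraph S).Reachable (leftE (0, FF (pull leftE S) k 0))
    (0, FF S k 0) := by
  obtain ⟨h1, _, _, h4⟩ := hS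
  have := cross h1 k (fun y => -FF (pull leftE S) k y) (by
    intro y y'
    have h5 := line_reach (isLine_FF h4.1 k) y y'
    rw [pull_reachable isAuto_leftE] at h5
    exact h5) (by
    obtain ⟨C, hC⟩ := h4.2 k
    refine ⟨C, fun y => ?_⟩
    rw [abs_neg, abs_of_nonneg (by have := FF_pos h4.1 k y; omega)]
    exact hC y)
  exact this

lemma reach_bot (k : ℕ) : (openGraph S).Reachable (reflE (0, FF (pull reflE S) k 0))
    (0, FF S k 0) := by
  have hr := reach_right hS k
  obtain ⟨h1, h2, h3, _⟩ := hS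
  have := cross h2 k (fun y => FF (pull swapE S) k (-y)) (by
    intro y y'
    rw [pull_reachable isAuto_reflE]
    have h5 := line_reach (isLine_FF h3.1 k) (-y) (-y')
    rw [pull_reachable isAuto_swapE] at h5
    exact h5) (by
    obtain ⟨C, hC⟩ := h3.2 k
    refine ⟨C, fun y => ?_⟩
    rw [abs_of_nonneg (by have := FF_pos h3.1 k (-y); omega)]
    have := hC (-y)
    rwa [abs_neg] at this)
  rw [pull_reachable isAuto_reflE] at this
  refine this.symm.trans ?_
  have e : reflE ((fun y => FF (pull swapE S) k (-y)) 0, 0) = swapE (0, FF (pull swapE S) k 0) := by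
    simp [reflE, swapE]
  rw [e]
  exact hr

/-- every vertex with an infinite cluster is connected to a line -/
lemma reach_line {x : ℤ × ℤ} (hx : x ∈ infSet (openGraph S)) {k : ℕ} (hk1 : |x.1| ≤ k)
    (hk2 : |x.2| ≤ k) : (openGraph S).Reachable x (0, FF S k 0) := by
  have hr := reach_right hS k
  have hl := reach_left hS k
  have hb := reach_bot hS k
  obtain ⟨h1, h2, h3, h4⟩ := hS
  rw [abs_le] at hk1 hk2
  by_contra hcon
  -- all vertices of the cluster are below all lines
  have hall : ∀ y, (openGraph S).Reachable x y → y.2 < FF S k y.1 ∧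
      -y.2 < FF (pull reflE S) k y.1 ∧ y.1 < FF (pull swapE S) k y.2 ∧
      -y.1 < FF (pull leftE S) k y.2 := by
    intro y hy
    refine ⟨?_, ?_, ?_, ?_⟩ <;> by_contra h <;> push Not at h <;> apply hcon
    · exact exit_top h1.1 hy (by
        have := FF_ge h1.1 k x.1
        omega) h
    · exact (exit_frame isAuto_reflE h2.1 hy (by
        change -x.2 < FF (pull reflE S) k x.1
        have := FF_ge h2.1 k x.1
        omega) h).trans hb
    · exact (exit_frame isAuto_swapE h3.1 hy (by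
        change x.1 < FF (pull swapE S) k x.2
        have := FF_ge h3.1 k x.2
        omega) h).trans hr
    · exact (exit_frame isAuto_leftE h4.1 hy (by
        change -x.1 < FF (pull leftE S) k x.2
        have := FF_ge h4.1 k x.2
        omega) h).trans hl
  obtain ⟨C1, hC1⟩ := h1.2 k
  obtain ⟨C2, hC2⟩ := h2.2 k
  obtain ⟨C3, hC3⟩ := h3.2 k
  obtain ⟨C4, hC4⟩ := h4.2 k
  set C := max (max C1 C2) (max C3 C4) with hC
  have hbox : ∀ y, (openGraph S).Reachable x y → y ∈ Set.Icc (-(2 * C)) (2 * C) ×ˢ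
      Set.Icc (-(2 * C)) (2 * C) := by
    intro y hy
    obtain ⟨a1, a2, a3, a4⟩ := hall y hy
    have b1 := hC1 y.1
    have b2 := hC2 y.1
    have b3 := hC3 y.2
    have b4 := hC4 y.2
    rw [Set.mem_prod, Set.mem_Icc, Set.mem_Icc]
    have c1 : C1 ≤ C := (le_max_left _ _).trans (le_max_left _ _)
    have c2 : C2 ≤ C := (le_max_right _ _).trans (le_max_left _ _)
    have c3 : C3 ≤ C := (le_max_left _ _).trans (le_max_right _ _)
    have c4 : C4 ≤ C := (le_max_right _ _).trans (le_max_right _ _)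
    rcases abs_cases y.1 with h | h <;> rcases abs_cases y.2 with h' | h' <;> omega
  exact hx (((Set.finite_Icc _ _).prod (Set.finite_Icc _ _)).subset hbox)

/-- **Uniqueness of the infinite cluster.** -/
theorem unique_cluster {x y : ℤ × ℤ} (hx : x ∈ infSet (openGraph S))
    (hy : y ∈ infSet (openGraph S)) : (openGraph S).Reachable x y := by
  set k : ℕ := x.1.natAbs + x.2.natAbs + y.1.natAbs + y.2.natAbs with hk
  have h1 := reach_line hS hx (k := k) (by rw [Int.abs_eq_natAbs]; omega)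
    (by rw [Int.abs_eq_natAbs]; omega)
  have h2 := reach_line hS hy (k := k) (by rw [Int.abs_eq_natAbs]; omega)
    (by rw [Int.abs_eq_natAbs]; omega)
  exact h1.trans h2.symm

end

lemma ball_eq (N : ℕ) : ball N = ↑((Finset.Icc (-(N : ℤ)) N) ×ˢ (Finset.Icc (-(N : ℤ)) N)) := by
  ext x
  simp only [ball, Set.mem_ofPred_eq, Finset.coe_product, Set.mem_prod, Finset.coe_Icc,
    Set.mem_Icc, abs_le]

lemma ball_ncard (N : ℕ) : (ball N).ncard = (2 * N + 1) * (2 * N + 1) := by
  rw [ball_eq, Set.ncard_coe_finset, Finset.card_product, Int.card_Icc]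
  have : ((N : ℤ) + 1 - -(N : ℤ)).toNat = 2 * N + 1 := by omega
  rw [this]

lemma ball_finite (N : ℕ) : (ball N).Finite := by
  rw [ball_eq]
  exact Finset.finite_toSet _

/-- the part of the infinite cluster in the left half-plane has positive density -/
lemma density {S : Set (Sym2 (ℤ × ℤ))} (hS : Fin' S)
    (hd : ∀ᶠ N : ℕ in atTop, ∀ x : ℤ, -N ≤ x → x ≤ 0 → FF S (N / 8) x ≤ N)
    {A : Set (ℤ × ℤ)} (hA : ∀ x : ℤ × ℤ, x ∈ infSet (openGraph S) → x.1 ≤ 0 → x ∈ A) :
    HasPositiveDensity A := by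
  have key : ∀ᶠ N : ℕ in atTop, (1 / 32 : ℝ) ≤ ((A ∩ ball N).ncard : ℝ) / ((ball N).ncard : ℝ) := by
    filter_upwards [hd] with N hN
    have h1 : (N + 1) * (N / 8 + 1) ≤ (A ∩ ball N).ncard := by
      let f : ℕ × ℕ → ℤ × ℤ := fun q => (-(q.1 : ℤ), FF S q.2 (-(q.1 : ℤ)))
      have hf : Function.Injective f := by
        rintro ⟨a, b⟩ ⟨c, d⟩ h
        simp only [f, Prod.mk.injEq] at h
        obtain ⟨h1, h2⟩ := h
        have hac : a = c := by omega
        subst hac
        have hbd : b = d := by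
          rcases lt_trichotomy b d with h | h | h
          · have := FF_lt hS h (-(a : ℤ))
            omega
          · exact h
          · have := FF_lt hS h (-(a : ℤ))
            omega
        rw [hbd]
      have hsub : f '' ↑(Finset.range (N + 1) ×ˢ Finset.range (N / 8 + 1)) ⊆ A ∩ ball N := by
        rintro _ ⟨⟨j, k⟩, hjk, rfl⟩
        simp only [Finset.coe_product, Set.mem_prod, Finset.coe_range, Set.mem_Iio] at hjk
        have h1 := hN (-(j : ℤ)) (by omega) (by omega)
        have h2 : FF S k (-(j : ℤ)) ≤ FF S (N / 8) (-(j : ℤ)) := by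
          rcases Nat.lt_or_ge k (N / 8) with h | h
          · have := FF_lt hS h (-(j : ℤ))
            omega
          · have : k = N / 8 := by omega
            rw [this]
        have h3 := FF_pos hS k (-(j : ℤ))
        refine ⟨hA _ (line_inf (isLine_FF hS k) _) ?_, ?_⟩
        · simp only [f]; omega
        · simp only [ball, f, Set.mem_ofPred_eq, abs_le]
          omega
      calc (N + 1) * (N / 8 + 1)
          = (Finset.range (N + 1) ×ˢ Finset.range (N / 8 + 1)).card := by
            rw [Finset.card_product, Finset.card_range, Finset.card_range]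
        _ = (f '' ↑(Finset.range (N + 1) ×ˢ Finset.range (N / 8 + 1))).ncard := by
            rw [Set.ncard_image_of_injective _ hf, Set.ncard_coe_finset]
        _ ≤ (A ∩ ball N).ncard :=
            Set.ncard_le_ncard hsub ((ball_finite N).subset Set.inter_subset_right)
    rw [ball_ncard, div_le_div_iff₀ (by norm_num) (by positivity), one_mul]
    have h2 : (2 * N + 1) * (2 * N + 1) ≤ (A ∩ ball N).ncard * 32 := by
      have h3 : N + 1 ≤ 8 * (N / 8 + 1) := by omega
      have h4 : (N + 1) * (N + 1) ≤ 8 * ((N + 1) * (N / 8 + 1)) := by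
        calc (N + 1) * (N + 1) ≤ (N + 1) * (8 * (N / 8 + 1)) := Nat.mul_le_mul_left _ h3
          _ = 8 * ((N + 1) * (N / 8 + 1)) := by ring
      nlinarith
    exact_mod_cast h2
  unfold HasPositiveDensity
  have h2 : (1 / 32 : ℝ) ≤ liminf (fun N : ℕ => ((A ∩ ball N).ncard : ℝ) / ((ball N).ncard : ℝ))
      atTop := by
    apply le_liminf_of_le _ key
    apply IsBoundedUnder.isCoboundedUnder_ge
    refine ⟨1, ?_⟩
    rw [eventually_map]
    refine Eventually.of_forall fun N => ?_
    apply div_le_one_of_le₀ _ (by positivity)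
    exact_mod_cast Set.ncard_le_ncard Set.inter_subset_right (ball_finite N)
  linarith

end Pool.Agent.Lib.MP_566bac_pr
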