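import Pool.Agent.Lib.MP_566bac_pr.Fkg

/-!
# Restricted connectivity
-/

open MeasureTheory ProbabilityTheory Finset unitInterval SimpleGraph
open scoped ENNReal

namespace Pool.Agent.Lib.MP_566bac_pr

/-- the graph restricted to the vertices of `W` -/
def res (G : SimpleGraph (ℤ × ℤ)) (W : Set (ℤ × ℤ)) : SimpleGraph (ℤ × ℤ) where
  Adj x y := G.Adj x y ∧ x ∈ W ∧ y ∈ W
  symm := ⟨fun _ _ h => ⟨h.1.symm, h.2.2, h.2.1⟩⟩
  loopless := ⟨fun x h => G.loopless.irrefl x h.1⟩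

lemma res_le (G : SimpleGraph (ℤ × ℤ)) (W : Set (ℤ × ℤ)) : res G W ≤ G := fun _ _ h => h.1

lemma res_mono {G G' : SimpleGraph (ℤ × ℤ)} {W W' : Set (ℤ × ℤ)} (hG : G ≤ G') (hW : W ⊆ W') :
    res G W ≤ res G' W' := fun _ _ h => ⟨hG h.1, hW h.2.1, hW h.2.2⟩

lemma openGraph_le' (S : Set Edge) : openGraph S ≤ lattice := fun _ _ h => h.1

lemma openGraph_mono {S S' : Set Edge} (h : S ⊆ S') : openGraph S ≤ openGraph S' :=
  fun _ _ h1 => ⟨h1.1, h h1.2⟩

lemma res_of_walk {G : SimpleGraph (ℤ × ℤ)} {W : Set (ℤ × ℤ)} {a b : ℤ × ℤ} (p : G.Walk a b)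
    (h : ∀ z ∈ p.support, z ∈ W) : (res G W).Reachable a b := by
  induction p with
  | nil => exact Reachable.refl _
  | @cons u v w hadj p ih =>
    have h1 : (res G W).Adj u v := ⟨hadj, h u (by simp), h v (by simp)⟩
    exact h1.reachable.trans (ih fun z hz => h z (by simp [hz]))

lemma res_mem {G : SimpleGraph (ℤ × ℤ)} {W : Set (ℤ × ℤ)} {a b : ℤ × ℤ}
    (h : (res G W).Reachable a b) (ha : a ∈ W) : b ∈ W := by
  obtain ⟨p⟩ := h
  induction p with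
  | nil => exact ha
  | cons hadj p ih => exact ih hadj.2.2

lemma res_walk {G : SimpleGraph (ℤ × ℤ)} {W : Set (ℤ × ℤ)} {a b : ℤ × ℤ}
    (h : (res G W).Reachable a b) (ha : a ∈ W) : ∃ p : G.Walk a b, ∀ z ∈ p.support, z ∈ W := by
  obtain ⟨p⟩ := h
  induction p with
  | nil => exact ⟨Walk.nil, by simpa using ha⟩
  | @cons u v w hadj p ih =>
    obtain ⟨q, hq⟩ := ih hadj.2.2
    refine ⟨Walk.cons hadj.1 q, ?_⟩
    intro z hz
    simp only [Walk.support_cons, List.mem_cons] at hz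
    rcases hz with rfl | hz
    · exact ha
    · exact hq z hz

/-- first exit from a set -/
lemma exit_first {G : SimpleGraph (ℤ × ℤ)} {W : Set (ℤ × ℤ)} {a b : ℤ × ℤ}
    (h : G.Reachable a b) (ha : a ∈ W) (hb : b ∉ W) :
    ∃ u v, u ∈ W ∧ v ∉ W ∧ G.Adj u v ∧ (res G W).Reachable a u := by
  obtain ⟨p⟩ := h
  induction p with
  | nil => exact absurd ha hb
  | @cons u v w hadj p ih =>
    by_cases hv : v ∈ W
    · obtain ⟨u', v', h1, h2, h3, h4⟩ := ih hv hb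
      have h5 : (res G W).Adj u v := ⟨hadj, ha, hv⟩
      exact ⟨u', v', h1, h2, h3, h5.reachable.trans h4⟩
    · exact ⟨u, v, ha, hv, hadj, Reachable.refl _⟩

/-- last exit from a set -/
lemma exit_last {G : SimpleGraph (ℤ × ℤ)} {W : Set (ℤ × ℤ)} {a b : ℤ × ℤ}
    (h : G.Reachable a b) (ha : a ∈ W) (hb : b ∉ W) :
    ∃ u v, u ∈ W ∧ v ∉ W ∧ G.Adj u v ∧ (res G Wᶜ).Reachable v b := by
  obtain ⟨v, u, h1, h2, h3, h4⟩ := exit_first (W := Wᶜ) h.symm hb (by simpa using ha)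
  exact ⟨u, v, by simpa using h2, h1, h3.symm, h4.symm⟩

open Classical in
/-- the lattice edges inside a finite set of vertices -/
noncomputable def Ein (W : Finset (ℤ × ℤ)) : Finset Edge :=
  ((W ×ˢ W).image fun q => s(q.1, q.2)).filter fun e => e ∈ lattice.edgeSet

lemma lat_Ein (W : Finset (ℤ × ℤ)) : Lat (Ein W) := by
  classical
  intro e he
  rw [Ein, Finset.mem_filter] at he
  exact he.2

lemma mem_Ein {W : Finset (ℤ × ℤ)} {x y : ℤ × ℤ} :
    s(x, y) ∈ Ein W ↔ x ∈ W ∧ y ∈ W ∧ lattice.Adj x y := by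
  classical
  rw [Ein, Finset.mem_filter, SimpleGraph.mem_edgeSet, Finset.mem_image]
  constructor
  · rintro ⟨⟨⟨a, b⟩, hab, he⟩, hadj⟩
    rw [Finset.mem_product] at hab
    simp only [Sym2.eq_iff] at he
    rcases he with ⟨rfl, rfl⟩ | ⟨rfl, rfl⟩
    · exact ⟨hab.1, hab.2, hadj⟩
    · exact ⟨hab.2, hab.1, hadj⟩
  · rintro ⟨h1, h2, h3⟩
    exact ⟨⟨(x, y), Finset.mem_product.mpr ⟨h1, h2⟩, rfl⟩, h3⟩

lemma Ein_mono {W W' : Finset (ℤ × ℤ)} (h : W ⊆ W') : Ein W ⊆ Ein W' := by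
  intro e
  induction e using Sym2.ind with
  | _ x y =>
    rw [mem_Ein, mem_Ein]
    exact fun ⟨h1, h2, h3⟩ => ⟨h h1, h h2, h3⟩

/-- configurations which agree on the edges with ends in `W` and satisfying `P` -/
lemma res_congr {W : Set (ℤ × ℤ)} {S S' : Set Edge}
    (h : ∀ x ∈ W, ∀ y ∈ W, lattice.Adj x y → (s(x, y) ∈ S ↔ s(x, y) ∈ S')) :
    res (openGraph S) W = res (openGraph S') W := by
  ext x y
  constructor
  · rintro ⟨⟨h1, h2⟩, h3, h4⟩
    exact ⟨⟨h1, (h x h3 y h4 h1).mp h2⟩, h3, h4⟩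
  · rintro ⟨⟨h1, h2⟩, h3, h4⟩
    exact ⟨⟨h1, (h x h3 y h4 h1).mpr h2⟩, h3, h4⟩

lemma res_congr_Ein {W : Finset (ℤ × ℤ)} {S S' : Set Edge}
    (h : ∀ e ∈ Ein W, (e ∈ S ↔ e ∈ S')) :
    res (openGraph S) W = res (openGraph S') W :=
  res_congr fun _ hx _ hy hxy => h _ (mem_Ein.mpr ⟨hx, hy, hxy⟩)

/-- an event about the restricted graph is local -/
lemma det_res {W : Finset (ℤ × ℤ)} (P : SimpleGraph (ℤ × ℤ) → Prop) :
    Det (Ein W) {S | P (res (openGraph S) W)} := by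
  intro S S' h h1
  rw [Set.mem_ofPred_eq] at h1 ⊢
  rwa [← res_congr_Ein h]

lemma loc_res {W : Finset (ℤ × ℤ)} (P : SimpleGraph (ℤ × ℤ) → Prop) :
    Loc {S | P (res (openGraph S) W)} := ⟨_, lat_Ein W, det_res P⟩

lemma inc_reach (W : Set (ℤ × ℤ)) (x y : ℤ × ℤ) :
    Inc {S | (res (openGraph S) W).Reachable x y} := by
  intro S S' h h1
  exact Reachable.mono (res_mono (openGraph_mono h) le_rfl) h1

/-- distance in the maximum norm -/
def dst (x y : ℤ × ℤ) : ℕ := max (x.1 - y.1).natAbs (x.2 - y.2).natAbs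

lemma dst_le {x y : ℤ × ℤ} {n : ℕ} :
    dst x y ≤ n ↔ |x.1 - y.1| ≤ n ∧ |x.2 - y.2| ≤ n := by
  rw [dst, max_le_iff, Int.abs_eq_natAbs, Int.abs_eq_natAbs]
  norm_cast

/-- boxes -/
noncomputable def Lam (y : ℤ × ℤ) (n : ℕ) : Finset (ℤ × ℤ) :=
  Finset.Icc (y.1 - n) (y.1 + n) ×ˢ Finset.Icc (y.2 - n) (y.2 + n)

lemma mem_Lam {x y : ℤ × ℤ} {n : ℕ} : x ∈ Lam y n ↔ dst x y ≤ n := by
  rw [dst_le, Lam, Finset.mem_product, Finset.mem_Icc, Finset.mem_Icc, abs_le, abs_le]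
  omega

lemma dst_self (x : ℤ × ℤ) : dst x x = 0 := by simp [dst]

lemma dst_comm (x y : ℤ × ℤ) : dst x y = dst y x := by
  unfold dst
  rw [← Int.natAbs_neg, neg_sub, ← Int.natAbs_neg (x.2 - y.2), neg_sub]

lemma dst_tri (x y z : ℤ × ℤ) : dst x z ≤ dst x y + dst y z := by
  unfold dst
  omega

lemma dst_adj {x y : ℤ × ℤ} (h : lattice.Adj x y) (z : ℤ × ℤ) : dst y z ≤ dst x z + 1 := by
  rw [lattice_adj_iff] at h
  unfold dst
  rcases h with h | h | h | h <;> rw [h] <;> simp only <;> omega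

/-- connection to distance `n` -/
def Far (n : ℕ) (y : ℤ × ℤ) : Set (Set Edge) :=
  {S | ∃ z, n ≤ dst z y ∧ (openGraph S).Reachable y z}

lemma far_iff {n : ℕ} {y : ℤ × ℤ} {S : Set Edge} :
    S ∈ Far n y ↔ ∃ z, dst z y = n ∧ (res (openGraph S) (Lam y n)).Reachable y z := by
  constructor
  · rintro ⟨z, h1, h2⟩
    rcases Nat.eq_zero_or_pos n with rfl | hn
    · exact ⟨y, dst_self y, Reachable.refl _⟩
    · obtain ⟨u, v, h3, h4, h5, h6⟩ := exit_first (W := (Lam y (n - 1) : Set (ℤ × ℤ))) h2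
        (by rw [Finset.mem_coe, mem_Lam, dst_self]; exact Nat.zero_le _)
        (by rw [Finset.mem_coe, mem_Lam]; omega)
      rw [Finset.mem_coe, mem_Lam] at h3 h4
      have h7 := dst_adj h5.1 y
      refine ⟨v, by omega, ?_⟩
      have h8 : (res (openGraph S) (Lam y n)).Reachable y u := by
        refine Reachable.mono (res_mono le_rfl ?_) h6
        intro w hw
        rw [Finset.mem_coe, mem_Lam] at hw ⊢
        omega
      refine h8.trans (Adj.reachable ⟨h5, ?_, ?_⟩)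
      · rw [Finset.mem_coe, mem_Lam]; omega
      · rw [Finset.mem_coe, mem_Lam]; omega
  · rintro ⟨z, h1, h2⟩
    exact ⟨z, h1.ge, Reachable.mono (res_le _ _) h2⟩

lemma far_det (n : ℕ) (y : ℤ × ℤ) : Det (Ein (Lam y n)) (Far n y) := by
  have : Far n y = {S | (fun G : SimpleGraph (ℤ × ℤ) => ∃ z, dst z y = n ∧ G.Reachable y z)
      (res (openGraph S) (Lam y n))} := by
    ext S
    exact far_iff
  rw [this]
  exact det_res (W := Lam y n) (fun G : SimpleGraph (ℤ × ℤ) => ∃ z, dst z y = n ∧ G.Reachable y z)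

lemma far_loc (n : ℕ) (y : ℤ × ℤ) : Loc (Far n y) := ⟨_, lat_Ein _, far_det n y⟩

lemma far_inc (n : ℕ) (y : ℤ × ℤ) : Inc (Far n y) := by
  rintro S S' h ⟨z, h1, h2⟩
  exact ⟨z, h1, Reachable.mono (openGraph_mono h) h2⟩

lemma far_anti {n m : ℕ} (h : n ≤ m) (y : ℤ × ℤ) : Far m y ⊆ Far n y := by
  rintro S ⟨z, h1, h2⟩
  exact ⟨z, h.trans h1, h2⟩

/-- translation -/
def transE (c : ℤ × ℤ) : (ℤ × ℤ) ≃ (ℤ × ℤ) := Equiv.addRight c

lemma transE_apply (c v : ℤ × ℤ) : transE c v = v + c := rfl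

lemma isAuto_transE (c : ℤ × ℤ) : IsAuto (transE c) := by
  intro x y
  change |x.1 + c.1 - (y.1 + c.1)| + |x.2 + c.2 - (y.2 + c.2)| = 1 ↔
    |x.1 - y.1| + |x.2 - y.2| = 1
  rw [show x.1 + c.1 - (y.1 + c.1) = x.1 - y.1 by ring,
    show x.2 + c.2 - (y.2 + c.2) = x.2 - y.2 by ring]

lemma pull_reach {φ : (ℤ × ℤ) ≃ (ℤ × ℤ)} (hφ : IsAuto φ) (S : Set Edge) (x y : ℤ × ℤ) :
    (openGraph (pull φ S)).Reachable x y ↔ (openGraph S).Reachable (φ x) (φ y) := by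
  let f : openGraph (pull φ S) ≃g openGraph S := ⟨φ, by
    intro a b
    exact (pull_adj hφ S a b).symm⟩
  exact (SimpleGraph.Iso.reachable_iff (φ := f)).symm

lemma pull_res_reach {φ : (ℤ × ℤ) ≃ (ℤ × ℤ)} (hφ : IsAuto φ) (S : Set Edge)
    (W : Set (ℤ × ℤ)) (x y : ℤ × ℤ) :
    (res (openGraph (pull φ S)) W).Reachable x y ↔
      (res (openGraph S) (φ '' W)).Reachable (φ x) (φ y) := by
  let f : res (openGraph (pull φ S)) W ≃g res (openGraph S) (φ '' W) := ⟨φ, by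
    intro a b
    change ((openGraph S).Adj (φ a) (φ b) ∧ φ a ∈ φ '' W ∧ φ b ∈ φ '' W) ↔
      ((openGraph (pull φ S)).Adj a b ∧ a ∈ W ∧ b ∈ W)
    rw [pull_adj hφ, φ.injective.mem_set_image, φ.injective.mem_set_image]⟩
  exact (SimpleGraph.Iso.reachable_iff (φ := f)).symm

lemma pull_far (n : ℕ) (y : ℤ × ℤ) : pull (transE y) ⁻¹' Far n 0 = Far n y := by
  ext S
  simp only [Far, Set.mem_preimage, Set.mem_ofPred_eq, pull_reach (isAuto_transE y)]
  have h0 : transE y 0 = y := by simp [transE_apply]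
  rw [h0]
  constructor
  · rintro ⟨z, h1, h2⟩
    refine ⟨transE y z, ?_, h2⟩
    rw [transE_apply]
    simpa [dst] using h1
  · rintro ⟨z, h1, h2⟩
    refine ⟨z - y, ?_, ?_⟩
    · simpa [dst] using h1
    · rw [transE_apply, sub_add_cancel]
      exact h2

lemma perc_pull {φ : (ℤ × ℤ) ≃ (ℤ × ℤ)} (hφ : IsAuto φ) (p : I) {A : Set (Set Edge)}
    (hA : MeasurableSet A) : (perc p).real (pull φ ⁻¹' A) = (perc p).real A := by
  rw [measureReal_def, measureReal_def,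
    (pull_measurePreserving hφ p).measure_preimage hA.nullMeasurableSet]

lemma perc_far (p : I) (n : ℕ) (y : ℤ × ℤ) : (perc p).real (Far n y) = (perc p).real (Far n 0) := by
  rw [← pull_far, perc_pull (isAuto_transE y) p (far_loc n 0).meas]

end Pool.Agent.Lib.MP_566bac_pr
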