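import Pool.Agent.Lib.MP_566bac_pr.Local

/-!
# The local events have probability bounded below
-/

open SimpleGraph Finset Filter MeasureTheory ProbabilityTheory unitInterval
open scoped ENNReal

namespace Pool.Agent.Lib.MP_566bac_pr

/-- vertical translation -/
def shiftE (c : ℤ) : (ℤ × ℤ) ≃ (ℤ × ℤ) where
  toFun v := (v.1, v.2 + c)
  invFun v := (v.1, v.2 - c)
  left_inv v := by simp
  right_inv v := by simp

lemma isAuto_shiftE (c : ℤ) : IsAuto (shiftE c) := by
  intro x y
  change |x.1 - y.1| + |x.2 + c - (y.2 + c)| = 1 ↔ |x.1 - y.1| + |x.2 - y.2| = 1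
  rw [show x.2 + c - (y.2 + c) = x.2 - y.2 by ring]

lemma pull_infSet {φ : (ℤ × ℤ) ≃ (ℤ × ℤ)} (hφ : IsAuto φ) (S : Set (Sym2 (ℤ × ℤ))) (v : ℤ × ℤ) :
    v ∈ infSet (openGraph (pull φ S)) ↔ φ v ∈ infSet (openGraph S) := by
  have : {y | (openGraph (pull φ S)).Reachable v y} = φ ⁻¹' {y | (openGraph S).Reachable (φ v) y} := by
    ext y
    exact pull_reachable hφ S v y
  change {y | (openGraph (pull φ S)).Reachable v y}.Infinite ↔
    {y | (openGraph S).Reachable (φ v) y}.Infinite
  rw [this, ← Equiv.image_symm_eq_preimage, Set.infinite_image_iff φ.symm.injective.injOn]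

lemma nb_map {φ : (ℤ × ℤ) ≃ (ℤ × ℤ)} (hφ : IsAuto φ) (v : ℤ × ℤ) :
    nb (φ v) = (nb v).image φ := by
  ext w
  rw [mem_nb, Finset.mem_image]
  constructor
  · intro h
    refine ⟨φ.symm w, ?_, by simp⟩
    rw [mem_nb, ← hφ]
    simpa using h
  · rintro ⟨u, hu, rfl⟩
    rw [hφ]
    exact mem_nb.mp hu

lemma lap_pull {φ : (ℤ × ℤ) ≃ (ℤ × ℤ)} (hφ : IsAuto φ) (S : Set (Sym2 (ℤ × ℤ)))
    (h : ℤ × ℤ → ℝ) (v : ℤ × ℤ) :
    lap (openGraph (pull φ S)) (fun w => h (φ w)) v = lap (openGraph S) h (φ v) := by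
  classical
  unfold lap
  rw [nb_map hφ, Finset.sum_image (fun a _ b _ hab => φ.injective hab)]
  apply sum_congr rfl
  intro w _
  have h1 := pull_adj hφ S v w
  split_ifs with h2 h3 h3
  · rfl
  · exact absurd (h1.mp h2) h3
  · exact absurd (h1.mpr h3) h2
  · rfl

lemma bd_shift (c : ℤ) (S : Set (Sym2 (ℤ × ℤ))) (z : ℤ × ℤ) :
    z ∈ bd (pull (shiftE c) S) ↔ shiftE c z ∈ bd S := by
  unfold bd
  rw [Set.mem_ofPred_eq, Set.mem_ofPred_eq, pull_infSet (isAuto_shiftE c),
    pull_adj (isAuto_shiftE c)]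
  rfl

lemma Bev_shift {m : ℕ} {y : ℤ} {S : Set (Sym2 (ℤ × ℤ))} (hB : Bev m y S) :
    Bev m 0 (pull (shiftE y) S) := by
  classical
  have e : shiftE y (1, 0) = (1, y) := by simp [shiftE]
  obtain ⟨hy, h, b1, b2, b3, b4⟩ := hB
  refine ⟨?_, fun v => h (shiftE y v), ?_, ?_, ?_, ?_⟩
  · rw [bd_shift, e]
    exact hy
  · intro v hv hv0
    exact b1 _ ((pull_infSet (isAuto_shiftE y) S v).mp hv) hv0
  · intro v hv hv1 hv2
    rw [lap_pull (isAuto_shiftE y)]
    apply b2 _ ((pull_infSet (isAuto_shiftE y) S v).mp hv) hv1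
    change |v.2 + y - y| ≤ m
    rw [add_sub_cancel_right]
    simpa using hv2
  · simp only [e]
    exact b3
  · intro F hF
    have h1 : ∑ z ∈ F, h (shiftE y z) ^ 2 = ∑ z ∈ F.image (shiftE y), h z ^ 2 := by
      rw [Finset.sum_image (fun a _ b _ hab => (shiftE y).injective hab)]
    rw [h1]
    apply b4
    intro z hz
    rw [Finset.mem_image] at hz
    obtain ⟨u, hu, rfl⟩ := hz
    exact (bd_shift y S u).mp (hF u hu)

lemma Bev_prob_shift (p : I) (m : ℕ) (y : ℤ) :
    perc p {S | Bev m y S} ≤ perc p {S | Bev m 0 S} := by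
  rw [← (pull_measurePreserving (isAuto_shiftE y) p).measure_preimage
    (measurableSet_Bev m 0).nullMeasurableSet]
  apply measure_mono
  intro S hS
  exact Bev_shift hS

open Classical in
/-- the deterministic count -/
lemma count {S : Set (Sym2 (ℤ × ℤ))} (hS : Fin' S) (m : ℕ)
    (hF : FF S (16 * (m + 1) - 1) 1 ≤ 96 * (m + 1)) :
    6 * (m + 1) ≤ {y ∈ Finset.Icc (1 : ℤ) (96 * (m + 1)) | Bev m y S}.card := by
  classical
  set K : ℕ := 16 * (m + 1) with hK
  set n : ℤ := 96 * (m + 1) with hn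
  set G := openGraph S with hG
  set M : ℤ := m + 1 with hM
  -- the walks
  have hwalk : ∀ i : Fin K, ∃ q : G.Walk (1, FF S i 1) (M + 1, FF S i (M + 1)),
      ∀ z ∈ q.support, z = (1, FF S i 1) ∨ (2 ≤ z.1 ∧ z.1 ≤ M + 1 ∧ |z.2 - FF S i z.1| ≤ 1) := by
    intro i
    have h := line_walk (isLine_FF hS i) 1 (m + 1)
    have e : (1 : ℤ) + ((m + 1 : ℕ) : ℤ) = M + 1 := by rw [hM]; push_cast; ring
    rw [e] at h
    exact h
  choose γ hγ using hwalk
  have hmono : ∀ i k : Fin K, i < k → ∀ x, FF S i x + 3 ≤ FF S k x :=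
    fun i k hik x => FF_lt hS hik x
  have hsup : ∀ i : Fin K, ∀ z ∈ (γ i).support, |z.2 - FF S i z.1| ≤ 1 := by
    intro i z hz
    rcases hγ i z hz with h | h
    · rw [h]; simp
    · exact h.2.2
  have hdisj : ∀ i k : Fin K, i ≠ k → ∀ z ∈ (γ i).support, z ∉ (γ k).support := by
    intro i k hik z hz hz'
    have h1 := hsup i z hz
    have h2 := hsup k z hz'
    rw [abs_le] at h1 h2
    rcases lt_or_gt_of_ne hik with h | h
    · have := hmono i k h z.1
      omega
    · have := hmono k i h z.1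
      omega
  have hwin : ∀ i : Fin K, 1 ≤ FF S i 1 ∧ FF S i 1 ≤ n := by
    intro i
    refine ⟨FF_pos hS i 1, ?_⟩
    rcases Nat.lt_or_ge i (K - 1) with h | h
    · have := FF_lt hS h 1
      omega
    · have : (i : ℕ) = K - 1 := by omega
      rw [this]
      exact hF
  have hadj : ∀ i : Fin K, G.Adj (1, FF S i 1) (0, FF S i 1) := by
    intro i
    have := adj_of_ed (FF_good hS i 1 1)
    simpa [dir] using this
  obtain ⟨H, D, hD, hsum, hH⟩ := window (openGraph_le S) (m := M) (n := n) (by omega)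
    (fun i : Fin K => ((1, FF S i 1) : ℤ × ℤ)) (fun i : Fin K => ((M + 1, FF S i (M + 1)) : ℤ × ℤ))
    γ (fun i => rfl) (fun i => rfl) (fun i z hz => by
      rcases hγ i z hz with h | h
      · exact Or.inl h
      · exact Or.inr ⟨h.1, h.2.1⟩) hdisj hwin hadj (fun i => line_inf (isLine_FF hS i) 1)
  rw [Fintype.card_fin] at hsum
  -- the good vertices of the window
  set D' := D.filter (fun x => 1 / 12 ≤ H x x) with hD'
  have hle1 : ∀ x ∈ D, H x x ≤ 1 := by
    intro x hx
    have h1 := (hH x hx).2.2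
    have h2 : H x x ^ 2 ≤ 1 :=
      (single_le_sum (f := fun y => H x y ^ 2) (fun y _ => sq_nonneg _) hx).trans h1
    nlinarith
  have hDcard : (D.card : ℝ) ≤ 96 * (m + 1) := by
    have h1 : D ⊆ (Finset.Icc (1 : ℤ) n).image (fun y => ((1, y) : ℤ × ℤ)) := by
      intro x hx
      obtain ⟨_, h2, h3, h4, _⟩ := (hD x).mp hx
      rw [Finset.mem_image]
      exact ⟨x.2, Finset.mem_Icc.mpr ⟨h3, h4⟩, Prod.ext h2.symm rfl⟩
    have h2 := (Finset.card_le_card h1).trans Finset.card_image_le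
    rw [Int.card_Icc] at h2
    have h3 : (n + 1 - 1).toNat = 96 * (m + 1) := by omega
    rw [h3] at h2
    exact_mod_cast h2
  have hD'card : 8 * (m + 1) ≤ D'.card := by
    have h1 : ∑ x ∈ D, H x x ≤ ∑ x ∈ D, (1 / 12 + if 1 / 12 ≤ H x x then (1 : ℝ) else 0) := by
      apply sum_le_sum
      intro x hx
      have := hle1 x hx
      split_ifs with h
      · linarith
      · push Not at h
        linarith
    rw [sum_add_distrib, sum_const, nsmul_eq_mul, ← Finset.sum_filter, sum_const, nsmul_eq_mul,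
      mul_one] at h1
    have h2 : (K : ℝ) ≤ D.card * (1 / 12) + D'.card := hsum.trans h1
    have h3 : (K : ℝ) = 16 * (m + 1) := by rw [hK]; push_cast; ring
    rw [h3] at h2
    have h4 : (8 * (m + 1) : ℝ) ≤ D'.card := by linarith
    exact_mod_cast h4
  -- the good heights away from the ends of the window
  set D'' := D'.filter (fun x => (m : ℤ) + 2 ≤ x.2 ∧ x.2 ≤ n - m - 1) with hD''
  have hD''card : 6 * (m + 1) ≤ D''.card := by
    have h1 : D' ⊆ D'' ∪ ((Finset.Icc (1 : ℤ) (m + 1)).image (fun y => ((1, y) : ℤ × ℤ)) ∪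
        (Finset.Icc (n - m) n).image (fun y => ((1, y) : ℤ × ℤ))) := by
      intro x hx
      have hx' := (Finset.mem_filter.mp hx).1
      obtain ⟨_, h2, h3, h4, _⟩ := (hD x).mp hx'
      by_cases h5 : (m : ℤ) + 2 ≤ x.2 ∧ x.2 ≤ n - m - 1
      · apply Finset.mem_union_left
        exact Finset.mem_filter.mpr ⟨hx, h5⟩
      · apply Finset.mem_union_right
        rw [Finset.mem_union, Finset.mem_image, Finset.mem_image]
        rcases le_or_gt x.2 ((m : ℤ) + 1) with h6 | h6
        · left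
          exact ⟨x.2, Finset.mem_Icc.mpr ⟨h3, h6⟩, Prod.ext h2.symm rfl⟩
        · right
          refine ⟨x.2, Finset.mem_Icc.mpr ⟨by omega, h4⟩, Prod.ext h2.symm rfl⟩
    have h2 := Finset.card_le_card h1
    have h3 := Finset.card_union_le D'' ((Finset.Icc (1 : ℤ) (m + 1)).image
      (fun y => ((1, y) : ℤ × ℤ)) ∪ (Finset.Icc (n - m) n).image (fun y => ((1, y) : ℤ × ℤ)))
    have h4 := Finset.card_union_le ((Finset.Icc (1 : ℤ) (m + 1)).image
      (fun y => ((1, y) : ℤ × ℤ))) ((Finset.Icc (n - m) n).image (fun y => ((1, y) : ℤ × ℤ)))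
    have h5 : ((Finset.Icc (1 : ℤ) (m + 1)).image (fun y => ((1, y) : ℤ × ℤ))).card ≤ m + 1 := by
      refine Finset.card_image_le.trans ?_
      rw [Int.card_Icc]
      omega
    have h6 : ((Finset.Icc (n - m) n).image (fun y => ((1, y) : ℤ × ℤ))).card ≤ m + 1 := by
      refine Finset.card_image_le.trans ?_
      rw [Int.card_Icc]
      omega
    omega
  refine hD''card.trans ?_
  -- inject into the heights
  refine Finset.card_le_card_of_injOn (fun x => x.2) ?_ ?_
  · intro x hx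
    have hx1 := Finset.mem_filter.mp hx
    have hx2 := Finset.mem_filter.mp hx1.1
    obtain ⟨hxC, hx3, hx4, hx5, hx6⟩ := (hD x).mp hx2.1
    obtain ⟨g1, g2, g3⟩ := hH x hx2.1
    have hxe : ((1, x.2) : ℤ × ℤ) = x := Prod.ext hx3.symm rfl
    rw [Finset.mem_coe, Finset.mem_filter, Finset.mem_Icc]
    refine ⟨⟨hx4, hx5⟩, ?_, fun v => if |v.2 - x.2| ≤ m + 1 then H x v else 0, ?_, ?_, ?_, ?_⟩
    · rw [hxe]
      exact ⟨hxC, hx3, hx6⟩
    · intro v _ hv0
      simp only
      split_ifs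
      · exact g1 v hv0
      · simp
    · intro v hv hv1 hv2'
      have hv2 : |v.2 - x.2| ≤ m := hv2'
      clear hv2'
      rw [abs_le] at hv1 hv2
      have h1 := g2 v hv (by omega) (by omega) (by omega) (by omega)
      rw [← h1]
      apply lap_congr
      · intro w _; exact Iff.rfl
      · rw [if_pos]
        rw [abs_le]
        constructor <;> omega
      · intro w hw
        rw [if_pos]
        rw [mem_nb, lattice_adj_iff] at hw
        rw [abs_le]
        rcases hw with h | h | h | h <;> rw [h] <;> simp only <;> constructor <;> omega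
    · simp only [hxe, sub_self, abs_zero]
      rw [if_pos (by positivity)]
      exact hx2.2
    · intro F hF
      have e1 : ∑ z ∈ F, (if |z.2 - x.2| ≤ (m : ℤ) + 1 then H x z else 0) ^ 2 =
          ∑ z ∈ F.filter (fun z => |z.2 - x.2| ≤ (m : ℤ) + 1), H x z ^ 2 := by
        rw [Finset.sum_filter]
        apply sum_congr rfl
        intro z _
        split_ifs <;> simp
      simp only
      rw [e1]
      refine le_trans ?_ g3
      apply Finset.sum_le_sum_of_subset_of_nonneg
      · intro z hz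
        rw [Finset.mem_filter] at hz
        obtain ⟨h1, h2, h3⟩ := hF z hz.1
        have h4 := hz.2
        rw [abs_le] at h4
        rw [hD]
        refine ⟨h1, h2, by omega, by omega, h3⟩
      · intro z _ _
        exact sq_nonneg _
  · intro x hx x' hx' h
    have hx1 := (Finset.mem_filter.mp (Finset.mem_filter.mp hx).1).1
    have hx1' := (Finset.mem_filter.mp (Finset.mem_filter.mp hx').1).1
    have h1 := ((hD x).mp hx1).2.1
    have h2 := ((hD x').mp hx1').2.1
    exact Prod.ext (by rw [h1, h2]) h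

end Pool.Agent.Lib.MP_566bac_pr
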