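import Pool.Agent.Lib.MP_566bac_pr.BevK

/-!
# The local events have probability bounded below
-/

open SimpleGraph Finset Filter MeasureTheory ProbabilityTheory unitInterval
open scoped ENNReal

namespace Pool.Agent.Lib.MP_566bac_pr

open Classical in
/-- the deterministic count -/
lemma countK {S : Set Edge} (hS : Tame S) (m A : ℕ) (hA : 1 ≤ A)
    (h0 : ∀ h : ℤ, ((A * (8 * (m + 1)) : ℕ) : ℤ) ≤ h → ¬ Rk S (8 * (m + 1)) (0, h))
    (h1 : ∀ h : ℤ, ((A * (8 * (m + 1)) : ℕ) : ℤ) ≤ h → ¬ Rk S (8 * (m + 1)) (1, h)) :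
    2 * (m + 1) ≤ {y ∈ Finset.Icc (1 : ℤ) ((A * (8 * (m + 1)) : ℕ) : ℤ) |
      Bev (1 / (2 * A)) m y S}.card := by
  classical
  set K : ℕ := 8 * (m + 1) with hK
  set n : ℤ := ((A * K : ℕ) : ℤ) with hn
  set G := openGraph S with hG
  set M : ℤ := m + 1 with hM
  have hAr : (1 : ℝ) ≤ A := by exact_mod_cast hA
  have hnM : 8 * ((m : ℤ) + 1) ≤ n := by
    rw [hn, hK]
    push_cast
    have : (1 : ℤ) ≤ A := by exact_mod_cast hA
    nlinarith
  -- the lines
  have hl := fun i : Fin K => line hS (i + 1) (m := M) (by omega)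
  choose s t γ hs ht hγ hadj hinf hon using hl
  have hdisj : ∀ i k : Fin K, i ≠ k → ∀ z ∈ (γ i).support, z ∉ (γ k).support := by
    intro i k hik z hz hz'
    have := on_disj (hon i z hz) (hon k z hz')
    exact hik (Fin.ext (by omega))
  have hwin : ∀ i : Fin K, 1 ≤ (s i).2 ∧ (s i).2 ≤ n := by
    intro i
    have hsi := hon i (s i) (by simp)
    have a1 := on_low hsi
    have a2 := on_high hsi (H := n) (by
      intro h hh hr
      rw [hs i] at hr
      exact h1 h hh (rk_mono (by omega) hr)) (by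
      intro h hh hr
      rw [hs i, sub_self] at hr
      exact h0 h hh (rk_mono (by omega) hr))
    push_cast at a1
    omega
  obtain ⟨H, D, hD, hsum, hH⟩ := window2 (openGraph_le' S) (m := M) (n := n) (by omega)
    s t γ hs ht hγ hdisj hwin hadj hinf
  rw [Fintype.card_fin] at hsum
  -- the good vertices of the window
  set κ : ℝ := 1 / (2 * A) with hκ
  have hκ0 : 0 < κ := by positivity
  set D' := D.filter (fun x => κ ≤ H x x) with hD'
  have hle1 : ∀ x ∈ D, H x x ≤ 1 := by
    intro x hx
    have h1 := (hH x hx).2.2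
    have h2 : H x x ^ 2 ≤ 1 :=
      (single_le_sum (f := fun y => H x y ^ 2) (fun y _ => sq_nonneg _) hx).trans h1
    nlinarith
  have hDcard : (D.card : ℝ) ≤ A * K := by
    have h1 : D ⊆ (Finset.Icc (1 : ℤ) n).image (fun y => ((1, y) : ℤ × ℤ)) := by
      intro x hx
      obtain ⟨_, h2, h3, h4, _⟩ := (hD x).mp hx
      rw [Finset.mem_image]
      exact ⟨x.2, Finset.mem_Icc.mpr ⟨h3, h4⟩, Prod.ext h2.symm rfl⟩
    have h2 := (Finset.card_le_card h1).trans Finset.card_image_le
    rw [Int.card_Icc] at h2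
    have h3 : (n + 1 - 1).toNat = A * K := by omega
    rw [h3] at h2
    exact_mod_cast h2
  have hD'card : 4 * (m + 1) ≤ D'.card := by
    have h1 : ∑ x ∈ D, H x x ≤ ∑ x ∈ D, (κ + if κ ≤ H x x then (1 : ℝ) else 0) := by
      apply sum_le_sum
      intro x hx
      have := hle1 x hx
      split_ifs with h
      · linarith
      · push Not at h
        linarith
    rw [sum_add_distrib, sum_const, nsmul_eq_mul, ← Finset.sum_filter, sum_const, nsmul_eq_mul,
      mul_one] at h1
    have h2 : (K : ℝ) ≤ D.card * κ + D'.card := hsum.trans h1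
    have h3 : (K : ℝ) = 8 * (m + 1) := by rw [hK]; push_cast; ring
    have h5 : (D.card : ℝ) * κ ≤ K / 2 := by
      calc (D.card : ℝ) * κ ≤ (A * K) * κ := by gcongr
        _ = K / 2 := by rw [hκ]; field_simp
    have h4 : (4 * (m + 1) : ℝ) ≤ D'.card := by linarith
    exact_mod_cast h4
  -- the good heights away from the ends of the window
  set D'' := D'.filter (fun x => (m : ℤ) + 2 ≤ x.2 ∧ x.2 ≤ n - m - 1) with hD''
  have hD''card : 2 * (m + 1) ≤ D''.card := by
    have h1 : D' ⊆ D'' ∪ ((Finset.Icc (1 : ℤ) (m + 1)).image (fun y => ((1, y) : ℤ × ℤ)) ∪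
        (Finset.Icc (n - m) n).image (fun y => ((1, y) : ℤ × ℤ))) := by
      intro x hx
      have hx' := (Finset.mem_filter.mp hx).1
      obtain ⟨_, h2, h3, h4, _⟩ := (hD x).mp hx'
      by_cases h5 : (m : ℤ) + 2 ≤ x.2 ∧ x.2 ≤ n - m - 1
      · apply Finset.mem_union_left
        exact Finset.mem_filter.mpr ⟨hx, h5⟩
      · apply Finset.mem_union_right
        rw [Finset.mem_union, Finset.mem_image, Finset.mem_image]
        rcases le_or_gt x.2 ((m : ℤ) + 1) with h6 | h6
        · left
          exact ⟨x.2, Finset.mem_Icc.mpr ⟨h3, h6⟩, Prod.ext h2.symm rfl⟩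
        · right
          refine ⟨x.2, Finset.mem_Icc.mpr ⟨by omega, h4⟩, Prod.ext h2.symm rfl⟩
    have h2 := Finset.card_le_card h1
    have h3 := Finset.card_union_le D'' ((Finset.Icc (1 : ℤ) (m + 1)).image
      (fun y => ((1, y) : ℤ × ℤ)) ∪ (Finset.Icc (n - m) n).image (fun y => ((1, y) : ℤ × ℤ)))
    have h4 := Finset.card_union_le ((Finset.Icc (1 : ℤ) (m + 1)).image
      (fun y => ((1, y) : ℤ × ℤ))) ((Finset.Icc (n - m) n).image (fun y => ((1, y) : ℤ × ℤ)))
    have h5 : ((Finset.Icc (1 : ℤ) (m + 1)).image (fun y => ((1, y) : ℤ × ℤ))).card ≤ m + 1 := by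
      refine Finset.card_image_le.trans ?_
      rw [Int.card_Icc]
      omega
    have h6 : ((Finset.Icc (n - m) n).image (fun y => ((1, y) : ℤ × ℤ))).card ≤ m + 1 := by
      refine Finset.card_image_le.trans ?_
      rw [Int.card_Icc]
      omega
    omega
  refine hD''card.trans ?_
  -- inject into the heights
  refine Finset.card_le_card_of_injOn (fun x => x.2) ?_ ?_
  · intro x hx
    have hx1 := Finset.mem_filter.mp hx
    have hx2 := Finset.mem_filter.mp hx1.1
    obtain ⟨hxC, hx3, hx4, hx5, hx6⟩ := (hD x).mp hx2.1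
    obtain ⟨g1, g2, g3⟩ := hH x hx2.1
    have hxe : ((1, x.2) : ℤ × ℤ) = x := Prod.ext hx3.symm rfl
    rw [Finset.mem_coe, Finset.mem_filter, Finset.mem_Icc]
    refine ⟨⟨hx4, hx5⟩, ?_, fun v => if |v.2 - x.2| ≤ m + 1 then H x v else 0, ?_, ?_, ?_, ?_⟩
    · rw [hxe]
      exact ⟨hxC, hx3, hx6⟩
    · intro v _ hv0
      simp only
      split_ifs
      · exact g1 v hv0
      · simp
    · intro v hv hv1 hv2'
      have hv2 : |v.2 - x.2| ≤ m := hv2'
      clear hv2'
      rw [abs_le] at hv1 hv2
      have h1 := g2 v hv (by omega) (by omega) (by omega) (by omega)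
      rw [← h1]
      apply lap_congr
      · intro w _; exact Iff.rfl
      · rw [if_pos]
        rw [abs_le]
        constructor <;> omega
      · intro w hw
        rw [if_pos]
        rw [mem_nb, lattice_adj_iff] at hw
        rw [abs_le]
        rcases hw with h | h | h | h <;> rw [h] <;> simp only <;> constructor <;> omega
    · simp only [hxe, sub_self, abs_zero]
      rw [if_pos (by positivity)]
      exact hx2.2
    · intro F hF
      have e1 : ∑ z ∈ F, (if |z.2 - x.2| ≤ (m : ℤ) + 1 then H x z else 0) ^ 2 =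
          ∑ z ∈ F.filter (fun z => |z.2 - x.2| ≤ (m : ℤ) + 1), H x z ^ 2 := by
        rw [Finset.sum_filter]
        apply sum_congr rfl
        intro z _
        split_ifs <;> simp
      simp only
      rw [e1]
      refine le_trans ?_ g3
      apply Finset.sum_le_sum_of_subset_of_nonneg
      · intro z hz
        rw [Finset.mem_filter] at hz
        obtain ⟨h1, h2, h3⟩ := hF z hz.1
        have h4 := hz.2
        rw [abs_le] at h4
        rw [hD]
        refine ⟨h1, h2, by omega, by omega, h3⟩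
      · intro z _ _
        exact sq_nonneg _
  · intro x hx x' hx' h
    have hx1 := (Finset.mem_filter.mp (Finset.mem_filter.mp hx).1).1
    have hx1' := (Finset.mem_filter.mp (Finset.mem_filter.mp hx').1).1
    have h1 := ((hD x).mp hx1).2.1
    have h2 := ((hD x').mp hx1').2.1
    exact Prod.ext (by rw [h1, h2]) h

end Pool.Agent.Lib.MP_566bac_pr
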