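import Pool.Agent.Lib.MP_566bac_pr.FinalK

/-!
# The critical probability of bond percolation on the square lattice

The critical probability is defined as an infimum, and it is shown to be one half
(the theorem of Harris and Kesten).
-/

open SimpleGraph Finset Filter MeasureTheory ProbabilityTheory unitInterval
open scoped ENNReal

namespace Pool.Agent.Lib.MP_566bac_pr

/-- The critical probability of bond percolation on `ℤ²`: the infimum of the parameters `q`
for which there is an infinite open cluster with positive probability. -/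
noncomputable def criticalProbability : ℝ :=
  sInf {q : ℝ | ∃ hq : q ∈ Set.Icc (0 : ℝ) 1,
    0 < setBernoulli lattice.edgeSet ⟨q, hq⟩ {S | ∃ C, IsInfiniteCluster S C}}

lemma inf_subset_far (n : ℕ) : {S | (0 : ℤ × ℤ) ∈ infSet (openGraph S)} ⊆ Far n 0 := by
  intro S hS
  by_contra hcon
  apply hS
  apply Set.Finite.subset (Finset.finite_toSet (Lam 0 n))
  intro z hz
  rw [Finset.mem_coe, mem_Lam]
  by_contra h1
  exact hcon ⟨z, by omega, hz⟩

theorem no_perc {p : I} (hp : (p : ℝ) ≤ 1 / 2) :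
    (perc p).real {S | (0 : ℤ × ℤ) ∈ infSet (openGraph S)} = 0 := by
  apply le_antisymm _ measureReal_nonneg
  apply le_of_forall_pos_le_add
  intro δ hδ
  obtain ⟨n, hn⟩ := far_half hδ
  have h1 : p ≤ half := hp
  calc (perc p).real {S | (0 : ℤ × ℤ) ∈ infSet (openGraph S)} ≤ (perc p).real (Far n 0) :=
        perc_mono p (inf_subset_far n)
    _ ≤ (perc half).real (Far n 0) := perc_mono_q h1 (far_loc n 0) (far_inc n 0)
    _ ≤ 0 + δ := by linarith

theorem no_cluster {p : I} (hp : (p : ℝ) ≤ 1 / 2) :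
    perc p {S | ∃ C, IsInfiniteCluster S C} = 0 := by
  have hsub : {S : Set Edge | ∃ C, IsInfiniteCluster S C} ⊆
      ⋃ v : ℤ × ℤ, {S | v ∈ infSet (openGraph S)} := by
    rintro S ⟨C, hC, v, rfl⟩
    rw [Set.mem_iUnion]
    exact ⟨v, hC⟩
  refine measure_mono_null hsub (measure_iUnion_null fun v => ?_)
  have h1 : pull (transE v) ⁻¹' {S | (0 : ℤ × ℤ) ∈ infSet (openGraph S)} =
      {S | v ∈ infSet (openGraph S)} := by
    ext S
    rw [Set.mem_preimage, Set.mem_ofPred_eq, Set.mem_ofPred_eq, pull_inf (isAuto_transE v)]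
    rw [show transE v 0 = v by simp [transE_apply]]
  have h2 := perc_pull (isAuto_transE v) p (measurableSet_infSet 0)
  rw [h1, no_perc hp, measureReal_def, ENNReal.toReal_eq_zero_iff] at h2
  exact h2.resolve_right (measure_ne_top _ _)

theorem half_lt_of_cluster {p : I} (h : 0 < perc p {S | ∃ C, IsInfiniteCluster S C}) :
    1 / 2 < (p : ℝ) := by
  by_contra hcon
  rw [no_cluster (not_lt.mp hcon)] at h
  exact lt_irrefl _ h

theorem cluster_of_half_lt {p : I} (hp : 1 / 2 < (p : ℝ)) :
    0 < perc p {S | ∃ C, IsInfiniteCluster S C} := by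
  have h1 : ∀ᵐ S ∂(perc p), ∃ C, IsInfiniteCluster S C := by
    filter_upwards [main hp] with S hS
    obtain ⟨C, hC, _⟩ := hS
    exact ⟨C, hC⟩
  have h2 : perc p {S | ∃ C, IsInfiniteCluster S C}ᶜ = 0 := h1
  rw [pos_iff_ne_zero]
  intro h3
  have h4 : perc p Set.univ ≤ 0 := by
    calc perc p Set.univ = perc p ({S | ∃ C, IsInfiniteCluster S C} ∪
          {S | ∃ C, IsInfiniteCluster S C}ᶜ) := by rw [Set.union_compl_self]
      _ ≤ perc p {S | ∃ C, IsInfiniteCluster S C} +
          perc p {S | ∃ C, IsInfiniteCluster S C}ᶜ := measure_union_le _ _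
      _ = 0 := by rw [h2, h3, add_zero]
  rw [measure_univ] at h4
  exact absurd h4 (by norm_num)

/-- **The critical probability is one half** (Harris, Kesten). -/
theorem criticalProbability_eq : criticalProbability = 1 / 2 := by
  have hne : (1 : ℝ) ∈ {q : ℝ | ∃ hq : q ∈ Set.Icc (0 : ℝ) 1,
      0 < setBernoulli lattice.edgeSet ⟨q, hq⟩ {S | ∃ C, IsInfiniteCluster S C}} :=
    ⟨⟨zero_le_one, le_rfl⟩, cluster_of_half_lt (p := ⟨1, zero_le_one, le_rfl⟩) (by norm_num)⟩
  apply le_antisymm
  · apply le_of_forall_gt_imp_ge_of_dense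
    intro q hq
    rcases le_or_gt q 1 with h1 | h1
    · apply csInf_le ⟨0, fun x hx => hx.1.1⟩
      have h0 : (0 : ℝ) ≤ q := by linarith
      exact ⟨⟨h0, h1⟩, cluster_of_half_lt (p := ⟨q, h0, h1⟩) hq⟩
    · refine le_trans (csInf_le ⟨0, fun x hx => hx.1.1⟩ hne) h1.le
  · apply le_csInf ⟨1, hne⟩
    rintro q ⟨hq, h⟩
    exact (half_lt_of_cluster (p := ⟨q, hq⟩) h).le

end Pool.Agent.Lib.MP_566bac_pr
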