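import Pool.Agent.Lib.MP_566bac_pr.Defs

/-!
# Disjoint crossings of a vertical strip are ordered
-/

open SimpleGraph

namespace Pool.Agent.Lib.MP_566bac_pr

/-- the step from `u` to `v` crosses the gap between the columns `a` and `a + 1`
strictly above the height `b` -/
noncomputable def cr (a b : ℤ) (u v : ℤ × ℤ) : ZMod 2 := by
  classical
  exact if ((u.1 = a ∧ v.1 = a + 1) ∨ (u.1 = a + 1 ∧ v.1 = a)) ∧ b < u.2 then 1 else 0

/-- indicator of the part of the column `a` strictly above the height `b` -/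
noncomputable def col (a b : ℤ) (u : ℤ × ℤ) : ZMod 2 := by
  classical
  exact if u.1 = a ∧ b < u.2 then 1 else 0

/-- sum of a function of the steps of a walk -/
noncomputable def wsum (g : ℤ × ℤ → ℤ × ℤ → ZMod 2) : ∀ {u v : ℤ × ℤ}, lattice.Walk u v → ZMod 2
  | _, _, Walk.nil => 0
  | u, _, Walk.cons (v := w) _ p => g u w + wsum g p

lemma lattice_adj_iff {x y : ℤ × ℤ} : lattice.Adj x y ↔
    (y = (x.1 + 1, x.2) ∨ y = (x.1 - 1, x.2) ∨ y = (x.1, x.2 + 1) ∨ y = (x.1, x.2 - 1)) := by
  change |x.1 - y.1| + |x.2 - y.2| = 1 ↔ _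
  obtain ⟨a, b⟩ := x
  obtain ⟨c, d⟩ := y
  simp only [Prod.mk.injEq]
  constructor
  · intro h
    rcases abs_cases (a - c) with h1 | h1 <;> rcases abs_cases (b - d) with h2 | h2 <;> omega
  · rintro (h | h | h | h) <;> obtain ⟨rfl, rfl⟩ := h <;> simp

lemma wsum_congr {g g' : ℤ × ℤ → ℤ × ℤ → ZMod 2} {u v : ℤ × ℤ} (p : lattice.Walk u v)
    (h : ∀ x ∈ p.support, ∀ y ∈ p.support, lattice.Adj x y → g x y = g' x y) :
    wsum g p = wsum g' p := by
  induction p with
  | nil => rfl
  | @cons u w v hadj p ih =>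
    simp only [wsum]
    rw [ih (fun x hx y hy => h x (by simp [hx]) y (by simp [hy])),
      h u (by simp) w (by simp) hadj]

lemma wsum_add (g g' : ℤ × ℤ → ℤ × ℤ → ZMod 2) {u v : ℤ × ℤ} (p : lattice.Walk u v) :
    wsum (fun x y => g x y + g' x y) p = wsum g p + wsum g' p := by
  induction p with
  | nil => simp [wsum]
  | cons hadj p ih =>
    simp only [wsum, ih]
    ring

lemma wsum_tele (I : ℤ × ℤ → ZMod 2) {u v : ℤ × ℤ} (p : lattice.Walk u v) :
    wsum (fun x y => I x + I y) p = I u + I v := by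
  induction p with
  | nil => simp [wsum, CharTwo.add_self_eq_zero]
  | @cons u w v hadj p ih =>
    simp only [wsum, ih]
    have : I w + I w = 0 := CharTwo.add_self_eq_zero _
    linear_combination this

lemma zmod2_one_add_one : (1 : ZMod 2) + 1 = 0 := by decide

lemma cr_vert {a b c : ℤ} (hc : c = a ∨ c = a + 1) {x y : ℤ × ℤ} (hxy : lattice.Adj x y)
    (hx : x ≠ (c, b + 1)) (hy : y ≠ (c, b + 1)) :
    cr a b x y = cr a (b + 1) x y := by
  classical
  obtain ⟨x1, x2⟩ := x
  rw [lattice_adj_iff] at hxy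
  simp only [ne_eq, Prod.mk.injEq] at hx hy
  unfold cr
  rcases hxy with h | h | h | h <;> subst h <;> simp only [Prod.mk.injEq] at hy ⊢ <;>
    split_ifs <;> first | rfl | (exfalso; omega)

lemma cr_horiz {a b : ℤ} {x y : ℤ × ℤ} (hxy : lattice.Adj x y)
    (hx : x ≠ (a + 1, b)) (hy : y ≠ (a + 1, b)) :
    cr a b x y + cr (a + 1) b x y = col (a + 1) b x + col (a + 1) b y := by
  classical
  obtain ⟨x1, x2⟩ := x
  rw [lattice_adj_iff] at hxy
  simp only [ne_eq, Prod.mk.injEq] at hx hy
  unfold cr col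
  rcases hxy with h | h | h | h <;> subst h <;> simp only [Prod.mk.injEq] at hy ⊢ <;>
    split_ifs <;> first | rfl | (exfalso; omega)

lemma cr_left {a b : ℤ} {x y : ℤ × ℤ} (hxy : lattice.Adj x y) (hx0 : a ≤ x.1) (hy0 : a ≤ y.1)
    (hx : x ≠ (a, b)) (hy : y ≠ (a, b)) :
    cr a b x y = col a b x + col a b y := by
  classical
  obtain ⟨x1, x2⟩ := x
  rw [lattice_adj_iff] at hxy
  simp only [ne_eq, Prod.mk.injEq] at hx hy
  unfold cr col
  rcases hxy with h | h | h | h <;> subst h <;> simp only [Prod.mk.injEq] at * <;>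
    split_ifs <;> first | rfl | (exfalso; omega)

lemma cr_right {a b : ℤ} {x y : ℤ × ℤ} (hxy : lattice.Adj x y) (hx0 : x.1 ≤ a + 1)
    (hy0 : y.1 ≤ a + 1) (hx : x ≠ (a + 1, b)) (hy : y ≠ (a + 1, b)) :
    cr a b x y = col (a + 1) b x + col (a + 1) b y := by
  classical
  obtain ⟨x1, x2⟩ := x
  rw [lattice_adj_iff] at hxy
  simp only [ne_eq, Prod.mk.injEq] at hx hy
  unfold cr col
  rcases hxy with h | h | h | h <;> subst h <;> simp only [Prod.mk.injEq] at * <;>
    split_ifs <;> first | rfl | (exfalso; omega)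

/-- the parity of the number of crossings of the walk above a vertex -/
noncomputable def side {u v : ℤ × ℤ} (p : lattice.Walk u v) (M : ℤ) (z : ℤ × ℤ) : ZMod 2 :=
  wsum (cr (min z.1 (M - 1)) z.2) p

lemma side_step {M : ℤ} (hM : 2 ≤ M) {u v : ℤ × ℤ} (p : lattice.Walk u v)
    (hu : u.1 = 1) (hv : v.1 = M) {z w : ℤ × ℤ} (hzw : lattice.Adj z w)
    (hz : z ∉ p.support) (hw : w ∉ p.support)
    (hz1 : 1 ≤ z.1) (hzM : z.1 ≤ M) (hw1 : 1 ≤ w.1) (hwM : w.1 ≤ M) :
    side p M z = side p M w := by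
  -- vertical steps
  have hvert : ∀ a b : ℤ, 1 ≤ a → a ≤ M → (a, b + 1) ∉ p.support →
      side p M (a, b) = side p M (a, b + 1) := by
    intro a b ha haM hnot
    unfold side
    apply wsum_congr
    intro x hx y hy hxy
    refine cr_vert (c := a) ?_ hxy ?_ ?_
    · simp only
      omega
    · rintro rfl; exact hnot hx
    · rintro rfl; exact hnot hy
  have hhor : ∀ a b : ℤ, 1 ≤ a → a + 1 ≤ M → (a + 1, b) ∉ p.support →
      side p M (a, b) = side p M (a + 1, b) := by
    intro a b ha haM hnot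
    unfold side
    rcases eq_or_lt_of_le haM with h | h
    · have h1 : min (a, b).1 (M - 1) = a := by simp only; omega
      have h2 : min (a + 1, b).1 (M - 1) = a := by simp only; omega
      rw [h1, h2]
    · have h1 : min (a, b).1 (M - 1) = a := by simp only; omega
      have h2 : min (a + 1, b).1 (M - 1) = a + 1 := by simp only; omega
      rw [h1, h2]
      have h3 : wsum (fun x y => cr a b x y + cr (a + 1) b x y) p =
          wsum (fun x y => col (a + 1) b x + col (a + 1) b y) p := by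
        apply wsum_congr
        intro x hx y hy hxy
        refine cr_horiz hxy ?_ ?_
        · rintro rfl; exact hnot hx
        · rintro rfl; exact hnot hy
      rw [wsum_add, wsum_tele] at h3
      have h4 : col (a + 1) b u = 0 := by
        unfold col
        rw [if_neg]
        rintro ⟨h5, _⟩
        omega
      have h5 : col (a + 1) b v = 0 := by
        unfold col
        rw [if_neg]
        rintro ⟨h5, _⟩
        omega
      rw [h4, h5, add_zero] at h3
      have h6 : wsum (cr (a + 1) b) p + wsum (cr (a + 1) b) p = 0 := CharTwo.add_self_eq_zero _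
      change wsum (cr a b) p = wsum (cr (a + 1) b) p
      linear_combination h3 - h6
  obtain ⟨a, b⟩ := z
  rw [lattice_adj_iff] at hzw
  simp only at hzw hz1 hzM
  rcases hzw with h | h | h | h
  · subst h
    exact hhor a b hz1 hwM hw
  · subst h
    have := hhor (a - 1) b hw1 (by omega) (by rw [sub_add_cancel]; exact hz)
    rw [sub_add_cancel] at this
    exact this.symm
  · subst h
    exact hvert a b hz1 hzM hw
  · subst h
    have := hvert a (b - 1) hz1 hzM (by rw [sub_add_cancel]; exact hz)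
    rw [sub_add_cancel] at this
    exact this.symm

lemma side_walk {M : ℤ} (hM : 2 ≤ M) {u v : ℤ × ℤ} (p : lattice.Walk u v)
    (hu : u.1 = 1) (hv : v.1 = M) {z w : ℤ × ℤ} (q : lattice.Walk z w)
    (hq : ∀ x ∈ q.support, 1 ≤ x.1 ∧ x.1 ≤ M) (hd : ∀ x ∈ q.support, x ∉ p.support) :
    side p M z = side p M w := by
  induction q with
  | nil => rfl
  | @cons z y w hadj q ih =>
    have h1 := hq z (by simp)
    have h2 := hq y (by simp)
    have e := side_step hM p hu hv hadj (hd z (by simp)) (hd y (by simp)) h1.1 h1.2 h2.1 h2.2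
    rw [e]
    exact ih (fun x hx => hq x (by simp [hx])) (fun x hx => hd x (by simp [hx]))

lemma side_start {M : ℤ} (hM : 2 ≤ M) {u v : ℤ × ℤ} (p : lattice.Walk u v)
    (hv : v.1 = M) (hp : ∀ x ∈ p.support, 1 ≤ x.1 ∧ x.1 ≤ M)
    {z : ℤ × ℤ} (hz1 : z.1 = 1) (hz : z ∉ p.support) :
    side p M z = col 1 z.2 u := by
  obtain ⟨a, b⟩ := z
  simp only at hz1
  subst hz1
  unfold side
  have h1 : min (1, b).1 (M - 1) = (1 : ℤ) := by simp only; omega
  rw [h1]
  have h3 : wsum (cr 1 b) p = wsum (fun x y => col 1 b x + col 1 b y) p := by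
    apply wsum_congr
    intro x hx y hy hxy
    refine cr_left hxy (hp x hx).1 (hp y hy).1 ?_ ?_
    · rintro rfl; exact hz hx
    · rintro rfl; exact hz hy
  change wsum (cr 1 b) p = _
  rw [h3, wsum_tele]
  have h5 : col 1 b v = 0 := by
    unfold col
    rw [if_neg]
    rintro ⟨h5, _⟩
    omega
  rw [h5, add_zero]

lemma side_end {M : ℤ} (hM : 2 ≤ M) {u v : ℤ × ℤ} (p : lattice.Walk u v)
    (hu : u.1 = 1) (hp : ∀ x ∈ p.support, 1 ≤ x.1 ∧ x.1 ≤ M)
    {z : ℤ × ℤ} (hz1 : z.1 = M) (hz : z ∉ p.support) :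
    side p M z = col M z.2 v := by
  obtain ⟨a, b⟩ := z
  simp only at hz1
  subst hz1
  unfold side
  have h1 : min (a, b).1 (a - 1) = a - 1 := by simp only; omega
  rw [h1]
  have h3 : wsum (cr (a - 1) b) p = wsum (fun x y => col a b x + col a b y) p := by
    apply wsum_congr
    intro x hx y hy hxy
    have := cr_right (a := a - 1) (b := b) hxy (by rw [sub_add_cancel]; exact (hp x hx).2)
      (by rw [sub_add_cancel]; exact (hp y hy).2) ?_ ?_
    · rw [sub_add_cancel] at this
      exact this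
    · rw [sub_add_cancel]; rintro rfl; exact hz hx
    · rw [sub_add_cancel]; rintro rfl; exact hz hy
  change wsum (cr (a - 1) b) p = _
  rw [h3, wsum_tele]
  have h5 : col a b u = 0 := by
    unfold col
    rw [if_neg]
    rintro ⟨h5, _⟩
    omega
  rw [h5, zero_add]

/-- **Crossing lemma.** Two disjoint left-right crossings of the strip `1 ≤ x ≤ M` have the same
vertical order on the two sides of the strip. -/
theorem crossing_order {M : ℤ} (hM : 2 ≤ M) {u v u' v' : ℤ × ℤ} (p : lattice.Walk u v)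
    (p' : lattice.Walk u' v') (hu : u.1 = 1) (hv : v.1 = M) (hu' : u'.1 = 1) (hv' : v'.1 = M)
    (hp : ∀ x ∈ p.support, 1 ≤ x.1 ∧ x.1 ≤ M) (hp' : ∀ x ∈ p'.support, 1 ≤ x.1 ∧ x.1 ≤ M)
    (hd : ∀ x ∈ p'.support, x ∉ p.support) :
    u.2 < u'.2 ↔ v.2 < v'.2 := by
  have h1 := side_walk hM p hu hv p' hp' hd
  rw [side_start hM p hv hp hu' (hd u' (by simp)), side_end hM p hu hp hv' (hd v' (by simp))] at h1
  have h2 : u.2 ≠ u'.2 := by
    intro h
    apply hd u' (by simp)
    have : u' = u := Prod.ext (by omega) h.symm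
    rw [this]
    simp
  have h3 : v.2 ≠ v'.2 := by
    intro h
    apply hd v' (by simp)
    have : v' = v := Prod.ext (by omega) h.symm
    rw [this]
    simp
  unfold col at h1
  simp only [hu, hv, true_and] at h1
  split_ifs at h1 with h4 h5 h5
  · omega
  · exact absurd h1 (by decide)
  · exact absurd h1 (by decide)
  · omega

end Pool.Agent.Lib.MP_566bac_pr
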