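import Pool.Agent.Lib.MP_566bac_pr.Invariance

/-!
# Events determined by finitely many edges
-/

open MeasureTheory ProbabilityTheory Finset unitInterval
open scoped ENNReal

namespace Pool.Agent.Lib.MP_566bac_pr

/-- unordered pairs of vertices -/
abbrev Edge : Type := Sym2 (ℤ × ℤ)

/-- the event `A` is determined by the edges in `E` -/
def Det (E : Finset Edge) (A : Set (Set Edge)) : Prop :=
  ∀ S S' : Set Edge, (∀ e ∈ E, (e ∈ S ↔ e ∈ S')) → S ∈ A → S' ∈ A

/-- the edges of `E` are edges of the lattice -/
def Lat (E : Finset Edge) : Prop := ∀ e ∈ E, e ∈ lattice.edgeSet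

/-- cylinder events -/
def cyl (E ω : Finset Edge) : Set (Set Edge) := {S | ∀ e ∈ E, (e ∈ S ↔ e ∈ ω)}

open Classical in
/-- the probability of an event in finite volume -/
noncomputable def pr (q : ℝ) (E : Finset Edge) (A : Set (Set Edge)) : ℝ :=
  ∑ ω ∈ E.powerset, if (ω : Set Edge) ∈ A then q ^ ω.card * (1 - q) ^ (E.card - ω.card) else 0

lemma det_iff {E : Finset Edge} {A : Set (Set Edge)} (hA : Det E A) {S S' : Set Edge}
    (h : ∀ e ∈ E, (e ∈ S ↔ e ∈ S')) : S ∈ A ↔ S' ∈ A :=
  ⟨hA S S' h, hA S' S fun e he => (h e he).symm⟩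

lemma det_mono {E F : Finset Edge} {A : Set (Set Edge)} (hEF : E ⊆ F) (hA : Det E A) : Det F A :=
  fun S S' h => hA S S' fun e he => h e (hEF he)

lemma det_compl {E : Finset Edge} {A : Set (Set Edge)} (hA : Det E A) : Det E Aᶜ := by
  intro S S' h h1 h2
  exact h1 (hA S' S (fun e he => (h e he).symm) h2)

lemma det_inter {E : Finset Edge} {A B : Set (Set Edge)} (hA : Det E A) (hB : Det E B) :
    Det E (A ∩ B) := fun S S' h h1 => ⟨hA S S' h h1.1, hB S S' h h1.2⟩

lemma det_union {E : Finset Edge} {A B : Set (Set Edge)} (hA : Det E A) (hB : Det E B) :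
    Det E (A ∪ B) := fun S S' h h1 => h1.imp (hA S S' h) (hB S S' h)

lemma measurableSet_cyl (E ω : Finset Edge) : MeasurableSet (cyl E ω) := by
  have : cyl E ω = ⋂ e ∈ E, {S : Set Edge | e ∈ S ↔ e ∈ ω} := by
    ext S
    simp [cyl]
  rw [this]
  refine Finset.measurableSet_biInter _ fun e _ => ?_
  by_cases h : e ∈ ω
  · simp only [h, iff_true]
    exact measurableSet_mem e
  · simp only [h, iff_false]
    exact (measurableSet_mem e).compl

lemma det_cyl (E ω : Finset Edge) : Det E (cyl E ω) := by
  intro S S' h h1 e he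
  rw [← h e he]
  exact h1 e he

lemma cyl_prob (p : I) {E : Finset Edge} (hE : Lat E) {ω : Finset Edge} (hω : ω ⊆ E) :
    perc p (cyl E ω) = (toNNReal p : ℝ≥0∞) ^ ω.card * (toNNReal (σ p) : ℝ≥0∞) ^ (E.card - ω.card) := by
  classical
  rw [perc, setBernoulli_apply']
  have h1 : ((fun P : Edge → Prop ↦ {i | P i}) ⁻¹' cyl E ω) =
      Set.pi E (fun e => if e ∈ ω then {True} else {False}) := by
    ext P
    simp only [cyl, Set.mem_preimage, Set.mem_ofPred_eq, Set.mem_pi, Finset.mem_coe]
    refine forall₂_congr fun e _ => ?_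
    split_ifs with h <;> simp [h]
  rw [h1, Measure.infinitePi_pi _ (by intro i _; exact MeasurableSet.of_discrete)]
  have h2 : ∀ e ∈ E, ((toNNReal p • Measure.dirac (e ∈ lattice.edgeSet) +
      toNNReal (σ p) • Measure.dirac False : Measure Prop) (if e ∈ ω then {True} else {False}) : ℝ≥0∞) =
      if e ∈ ω then (toNNReal p : ℝ≥0∞) else (toNNReal (σ p) : ℝ≥0∞) := by
    intro e he
    have := hE e he
    split_ifs with h
    · simp [this]
    · simp [this]
  rw [prod_congr rfl h2, Finset.prod_ite, prod_const, prod_const]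
  congr 2
  · congr 1
    ext e
    simp only [Finset.mem_filter]
    exact ⟨fun h => h.2, fun h => ⟨hω h, h⟩⟩
  · have h3 : E.filter (fun e => e ∉ ω) = E \ ω := by
      ext e
      simp
    rw [h3, Finset.card_sdiff_of_subset hω]

open Classical in
lemma det_eq_iUnion {E : Finset Edge} {A : Set (Set Edge)} (hA : Det E A) :
    A = ⋃ ω ∈ E.powerset.filter (fun ω : Finset Edge => (ω : Set Edge) ∈ A), cyl E ω := by
  classical
  ext S
  simp only [Set.mem_iUnion, Finset.mem_filter, Finset.mem_powerset, exists_prop]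
  constructor
  · intro hS
    refine ⟨E.filter (fun e => e ∈ S), ⟨Finset.filter_subset _ _, ?_⟩, ?_⟩
    · refine hA S _ ?_ hS
      intro e he
      simp [he]
    · intro e he
      simp [he]
  · rintro ⟨ω, ⟨_, h2⟩, h3⟩
    refine hA _ S ?_ h2
    intro e he
    exact (h3 e he).symm

lemma det_measurable {E : Finset Edge} {A : Set (Set Edge)} (hA : Det E A) : MeasurableSet A := by
  classical
  rw [det_eq_iUnion hA]
  exact Finset.measurableSet_biUnion _ fun ω _ => measurableSet_cyl E ω

lemma perc_det (p : I) {E : Finset Edge} (hE : Lat E) {A : Set (Set Edge)} (hA : Det E A) :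
    (perc p).real A = pr p E A := by
  classical
  have h1 : perc p A = ∑ ω ∈ E.powerset.filter (fun ω : Finset Edge => (ω : Set Edge) ∈ A), perc p (cyl E ω) := by
    conv_lhs => rw [det_eq_iUnion hA]
    rw [measure_biUnion_finset]
    · intro ω hω ω' hω' hne
      simp only [Finset.coe_filter, Finset.mem_powerset, Set.mem_ofPred_eq] at hω hω'
      rw [Function.onFun, Set.disjoint_left]
      intro S h1 h2
      apply hne
      ext e
      by_cases he : e ∈ E
      · rw [← h1 e he, ← h2 e he]
      · exact ⟨fun h => absurd (hω.1 h) he, fun h => absurd (hω'.1 h) he⟩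
    · intro ω _
      exact measurableSet_cyl E ω
  rw [measureReal_def, h1, ENNReal.toReal_sum (fun ω _ => measure_ne_top _ _), pr,
    Finset.sum_filter]
  apply sum_congr rfl
  intro ω hω
  split_ifs with h
  · rw [cyl_prob p hE (Finset.mem_powerset.mp hω)]
    simp
  · rfl

lemma lat_union {E F : Finset Edge} (hE : Lat E) (hF : Lat F) : Lat (E ∪ F) := by
  intro e he
  rcases Finset.mem_union.mp he with h | h
  · exact hE e h
  · exact hF e h

/-- **Independence.** -/
lemma perc_indep (p : I) {E F : Finset Edge} (hE : Lat E) (hF : Lat F) (hEF : Disjoint E F)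
    {A B : Set (Set Edge)} (hA : Det E A) (hB : Det F B) :
    (perc p).real (A ∩ B) = (perc p).real A * (perc p).real B := by
  classical
  rw [perc_det p hE hA, perc_det p hF hB, perc_det p (lat_union hE hF)
    (det_inter (det_mono subset_union_left hA) (det_mono subset_union_right hB))]
  unfold pr
  rw [Finset.sum_mul_sum, ← Finset.sum_product']
  symm
  have hd1 : ∀ x ∈ E.powerset ×ˢ F.powerset, (x.1 ∪ x.2) ∩ E = x.1 := by
    intro x hx
    rw [Finset.mem_product, Finset.mem_powerset, Finset.mem_powerset] at hx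
    ext e
    simp only [Finset.mem_inter, Finset.mem_union]
    constructor
    · rintro ⟨h1 | h1, h2⟩
      · exact h1
      · exact absurd (hx.2 h1) (Finset.disjoint_left.mp hEF h2)
    · intro h
      exact ⟨Or.inl h, hx.1 h⟩
  have hd2 : ∀ x ∈ E.powerset ×ˢ F.powerset, (x.1 ∪ x.2) ∩ F = x.2 := by
    intro x hx
    rw [Finset.mem_product, Finset.mem_powerset, Finset.mem_powerset] at hx
    ext e
    simp only [Finset.mem_inter, Finset.mem_union]
    constructor
    · rintro ⟨h1 | h1, h2⟩
      · exact absurd h2 (Finset.disjoint_left.mp hEF (hx.1 h1))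
      · exact h1
    · intro h
      exact ⟨Or.inr h, hx.2 h⟩
  refine Finset.sum_nbij' (fun x => x.1 ∪ x.2) (fun ω => (ω ∩ E, ω ∩ F)) ?_ ?_ ?_ ?_ ?_
  · intro x hx
    rw [Finset.mem_product, Finset.mem_powerset, Finset.mem_powerset] at hx
    rw [Finset.mem_powerset]
    exact Finset.union_subset_union hx.1 hx.2
  · intro ω _
    rw [Finset.mem_product, Finset.mem_powerset, Finset.mem_powerset]
    exact ⟨Finset.inter_subset_right, Finset.inter_subset_right⟩
  · intro x hx
    exact Prod.ext (hd1 x hx) (hd2 x hx)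
  · intro ω hω
    rw [Finset.mem_powerset] at hω
    rw [← Finset.inter_union_distrib_left]
    exact Finset.inter_eq_left.mpr hω
  · intro x hx
    have e1 := hd1 x hx
    have e2 := hd2 x hx
    rw [Finset.mem_product, Finset.mem_powerset, Finset.mem_powerset] at hx
    have hx12 : Disjoint x.1 x.2 := Finset.disjoint_of_subset_left hx.1
      (Finset.disjoint_of_subset_right hx.2 hEF)
    have hc : (x.1 ∪ x.2).card = x.1.card + x.2.card := Finset.card_union_of_disjoint hx12
    have hc' : (E ∪ F).card = E.card + F.card := Finset.card_union_of_disjoint hEF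
    have hc1 := Finset.card_le_card hx.1
    have hc2 := Finset.card_le_card hx.2
    have hAiff : ((x.1 : Finset Edge) : Set Edge) ∈ A ↔ ((x.1 ∪ x.2 : Finset Edge) : Set Edge) ∈ A := by
      apply det_iff hA
      intro e he
      rw [Finset.mem_coe, Finset.mem_coe]
      conv_lhs => rw [← e1]
      simp [he]
    have hBiff : ((x.2 : Finset Edge) : Set Edge) ∈ B ↔ ((x.1 ∪ x.2 : Finset Edge) : Set Edge) ∈ B := by
      apply det_iff hB
      intro e he
      rw [Finset.mem_coe, Finset.mem_coe]
      conv_lhs => rw [← e2]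
      simp [he]
    rw [Set.mem_inter_iff, ← hAiff, ← hBiff, hc, hc']
    by_cases h1 : ((x.1 : Finset Edge) : Set Edge) ∈ A <;>
      by_cases h2 : ((x.2 : Finset Edge) : Set Edge) ∈ B
    · rw [if_pos h1, if_pos h2, if_pos ⟨h1, h2⟩]
      rw [show E.card + F.card - (x.1.card + x.2.card) = (E.card - x.1.card) + (F.card - x.2.card) by
        omega, pow_add, pow_add]
      ring
    · simp only [h1, h2, if_true, if_false, and_false, mul_zero]
    · simp only [h1, h2, if_true, if_false, false_and, zero_mul]
    · simp only [h1, h2, if_false, false_and, zero_mul]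

/-- increasing events -/
def Inc (A : Set (Set Edge)) : Prop := ∀ S S' : Set Edge, S ⊆ S' → S ∈ A → S' ∈ A

end Pool.Agent.Lib.MP_566bac_pr
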