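import Mathlib

/-!
# Bond percolation on the square lattice: definitions
-/

open MeasureTheory ProbabilityTheory Filter

namespace Pool.Agent.Lib.MP_566bac_pr

/-- The square lattice: the graph on `ℤ²` whose edges join nearest neighbours. -/
def lattice : SimpleGraph (ℤ × ℤ) where
  Adj x y := |x.1 - y.1| + |x.2 - y.2| = 1
  symm := ⟨fun x y h => by
    rw [abs_sub_comm y.1, abs_sub_comm y.2]
    exact h⟩
  loopless := ⟨fun x h => by simp at h⟩

/-- The graph of the open edges, when `S` is the set of open edges. -/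
def openGraph (S : Set (Sym2 (ℤ × ℤ))) : SimpleGraph (ℤ × ℤ) where
  Adj x y := lattice.Adj x y ∧ s(x, y) ∈ S
  symm := ⟨fun x y h => ⟨h.1.symm, by rw [Sym2.eq_swap]; exact h.2⟩⟩
  loopless := ⟨fun x h => lattice.loopless.irrefl x h.1⟩

/-- `C` is an infinite open cluster: an infinite connected component of the open graph. -/
def IsInfiniteCluster (S : Set (Sym2 (ℤ × ℤ))) (C : Set (ℤ × ℤ)) : Prop :=
  C.Infinite ∧ ∃ x, C = {y | (openGraph S).Reachable x y}

/-- `h` is harmonic on `C`: at every site of `C` its value is the average of its values over the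
neighbours of the site in the open graph. -/
def IsHarmonicOn (S : Set (Sym2 (ℤ × ℤ))) (C : Set (ℤ × ℤ)) (h : ℤ × ℤ → ℝ) : Prop :=
  ∀ x ∈ C, h x = (∑ᶠ y ∈ (openGraph S).neighborSet x, h y) /
    ((openGraph S).neighborSet x).ncard

/-- The ball (for the maximum norm) of radius `N` centred at the origin. -/
def ball (N : ℕ) : Set (ℤ × ℤ) := {x | |x.1| ≤ N ∧ |x.2| ≤ N}

/-- The set `A` has positive density: `liminf |A ∩ B_N| / |B_N| > 0`. -/
def HasPositiveDensity (A : Set (ℤ × ℤ)) : Prop :=
  0 < liminf (fun N : ℕ => ((A ∩ ball N).ncard : ℝ) / ((ball N).ncard : ℝ)) atTop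

end Pool.Agent.Lib.MP_566bac_pr
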