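import Mathlib

/-!
# Linear algebra: a lower bound for the dimension of the traces, and kernels
-/

open Finset Module

namespace Pool.Agent.Lib.MP_566bac_pr

lemma factor_through {V W : Type*} [AddCommGroup V] [Module ℝ V] [AddCommGroup W] [Module ℝ W]
    (A : V →ₗ[ℝ] W) (l : V →ₗ[ℝ] ℝ) (h : ∀ v, A v = 0 → l v = 0) :
    ∃ ψ : W →ₗ[ℝ] ℝ, ∀ v, ψ (A v) = l v := by
  have h1 : l ∈ (LinearMap.ker A).dualAnnihilator := by
    rw [Submodule.mem_dualAnnihilator]
    intro w hw
    exact h w hw
  rw [← LinearMap.range_dualMap_eq_dualAnnihilator_ker] at h1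
  obtain ⟨ψ, hψ⟩ := h1
  exact ⟨ψ, fun v => by rw [← hψ]; rfl⟩

/-- **Dimension of the traces.** -/
theorem trace_dim {Y E D : Type*} [Fintype Y] [Fintype E] [Fintype D] [DecidableEq Y]
    [DecidableEq E] [DecidableEq D]
    (M : Matrix E Y ℝ) (i : D → Y) (hi : Function.Injective i) (κ : D → E) (S : Finset D)
    (hinj : ∀ φ : E → ℝ, (∀ y, (∀ d, y ≠ i d) → ∑ e, M e y * φ e = 0) →
      (∀ d, d ∉ S → φ (κ d) = 0) → φ = 0) :
    S.card ≤ finrank ℝ (Submodule.map (LinearMap.funLeft ℝ ℝ i) (LinearMap.ker M.mulVecLin)) := by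
  classical
  set W := Submodule.map (LinearMap.funLeft ℝ ℝ i) (LinearMap.ker M.mulVecLin) with hW
  let Φ : Submodule ℝ (E → ℝ) :=
    { carrier := {φ | ∀ y, (∀ d, y ≠ i d) → ∑ e, M e y * φ e = 0}
      add_mem' := by
        intro a b ha hb y hy
        simp only [Pi.add_apply, mul_add, sum_add_distrib, ha y hy, hb y hy, add_zero]
      zero_mem' := by
        intro y _
        simp
      smul_mem' := by
        intro c a ha y hy
        have h1 : ∀ e, M e y * (c • a) e = c * (M e y * a e) := by
          intro e
          simp only [Pi.smul_apply, smul_eq_mul]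
          ring
        simp only [h1, ← mul_sum, ha y hy, mul_zero] }
  let Θ : (E → ℝ) →ₗ[ℝ] Dual ℝ (D → ℝ) :=
    { toFun := fun φ =>
        { toFun := fun g => ∑ d, (∑ e, M e (i d) * φ e) * g d
          map_add' := by
            intro a b
            simp only [Pi.add_apply, mul_add, sum_add_distrib]
          map_smul' := by
            intro c a
            simp only [Pi.smul_apply, smul_eq_mul, RingHom.id_apply, mul_sum]
            apply sum_congr rfl
            intro d _
            ring }
      map_add' := by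
        intro a b
        ext g
        simp only [Pi.add_apply, mul_add, sum_add_distrib, add_mul, LinearMap.coe_comp,
          Function.comp_apply, LinearMap.add_apply, LinearMap.coe_mk, AddHom.coe_mk]
      map_smul' := by
        intro c a
        ext g
        have h1 : ∀ d e, M e (i d) * (c * a e) = c * (M e (i d) * a e) := by
          intro d e
          ring
        simp only [Pi.smul_apply, smul_eq_mul, RingHom.id_apply, LinearMap.smul_apply,
          LinearMap.coe_comp, Function.comp_apply, LinearMap.coe_mk, AddHom.coe_mk, h1,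
          ← mul_sum, mul_assoc] }
  have hle : W.dualAnnihilator ≤ Φ.map Θ := by
    intro l hl
    obtain ⟨ψ, hψ⟩ := factor_through M.mulVecLin (l ∘ₗ LinearMap.funLeft ℝ ℝ i) (by
      intro u hu
      rw [Submodule.mem_dualAnnihilator] at hl
      exact hl _ (Submodule.mem_map_of_mem hu))
    set φ : E → ℝ := fun e => ψ (Pi.single e 1) with hφ
    have hψφ : ∀ v : E → ℝ, ψ v = ∑ e, v e * φ e := by
      intro v
      conv_lhs => rw [← Finset.univ_sum_single v, map_sum]
      apply sum_congr rfl
      intro e _
      rw [hφ]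
      have : (Pi.single e (v e) : E → ℝ) = v e • Pi.single e 1 := by
        rw [← Pi.single_smul, smul_eq_mul, mul_one]
      rw [this, map_smul, smul_eq_mul]
    have hcol : ∀ y, ∑ e, M e y * φ e = l (LinearMap.funLeft ℝ ℝ i (Pi.single y 1)) := by
      intro y
      have h1 := hψ (Pi.single y 1)
      rw [hψφ] at h1
      rw [LinearMap.comp_apply] at h1
      rw [← h1]
      apply sum_congr rfl
      intro e _
      simp
    refine ⟨φ, ?_, ?_⟩
    · intro y hy
      rw [hcol y]
      have : LinearMap.funLeft ℝ ℝ i (Pi.single y (1 : ℝ)) = 0 := by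
        ext d
        rw [LinearMap.funLeft_apply, Pi.zero_apply, Pi.single_eq_of_ne]
        exact fun h => hy d h.symm
      rw [this, map_zero]
    · ext d
      simp only [LinearMap.coe_comp, Function.comp_apply, LinearMap.coe_single, Θ,
        LinearMap.coe_mk, AddHom.coe_mk]
      have h1 : ∀ d', (∑ e, M e (i d') * φ e) * (Pi.single d 1 : D → ℝ) d' =
          if d' = d then l (LinearMap.funLeft ℝ ℝ i (Pi.single (i d) 1)) else 0 := by
        intro d'
        split_ifs with h
        · subst h
          rw [hcol, Pi.single_eq_same, mul_one]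
        · rw [Pi.single_eq_of_ne h, mul_zero]
      simp only [h1, sum_ite_eq', mem_univ, if_true]
      congr 1
      ext d'
      rw [LinearMap.funLeft_apply]
      by_cases h : d' = d
      · subst h; simp
      · rw [Pi.single_eq_of_ne h, Pi.single_eq_of_ne]
        exact fun h' => h (hi h')
  have h1 : finrank ℝ W.dualAnnihilator ≤ finrank ℝ Φ :=
    (Submodule.finrank_mono hle).trans (Submodule.finrank_map_le Θ Φ)
  have h2 : finrank ℝ Φ ≤ finrank ℝ ({d : D // d ∉ S} → ℝ) := by
    let R : Φ →ₗ[ℝ] ({d : D // d ∉ S} → ℝ) :=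
      (LinearMap.funLeft ℝ ℝ (fun d : {d : D // d ∉ S} => κ d.1)).comp Φ.subtype
    apply LinearMap.finrank_le_finrank_of_injective (f := R)
    rw [← LinearMap.ker_eq_bot, LinearMap.ker_eq_bot']
    intro φ hφ
    apply Subtype.ext
    apply hinj φ.1 φ.2
    intro d hd
    exact congrFun hφ ⟨d, hd⟩
  have h3 : finrank ℝ ({d : D // d ∉ S} → ℝ) = Fintype.card D - S.card := by
    rw [Module.finrank_fintype_fun_eq_card, Fintype.card_subtype_compl]
    simp
  have h4 : finrank ℝ W + finrank ℝ W.dualAnnihilator = Fintype.card D := by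
    rw [Subspace.finrank_add_finrank_dualAnnihilator_eq, Module.finrank_fintype_fun_eq_card]
  have h5 : S.card ≤ Fintype.card D := Finset.card_le_univ S
  omega

/-- **Kernels.** A subspace of `ℝ^D` contains functions `g x`, `x ∈ D`, of norm at most one, whose
diagonal values add up to the dimension. -/
theorem exists_kernel {D : Type*} [Fintype D] (W : Submodule ℝ (D → ℝ)) :
    ∃ g : D → (D → ℝ), (∀ x, g x ∈ W) ∧ (∀ x, ∑ y, g x y ^ 2 ≤ 1) ∧
      ∑ x, g x x = finrank ℝ W := by
  classical
  let e := WithLp.linearEquiv 2 ℝ (D → ℝ)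
  let W' : Submodule ℝ (EuclideanSpace ℝ D) := W.comap e.toLinearMap
  have hfin : finrank ℝ W' = finrank ℝ W := by
    exact LinearEquiv.finrank_eq (e.submoduleMap W' |>.trans
      (LinearEquiv.ofEq _ _ (Submodule.map_comap_eq_of_surjective e.surjective W)))
  let b := stdOrthonormalBasis ℝ W'
  let g : D → (D → ℝ) := fun x y => ∑ k, (b k : EuclideanSpace ℝ D) x * (b k : EuclideanSpace ℝ D) y
  have hinner : ∀ k l, ∑ y, (b k : EuclideanSpace ℝ D) y * (b l : EuclideanSpace ℝ D) y =
      if k = l then 1 else 0 := by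
    intro k l
    have h1 := orthonormal_iff_ite.mp b.orthonormal k l
    rw [← h1, Submodule.coe_inner, PiLp.inner_apply]
    apply sum_congr rfl
    intro y _
    simp [mul_comm]
  have hsq : ∀ x, ∑ y, g x y ^ 2 = g x x := by
    intro x
    simp only [g, sq]
    calc ∑ y, (∑ k, (b k : EuclideanSpace ℝ D) x * (b k : EuclideanSpace ℝ D) y) *
          (∑ l, (b l : EuclideanSpace ℝ D) x * (b l : EuclideanSpace ℝ D) y)
        = ∑ k, ∑ l, (b k : EuclideanSpace ℝ D) x * (b l : EuclideanSpace ℝ D) x *
          ∑ y, (b k : EuclideanSpace ℝ D) y * (b l : EuclideanSpace ℝ D) y := by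
          have h0 : ∀ y, (∑ k, (b k : EuclideanSpace ℝ D) x * (b k : EuclideanSpace ℝ D) y) *
              (∑ l, (b l : EuclideanSpace ℝ D) x * (b l : EuclideanSpace ℝ D) y) =
              ∑ k, ∑ l, ((b k : EuclideanSpace ℝ D) x * (b k : EuclideanSpace ℝ D) y) *
              ((b l : EuclideanSpace ℝ D) x * (b l : EuclideanSpace ℝ D) y) :=
            fun y => sum_mul_sum _ _ _ _
          simp only [h0]
          rw [sum_comm]
          apply sum_congr rfl
          intro k _
          rw [sum_comm]
          apply sum_congr rfl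
          intro l _
          rw [mul_sum]
          apply sum_congr rfl
          intro y _
          ring
      _ = ∑ k, (b k : EuclideanSpace ℝ D) x * (b k : EuclideanSpace ℝ D) x := by
          apply sum_congr rfl
          intro k _
          simp only [hinner, mul_ite, mul_one, mul_zero, sum_ite_eq, mem_univ, if_true]
  refine ⟨g, ?_, ?_, ?_⟩
  · intro x
    have h1 : g x = ∑ k, (b k : EuclideanSpace ℝ D) x • e (b k : EuclideanSpace ℝ D) := by
      ext y
      simp only [g, Finset.sum_apply, Pi.smul_apply, smul_eq_mul]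
      rfl
    rw [h1]
    apply Submodule.sum_mem
    intro k _
    apply Submodule.smul_mem
    exact (b k).2
  · intro x
    have h1 := hsq x
    have h2 : g x x ^ 2 ≤ ∑ y, g x y ^ 2 :=
      single_le_sum (f := fun y => g x y ^ 2) (fun y _ => sq_nonneg _) (mem_univ x)
    rw [h1] at h2
    have h3 : 0 ≤ g x x := by
      rw [← h1]
      exact sum_nonneg fun y _ => sq_nonneg _
    rw [h1]
    nlinarith
  · rw [← hfin]
    simp only [g]
    rw [sum_comm]
    have h1 : ∀ k, ∑ x, (b k : EuclideanSpace ℝ D) x * (b k : EuclideanSpace ℝ D) x = 1 := by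
      intro k
      rw [hinner, if_pos rfl]
    simp only [h1, sum_const, card_univ, Fintype.card_fin, nsmul_eq_mul, mul_one]

end Pool.Agent.Lib.MP_566bac_pr
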