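import Pool.Agent.Lib.MP_566bac_pr.Global

/-!
# The main theorem
-/

open SimpleGraph Finset Filter MeasureTheory ProbabilityTheory unitInterval
open scoped ENNReal

namespace Pool.Agent.Lib.MP_566bac_pr

lemma infSet_has_nbr {S : Set (Sym2 (ℤ × ℤ))} {v : ℤ × ℤ} (hv : v ∈ infSet (openGraph S)) :
    ∃ w, (openGraph S).Adj v w := by
  by_contra hcon
  push Not at hcon
  apply hv
  apply Set.Finite.subset (Set.finite_singleton v)
  rintro y ⟨p⟩
  cases p with
  | nil => rfl
  | cons h _ => exact absurd h (hcon _)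

lemma harmonic_avg {S : Set (Sym2 (ℤ × ℤ))} {h : ℤ × ℤ → ℝ} {v : ℤ × ℤ}
    (hv : v ∈ infSet (openGraph S)) (hl : lap (openGraph S) h v = 0) :
    h v = (∑ᶠ y ∈ (openGraph S).neighborSet v, h y) / ((openGraph S).neighborSet v).ncard := by
  classical
  set G := openGraph S with hG
  have h1 : G.neighborSet v = ↑((nb v).filter fun w => G.Adj v w) := by
    ext w
    rw [SimpleGraph.mem_neighborSet, Finset.coe_filter, Set.mem_ofPred_eq]
    exact ⟨fun h => ⟨mem_nb.mpr h.1, h⟩, fun h => h.2⟩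
  rw [h1, finsum_mem_coe_finset, Set.ncard_coe_finset]
  unfold lap at hl
  rw [← Finset.sum_filter, Finset.sum_sub_distrib, sum_const, nsmul_eq_mul] at hl
  have hpos : 0 < ((nb v).filter fun w => G.Adj v w).card := by
    rw [Finset.card_pos]
    obtain ⟨w, hw⟩ := infSet_has_nbr hv
    exact ⟨w, Finset.mem_filter.mpr ⟨mem_nb.mpr hw.1, hw⟩⟩
  have hpos' : (0 : ℝ) < ((nb v).filter fun w => G.Adj v w).card := by exact_mod_cast hpos
  rw [eq_div_iff hpos'.ne']
  linarith

/-- the properties of the counterexamples -/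
def Counter (S : Set (Sym2 (ℤ × ℤ))) : Prop :=
  ∃ C : Set (ℤ × ℤ), IsInfiniteCluster S C ∧ (∀ C', IsInfiniteCluster S C' → C' = C) ∧
    ∃ h : ℤ × ℤ → ℝ, IsHarmonicOn S C h ∧ (∃ x ∈ C, ∃ y ∈ C, h x ≠ h y) ∧
      ∃ M : ℝ, HasPositiveDensity {x | x ∈ C ∧ |h x| ≤ M}

lemma counter_of_good {S : Set (Sym2 (ℤ × ℤ))} (hB : ∀ m, Bev m 0 S) (hN : Nice4 S)
    (hd : ∀ᶠ N : ℕ in atTop, ∀ x : ℤ, -N ≤ x → x ≤ 0 → FF S (N / 8) x ≤ N) : Counter S := by
  classical
  set G := openGraph S with hG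
  have hS : Fin' S := hN.1.1
  have hline := line_inf (isLine_FF hS 0) 0
  have hC : ∀ x ∈ infSet G, infSet G = {y | G.Reachable x y} := by
    intro x hx
    ext y
    constructor
    · intro hy
      exact unique_cluster hN hx hy
    · intro hy
      refine Set.Infinite.mono ?_ hx
      intro z hz
      exact (Reachable.symm hy).trans hz
  obtain ⟨h10, h, h1, h2, h3, h4⟩ := exists_global hB
  refine ⟨infSet G, ⟨?_, ?_⟩, ?_, h, ?_, ?_, 1, ?_⟩
  · rw [hC _ hline]
    exact hline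
  · exact ⟨_, hC _ hline⟩
  · rintro C' ⟨hinf, x, rfl⟩
    exact (hC x hinf).symm
  · intro v hv
    exact harmonic_avg hv (h2 v hv)
  · -- non-constancy
    by_contra hcon
    push Not at hcon
    have hbd : ∀ k : ℕ, (1, FF S k 1) ∈ bd S := by
      intro k
      refine ⟨line_inf (isLine_FF hS k) 1, rfl, ?_⟩
      have := adj_of_ed (FF_good hS k 1 1)
      simpa [dir] using this
    have hinj : Function.Injective fun k : ℕ => ((1, FF S k 1) : ℤ × ℤ) := by
      intro a b hab
      simp only [Prod.mk.injEq, true_and] at hab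
      rcases lt_trichotomy a b with h | h | h
      · have := FF_lt hS h 1; omega
      · exact h
      · have := FF_lt hS h 1; omega
    have h5 := h4 ((Finset.range 145).image fun k : ℕ => ((1, FF S k 1) : ℤ × ℤ)) (by
      intro z hz
      rw [Finset.mem_image] at hz
      obtain ⟨k, _, rfl⟩ := hz
      exact hbd k)
    rw [Finset.sum_image (fun a _ b _ hab => hinj hab)] at h5
    have h6 : ∀ k ∈ Finset.range 145, (1 / 144 : ℝ) ≤ h (1, FF S k 1) ^ 2 := by
      intro k _
      rw [hcon _ (hbd k).1 _ h10.1]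
      nlinarith
    have h7 := Finset.card_nsmul_le_sum _ _ _ h6
    rw [Finset.card_range, nsmul_eq_mul] at h7
    norm_num at h7
    linarith
  · apply density hS hd
    intro x hx hx0
    exact ⟨hx, h1 x hx hx0⟩

lemma coe_toNNReal_symm (p : I) (hp : (65535 / 65536 : ℝ) < p) :
    (toNNReal (σ p) : ℝ≥0∞) ≤ (16⁻¹) ^ 4 := by
  have h1 : ((16⁻¹ : ℝ≥0∞)) ^ 4 = ((1 / 65536 : NNReal) : ℝ≥0∞) := by
    rw [← ENNReal.inv_pow, ENNReal.coe_div (by norm_num)]
    norm_num
  rw [h1, ENNReal.coe_le_coe, ← NNReal.coe_le_coe]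
  have h2 : ((toNNReal (σ p) : NNReal) : ℝ) = 1 - p := by
    rw [coe_toNNReal, coe_symm_eq]
  rw [h2]
  push_cast
  linarith

/-- **Main theorem.** -/
theorem main (p : I) (hp : (65535 / 65536 : ℝ) < p) : 0 < perc p {S | Counter S} := by
  have hq := coe_toNNReal_symm p hp
  have h1 := Bev_all_prob p hq
  have hnice : ∀ᵐ S ∂(perc p), Nice S := by
    filter_upwards [ae_fin p hq, ae_growth p hq] with S h1 h2
    exact ⟨h1, h2⟩
  have h2 : perc p {S | ∀ m, Bev m 0 S} ≤ perc p {S | Counter S} := by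
    apply measure_mono_ae
    filter_upwards [hnice, pull_ae isAuto_reflE p hnice, pull_ae isAuto_swapE p hnice,
      pull_ae isAuto_leftE p hnice, ae_density p hq] with S a1 a2 a3 a4 a5 hB
    exact counter_of_good hB ⟨a1, a2, a3, a4⟩ a5
  refine lt_of_lt_of_le ?_ (h1.trans h2)
  simp

end Pool.Agent.Lib.MP_566bac_pr
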