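import Pool.Agent.Lib.MP_566bac_pr.GlobalK

/-!
# The main theorem
-/

open SimpleGraph Finset Filter MeasureTheory ProbabilityTheory unitInterval
open scoped ENNReal

namespace Pool.Agent.Lib.MP_566bac_pr

lemma ball_eq (N : ℕ) : ball N = ↑((Finset.Icc (-(N : ℤ)) N) ×ˢ (Finset.Icc (-(N : ℤ)) N)) := by
  ext x
  simp only [ball, Set.mem_ofPred_eq, Finset.coe_product, Set.mem_prod, Finset.coe_Icc,
    Set.mem_Icc, abs_le]

lemma ball_ncard (N : ℕ) : (ball N).ncard = (2 * N + 1) * (2 * N + 1) := by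
  rw [ball_eq, Set.ncard_coe_finset, Finset.card_product, Int.card_Icc]
  have : ((N : ℤ) + 1 - -(N : ℤ)).toNat = 2 * N + 1 := by omega
  rw [this]

lemma ball_finite (N : ℕ) : (ball N).Finite := by
  rw [ball_eq]
  exact Finset.finite_toSet _

/-- the part of the infinite cluster in the left half-plane has positive density -/
lemma density2 {S : Set Edge} (hS : Tame S) {Q : ℕ} (hQ : 1 ≤ Q)
    (hd : ∀ᶠ N : ℕ in atTop, ∀ x : ℤ, -N ≤ x → x ≤ 0 → ∀ h : ℤ, N ≤ h → ¬ Rk S (N / Q) (x, h))
    {A : Set (ℤ × ℤ)} (hA : ∀ x : ℤ × ℤ, x ∈ infSet (openGraph S) → x.1 ≤ 0 → x ∈ A) :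
    HasPositiveDensity A := by
  choose b hb1 hb2 hb3 using fun (k : ℕ) (a : ℤ) => line_col hS k a
  have hQr : (0 : ℝ) < Q := by exact_mod_cast hQ
  have key : ∀ᶠ N : ℕ in atTop, (1 / (4 * Q) : ℝ) ≤ ((A ∩ ball N).ncard : ℝ) / ((ball N).ncard : ℝ) := by
    filter_upwards [hd] with N hN
    have h1 : (N + 1) * (N / Q + 1) ≤ (A ∩ ball N).ncard := by
      let f : ℕ × ℕ → ℤ × ℤ := fun q => (-(q.1 : ℤ), b q.2 (-(q.1 : ℤ)))
      have hf : Function.Injective f := by
        rintro ⟨a, k⟩ ⟨c, l⟩ h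
        simp only [f, Prod.mk.injEq] at h
        obtain ⟨h1, h2⟩ := h
        have hac : a = c := by omega
        subst hac
        have e1 := hb1 k (-(a : ℤ))
        have e2 := hb1 l (-(a : ℤ))
        rw [← h2] at e2
        rw [on_disj e1 e2]
      have hsub : f '' ↑(Finset.range (N + 1) ×ˢ Finset.range (N / Q + 1)) ⊆ A ∩ ball N := by
        rintro _ ⟨⟨j, k⟩, hjk, rfl⟩
        simp only [Finset.coe_product, Set.mem_prod, Finset.coe_range, Set.mem_Iio] at hjk
        have h0 := hN (-(j : ℤ)) (by omega) (by omega)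
        have h2 : b k (-(j : ℤ)) ≤ N := by
          by_contra hcon
          push Not at hcon
          rcases hb3 k (-(j : ℤ)) with h | h
          · exact h0 _ (by omega) (rk_mono (by omega) h)
          · exact h0 _ (by omega) (rk_mono (by omega) h)
        have h3 := on_low (hb1 k (-(j : ℤ)))
        simp only at h3
        refine ⟨hA _ (hb2 k _) ?_, ?_⟩
        · simp only [f]; omega
        · simp only [ball, f, Set.mem_ofPred_eq, abs_le]
          omega
      calc (N + 1) * (N / Q + 1)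
          = (Finset.range (N + 1) ×ˢ Finset.range (N / Q + 1)).card := by
            rw [Finset.card_product, Finset.card_range, Finset.card_range]
        _ = (f '' ↑(Finset.range (N + 1) ×ˢ Finset.range (N / Q + 1))).ncard := by
            rw [Set.ncard_image_of_injective _ hf, Set.ncard_coe_finset]
        _ ≤ (A ∩ ball N).ncard :=
            Set.ncard_le_ncard hsub ((ball_finite N).subset Set.inter_subset_right)
    rw [ball_ncard, div_le_div_iff₀ (by positivity) (by positivity), one_mul]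
    have h2 : (2 * N + 1) * (2 * N + 1) ≤ (A ∩ ball N).ncard * (4 * Q) := by
      have h3 : N + 1 ≤ Q * (N / Q + 1) := Nat.lt_mul_div_succ N (by omega)
      have h4 : (N + 1) * (N + 1) ≤ Q * ((N + 1) * (N / Q + 1)) := by
        calc (N + 1) * (N + 1) ≤ (N + 1) * (Q * (N / Q + 1)) := Nat.mul_le_mul_left _ h3
          _ = Q * ((N + 1) * (N / Q + 1)) := by ring
      have h5 : Q * ((N + 1) * (N / Q + 1)) ≤ Q * (A ∩ ball N).ncard := Nat.mul_le_mul_left _ h1
      nlinarith
    exact_mod_cast h2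
  unfold HasPositiveDensity
  have h2 : (1 / (4 * Q) : ℝ) ≤ liminf (fun N : ℕ => ((A ∩ ball N).ncard : ℝ) / ((ball N).ncard : ℝ))
      atTop := by
    apply le_liminf_of_le _ key
    apply IsBoundedUnder.isCoboundedUnder_ge
    refine ⟨1, ?_⟩
    rw [eventually_map]
    refine Eventually.of_forall fun N => ?_
    apply div_le_one_of_le₀ _ (by positivity)
    exact_mod_cast Set.ncard_le_ncard Set.inter_subset_right (ball_finite N)
  refine lt_of_lt_of_le ?_ h2
  positivity

lemma infSet_has_nbr {S : Set (Sym2 (ℤ × ℤ))} {v : ℤ × ℤ} (hv : v ∈ infSet (openGraph S)) :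
    ∃ w, (openGraph S).Adj v w := by
  by_contra hcon
  push Not at hcon
  apply hv
  apply Set.Finite.subset (Set.finite_singleton v)
  rintro y ⟨p⟩
  cases p with
  | nil => rfl
  | cons h _ => exact absurd h (hcon _)

lemma harmonic_avg {S : Set (Sym2 (ℤ × ℤ))} {h : ℤ × ℤ → ℝ} {v : ℤ × ℤ}
    (hv : v ∈ infSet (openGraph S)) (hl : lap (openGraph S) h v = 0) :
    h v = (∑ᶠ y ∈ (openGraph S).neighborSet v, h y) / ((openGraph S).neighborSet v).ncard := by
  classical
  set G := openGraph S with hG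
  have h1 : G.neighborSet v = ↑((nb v).filter fun w => G.Adj v w) := by
    ext w
    rw [SimpleGraph.mem_neighborSet, Finset.coe_filter, Set.mem_ofPred_eq]
    exact ⟨fun h => ⟨mem_nb.mpr h.1, h⟩, fun h => h.2⟩
  rw [h1, finsum_mem_coe_finset, Set.ncard_coe_finset]
  unfold lap at hl
  rw [← Finset.sum_filter, Finset.sum_sub_distrib, sum_const, nsmul_eq_mul] at hl
  have hpos : 0 < ((nb v).filter fun w => G.Adj v w).card := by
    rw [Finset.card_pos]
    obtain ⟨w, hw⟩ := infSet_has_nbr hv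
    exact ⟨w, Finset.mem_filter.mpr ⟨mem_nb.mpr hw.1, hw⟩⟩
  have hpos' : (0 : ℝ) < ((nb v).filter fun w => G.Adj v w).card := by exact_mod_cast hpos
  rw [eq_div_iff hpos'.ne']
  linarith

/-- the properties of the counterexamples -/
def Counter (S : Set (Sym2 (ℤ × ℤ))) : Prop :=
  ∃ C : Set (ℤ × ℤ), IsInfiniteCluster S C ∧ (∀ C', IsInfiniteCluster S C' → C' = C) ∧
    ∃ h : ℤ × ℤ → ℝ, IsHarmonicOn S C h ∧ (∃ x ∈ C, ∃ y ∈ C, h x ≠ h y) ∧
      (∀ x ∈ C, x.1 ≤ 0 → |h x| ≤ 1) ∧ HasPositiveDensity {x | x ∈ C ∧ |h x| ≤ 1}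

lemma counter_of_good {S : Set Edge} {κ : ℝ} (hκ : 0 < κ) {v0 : ℤ × ℤ}
    (hv0 : v0 ∈ infSet (openGraph S)) {h : ℤ × ℤ → ℝ}
    (h1 : ∀ v ∈ infSet (openGraph S), v.1 ≤ 0 → |h v| ≤ 1)
    (h2 : ∀ v ∈ infSet (openGraph S), lap (openGraph S) h v = 0) (h3 : κ ≤ h v0)
    (h4 : ∀ F : Finset (ℤ × ℤ), (∀ z ∈ F, z ∈ bd S) → ∑ z ∈ F, h z ^ 2 ≤ 1)
    (hT : Tame S) (hD : DualFin S) {Q : ℕ} (hQ : 1 ≤ Q)
    (hd : ∀ᶠ N : ℕ in atTop, ∀ x : ℤ, -N ≤ x → x ≤ 0 → ∀ h : ℤ, N ≤ h → ¬ Rk S (N / Q) (x, h)) :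
    Counter S := by
  classical
  set G := openGraph S with hG
  have hC : ∀ x ∈ infSet G, infSet G = {y | G.Reachable x y} := by
    intro x hx
    ext y
    constructor
    · intro hy
      exact unique2 hD hx hy
    · intro hy
      refine Set.Infinite.mono ?_ hx
      intro z hz
      exact (Reachable.symm hy).trans hz
  refine ⟨infSet G, ⟨?_, ?_⟩, ?_, h, ?_, ?_, h1, ?_⟩
  · rw [hC _ hv0]
    exact hv0
  · exact ⟨_, hC _ hv0⟩
  · rintro C' ⟨hinf, x, rfl⟩
    exact (hC x hinf).symm
  · intro v hv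
    exact harmonic_avg hv (h2 v hv)
  · -- non-constancy
    by_contra hcon
    push Not at hcon
    have hl := fun k : ℕ => line hT k (m := 1) le_rfl
    choose s t γ hs ht hγ hadj hinf hon using hl
    have hbd : ∀ k : ℕ, s k ∈ bd S := fun k => ⟨hinf k, hs k, hadj k⟩
    have hinj : Function.Injective s := by
      intro a b hab
      have e1 := hon a (s a) (by simp)
      have e2 := hon b (s b) (by simp)
      rw [← hab] at e2
      exact on_disj e1 e2
    obtain ⟨n, hn⟩ := exists_nat_gt (1 / κ ^ 2)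
    have h5 := h4 ((Finset.range n).image s) (by
      intro z hz
      rw [Finset.mem_image] at hz
      obtain ⟨k, _, rfl⟩ := hz
      exact hbd k)
    rw [Finset.sum_image (fun a _ b _ hab => hinj hab)] at h5
    have h6 : ∀ k ∈ Finset.range n, κ ^ 2 ≤ h (s k) ^ 2 := by
      intro k _
      rw [hcon _ (hinf k) _ hv0]
      exact pow_le_pow_left₀ hκ.le h3 2
    have h7 := Finset.card_nsmul_le_sum _ _ _ h6
    rw [Finset.card_range, nsmul_eq_mul] at h7
    rw [div_lt_iff₀ (by positivity)] at hn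
    linarith
  · apply density2 hT hQ hd
    intro x hx hx0
    exact ⟨hx, h1 x hx hx0⟩

lemma pull_trans (φ ψ : (ℤ × ℤ) ≃ (ℤ × ℤ)) (S : Set Edge) :
    pull φ (pull ψ S) = pull (φ.trans ψ) S := by
  ext e
  change Sym2.map ψ (Sym2.map φ e) ∈ S ↔ Sym2.map (φ.trans ψ) e ∈ S
  rw [Sym2.map_map]
  rfl

lemma transE_trans (a b : ℤ × ℤ) : (transE a).trans (transE b) = transE (a + b) := by
  ext v <;> simp [transE_apply, add_assoc]

lemma transE_zero : transE 0 = Equiv.refl _ := by
  ext v <;> simp [transE_apply]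

lemma nb_transE (c v : ℤ × ℤ) : nb (transE c v) = (nb v).image (transE c) := nb_map (isAuto_transE c) v

/-- **Main theorem.** -/
theorem main {p : I} (hp : 1 / 2 < (p : ℝ)) : ∀ᵐ S ∂(perc p), Counter S := by
  obtain ⟨A, hA, hprob⟩ := Bev_prob hp
  obtain ⟨Q, hQ, hd⟩ := ae_density2 hp
  set κ : ℝ := 1 / (2 * A) with hκ
  have hκ0 : 0 < κ := by
    have : (0 : ℝ) < A := by exact_mod_cast hA
    positivity
  have hall := Bev_all_prob (p := p) (κ := κ) hprob
  set G0 : Set (Set Edge) := {S | ∀ m, Bev κ m 0 S} with hG0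
  have hG0m : MeasurableSet G0 := by
    have : G0 = ⋂ m, {S | Bev κ m 0 S} := by
      ext S
      simp [hG0]
    rw [this]
    exact MeasurableSet.iInter fun m => measurableSet_Bev κ m 0
  set E : Set (Set Edge) := {S | ∃ y : ℤ, pull (transE (0, y)) S ∈ G0} with hE
  have hEm : MeasurableSet E := by
    have : E = ⋃ y : ℤ, pull (transE (0, y)) ⁻¹' G0 := by
      ext S
      simp [hE]
    rw [this]
    exact MeasurableSet.iUnion fun y => measurable_pull _ hG0m
  have hE1 : (perc p).real E = 1 := by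
    rcases zero_one p hEm (fun N => ⟨(0, (N : ℤ)), by simp [dst], by
      ext S
      simp only [hE, Set.mem_preimage, Set.mem_ofPred_eq, pull_trans, transE_trans]
      constructor
      · rintro ⟨y, hy⟩
        exact ⟨y + N, by simpa using hy⟩
      · rintro ⟨y, hy⟩
        exact ⟨y - N, by simpa using hy⟩⟩) with h | h
    · exfalso
      have h1 : (perc p).real G0 ≤ (perc p).real E := by
        apply perc_mono
        intro S hS
        refine ⟨0, ?_⟩
        have : transE (0, 0) = Equiv.refl _ := transE_zero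
        rw [this]
        have e : pull (Equiv.refl _) S = S := by
          unfold pull
          rw [Equiv.coe_refl, Sym2.map_id, Set.preimage_id]
        rw [e]
        exact hS
      rw [h, measureReal_def] at h1
      have h2 : perc p G0 = 0 := by
        have := le_antisymm h1 ENNReal.toReal_nonneg
        rw [ENNReal.toReal_eq_zero_iff] at this
        exact this.resolve_right (measure_ne_top _ _)
      rw [h2] at hall
      have h8 : ((8 * A : ℕ) : ℝ≥0∞)⁻¹ = 0 := by
        have := le_antisymm hall bot_le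
        simpa using this
      rw [ENNReal.inv_eq_zero] at h8
      exact ENNReal.natCast_ne_top _ h8
    · exact h
  have hEae : ∀ᵐ S ∂(perc p), S ∈ E := by
    rw [measureReal_def] at hE1
    have h9 : perc p E = 1 := (ENNReal.toReal_eq_one_iff _).mp hE1
    have h10 : perc p Eᶜ = 0 := by
      rw [measure_compl hEm (measure_ne_top _ _), h9, measure_univ, tsub_self]
    exact h10
  filter_upwards [hEae, ae_tame hp, ae_dualFin hp, hd] with S hS hT hD hdS
  obtain ⟨y, hy⟩ := hS
  obtain ⟨h10, h, h1, h2, h3, h4⟩ := exists_global hy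
  set τ := transE ((0, y) : ℤ × ℤ) with hτ
  have hauto := isAuto_transE ((0, y) : ℤ × ℤ)
  have hbd : ∀ z, z ∈ bd (pull τ S) ↔ τ z ∈ bd S := by
    intro z
    unfold bd
    rw [Set.mem_ofPred_eq, Set.mem_ofPred_eq, pull_inf hauto, pull_adj hauto]
    have e1 : τ (0, z.2) = (0, (τ z).2) := by
      simp [hτ, transE_apply]
    have e2 : (τ z).1 = z.1 := by
      simp [hτ, transE_apply]
    rw [e1, e2]
  have hsymm : ∀ v, τ (τ.symm v) = v := fun v => τ.apply_symm_apply v
  refine counter_of_good hκ0 (v0 := τ (1, 0)) ?_ (h := fun v => h (τ.symm v)) ?_ ?_ ?_ ?_ hT hD hQ hdS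
  · exact ((hbd _).mp h10).1
  · intro v hv hv0
    apply h1
    · rw [pull_inf hauto, ← hτ, hsymm]
      exact hv
    · have e2 : (τ (τ.symm v)).1 = (τ.symm v).1 := by
        generalize τ.symm v = w
        simp [hτ, transE_apply]
      rw [hsymm v] at e2
      rw [← e2]
      exact hv0
  · intro v hv
    have h5 := h2 (τ.symm v) (by
      rw [pull_inf hauto, ← hτ, hsymm]
      exact hv)
    have h6 := lap_pull hauto S (fun v => h (τ.symm v)) (τ.symm v)
    rw [← hτ, hsymm] at h6
    rw [← h6, ← h5]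
    congr 1
    ext w
    simp
  · simp only [Equiv.symm_apply_apply]
    exact h3
  · intro F hF
    have h5 := h4 (F.map τ.symm.toEmbedding) (by
      intro z hz
      rw [Finset.mem_map] at hz
      obtain ⟨w, hw, rfl⟩ := hz
      rw [hbd]
      change τ (τ.symm w) ∈ bd S
      rw [hsymm]
      exact hF w hw)
    rw [Finset.sum_map] at h5
    exact h5

end Pool.Agent.Lib.MP_566bac_pr
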