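import Pool.Agent.Lib.MP_566bac_pr.Cyl

/-!
# Finite volume: recursion, positive association, Russo's formula, thinning
-/

open MeasureTheory ProbabilityTheory Finset unitInterval
open scoped ENNReal

namespace Pool.Agent.Lib.MP_566bac_pr

section
open Classical

lemma pr_insert {q : ℝ} {E : Finset Edge} {e : Edge} (he : e ∉ E) (A : Set (Set Edge)) :
    pr q (insert e E) A = q * pr q E {S | insert e S ∈ A} + (1 - q) * pr q E {S | S \ {e} ∈ A} := by
  unfold pr
  rw [Finset.sum_powerset_insert he, mul_sum, mul_sum, add_comm]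
  congr 1
  · apply sum_congr rfl
    intro ω hω
    rw [mem_powerset] at hω
    have h1 : e ∉ ω := fun h => he (hω h)
    rw [card_insert_of_notMem h1, card_insert_of_notMem he, Finset.coe_insert,
      Nat.add_sub_add_right]
    simp only [Set.mem_ofPred_eq]
    split_ifs
    · ring
    · simp
  · apply sum_congr rfl
    intro ω hω
    rw [mem_powerset] at hω
    have h1 : e ∉ ω := fun h => he (hω h)
    have h2 : (ω : Set Edge) \ {e} = ω := by
      ext x
      simp only [Set.mem_sdiff, Finset.mem_coe, Set.mem_singleton_iff]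
      refine ⟨fun h => h.1, fun h => ⟨h, ?_⟩⟩
      rintro rfl
      exact h1 h
    rw [card_insert_of_notMem he]
    have h3 := Finset.card_le_card hω
    simp only [Set.mem_ofPred_eq, h2]
    split_ifs
    · rw [show E.card + 1 - ω.card = (E.card - ω.card) + 1 by omega, pow_succ]
      ring
    · simp

lemma pr_empty (q : ℝ) (A : Set (Set Edge)) : pr q ∅ A = if (∅ : Set Edge) ∈ A then 1 else 0 := by
  simp [pr]

lemma pr_nonneg {q : ℝ} (h0 : 0 ≤ q) (h1 : q ≤ 1) (E : Finset Edge) (A : Set (Set Edge)) :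
    0 ≤ pr q E A := by
  unfold pr
  apply sum_nonneg
  intro ω _
  split_ifs
  · have : 0 ≤ 1 - q := by linarith
    positivity
  · exact le_rfl

lemma pr_mono {q : ℝ} (h0 : 0 ≤ q) (h1 : q ≤ 1) {E : Finset Edge} {A B : Set (Set Edge)}
    (hAB : ∀ ω : Finset Edge, ω ⊆ E → (ω : Set Edge) ∈ A → (ω : Set Edge) ∈ B) :
    pr q E A ≤ pr q E B := by
  unfold pr
  apply sum_le_sum
  intro ω hω
  rw [mem_powerset] at hω
  have h2 : 0 ≤ q ^ ω.card * (1 - q) ^ (E.card - ω.card) := by
    have : 0 ≤ 1 - q := by linarith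
    positivity
  split_ifs with h h' h'
  · exact le_rfl
  · exact absurd (hAB ω hω h) h'
  · exact h2
  · exact le_rfl

lemma pr_univ (q : ℝ) (E : Finset Edge) : pr q E Set.univ = 1 := by
  unfold pr
  simp only [Set.mem_univ, if_true]
  rw [Finset.sum_pow_mul_eq_add_pow]
  simp

lemma pr_diff {q : ℝ} {E : Finset Edge} {A B : Set (Set Edge)} (hAB : A ⊆ B) :
    pr q E (B \ A) = pr q E B - pr q E A := by
  unfold pr
  rw [← sum_sub_distrib]
  apply sum_congr rfl
  intro ω _
  by_cases h1 : (ω : Set Edge) ∈ A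
  · have h2 := hAB h1
    simp [h1, h2]
  · simp [h1]

lemma pr_compl (q : ℝ) (E : Finset Edge) (A : Set (Set Edge)) : pr q E Aᶜ = 1 - pr q E A := by
  rw [Set.compl_eq_univ_sdiff, pr_diff (Set.subset_univ _), pr_univ]

lemma inc_one {A : Set (Set Edge)} (hA : Inc A) (e : Edge) : Inc {S | insert e S ∈ A} := by
  intro S S' h h1
  exact hA _ _ (Set.insert_subset_insert h) h1

lemma inc_zero {A : Set (Set Edge)} (hA : Inc A) (e : Edge) : Inc {S | S \ {e} ∈ A} := by
  intro S S' h h1
  exact hA _ _ (Set.sdiff_subset_sdiff_left h) h1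

lemma inc_zero_one {A : Set (Set Edge)} (hA : Inc A) (e : Edge) :
    {S | S \ {e} ∈ A} ⊆ {S | insert e S ∈ A} := by
  intro S h
  exact hA _ _ (Set.sdiff_subset.trans (Set.subset_insert e S)) h

/-- positive association in finite volume -/
lemma pr_fkg {q : ℝ} (h0 : 0 ≤ q) (h1 : q ≤ 1) (E : Finset Edge) :
    ∀ {A B : Set (Set Edge)}, Inc A → Inc B → pr q E A * pr q E B ≤ pr q E (A ∩ B) := by
  induction E using Finset.induction_on with
  | empty =>
    intro A B _ _
    rw [pr_empty, pr_empty, pr_empty]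
    by_cases ha : (∅ : Set Edge) ∈ A <;> by_cases hb : (∅ : Set Edge) ∈ B <;> simp [ha, hb]
  | insert e E he ih =>
    intro A B hA hB
    rw [pr_insert he, pr_insert he, pr_insert he]
    have i1 := ih (inc_one hA e) (inc_one hB e)
    have i0 := ih (inc_zero hA e) (inc_zero hB e)
    have m1 := pr_mono h0 h1 (E := E) (fun ω _ h => inc_zero_one hA e h)
    have m2 := pr_mono h0 h1 (E := E) (fun ω _ h => inc_zero_one hB e h)
    have e1 : {S : Set Edge | insert e S ∈ A ∩ B} = {S | insert e S ∈ A} ∩ {S | insert e S ∈ B} := rfl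
    have e2 : {S : Set Edge | S \ {e} ∈ A ∩ B} = {S | S \ {e} ∈ A} ∩ {S | S \ {e} ∈ B} := rfl
    rw [e1, e2]
    set a1 := pr q E {S | insert e S ∈ A}
    set a0 := pr q E {S | S \ {e} ∈ A}
    set b1 := pr q E {S | insert e S ∈ B}
    set b0 := pr q E {S | S \ {e} ∈ B}
    have k1 : 0 ≤ q * (1 - q) * ((a1 - a0) * (b1 - b0)) := by
      have : 0 ≤ 1 - q := by linarith
      have t1 : 0 ≤ a1 - a0 := by linarith
      have t2 : 0 ≤ b1 - b0 := by linarith
      positivity
    have k2 : q * (a1 * b1) ≤ q * pr q E ({S | insert e S ∈ A} ∩ {S | insert e S ∈ B}) :=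
      mul_le_mul_of_nonneg_left i1 h0
    have k3 : (1 - q) * (a0 * b0) ≤ (1 - q) * pr q E ({S | S \ {e} ∈ A} ∩ {S | S \ {e} ∈ B}) :=
      mul_le_mul_of_nonneg_left i0 (by linarith)
    nlinarith

/-- monotonicity in the density -/
lemma pr_mono_q {q q' : ℝ} (h0 : 0 ≤ q) (hq : q ≤ q') (h1 : q' ≤ 1) (E : Finset Edge) :
    ∀ {A : Set (Set Edge)}, Inc A → pr q E A ≤ pr q' E A := by
  induction E using Finset.induction_on with
  | empty =>
    intro A _
    rw [pr_empty, pr_empty]
  | insert e E he ih =>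
    intro A hA
    rw [pr_insert he, pr_insert he]
    have i1 := ih (inc_one hA e)
    have i0 := ih (inc_zero hA e)
    have m1 := pr_mono h0 (hq.trans h1) (E := E) (fun ω _ h => inc_zero_one hA e h)
    have k1 := mul_le_mul_of_nonneg_left i1 (h0.trans hq)
    have k2 := mul_le_mul_of_nonneg_left i0 (by linarith : 0 ≤ 1 - q')
    nlinarith

/-- `e` is pivotal -/
def piv (e : Edge) (A : Set (Set Edge)) : Set (Set Edge) := {S | insert e S ∈ A ∧ S \ {e} ∉ A}

lemma piv_one {e f : Edge} (h : f ≠ e) (A : Set (Set Edge)) :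
    {S : Set Edge | insert e S ∈ piv f A} = piv f {S | insert e S ∈ A} := by
  ext S
  simp only [piv, Set.mem_ofPred_eq]
  rw [Set.insert_comm]
  have : insert e S \ {f} = insert e (S \ {f}) := by
    ext x
    simp only [Set.mem_sdiff, Set.mem_insert_iff, Set.mem_singleton_iff]
    constructor
    · rintro ⟨h1 | h1, h2⟩
      · exact Or.inl h1
      · exact Or.inr ⟨h1, h2⟩
    · rintro (h1 | h1)
      · refine ⟨Or.inl h1, ?_⟩
        rw [h1]
        exact h.symm
      · exact ⟨Or.inr h1.1, h1.2⟩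
  rw [this]

lemma piv_zero {e f : Edge} (h : f ≠ e) (A : Set (Set Edge)) :
    {S : Set Edge | S \ {e} ∈ piv f A} = piv f {S | S \ {e} ∈ A} := by
  ext S
  simp only [piv, Set.mem_ofPred_eq]
  have h1 : insert f S \ {e} = insert f (S \ {e}) := by
    ext x
    simp only [Set.mem_sdiff, Set.mem_insert_iff, Set.mem_singleton_iff]
    constructor
    · rintro ⟨h1 | h1, h2⟩
      · exact Or.inl h1
      · exact Or.inr ⟨h1, h2⟩
    · rintro (h1 | h1)
      · refine ⟨Or.inl h1, ?_⟩
        rw [h1]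
        exact h
      · exact ⟨Or.inr h1.1, h1.2⟩
  have h2 : (S \ {e}) \ {f} = (S \ {f}) \ {e} := by
    ext x
    simp only [Set.mem_sdiff, Set.mem_singleton_iff]
    tauto
  rw [h1, h2]

lemma piv_self_one (e : Edge) (A : Set (Set Edge)) :
    {S : Set Edge | insert e S ∈ piv e A} = piv e A := by
  ext S
  simp only [piv, Set.mem_ofPred_eq]
  rw [Set.insert_idem]
  have : insert e S \ {e} = S \ {e} := by
    ext x
    simp only [Set.mem_sdiff, Set.mem_insert_iff, Set.mem_singleton_iff]
    tauto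
  rw [this]

lemma piv_self_zero (e : Edge) (A : Set (Set Edge)) :
    {S : Set Edge | S \ {e} ∈ piv e A} = piv e A := by
  ext S
  simp only [piv, Set.mem_ofPred_eq]
  have h1 : insert e (S \ {e}) = insert e S := by
    ext x
    simp only [Set.mem_sdiff, Set.mem_insert_iff, Set.mem_singleton_iff]
    tauto
  have h2 : (S \ {e}) \ {e} = S \ {e} := by
    ext x
    simp only [Set.mem_sdiff, Set.mem_singleton_iff]
    tauto
  rw [h1, h2]

/-- **Russo's formula.** -/
lemma russo (q : ℝ) (E : Finset Edge) : ∀ {A : Set (Set Edge)}, Inc A →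
    HasDerivAt (fun q => pr q E A) (∑ e ∈ E, pr q E (piv e A)) q := by
  induction E using Finset.induction_on with
  | empty =>
    intro A _
    simp only [pr_empty, sum_empty]
    exact hasDerivAt_const _ _
  | insert e E he ih =>
    intro A hA
    have h1 := ih (inc_one hA e)
    have h0 := ih (inc_zero hA e)
    have hd := ((hasDerivAt_id q).mul h1).add (((hasDerivAt_id q).const_sub 1).mul h0)
    have e1 : (fun q => pr q (insert e E) A) = fun q => q * pr q E {S | insert e S ∈ A} +
        (1 - q) * pr q E {S | S \ {e} ∈ A} := by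
      ext q
      exact pr_insert he A
    rw [e1]
    refine hd.congr_deriv ?_
    rw [sum_insert he, pr_insert he, piv_self_one, piv_self_zero]
    have e2 : pr q E (piv e A) = pr q E {S | insert e S ∈ A} - pr q E {S | S \ {e} ∈ A} := by
      rw [← pr_diff (inc_zero_one hA e)]
      rfl
    have e3 : ∑ f ∈ E, pr q (insert e E) (piv f A) =
        q * ∑ f ∈ E, pr q E (piv f {S | insert e S ∈ A}) +
        (1 - q) * ∑ f ∈ E, pr q E (piv f {S | S \ {e} ∈ A}) := by
      rw [mul_sum, mul_sum, ← sum_add_distrib]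
      apply sum_congr rfl
      intro f hf
      have hne : f ≠ e := fun h => he (h ▸ hf)
      rw [pr_insert he, piv_one hne, piv_zero hne]
    rw [e3, e2]
    simp only [id]
    ring

/-- composition of thinnings -/
lemma pr_thin (p s : ℝ) (E : Finset Edge) : ∀ (A : Set (Set Edge)),
    ∑ ω ∈ E.powerset, p ^ ω.card * (1 - p) ^ (E.card - ω.card) * pr s ω A = pr (p * s) E A := by
  induction E using Finset.induction_on with
  | empty =>
    intro A
    simp [pr_empty]
  | insert e E he ih =>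
    intro A
    rw [Finset.sum_powerset_insert he, pr_insert he, ← ih, ← ih, mul_sum, mul_sum,
      ← sum_add_distrib, ← sum_add_distrib]
    apply sum_congr rfl
    intro ω hω
    rw [mem_powerset] at hω
    have h1 : e ∉ ω := fun h => he (hω h)
    have h3 := Finset.card_le_card hω
    rw [card_insert_of_notMem h1, card_insert_of_notMem he, pr_insert h1, Nat.add_sub_add_right,
      show E.card + 1 - ω.card = (E.card - ω.card) + 1 by omega, pow_succ, pow_succ]
    have h4 : pr s ω A = pr s ω {S | S \ {e} ∈ A} := by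
      unfold pr
      apply sum_congr rfl
      intro η hη
      rw [mem_powerset] at hη
      have h5 : (η : Set Edge) \ {e} = η := by
        ext x
        simp only [Set.mem_sdiff, Finset.mem_coe, Set.mem_singleton_iff]
        refine ⟨fun h => h.1, fun h => ⟨h, ?_⟩⟩
        rintro rfl
        exact h1 (hη h)
      simp only [Set.mem_ofPred_eq, h5]
    rw [h4]
    ring

/-- configurations in which `A` can be destroyed by closing at most `r` edges -/
def bad (r : ℕ) (A : Set (Set Edge)) : Set (Set Edge) :=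
  {S | ∃ B : Finset Edge, B.card ≤ r ∧ S \ (B : Set Edge) ∉ A}

lemma pr_bad_one {s : ℝ} (h0 : 0 ≤ s) (h1 : s ≤ 1) {A : Set (Set Edge)} (hA : Inc A)
    {ω : Finset Edge} {r : ℕ} (hω : (ω : Set Edge) ∈ bad r A) : (1 - s) ^ r ≤ pr s ω Aᶜ := by
  obtain ⟨B, hB, hBA⟩ := hω
  have ht0 : 0 ≤ 1 - s := by linarith
  have ht1 : 1 - s ≤ 1 := by linarith
  have hsub : (ω \ B).powerset ⊆ ω.powerset := Finset.powerset_mono.mpr sdiff_subset
  have h2 : ∑ η ∈ (ω \ B).powerset, s ^ η.card * (1 - s) ^ (ω.card - η.card) ≤ pr s ω Aᶜ := by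
    unfold pr
    refine le_trans (le_of_eq ?_) (sum_le_sum_of_subset_of_nonneg hsub ?_)
    · apply sum_congr rfl
      intro η hη
      rw [mem_powerset] at hη
      rw [if_pos]
      intro hη'
      apply hBA
      refine hA _ _ ?_ hη'
      intro x hx
      have := hη hx
      rw [Finset.mem_sdiff] at this
      exact ⟨this.1, this.2⟩
    · intro η _ _
      split_ifs
      · positivity
      · exact le_rfl
  refine le_trans ?_ h2
  have h3 : ∑ η ∈ (ω \ B).powerset, s ^ η.card * (1 - s) ^ (ω.card - η.card) =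
      (1 - s) ^ (ω.card - (ω \ B).card) := by
    have h4 : ∀ η ∈ (ω \ B).powerset, s ^ η.card * (1 - s) ^ (ω.card - η.card) =
        (1 - s) ^ (ω.card - (ω \ B).card) * (s ^ η.card * (1 - s) ^ ((ω \ B).card - η.card)) := by
      intro η hη
      rw [mem_powerset] at hη
      have c1 := card_le_card hη
      have c2 : (ω \ B).card ≤ ω.card := card_le_card sdiff_subset
      rw [show ω.card - η.card = (ω.card - (ω \ B).card) + ((ω \ B).card - η.card) by omega, pow_add]
      ring
    rw [sum_congr rfl h4, ← mul_sum, Finset.sum_pow_mul_eq_add_pow]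
    simp
  rw [h3]
  apply pow_le_pow_of_le_one ht0 ht1
  have h5 := Finset.card_le_card_sdiff_add_card (s := ω) (t := B)
  omega

/-- **Thinning lemma.** -/
lemma pr_bad {p p' : ℝ} (hp' : 0 ≤ p') (hp : p' < p) (h1 : p ≤ 1) {A : Set (Set Edge)}
    (hA : Inc A) (E : Finset Edge) (r : ℕ) :
    (1 - p' / p) ^ r * pr p E (bad r A) ≤ pr p' E Aᶜ := by
  have hp0 : 0 < p := lt_of_le_of_lt hp' hp
  have hs0 : 0 ≤ p' / p := by positivity
  have hs1 : p' / p ≤ 1 := by rw [div_le_one hp0]; exact hp.le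
  have e1 : p' = p * (p' / p) := by field_simp
  conv_rhs => rw [e1, ← pr_thin]
  unfold pr
  rw [mul_sum]
  apply sum_le_sum
  intro ω _
  have hw : 0 ≤ p ^ ω.card * (1 - p) ^ (E.card - ω.card) := by
    have : 0 ≤ 1 - p := by linarith
    positivity
  split_ifs with h
  · rw [mul_comm]
    exact mul_le_mul_of_nonneg_left (pr_bad_one hs0 hs1 hA h) hw
  · rw [mul_zero]
    exact mul_nonneg hw (pr_nonneg hs0 hs1 ω Aᶜ)

end

/-- local events -/
def Loc (A : Set (Set Edge)) : Prop := ∃ E : Finset Edge, Lat E ∧ Det E A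

lemma Loc.inter {A B : Set (Set Edge)} (hA : Loc A) (hB : Loc B) : Loc (A ∩ B) := by
  classical
  obtain ⟨E, hE, hA⟩ := hA
  obtain ⟨F, hF, hB⟩ := hB
  exact ⟨E ∪ F, lat_union hE hF, det_inter (det_mono subset_union_left hA)
    (det_mono subset_union_right hB)⟩

lemma Loc.union {A B : Set (Set Edge)} (hA : Loc A) (hB : Loc B) : Loc (A ∪ B) := by
  classical
  obtain ⟨E, hE, hA⟩ := hA
  obtain ⟨F, hF, hB⟩ := hB
  exact ⟨E ∪ F, lat_union hE hF, det_union (det_mono subset_union_left hA)
    (det_mono subset_union_right hB)⟩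

lemma Loc.compl {A : Set (Set Edge)} (hA : Loc A) : Loc Aᶜ := by
  obtain ⟨E, hE, hA⟩ := hA
  exact ⟨E, hE, det_compl hA⟩

lemma Loc.meas {A : Set (Set Edge)} (hA : Loc A) : MeasurableSet A := by
  obtain ⟨E, hE, hA⟩ := hA
  exact det_measurable hA

/-- two local events are determined by the same edges -/
lemma Loc.two {A B : Set (Set Edge)} (hA : Loc A) (hB : Loc B) :
    ∃ E : Finset Edge, Lat E ∧ Det E A ∧ Det E B := by
  classical
  obtain ⟨E, hE, hA⟩ := hA
  obtain ⟨F, hF, hB⟩ := hB
  exact ⟨E ∪ F, lat_union hE hF, det_mono subset_union_left hA, det_mono subset_union_right hB⟩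

lemma perc_fkg (p : I) {A B : Set (Set Edge)} (hA : Loc A) (hB : Loc B) (hA' : Inc A)
    (hB' : Inc B) : (perc p).real A * (perc p).real B ≤ (perc p).real (A ∩ B) := by
  obtain ⟨E, hE, hA, hB⟩ := hA.two hB
  rw [perc_det p hE hA, perc_det p hE hB, perc_det p hE (det_inter hA hB)]
  exact pr_fkg p.2.1 p.2.2 E hA' hB'

/-- decreasing events -/
def Dec (A : Set (Set Edge)) : Prop := Inc Aᶜ

lemma perc_fkg_dec (p : I) {A B : Set (Set Edge)} (hA : Loc A) (hB : Loc B) (hA' : Dec A)
    (hB' : Dec B) : (perc p).real A * (perc p).real B ≤ (perc p).real (A ∩ B) := by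
  obtain ⟨E, hE, hA, hB⟩ := hA.two hB
  have h := pr_fkg p.2.1 p.2.2 E hA' hB'
  rw [pr_compl, pr_compl] at h
  have h2 : pr (p : ℝ) E (Aᶜ ∩ Bᶜ) = 1 - pr (p : ℝ) E (A ∪ B) := by
    rw [← pr_compl, Set.compl_union]
  have h3 : pr (p : ℝ) E (A ∪ B) = pr p E A + pr p E B - pr p E (A ∩ B) := by
    have e1 := pr_diff (q := (p : ℝ)) (E := E) (A := A) (B := A ∪ B) Set.subset_union_left
    have e2 := pr_diff (q := (p : ℝ)) (E := E) (A := A ∩ B) (B := B) Set.inter_subset_right
    have e3 : (A ∪ B) \ A = B \ (A ∩ B) := by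
      ext x
      simp only [Set.mem_sdiff, Set.mem_union, Set.mem_inter_iff]
      tauto
    rw [e3, e2] at e1
    linarith
  rw [perc_det p hE hA, perc_det p hE hB, perc_det p hE (det_inter hA hB)]
  rw [h2, h3] at h
  nlinarith

lemma perc_mono_q {p p' : I} (h : p ≤ p') {A : Set (Set Edge)} (hA : Loc A) (hA' : Inc A) :
    (perc p).real A ≤ (perc p').real A := by
  obtain ⟨E, hE, hA⟩ := hA
  rw [perc_det p hE hA, perc_det p' hE hA]
  exact pr_mono_q p.2.1 h p'.2.2 E hA'

/-- the thinning lemma for the percolation measure -/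
lemma perc_bad {p p' : I} (h : p' < p) {A : Set (Set Edge)} (hA : Loc A) (hA' : Inc A) (r : ℕ) :
    (perc p).real (bad r A) ≤ (1 - (p' : ℝ) / p)⁻¹ ^ r * (perc p').real Aᶜ := by
  obtain ⟨E, hE, hA⟩ := hA
  have hp' : (0 : ℝ) ≤ p' := p'.2.1
  have hpp : (p' : ℝ) < p := h
  have hp0 : (0 : ℝ) < p := lt_of_le_of_lt hp' hpp
  have hbad : Det E (bad r A) := by
    rintro S S' hS ⟨B, hB, hBA⟩
    refine ⟨B, hB, fun h1 => hBA ?_⟩
    refine hA _ _ ?_ h1
    intro e he
    simp only [Set.mem_sdiff, Finset.mem_coe, hS e he]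
  rw [perc_det p hE hbad, perc_det p' hE (det_compl hA)]
  have h1 := pr_bad hp' hpp p.2.2 hA' E r
  have h2 : 0 < 1 - (p' : ℝ) / p := by
    rw [sub_pos, div_lt_one hp0]
    exact hpp
  rw [inv_pow, ← div_eq_inv_mul, le_div_iff₀ (by positivity), mul_comm]
  exact h1

end Pool.Agent.Lib.MP_566bac_pr
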