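import Pool.Agent.Lib.MP_566bac_pr.Subcrit

/-!
# First passage percolation on the faces: a linear lower bound
-/

open MeasureTheory ProbabilityTheory Finset unitInterval SimpleGraph Filter
open scoped ENNReal

namespace Pool.Agent.Lib.MP_566bac_pr

/-- king neighbours -/
def King (f g : ℤ × ℤ) : Prop := |f.1 - g.1| ≤ 1 ∧ |f.2 - g.2| ≤ 1

/-- the face can be reached from below with at most `k` jumps -/
inductive Rk (S : Set Edge) : ℕ → ℤ × ℤ → Prop
  | base {k : ℕ} {f : ℤ × ℤ} (h : f.2 < 0) : Rk S k f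
  | free {k : ℕ} {f g : ℤ × ℤ} (h : Rk S k f) (hfg : (openGraph (dualize S)).Adj f g) : Rk S k g
  | jump {k : ℕ} {f g : ℤ × ℤ} (h : Rk S k f) (hfg : King f g) : Rk S (k + 1) g

lemma dualize_anti {S S' : Set Edge} (h : S ⊆ S') : dualize S' ⊆ dualize S :=
  fun _ he => ⟨he.1, fun h1 => he.2 (h h1)⟩

lemma close_step {S : Set Edge} {f g : ℤ × ℤ} (h : f = g ∨ lattice.Adj f g)
    (hS : dlt s(f, g) ∉ S) : (openGraph (dualize S)).Reachable f g := by
  rcases h with rfl | h
  · exact Reachable.refl _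
  · exact Adj.reachable ((dual_adj S f g).mpr ⟨h, hS⟩)

lemma rk_bad {S : Set Edge} {k : ℕ} {f : ℤ × ℤ} (h : Rk S k f) :
    ∃ B : Finset Edge, B.card ≤ 2 * k ∧ ∃ g : ℤ × ℤ, g.2 < 0 ∧
      (openGraph (dualize (S \ (B : Set Edge)))).Reachable f g := by
  classical
  induction h with
  | @base k f h => exact ⟨∅, by simp, f, h, Reachable.refl _⟩
  | @free k f g h hfg ih =>
    obtain ⟨B, hB, z, hz, hr⟩ := ih
    refine ⟨B, hB, z, hz, Reachable.trans (Adj.reachable ?_) hr⟩
    exact openGraph_mono (dualize_anti Set.sdiff_subset) hfg.symm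
  | @jump k f g h hfg ih =>
    obtain ⟨B, hB, z, hz, hr⟩ := ih
    set m : ℤ × ℤ := (f.1, g.2) with hm
    refine ⟨insert (dlt s(g, m)) (insert (dlt s(m, f)) B), ?_, z, hz, ?_⟩
    · have h1 := Finset.card_insert_le (dlt s(g, m)) (insert (dlt s(m, f)) B)
      have h2 := Finset.card_insert_le (dlt s(m, f)) B
      omega
    · obtain ⟨k1, k2⟩ := hfg
      rw [abs_le] at k1 k2
      have s1 : g = m ∨ lattice.Adj g m := by
        rcases eq_or_ne g.1 f.1 with h3 | h3
        · left; exact Prod.ext h3 rfl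
        · right
          rw [lattice_adj_iff]
          rcases lt_or_gt_of_ne h3 with h4 | h4
          · left; apply Prod.ext
            · simp only [hm]; omega
            · rfl
          · right; left; apply Prod.ext
            · simp only [hm]; omega
            · rfl
      have s2 : m = f ∨ lattice.Adj m f := by
        rcases eq_or_ne g.2 f.2 with h3 | h3
        · left; exact Prod.ext rfl h3
        · right
          rw [lattice_adj_iff]
          rcases lt_or_gt_of_ne h3 with h4 | h4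
          · right; right; left; apply Prod.ext
            · rfl
            · simp only [hm]; omega
          · right; right; right; apply Prod.ext
            · rfl
            · simp only [hm]; omega
      have hsub : S \ ((insert (dlt s(g, m)) (insert (dlt s(m, f)) B) : Finset Edge) : Set Edge) ⊆
          S \ (B : Set Edge) := by
        intro e he
        refine ⟨he.1, fun h3 => he.2 ?_⟩
        simp only [Finset.coe_insert, Set.mem_insert_iff]
        exact Or.inr (Or.inr h3)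
      have r1 := close_step s1 (S := S \ ((insert (dlt s(g, m)) (insert (dlt s(m, f)) B) :
        Finset Edge) : Set Edge)) (fun h3 => h3.2 (by simp))
      have r2 := close_step s2 (S := S \ ((insert (dlt s(g, m)) (insert (dlt s(m, f)) B) :
        Finset Edge) : Set Edge)) (fun h3 => h3.2 (by simp))
      exact (r1.trans r2).trans (Reachable.mono (openGraph_mono (dualize_anti hsub)) hr)

/-- **The tail bound.** -/
theorem rk_prob {p : I} (hp : 1 / 2 < (p : ℝ)) : ∃ C K γ : ℝ, 0 ≤ C ∧ 1 ≤ K ∧ 0 < γ ∧ γ < 1 ∧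
    ∀ (k : ℕ) (x : ℤ) (h : ℕ), (perc p).real {S | Rk S k (x, (h : ℤ))} ≤ C * K ^ k * γ ^ h := by
  have hp1 : (p : ℝ) ≤ 1 := p.2.2
  set p' : I := ⟨(1 / 2 + (p : ℝ)) / 2, by constructor <;> linarith⟩ with hp'
  have hp'v : (p' : ℝ) = (1 / 2 + (p : ℝ)) / 2 := rfl
  have hlt : p' < p := by
    change (p' : ℝ) < p
    rw [hp'v]; linarith
  have hσ : ((σ p' : I) : ℝ) < 1 / 2 := by
    rw [coe_symm_eq, hp'v]; linarith
  obtain ⟨C, γ, hC, hγ0, hγ1, hdec⟩ := subcritical hσ
  set c := (1 - (p' : ℝ) / p)⁻¹ with hc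
  have hratio : (p' : ℝ) / p < 1 := by
    rw [div_lt_one (by linarith)]
    exact hlt
  have hratio0 : 0 ≤ (p' : ℝ) / p := by
    have : (0 : ℝ) ≤ p' := p'.2.1
    positivity
  have hc1 : 1 ≤ c := by
    rw [hc, one_le_inv₀ (by linarith)]
    linarith
  refine ⟨C, c ^ 2, γ, hC, one_le_pow₀ hc1, hγ0, hγ1, ?_⟩
  intro k x h
  set f : ℤ × ℤ := (x, (h : ℤ)) with hf
  set A : Set (Set Edge) := (dualize ⁻¹' Far (h + 1) f)ᶜ with hA
  have hAloc : Loc A := (far_loc _ _).dual.compl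
  have hAinc : Inc A := (far_inc _ _).dual
  have hsub : {S | Rk S k f} ⊆ bad (2 * k) A := by
    intro S hS
    obtain ⟨B, hB, g, hg, hr⟩ := rk_bad hS
    refine ⟨B, hB, ?_⟩
    rw [hA, Set.mem_compl_iff, not_not]
    refine ⟨g, ?_, hr⟩
    unfold dst
    refine le_trans ?_ (le_max_right _ _)
    simp only [hf]
    omega
  calc (perc p).real {S | Rk S k f} ≤ (perc p).real (bad (2 * k) A) := perc_mono p hsub
    _ ≤ c ^ (2 * k) * (perc p').real Aᶜ := perc_bad hlt hAloc hAinc (2 * k)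
    _ = c ^ (2 * k) * (perc (σ p')).real (Far (h + 1) 0) := by
        rw [hA, compl_compl, perc_dual p' (far_loc _ _), perc_far]
    _ ≤ c ^ (2 * k) * (C * γ ^ (h + 1)) := by
        apply mul_le_mul_of_nonneg_left (hdec _) (by positivity)
    _ ≤ C * (c ^ 2) ^ k * γ ^ h := by
        rw [← pow_mul, pow_succ]
        have h1 : γ ^ h * γ ≤ γ ^ h := by
          have : 0 ≤ γ ^ h := by positivity
          nlinarith
        have h2 : 0 ≤ C * c ^ (2 * k) := by positivity
        nlinarith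

/-- the tail bound, without the factor depending on `k` -/
theorem rk_prob' {p : I} (hp : 1 / 2 < (p : ℝ)) : ∃ (C γ : ℝ) (A : ℕ), 0 ≤ C ∧ 0 < γ ∧ γ < 1 ∧
    1 ≤ A ∧ ∀ (k : ℕ) (x : ℤ) (r : ℕ),
      (perc p).real {S | Rk S k (x, ((A * k + r : ℕ) : ℤ))} ≤ C * γ ^ r := by
  obtain ⟨C, K, γ, hC, hK, hγ0, hγ1, h⟩ := rk_prob hp
  obtain ⟨A, hA⟩ := exists_pow_lt_of_lt_one (show 0 < K⁻¹ by positivity) hγ1
  have hA' : K * γ ^ (A + 1) ≤ 1 := by
    have h1 : K * γ ^ A ≤ 1 := by
      have := mul_le_mul_of_nonneg_left hA.le (by linarith : 0 ≤ K)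
      rwa [mul_inv_cancel₀ (by linarith)] at this
    rw [pow_succ]
    have : 0 ≤ K * γ ^ A := by positivity
    nlinarith
  refine ⟨C, γ, A + 1, hC, hγ0, hγ1, by omega, ?_⟩
  intro k x r
  refine (h k x ((A + 1) * k + r)).trans ?_
  have e : C * K ^ k * γ ^ ((A + 1) * k + r) = C * γ ^ r * (K * γ ^ (A + 1)) ^ k := by
    rw [mul_pow, pow_add, pow_mul]
    ring
  rw [e]
  have h1 : (K * γ ^ (A + 1)) ^ k ≤ 1 := pow_le_one₀ (by positivity) hA'
  have h2 : 0 ≤ C * γ ^ r := by positivity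
  nlinarith

/-- all heights above -/
def Up (k : ℕ) (x : ℤ) (h : ℕ) : Set (Set Edge) := {S | ∃ h' : ℤ, (h : ℤ) ≤ h' ∧ Rk S k (x, h')}

theorem up_prob {p : I} (hp : 1 / 2 < (p : ℝ)) : ∃ (C γ : ℝ) (A : ℕ), 0 ≤ C ∧ 0 < γ ∧ γ < 1 ∧
    1 ≤ A ∧ ∀ (k : ℕ) (x : ℤ) (r : ℕ), perc p (Up k x (A * k + r)) ≤ ENNReal.ofReal (C * γ ^ r) := by
  obtain ⟨C, γ, A, hC, hγ0, hγ1, hA, h⟩ := rk_prob' hp
  refine ⟨C * (1 - γ)⁻¹, γ, A, ?_, hγ0, hγ1, hA, ?_⟩
  · have : 0 < 1 - γ := by linarith
    positivity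
  intro k x r
  have hsub : Up k x (A * k + r) ⊆ ⋃ j : ℕ, {S | Rk S k (x, ((A * k + (r + j) : ℕ) : ℤ))} := by
    rintro S ⟨h', h1, h2⟩
    rw [Set.mem_iUnion]
    refine ⟨(h' - ((A * k + r : ℕ) : ℤ)).toNat, ?_⟩
    have e : (((A * k + (r + (h' - ((A * k + r : ℕ) : ℤ)).toNat) : ℕ)) : ℤ) = h' := by
      push_cast at h1 ⊢
      omega
    rw [Set.mem_ofPred_eq, e]
    exact h2
  calc perc p (Up k x (A * k + r)) ≤ ∑' j : ℕ, perc p {S | Rk S k (x, ((A * k + (r + j) : ℕ) : ℤ))} :=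
        (measure_mono hsub).trans (measure_iUnion_le _)
    _ ≤ ∑' j : ℕ, ENNReal.ofReal (C * γ ^ r * γ ^ j) := by
        apply ENNReal.tsum_le_tsum
        intro j
        have h1 := h k x (r + j)
        rw [measureReal_def] at h1
        rw [mul_assoc, ← pow_add]
        exact (ENNReal.le_ofReal_iff_toReal_le (measure_ne_top _ _) (by positivity)).mpr h1
    _ = ENNReal.ofReal (∑' j : ℕ, C * γ ^ r * γ ^ j) := by
        rw [ENNReal.ofReal_tsum_of_nonneg (fun j => by positivity)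
          ((summable_geometric_of_lt_one hγ0.le hγ1).mul_left _)]
    _ = ENNReal.ofReal (C * (1 - γ)⁻¹ * γ ^ r) := by
        rw [tsum_mul_left, tsum_geometric_of_lt_one hγ0.le hγ1]
        congr 1
        ring

end Pool.Agent.Lib.MP_566bac_pr
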