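import Pool.Agent.Lib.MP_566bac_pr.AeK

/-!
# From local to global
-/

open SimpleGraph Finset Filter

namespace Pool.Agent.Lib.MP_566bac_pr

/-- **Linear compactness.** A system of linear equations in finitely many unknowns each is
solvable as soon as all its finite subsystems are. -/
theorem linear_compactness {V J : Type*} (e : J → (V →₀ ℝ)) (b : J → ℝ)
    (h : ∀ F : Finset J, ∃ u : V → ℝ, ∀ j ∈ F, Finsupp.linearCombination ℝ u (e j) = b j) :
    ∃ u : V → ℝ, ∀ j, Finsupp.linearCombination ℝ u (e j) = b j := by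
  classical
  obtain ⟨ψ, hψ⟩ := factor_through (Finsupp.linearCombination ℝ e) (Finsupp.linearCombination ℝ b) (by
    intro c hc
    obtain ⟨u, hu⟩ := h c.support
    have h1 : Finsupp.linearCombination ℝ b c =
        Finsupp.linearCombination ℝ u (Finsupp.linearCombination ℝ e c) := by
      rw [Finsupp.linearCombination_apply, Finsupp.linearCombination_apply (R := ℝ) (v := e),
        map_finsuppSum]
      apply Finsupp.sum_congr
      intro j hj
      rw [map_smul, hu j hj]
    rw [h1, hc, map_zero])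
  refine ⟨fun v => ψ (Finsupp.single v 1), ?_⟩
  intro j
  have h1 : Finsupp.linearCombination ℝ (fun v => ψ (Finsupp.single v 1)) = ψ := by
    ext v
    simp
  rw [h1]
  have h2 := hψ (Finsupp.single j 1)
  simpa using h2

open Classical in
/-- the Laplacian at `v` as a finitely supported vector -/
noncomputable def lapVec (G : SimpleGraph (ℤ × ℤ)) (v : ℤ × ℤ) : (ℤ × ℤ) →₀ ℝ :=
  ∑ w ∈ nb v, if G.Adj v w then Finsupp.single v 1 - Finsupp.single w 1 else 0

lemma lapVec_apply (G : SimpleGraph (ℤ × ℤ)) (h : ℤ × ℤ → ℝ) (v : ℤ × ℤ) :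
    Finsupp.linearCombination ℝ h (lapVec G v) = lap G h v := by
  classical
  unfold lapVec lap
  rw [map_sum]
  apply sum_congr rfl
  intro w _
  split_ifs
  · rw [map_sub]
    simp
  · simp

lemma lap_add (G : SimpleGraph (ℤ × ℤ)) (h h' : ℤ × ℤ → ℝ) (v : ℤ × ℤ) :
    lap G (h + h') v = lap G h v + lap G h' v := by
  rw [← lapVec_apply, ← lapVec_apply, ← lapVec_apply]
  simp only [Finsupp.linearCombination_apply, Pi.add_apply, smul_add, Finsupp.sum_add]

lemma lap_smul (G : SimpleGraph (ℤ × ℤ)) (c : ℝ) (h : ℤ × ℤ → ℝ) (v : ℤ × ℤ) :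
    lap G (c • h) v = c * lap G h v := by
  unfold lap
  rw [mul_sum]
  apply sum_congr rfl
  intro w _
  simp only [Pi.smul_apply, smul_eq_mul]
  split_ifs
  · ring
  · ring

/-- **Global harmonic functions.** -/
theorem exists_global {κ : ℝ} {S : Set (Sym2 (ℤ × ℤ))} (hB : ∀ m, Bev κ m 0 S) :
    (1, 0) ∈ bd S ∧ ∃ h : ℤ × ℤ → ℝ,
      (∀ v ∈ infSet (openGraph S), v.1 ≤ 0 → |h v| ≤ 1) ∧
      (∀ v ∈ infSet (openGraph S), lap (openGraph S) h v = 0) ∧
      κ ≤ h (1, 0) ∧ ∀ F : Finset (ℤ × ℤ), (∀ z ∈ F, z ∈ bd S) → ∑ z ∈ F, h z ^ 2 ≤ 1 := by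
  classical
  refine ⟨(hB 0).1, ?_⟩
  set G := openGraph S with hG
  set C := infSet G with hC
  set A : Set (ℤ × ℤ) := {v | (v ∈ C ∧ v.1 ≤ 0) ∨ v ∈ bd S} with hA
  have h10 : (1, 0) ∈ A := Or.inr (hB 0).1
  -- the harmonic functions in the boxes
  let Z : ℕ → Submodule ℝ (ℤ × ℤ → ℝ) := fun m =>
    { carrier := {h | ∀ v ∈ C, v ∈ box m 0 → lap G h v = 0}
      add_mem' := by
        intro a b ha hb v hv hvb
        rw [lap_add, ha v hv hvb, hb v hv hvb, add_zero]
      zero_mem' := by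
        intro v _ _
        unfold lap
        simp
      smul_mem' := by
        intro c a ha v hv hvb
        rw [lap_smul, ha v hv hvb, mul_zero] }
  let QA : ℕ → Finset (ℤ × ℤ) := fun m => (box (m + 1) 0).filter (fun v => v ∈ A)
  let R : ∀ m, (ℤ × ℤ → ℝ) →ₗ[ℝ] (QA m → ℝ) := fun m => LinearMap.funLeft ℝ ℝ (fun v => v.1)
  let W : ∀ m, Submodule ℝ (QA m → ℝ) := fun m => (Z m).map (R m)
  -- the sets of boundary data
  let T : ℕ → Set (ℤ × ℤ → ℝ) := fun m =>
    {u | (∀ v, u v ∈ Set.Icc (-1 : ℝ) 1) ∧ κ ≤ u (1, 0) ∧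
      (∀ F : Finset (ℤ × ℤ), (∀ z ∈ F, z ∈ bd S) → ∑ z ∈ F, u z ^ 2 ≤ 1) ∧ R m u ∈ W m}
  -- extension property
  have hext : ∀ m u, R m u ∈ W m → ∃ h : ℤ × ℤ → ℝ, (∀ v ∈ A, h v = u v) ∧
      ∀ v ∈ C, v ∈ box m 0 → lap G h v = 0 := by
    intro m u hu
    obtain ⟨h, hZ, hR⟩ := Submodule.mem_map.mp hu
    refine ⟨fun v => if v ∈ box (m + 1) 0 then h v else u v, ?_, ?_⟩
    · intro v hv
      simp only
      split_ifs with hb
      · have hvQ : v ∈ QA m := Finset.mem_filter.mpr ⟨hb, hv⟩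
        exact congrFun hR ⟨v, hvQ⟩
      · rfl
    · intro v hv hvb
      rw [← hZ v hv hvb]
      apply lap_congr
      · intro w _; exact Iff.rfl
      · rw [if_pos (box_mono hvb)]
      · intro w hw
        rw [if_pos (nb_box hvb hw)]
  have hclosed : ∀ m, IsClosed (T m) := by
    intro m
    have e : T m = {u | ∀ v, u v ∈ Set.Icc (-1 : ℝ) 1} ∩ ({u | κ ≤ u (1, 0)} ∩
        ({u | ∀ F : Finset (ℤ × ℤ), (∀ z ∈ F, z ∈ bd S) → ∑ z ∈ F, u z ^ 2 ≤ 1} ∩
          {u | R m u ∈ W m})) := rfl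
    rw [e]
    refine IsClosed.inter ?_ (IsClosed.inter ?_ (IsClosed.inter ?_ ?_))
    · rw [show {u : ℤ × ℤ → ℝ | ∀ v, u v ∈ Set.Icc (-1 : ℝ) 1} =
        ⋂ v, {u | u v ∈ Set.Icc (-1 : ℝ) 1} by ext; simp]
      exact isClosed_iInter fun v => isClosed_Icc.preimage (continuous_apply v)
    · exact isClosed_le continuous_const (continuous_apply _)
    · have e2 : {u : ℤ × ℤ → ℝ | ∀ F : Finset (ℤ × ℤ), (∀ z ∈ F, z ∈ bd S) → ∑ z ∈ F, u z ^ 2 ≤ 1} =
          ⋂ F : Finset (ℤ × ℤ), ⋂ _ : (∀ z ∈ F, z ∈ bd S), {u | ∑ z ∈ F, u z ^ 2 ≤ 1} := by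
        ext; simp
      rw [e2]
      refine isClosed_iInter fun F => isClosed_iInter fun _ => ?_
      refine isClosed_le ?_ continuous_const
      exact continuous_finsetSum _ fun z _ => (continuous_apply z).pow 2
    · have hcont : Continuous (R m) := by
        apply continuous_pi
        intro v
        exact continuous_apply _
      exact (Submodule.closed_of_finiteDimensional (W m)).preimage hcont
  have hcomp : IsCompact (T 0) := by
    apply IsCompact.of_isClosed_subset (isCompact_univ_pi fun _ => isCompact_Icc) (hclosed 0)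
    intro u hu v _
    exact hu.1 v
  have hne : ∀ m, (T m).Nonempty := by
    intro m
    obtain ⟨_, h, h1, h2, h3, h4⟩ := hB m
    have hbdd : ∀ v ∈ A, |h v| ≤ 1 := by
      rintro v (⟨hv, hv0⟩ | hv)
      · exact h1 v hv hv0
      · have := h4 {v} (by intro z hz; rw [Finset.mem_singleton] at hz; rw [hz]; exact hv)
        rw [Finset.sum_singleton] at this
        rw [← sq_abs] at this
        nlinarith [abs_nonneg (h v)]
    refine ⟨fun v => if v ∈ A then h v else 0, ?_, ?_, ?_, ?_⟩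
    · intro v
      simp only
      split_ifs with hv
      · exact Set.mem_Icc.mpr (abs_le.mp (hbdd v hv))
      · simp
    · change κ ≤ if (1, 0) ∈ A then h (1, 0) else 0
      rw [if_pos h10]
      exact h3
    · intro F hF
      refine le_trans (le_of_eq ?_) (h4 F hF)
      apply sum_congr rfl
      intro z hz
      have hzA : z ∈ A := Or.inr (hF z hz)
      change (if z ∈ A then h z else 0) ^ 2 = h z ^ 2
      rw [if_pos hzA]
    · refine Submodule.mem_map.mpr ⟨h, ?_, ?_⟩
      · intro v hv hvb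
        rw [mem_box] at hvb
        exact h2 v hv hvb.1 hvb.2
      · ext ⟨v, hv⟩
        have hvA := (Finset.mem_filter.mp hv).2
        change h v = if v ∈ A then h v else 0
        rw [if_pos hvA]
  have hdec : ∀ m, T (m + 1) ⊆ T m := by
    rintro m u ⟨h1, h2, h3, h4⟩
    refine ⟨h1, h2, h3, ?_⟩
    obtain ⟨h, h5, h6⟩ := hext (m + 1) u h4
    refine Submodule.mem_map.mpr ⟨h, ?_, ?_⟩
    · intro v hv hvb
      exact h6 v hv (box_mono hvb)
    · ext ⟨v, hv⟩
      exact h5 v (Finset.mem_filter.mp hv).2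
  obtain ⟨u, hu⟩ := IsCompact.nonempty_iInter_of_sequence_nonempty_isCompact_isClosed T hdec hne
    hcomp hclosed
  rw [Set.mem_iInter] at hu
  -- the infinite linear system
  let e : (C ⊕ A) → ((ℤ × ℤ) →₀ ℝ) := fun j => match j with
    | Sum.inl v => lapVec G v
    | Sum.inr v => Finsupp.single (v : ℤ × ℤ) 1
  let b : (C ⊕ A) → ℝ := fun j => match j with
    | Sum.inl _ => 0
    | Sum.inr v => u v
  obtain ⟨h, hh⟩ := linear_compactness e b (by
    intro F
    -- a box containing the finitely many equations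
    obtain ⟨m, hm⟩ : ∃ m : ℕ, ∀ v : C, Sum.inl v ∈ F → (v : ℤ × ℤ) ∈ box m 0 := by
      refine ⟨F.sup fun j => match j with
        | Sum.inl v => (v : ℤ × ℤ).1.natAbs + (v : ℤ × ℤ).2.natAbs
        | Sum.inr _ => 0, ?_⟩
      intro v hv
      have h1 := Finset.le_sup (f := fun j : C ⊕ A => match j with
        | Sum.inl v => (v : ℤ × ℤ).1.natAbs + (v : ℤ × ℤ).2.natAbs
        | Sum.inr _ => 0) hv
      simp only at h1
      rw [mem_box, Int.abs_eq_natAbs, Int.abs_eq_natAbs, sub_zero]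
      constructor
      · exact_mod_cast (Nat.le_add_right _ _).trans h1
      · exact_mod_cast (Nat.le_add_left _ _).trans h1
    obtain ⟨h, h5, h6⟩ := hext m u (hu m).2.2.2
    refine ⟨h, ?_⟩
    rintro (v | v) hj
    · change Finsupp.linearCombination ℝ h (lapVec G v) = 0
      rw [lapVec_apply]
      exact h6 v v.2 (hm v hj)
    · change Finsupp.linearCombination ℝ h (Finsupp.single (v : ℤ × ℤ) 1) = u v
      rw [Finsupp.linearCombination_single, one_smul]
      exact h5 v v.2)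
  have hhA : ∀ v ∈ A, h v = u v := by
    intro v hv
    have h1 := hh (Sum.inr ⟨v, hv⟩)
    change Finsupp.linearCombination ℝ h (Finsupp.single v 1) = u v at h1
    rwa [Finsupp.linearCombination_single, one_smul] at h1
  obtain ⟨hu1, hu2, hu3, _⟩ := hu 0
  refine ⟨h, ?_, ?_, ?_, ?_⟩
  · intro v hv hv0
    rw [hhA v (Or.inl ⟨hv, hv0⟩), abs_le]
    exact Set.mem_Icc.mp (hu1 v)
  · intro v hv
    have h1 := hh (Sum.inl ⟨v, hv⟩)
    change Finsupp.linearCombination ℝ h (lapVec G v) = 0 at h1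
    rwa [lapVec_apply] at h1
  · rw [hhA _ h10]
    exact hu2
  · intro F hF
    refine le_trans (le_of_eq ?_) (hu3 F hF)
    apply sum_congr rfl
    intro z hz
    rw [hhA z (Or.inr (hF z hz))]

end Pool.Agent.Lib.MP_566bac_pr
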