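import Pool.Agent.Lib.MP_566bac_pr.Arcs

/-!
# Six arms
-/

open MeasureTheory ProbabilityTheory Finset unitInterval SimpleGraph Filter
open scoped ENNReal

namespace Pool.Agent.Lib.MP_566bac_pr

lemma pull_inf {φ : (ℤ × ℤ) ≃ (ℤ × ℤ)} (hφ : IsAuto φ) (S : Set Edge) (v : ℤ × ℤ) :
    v ∈ infSet (openGraph (pull φ S)) ↔ φ v ∈ infSet (openGraph S) := by
  have : {y | (openGraph (pull φ S)).Reachable v y} = φ ⁻¹' {y | (openGraph S).Reachable (φ v) y} := by
    ext y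
    exact pull_reach hφ S v y
  change {y | (openGraph (pull φ S)).Reachable v y}.Infinite ↔
    {y | (openGraph S).Reachable (φ v) y}.Infinite
  rw [this, ← Equiv.image_symm_eq_preimage, Set.infinite_image_iff φ.symm.injective.injOn]

/-- some vertex of the box has an infinite cluster -/
def InfB (k : ℕ) : Set (Set Edge) := {S | ∃ x ∈ Lam 0 k, x ∈ infSet (openGraph S)}

lemma infB_meas (k : ℕ) : MeasurableSet (InfB k) := by
  have : InfB k = ⋃ x ∈ Lam 0 k, {S | x ∈ infSet (openGraph S)} := by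
    ext S
    simp [InfB]
  rw [this]
  exact Finset.measurableSet_biUnion _ fun x _ => measurableSet_infSet x

lemma dst_trans (x c : ℤ × ℤ) : dst (x + c) c = dst x 0 := by
  unfold dst
  simp

lemma infB_tendsto (p : I) (h0 : 0 < (perc p).real {S | (0 : ℤ × ℤ) ∈ infSet (openGraph S)})
    {ε : ℝ} (hε : 0 < ε) : ∃ k, 1 - ε < (perc p).real (InfB k) := by
  set E : Set (Set Edge) := {S | ∃ x, x ∈ infSet (openGraph S)} with hE
  have hU : E = ⋃ k, InfB k := by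
    ext S
    simp only [hE, InfB, Set.mem_iUnion, Set.mem_ofPred_eq]
    constructor
    · rintro ⟨x, hx⟩
      exact ⟨dst x 0, x, mem_Lam.mpr le_rfl, hx⟩
    · rintro ⟨k, x, _, hx⟩
      exact ⟨x, hx⟩
  have hEm : MeasurableSet E := by
    rw [hU]
    exact MeasurableSet.iUnion infB_meas
  have h1 : (perc p).real E = 1 := by
    rcases zero_one p hEm (fun N => ⟨((N : ℤ), 0), by simp [dst], by
      ext S
      simp only [hE, Set.mem_preimage, Set.mem_ofPred_eq, pull_inf (isAuto_transE _)]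
      constructor
      · rintro ⟨x, hx⟩
        exact ⟨_, hx⟩
      · rintro ⟨x, hx⟩
        refine ⟨x - ((N : ℤ), 0), ?_⟩
        rw [transE_apply, sub_add_cancel]
        exact hx⟩) with h | h
    · exfalso
      have h2 := perc_mono p (A := {S | (0 : ℤ × ℤ) ∈ infSet (openGraph S)}) (B := E)
        (fun S hS => ⟨0, hS⟩)
      linarith
    · exact h
  have hmono : Monotone InfB := by
    intro a b hab
    rintro S ⟨x, hx, hx'⟩
    refine ⟨x, ?_, hx'⟩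
    rw [mem_Lam] at hx ⊢
    omega
  have h2 : Tendsto (fun k => (perc p) (InfB k)) atTop (nhds ((perc p) E)) := by
    rw [hU]
    exact tendsto_measure_iUnion_atTop hmono
  have h3 : Tendsto (fun k => (perc p).real (InfB k)) atTop (nhds 1) := by
    rw [← h1]
    exact (ENNReal.tendsto_toReal (measure_ne_top _ _)).comp h2
  have h4 := h3.eventually (lt_mem_nhds (show 1 - ε < 1 by linarith))
  exact h4.exists

lemma infB_cov {c : ℤ} (hc : c = 0 ∨ c = -1) {k n : ℕ} : InfB k ⊆ Cov c k n := by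
  rintro S ⟨x, hx, hx'⟩
  have h1 : ∃ z, (openGraph S).Reachable x z ∧ z ∉ sq c (n - 1) := by
    by_contra hcon
    push Not at hcon
    exact hx' ((sq c (n - 1)).finite_toSet.subset fun z hz => hcon z hz)
  obtain ⟨z, h1, h2⟩ := h1
  refine ⟨x, ?_, z, h2, h1⟩
  rw [mem_Lam0] at hx
  rw [mem_sq]
  omega

lemma sq_zero (n : ℕ) : sq 0 n = Lam 0 n := by
  ext x
  rw [mem_sq, mem_Lam0]
  omega

/-- the parameter one half -/
noncomputable def half : I := ⟨1 / 2, by norm_num, by norm_num⟩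

lemma symm_half : σ half = half := by
  apply Subtype.ext
  rw [coe_symm_eq]
  change (1 : ℝ) - 1 / 2 = 1 / 2
  norm_num

/-- three separated arms -/
def TriEv (k n : ℕ) : Set (Set Edge) :=
  {S | ∃ y : Fin 3 → ℤ × ℤ, (∀ i, y i ∉ Lam 0 k ∧ ∃ a ∈ Lam 0 k, lattice.Adj a (y i)) ∧
    (∀ i, ∃ z, z ∈ Lam 0 n ∧ z ∉ Lam 0 (n - 1) ∧
      (res (openGraph S) ((Lam 0 n \ Lam 0 k : Finset (ℤ × ℤ)) : Set (ℤ × ℤ))).Reachable (y i) z) ∧
    ∀ i j, i ≠ j →
      ¬ (res (openGraph S) ((Lam 0 n \ Lam 0 k : Finset (ℤ × ℤ)) : Set (ℤ × ℤ))).Reachable (y i) (y j)}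

lemma triEv_det (k n : ℕ) : Det (Ein (Lam 0 n \ Lam 0 k)) (TriEv k n) :=
  det_res (W := Lam 0 n \ Lam 0 k) (fun G : SimpleGraph (ℤ × ℤ) => ∃ y : Fin 3 → ℤ × ℤ,
    (∀ i, y i ∉ Lam 0 k ∧ ∃ a ∈ Lam 0 k, lattice.Adj a (y i)) ∧
    (∀ i, ∃ z, z ∈ Lam 0 n ∧ z ∉ Lam 0 (n - 1) ∧ G.Reachable (y i) z) ∧
    ∀ i j, i ≠ j → ¬ G.Reachable (y i) (y j))

/-- the six arms give three separated arms -/
lemma arms_tri {k n : ℕ} (hkn : k < n) {S : Set Edge}
    (a1 : pull (Equiv.refl _) S ∈ Arc 0 k n)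
    (a3 : pull (swp.trans (flipX 0)) S ∈ Arc 0 k n)
    (a5 : pull ((flipY 0).trans (flipX 0)) S ∈ Arc 0 k n)
    (b2 : pull swp (dualize S) ∈ Arc (-1) k n)
    (b4 : pull (flipX (-1)) (dualize S) ∈ Arc (-1) k n)
    (b6 : pull ((swp.trans (flipY (-1))).trans (flipX (-1))) (dualize S) ∈ Arc (-1) k n) :
    S ∈ TriEv k n := by
  rw [arc_iff auto_refl (psq_refl 0)] at a1
  rw [arc_iff (auto_swp.trans (auto_flipX 0)) ((psq_swp 0).trans (psq_flipX 0))] at a3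
  rw [arc_iff ((auto_flipY 0).trans (auto_flipX 0)) ((psq_flipY 0).trans (psq_flipX 0))] at a5
  rw [arc_iff auto_swp (psq_swp (-1))] at b2
  rw [arc_iff (auto_flipX (-1)) (psq_flipX (-1))] at b4
  rw [arc_iff ((auto_swp.trans (auto_flipY (-1))).trans (auto_flipX (-1)))
    (((psq_swp (-1)).trans (psq_flipY (-1))).trans (psq_flipX (-1)))] at b6
  obtain ⟨j1, p1, p1', -, z1, q1, q1', r1⟩ := a1
  obtain ⟨j3, p3, p3', -, z3, q3, q3', r3⟩ := a3
  obtain ⟨j5, p5, p5', -, z5, q5, q5', r5⟩ := a5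
  obtain ⟨i2, p2, p2', s2, z2, q2, q2', r2⟩ := b2
  obtain ⟨j4, p4, p4', s4, z4, q4, q4', r4⟩ := b4
  obtain ⟨i6, p6, p6', s6, z6, q6, q6', r6⟩ := b6
  have e1 : (Equiv.refl (ℤ × ℤ)) ((k : ℤ) + 1, j1) = ((k : ℤ) + 1, j1) := rfl
  have e3 : (swp.trans (flipX 0)) ((k : ℤ) + 1, j3) = (-j3, (k : ℤ) + 1) := by
    apply Prod.ext
    · change (0 : ℤ) - j3 = -j3; ring
    · rfl
  have e5 : ((flipY 0).trans (flipX 0)) ((k : ℤ) + 1, j5) = (-1 - (k : ℤ), -j5) := by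
    apply Prod.ext
    · change (0 : ℤ) - ((k : ℤ) + 1) = -1 - k; ring
    · change (0 : ℤ) - j5 = -j5; ring
  have e2 : swp ((k : ℤ) + 1, i2) = (i2, (k : ℤ) + 1) := rfl
  have e2' : swp ((k : ℤ), i2) = (i2, (k : ℤ)) := rfl
  have e4 : (flipX (-1)) ((k : ℤ) + 1, j4) = (-1 - ((k : ℤ) + 1), j4) := rfl
  have e4' : (flipX (-1)) ((k : ℤ), j4) = (-1 - (k : ℤ), j4) := rfl
  have e6 : ((swp.trans (flipY (-1))).trans (flipX (-1))) ((k : ℤ) + 1, i6) =
      (-1 - i6, -1 - ((k : ℤ) + 1)) := rfl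
  have e6' : ((swp.trans (flipY (-1))).trans (flipX (-1))) ((k : ℤ), i6) =
      (-1 - i6, -1 - (k : ℤ)) := rfl
  rw [e1, sq_zero, sq_zero] at r1
  rw [e3, sq_zero, sq_zero] at r3
  rw [e5, sq_zero, sq_zero] at r5
  rw [sq_zero] at q1 q1' q3 q3' q5 q5'
  rw [e2, e2'] at s2
  rw [e2] at r2
  rw [e4, e4'] at s4
  rw [e4] at r4
  rw [e6, e6'] at s6
  rw [e6] at r6
  have d2 : DArm S k n (i2, (k : ℤ) + 1) := ⟨z2, q2, q2', r2⟩
  have d4 : DArm S k n (-1 - ((k : ℤ) + 1), j4) := ⟨z4, q4, q4', r4⟩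
  have d6 : DArm S k n (-1 - i6, -1 - ((k : ℤ) + 1)) := ⟨z6, q6, q6', r6⟩
  have hadj5 : lattice.Adj (-(k : ℤ), -j5) (-1 - (k : ℤ), -j5) := by
    rw [lattice_adj_iff]
    right; left
    rw [Prod.mk.injEq]
    exact ⟨by ring, rfl⟩
  have sep31 : ¬ (res (openGraph S) ((Lam 0 n \ Lam 0 k : Finset (ℤ × ℤ)) : Set (ℤ × ℤ))).Reachable
      (-j3, (k : ℤ) + 1) ((k : ℤ) + 1, j1) := by
    intro h
    refine sep_top hkn ⟨p2, p2'⟩ ⟨by omega, by omega⟩ ⟨p4, p4'⟩ s2 d2 s4 d4 (z := ((k : ℤ), j1))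
      ?_ (adj_h _ _) ?_ ?_ h
    · rw [mem_Lam0]; simp only; omega
    · intro a
      simp only [ne_eq, Sym2.eq_iff, Prod.mk.injEq]
      omega
    · intro b hb
      simp only [ne_eq, Sym2.eq_iff, Prod.mk.injEq]
      omega
  have sep35 : ¬ (res (openGraph S) ((Lam 0 n \ Lam 0 k : Finset (ℤ × ℤ)) : Set (ℤ × ℤ))).Reachable
      (-j3, (k : ℤ) + 1) (-1 - (k : ℤ), -j5) := by
    intro h
    refine sep_top hkn ⟨p2, p2'⟩ ⟨by omega, by omega⟩ ⟨p4, p4'⟩ s2 d2 s4 d4 (z := (-(k : ℤ), -j5))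
      ?_ hadj5 ?_ ?_ h
    · rw [mem_Lam0]; simp only; omega
    · intro a
      simp only [ne_eq, Sym2.eq_iff, Prod.mk.injEq]
      omega
    · intro b hb
      simp only [ne_eq, Sym2.eq_iff, Prod.mk.injEq]
      omega
  have sep51 : ¬ (res (openGraph S) ((Lam 0 n \ Lam 0 k : Finset (ℤ × ℤ)) : Set (ℤ × ℤ))).Reachable
      (-1 - (k : ℤ), -j5) ((k : ℤ) + 1, j1) := by
    intro h
    refine sep_left hkn ⟨p4, p4'⟩ ⟨by omega, by omega⟩ (i6 := -1 - i6) ⟨by omega, by omega⟩ s4 d4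
      s6 d6 (z := ((k : ℤ), j1)) ?_ (adj_h _ _) ?_ ?_ h
    · rw [mem_Lam0]; simp only; omega
    · intro a
      simp only [ne_eq, Sym2.eq_iff, Prod.mk.injEq]
      omega
    · intro b
      simp only [ne_eq, Sym2.eq_iff, Prod.mk.injEq]
      omega
  refine ⟨![((k : ℤ) + 1, j1), (-j3, (k : ℤ) + 1), (-1 - (k : ℤ), -j5)], ?_, ?_, ?_⟩
  · intro i
    fin_cases i
    · refine ⟨?_, ((k : ℤ), j1), ?_, adj_h _ _⟩
      · change ((k : ℤ) + 1, j1) ∉ Lam 0 k
        rw [mem_Lam0]; simp only; omega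
      · rw [mem_Lam0]; simp only; omega
    · refine ⟨?_, (-j3, (k : ℤ)), ?_, adj_v _ _⟩
      · change (-j3, (k : ℤ) + 1) ∉ Lam 0 k
        rw [mem_Lam0]; simp only; omega
      · rw [mem_Lam0]; simp only; omega
    · refine ⟨?_, (-(k : ℤ), -j5), ?_, hadj5⟩
      · change (-1 - (k : ℤ), -j5) ∉ Lam 0 k
        rw [mem_Lam0]; simp only; omega
      · rw [mem_Lam0]; simp only; omega
  · intro i
    fin_cases i
    · exact ⟨z1, q1, q1', r1⟩
    · exact ⟨z3, q3, q3', r3⟩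
    · exact ⟨z5, q5, q5', r5⟩
  · intro i j hij
    fin_cases i <;> fin_cases j
    · exact absurd rfl hij
    · exact fun h => sep31 h.symm
    · exact fun h => sep51 h.symm
    · exact sep31
    · exact absurd rfl hij
    · exact sep35
    · exact sep51
    · exact fun h => sep35 h.symm
    · exact absurd rfl hij

lemma inter_bound (p : I) {A B : Set (Set Edge)} (hB : MeasurableSet B)
    {a b : ℝ} (h1 : 1 - a ≤ (perc p).real A) (h2 : 1 - b ≤ (perc p).real B) :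
    1 - (a + b) ≤ (perc p).real (A ∩ B) := by
  have h3 := measureReal_union_add_inter (μ := perc p) (s := A) hB
  have h4 : (perc p).real (A ∪ B) ≤ 1 := measureReal_le_one
  linarith

/-- with probability at least one half there are three separated arms -/
theorem tri_prob (h0 : 0 < (perc half).real {S | (0 : ℤ × ℤ) ∈ infSet (openGraph S)}) :
    ∃ k : ℕ, ∀ n, k < n → (1 / 2 : ℝ) ≤ (perc half).real (TriEv k n) := by
  obtain ⟨k, hk⟩ := infB_tendsto half h0 (ε := (1 / 12) ^ 8) (by positivity)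
  refine ⟨k, fun n hkn => ?_⟩
  have harc : ∀ c : ℤ, (c = 0 ∨ c = -1) → 1 - 1 / 12 ≤ (perc half).real (Arc c k n) := by
    intro c hc
    have h1 := arc_bound half hc hkn (infB_meas k) (infB_cov hc)
    by_contra hcon
    push Not at hcon
    have h2 : (1 / 12 : ℝ) < 1 - (perc half).real (Arc c k n) := by linarith
    have h3 : (1 / 12 : ℝ) ^ 8 < (1 - (perc half).real (Arc c k n)) ^ 8 :=
      pow_lt_pow_left₀ h2 (by norm_num) (by norm_num)
    linarith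
  have hc0 : (0 : ℤ) = 0 ∨ (0 : ℤ) = -1 := Or.inl rfl
  have hc1 : (-1 : ℤ) = 0 ∨ (-1 : ℤ) = -1 := Or.inr rfl
  have primal : ∀ φ, IsAuto φ → 1 - 1 / 12 ≤ (perc half).real (pull φ ⁻¹' Arc 0 k n) := by
    intro φ hφ
    rw [perc_pull hφ half (arc_loc hc0 hkn).meas]
    exact harc 0 hc0
  have dual : ∀ φ, IsAuto φ → 1 - 1 / 12 ≤
      (perc half).real (dualize ⁻¹' (pull φ ⁻¹' Arc (-1) k n)) := by
    intro φ hφ
    rw [perc_dual half ((arc_loc hc1 hkn).pull hφ), symm_half,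
      perc_pull hφ half (arc_loc hc1 hkn).meas]
    exact harc (-1) hc1
  have m0 : ∀ φ, IsAuto φ → MeasurableSet (pull φ ⁻¹' Arc 0 k n) :=
    fun φ hφ => ((arc_loc hc0 hkn).pull hφ).meas
  have m1 : ∀ φ, IsAuto φ → MeasurableSet (dualize ⁻¹' (pull φ ⁻¹' Arc (-1) k n)) :=
    fun φ hφ => ((arc_loc hc1 hkn).pull hφ).dual.meas
  have t1 : IsAuto (Equiv.refl (ℤ × ℤ)) := auto_refl
  have t3 : IsAuto (swp.trans (flipX 0)) := auto_swp.trans (auto_flipX 0)
  have t5 : IsAuto ((flipY 0).trans (flipX 0)) := (auto_flipY 0).trans (auto_flipX 0)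
  have t2 : IsAuto swp := auto_swp
  have t4 : IsAuto (flipX (-1)) := auto_flipX (-1)
  have t6 : IsAuto ((swp.trans (flipY (-1))).trans (flipX (-1))) :=
    (auto_swp.trans (auto_flipY (-1))).trans (auto_flipX (-1))
  have h := inter_bound half (m1 _ t6) (inter_bound half (m1 _ t4) (inter_bound half (m1 _ t2)
    (inter_bound half (m0 _ t5) (inter_bound half (m0 _ t3) (primal _ t1) (primal _ t3))
    (primal _ t5)) (dual _ t2)) (dual _ t4)) (dual _ t6)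
  refine le_trans ?_ (h.trans (perc_mono half ?_))
  · norm_num
  · rintro S ⟨⟨⟨⟨⟨g1, g3⟩, g5⟩, g2⟩, g4⟩, g6⟩
    exact arms_tri hkn g1 g3 g5 g2 g4 g6

end Pool.Agent.Lib.MP_566bac_pr
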