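import Pool.Agent.Lib.MP_566bac_pr.HarrisA
import Pool.Agent.Lib.MP_566bac_pr.BK

/-!
# No percolation at one half
-/

open MeasureTheory ProbabilityTheory Finset unitInterval SimpleGraph Filter
open scoped ENNReal

namespace Pool.Agent.Lib.MP_566bac_pr

/-- the edges which touch the box -/
noncomputable def Ech (k : ℕ) : Finset Edge := by
  classical
  exact Ein (Lam 0 (k + 1)) \ Ein (Lam 0 (k + 1) \ Lam 0 k)

lemma mem_Ech {k : ℕ} {x y : ℤ × ℤ} (hx : x ∈ Lam 0 k) (hxy : lattice.Adj x y) :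
    s(x, y) ∈ Ech k := by
  unfold Ech
  rw [Finset.mem_sdiff, mem_Ein, mem_Ein]
  have h1 := mem_Lam.mp hx
  have h2 := dst_adj hxy 0
  refine ⟨⟨by rw [mem_Lam]; omega, by rw [mem_Lam]; omega, hxy⟩, ?_⟩
  rintro ⟨h3, _⟩
  exact (Finset.mem_sdiff.mp h3).2 hx

/-- all the edges which touch the box are open -/
def FullEv (k : ℕ) : Set (Set Edge) := {S | ∀ e ∈ Ech k, e ∈ S}

lemma ech_lat (k : ℕ) : Lat (Ech k) := fun e he => lat_Ein _ e (Finset.mem_sdiff.mp he).1

lemma full_det (k : ℕ) : Det (Ech k) (FullEv k) := by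
  intro S S' h h1 e he
  exact (h e he).mp (h1 e he)

lemma full_pos {p : I} (hp : 0 < (p : ℝ)) (k : ℕ) : 0 < (perc p).real (FullEv k) := by
  classical
  rw [perc_det p (ech_lat k) (full_det k)]
  have h1 : (p : ℝ) ^ (Ech k).card ≤ pr p (Ech k) (FullEv k) := by
    unfold pr
    have h2 : (p : ℝ) ^ (Ech k).card = if ((Ech k : Finset Edge) : Set Edge) ∈ FullEv k then
        (p : ℝ) ^ (Ech k).card * (1 - p) ^ ((Ech k).card - (Ech k).card) else 0 := by
      have h3 : ((Ech k : Finset Edge) : Set Edge) ∈ FullEv k := fun e he => he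
      rw [if_pos h3]
      simp
    rw [h2]
    apply Finset.single_le_sum (f := fun ω : Finset Edge => if (ω : Set Edge) ∈ FullEv k then
        (p : ℝ) ^ ω.card * (1 - p) ^ ((Ech k).card - ω.card) else 0)
    · intro ω _
      split_ifs
      · have : 0 ≤ 1 - (p : ℝ) := by linarith [p.2.2]
        positivity
      · exact le_rfl
    · exact Finset.mem_powerset_self _
  exact lt_of_lt_of_le (by positivity) h1

/-- the event of a trifurcation box at the origin -/
def BoxEv (k n : ℕ) : Set (Set Edge) := TriEv k n ∩ FullEv k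

lemma box_loc (k n : ℕ) : Loc (BoxEv k n) :=
  Loc.inter ⟨_, lat_Ein _, triEv_det k n⟩ ⟨_, ech_lat k, full_det k⟩

lemma box_prob (p : I) (k n : ℕ) :
    (perc p).real (BoxEv k n) = (perc p).real (TriEv k n) * (perc p).real (FullEv k) := by
  classical
  apply perc_indep p (lat_Ein _) (ech_lat k) _ (triEv_det k n) (full_det k)
  rw [Finset.disjoint_left]
  intro e
  induction e using Sym2.ind with
  | _ a b =>
    unfold Ech
    rw [Finset.mem_sdiff, mem_Ein, mem_Ein, mem_Ein]
    simp only [Finset.mem_sdiff]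
    rintro ⟨⟨_, a2⟩, ⟨_, b2⟩, a3⟩ ⟨⟨c1, c2, _⟩, c3⟩
    exact c3 ⟨⟨c1, a2⟩, ⟨c2, b2⟩, a3⟩

lemma sum_measure_le {ι : Type*} (μ : Measure (Set Edge)) [IsProbabilityMeasure μ] (V : Finset ι)
    (X : ι → Set (Set Edge)) (hX : ∀ v ∈ V, MeasurableSet (X v)) (N : ℕ)
    (h : ∀ S, (by classical exact (V.filter fun v => S ∈ X v).card) ≤ N) :
    ∑ v ∈ V, μ.real (X v) ≤ N := by
  classical
  have h1 : ∑ v ∈ V, μ (X v) ≤ N := by
    have h2 : ∀ v ∈ V, μ (X v) = ∫⁻ S, (X v).indicator 1 S ∂μ :=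
      fun v hv => (lintegral_indicator_one (hX v hv)).symm
    rw [sum_congr rfl h2, ← lintegral_finsetSum' V (fun v hv =>
      (measurable_one.indicator (hX v hv)).aemeasurable)]
    calc ∫⁻ S, ∑ v ∈ V, (X v).indicator 1 S ∂μ ≤ ∫⁻ _, (N : ℝ≥0∞) ∂μ := by
          apply lintegral_mono
          intro S
          simp only [Set.indicator_apply, Pi.one_apply]
          rw [← Finset.sum_filter, sum_const, nsmul_eq_mul, mul_one]
          exact_mod_cast h S
      _ = N := by simp
  have h3 : ∑ v ∈ V, μ.real (X v) = (∑ v ∈ V, μ (X v)).toReal := by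
    rw [ENNReal.toReal_sum (fun v _ => measure_ne_top _ _)]
    rfl
  rw [h3]
  have h4 := ENNReal.toReal_mono (ENNReal.natCast_ne_top N) h1
  simpa using h4

lemma image_Lam (v : ℤ × ℤ) (m : ℕ) : transE v '' (Lam 0 m : Set (ℤ × ℤ)) = (Lam v m : Set (ℤ × ℤ)) := by
  ext x
  constructor
  · rintro ⟨y, hy, rfl⟩
    rw [Finset.mem_coe, mem_Lam] at *
    rw [transE_apply, dst_trans]
    exact hy
  · intro hx
    refine ⟨x - v, ?_, by rw [transE_apply, sub_add_cancel]⟩
    rw [Finset.mem_coe, mem_Lam] at *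
    rw [← dst_trans (x - v) v, sub_add_cancel]
    exact hx

/-- the deterministic bound for the number of trifurcation boxes -/
lemma box_count {S : Set Edge} {k M : ℕ} (hM : 1 ≤ M) (T : Finset (ℤ × ℤ))
    (hTM : ∀ v ∈ T, dst v 0 + k + 1 ≤ M)
    (hT : ∀ v ∈ T, pull (transE v) S ∈ BoxEv k (2 * M + 1))
    (hd : ∀ v ∈ T, ∀ w ∈ T, v ≠ w → 2 * k + 1 ≤ dst v w) :
    T.card ≤ (Lam 0 M \ Lam 0 (M - 1)).card := by
  classical
  set n := 2 * M + 1 with hn
  have hT' : ∀ v ∈ T, ∃ y : Fin 3 → ℤ × ℤ,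
      (∀ i, y i ∉ Lam v k ∧ ∃ a ∈ Lam v k, lattice.Adj a (y i)) ∧
      (∀ i, ∃ z, z ∉ Lam v (n - 1) ∧
        (res (openGraph S) ((Lam v n : Set (ℤ × ℤ)) \ (Lam v k : Set (ℤ × ℤ)))).Reachable (y i) z) ∧
      ∀ i j, i ≠ j →
        ¬ (res (openGraph S) ((Lam v n : Set (ℤ × ℤ)) \ (Lam v k : Set (ℤ × ℤ)))).Reachable (y i) (y j) := by
    intro v hv
    obtain ⟨⟨y, h1, h2, h3⟩, _⟩ := hT v hv
    have himg : transE v '' ((Lam 0 n \ Lam 0 k : Finset (ℤ × ℤ)) : Set (ℤ × ℤ)) =
        (Lam v n : Set (ℤ × ℤ)) \ (Lam v k : Set (ℤ × ℤ)) := by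
      rw [Finset.coe_sdiff, Set.image_sdiff (transE v).injective, image_Lam, image_Lam]
    have hmem : ∀ x m, transE v x ∈ Lam v m ↔ x ∈ Lam 0 m := by
      intro x m
      rw [mem_Lam, mem_Lam, transE_apply, dst_trans]
    refine ⟨fun i => transE v (y i), ?_, ?_, ?_⟩
    · intro i
      obtain ⟨g1, a, g2, g3⟩ := h1 i
      exact ⟨fun h => g1 ((hmem _ _).mp h), transE v a, (hmem _ _).mpr g2,
        (isAuto_transE v _ _).mpr g3⟩
    · intro i
      obtain ⟨z, _, g2, g3⟩ := h2 i
      rw [pull_res_reach (isAuto_transE v), himg] at g3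
      exact ⟨transE v z, fun h => g2 ((hmem _ _).mp h), g3⟩
    · intro i j hij h
      apply h3 i j hij
      rw [pull_res_reach (isAuto_transE v), himg]
      exact h
  choose! y hy1 hy2 hy3 using hT'
  have hopen : ∀ v ∈ T, ∀ a b, a ∈ Lam v k → lattice.Adj a b → (openGraph S).Adj a b := by
    intro v hv a b ha hab
    refine ⟨hab, ?_⟩
    have h1 := (hT v hv).2 s(a - v, b - v) (mem_Ech (by
      rw [mem_Lam] at ha ⊢
      rw [← dst_trans (a - v) v, sub_add_cancel]
      exact ha) (by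
      rw [← isAuto_transE v, transE_apply, transE_apply, sub_add_cancel, sub_add_cancel]
      exact hab))
    change Sym2.map (transE v) s(a - v, b - v) ∈ S at h1
    rw [Sym2.map_mk, transE_apply, transE_apply, sub_add_cancel, sub_add_cancel] at h1
    exact h1
  have hinM : ∀ v ∈ T, ∀ a, dst a v ≤ k + 1 → a ∈ Lam 0 M := by
    intro v hv a ha
    rw [mem_Lam]
    have := dst_tri a v 0
    have := hTM v hv
    omega
  have hLsub : ∀ v ∈ T, ∀ a, a ∈ Lam 0 M → a ∈ Lam v n := by
    intro v hv a ha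
    rw [mem_Lam] at *
    have h1 := dst_tri a 0 v
    rw [dst_comm 0 v] at h1
    have := hTM v hv
    omega
  have hres : ∀ v ∈ T, res (res (openGraph S) (Lam 0 M)) (Lam v k : Set (ℤ × ℤ))ᶜ ≤
      res (openGraph S) ((Lam v n : Set (ℤ × ℤ)) \ (Lam v k : Set (ℤ × ℤ))) := by
    rintro v hv a b ⟨⟨h1, h2, h3⟩, h4, h5⟩
    exact ⟨h1, ⟨hLsub v hv a h2, h4⟩, ⟨hLsub v hv b h3, h5⟩⟩
  have hTri : Tri (res (openGraph S) (Lam 0 M)) T (fun v => (Lam v k : Set (ℤ × ℤ))) y id
      (Lam 0 M \ Lam 0 (M - 1)) := by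
    refine ⟨?_, ?_, ?_, ?_, ?_, ?_, ?_⟩
    · intro v _
      rw [Finset.mem_coe, mem_Lam, id, dst_self]
      exact Nat.zero_le _
    · intro v hv a ha b hb
      obtain ⟨p, hp⟩ := Lam_conn ha hb
      have key : ∀ {a b : ℤ × ℤ} (p : lattice.Walk a b), (∀ z ∈ p.support, z ∈ Lam v k) →
          (res (res (openGraph S) (Lam 0 M)) (Lam v k : Set (ℤ × ℤ))).Reachable a b := by
        intro a b p
        induction p with
        | nil => exact fun _ => Reachable.refl _
        | @cons u w x hadj p ih =>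
          intro h
          have hu : u ∈ Lam v k := h u (by simp)
          have hw : w ∈ Lam v k := h w (by simp)
          refine Reachable.trans (Adj.reachable ⟨⟨hopen v hv u w hu hadj, ?_, ?_⟩, hu, hw⟩)
            (ih fun z hz => h z (by simp [hz]))
          · apply hinM v hv
            rw [mem_Lam] at hu
            omega
          · apply hinM v hv
            rw [mem_Lam] at hw
            omega
      exact key p hp
    · intro v hv i
      obtain ⟨_, a, ha, hadj⟩ := hy1 v hv i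
      refine ⟨a, ha, hopen v hv a _ ha hadj, ?_, ?_⟩
      · apply hinM v hv
        rw [mem_Lam] at ha
        omega
      · apply hinM v hv
        rw [mem_Lam] at ha
        have := dst_adj hadj v
        omega
    · intro v hv i
      exact (hy1 v hv i).1
    · intro v hv i
      obtain ⟨h1, a, ha, hadj⟩ := hy1 v hv i
      obtain ⟨z, hz1, hz2⟩ := hy2 v hv i
      have hyM : y v i ∈ Lam 0 M := by
        apply hinM v hv
        rw [mem_Lam] at ha
        have := dst_adj hadj v
        omega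
      have hzM : z ∉ Lam 0 M := by
        intro h
        rw [mem_Lam] at h hz1
        have h3 := dst_tri z 0 v
        rw [dst_comm 0 v] at h3
        have := hTM v hv
        omega
      obtain ⟨u, w, g1, g2, g3, g4⟩ := exit_first (W := (Lam 0 M : Set (ℤ × ℤ))) hz2 hyM hzM
      rw [Finset.mem_coe] at g1 g2
      refine ⟨u, ?_, ?_⟩
      · rw [Finset.mem_sdiff]
        refine ⟨g1, ?_⟩
        rw [mem_Lam] at g1 g2 ⊢
        have := dst_adj g3.1.1 0
        omega
      · refine Reachable.mono ?_ g4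
        rintro s t ⟨⟨k1, k2, k3⟩, k4, k5⟩
        exact ⟨⟨k1, k4, k5⟩, k2.2, k3.2⟩
    · intro v hv i j hij h
      exact hy3 v hv i j hij (Reachable.mono (hres v hv) h)
    · intro v hv w hw hvw
      rw [Set.disjoint_left]
      intro a ha hb
      rw [Finset.mem_coe, mem_Lam] at ha hb
      have h1 := dst_tri v a w
      rw [dst_comm v a] at h1
      have h2 := hd v hv w hw hvw
      omega
  exact tri_count hTri

lemma card_ring (M : ℕ) (hM : 1 ≤ M) : (Lam 0 M \ Lam 0 (M - 1)).card = 8 * M := by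
  have hc : ∀ m : ℕ, (Lam 0 m).card = (2 * m + 1) * (2 * m + 1) := by
    intro m
    rw [Lam, Finset.card_product, Int.card_Icc]
    simp only [Prod.fst_zero, Prod.snd_zero, Int.card_Icc]
    have : ((0 : ℤ) + m + 1 - (0 - m)).toNat = 2 * m + 1 := by omega
    rw [this]
  rw [Finset.card_sdiff_of_subset, hc, hc]
  · obtain ⟨m, rfl⟩ : ∃ m, M = m + 1 := ⟨M - 1, by omega⟩
    rw [Nat.add_sub_cancel]
    have : (2 * (m + 1) + 1) * (2 * (m + 1) + 1) = (2 * m + 1) * (2 * m + 1) + 8 * (m + 1) := by ring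
    omega
  · intro x hx
    rw [mem_Lam] at *
    omega

/-- **No percolation at one half.** -/
theorem harris : (perc half).real {S | (0 : ℤ × ℤ) ∈ infSet (openGraph S)} = 0 := by
  classical
  by_contra hcon
  have h0 : 0 < (perc half).real {S | (0 : ℤ × ℤ) ∈ infSet (openGraph S)} :=
    lt_of_le_of_ne measureReal_nonneg (Ne.symm hcon)
  obtain ⟨k, hk⟩ := tri_prob h0
  set η := (perc half).real (FullEv k) with hη
  have hη0 : 0 < η := full_pos (by change (0 : ℝ) < 1 / 2; norm_num) k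
  -- the bound
  have main : ∀ L : ℕ, 1 ≤ L → (L : ℝ) * L * (η / 2) ≤ 8 * ((2 * k + 1) * L + k + 1 : ℕ) := by
    intro L hL
    set M := (2 * k + 1) * L + k + 1 with hM
    set V : Finset (ℤ × ℤ) := (Finset.range L ×ˢ Finset.range L).image
      (fun t => (((2 * k + 1 : ℕ) : ℤ) * t.1, ((2 * k + 1 : ℕ) : ℤ) * t.2)) with hV
    have hinj : Set.InjOn (fun t : ℕ × ℕ => ((((2 * k + 1 : ℕ) : ℤ) * t.1,
        ((2 * k + 1 : ℕ) : ℤ) * t.2) : ℤ × ℤ)) (Finset.range L ×ˢ Finset.range L : Finset (ℕ × ℕ)) := by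
      rintro ⟨a, b⟩ _ ⟨c, d⟩ _ h
      simp only [Prod.mk.injEq] at h
      have hk0 : (((2 * k + 1 : ℕ) : ℤ)) ≠ 0 := by positivity
      have h1 := mul_left_cancel₀ hk0 h.1
      have h2 := mul_left_cancel₀ hk0 h.2
      rw [Prod.mk.injEq]
      exact ⟨by exact_mod_cast h1, by exact_mod_cast h2⟩
    have hVcard : V.card = L * L := by
      rw [hV, Finset.card_image_of_injOn hinj, Finset.card_product, Finset.card_range]
    have hVM : ∀ v ∈ V, dst v 0 + k + 1 ≤ M := by
      intro v hv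
      rw [hV, Finset.mem_image] at hv
      obtain ⟨⟨a, b⟩, hab, rfl⟩ := hv
      rw [Finset.mem_product, Finset.mem_range, Finset.mem_range] at hab
      have h1 : dst ((((2 * k + 1 : ℕ) : ℤ) * a, ((2 * k + 1 : ℕ) : ℤ) * b) : ℤ × ℤ) 0 ≤
          (2 * k + 1) * L := by
        unfold dst
        simp only [Prod.fst_zero, Prod.snd_zero, sub_zero, Int.natAbs_mul, Int.natAbs_natCast]
        exact max_le (Nat.mul_le_mul_left _ hab.1.le) (Nat.mul_le_mul_left _ hab.2.le)
      simp only at h1 ⊢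
      omega
    have hVd : ∀ v ∈ V, ∀ w ∈ V, v ≠ w → 2 * k + 1 ≤ dst v w := by
      intro v hv w hw hvw
      rw [hV, Finset.mem_image] at hv hw
      obtain ⟨⟨a, b⟩, _, rfl⟩ := hv
      obtain ⟨⟨c, d⟩, _, rfl⟩ := hw
      simp only at hvw ⊢
      unfold dst
      simp only
      rw [← mul_sub, ← mul_sub, Int.natAbs_mul, Int.natAbs_mul, Int.natAbs_natCast]
      have h1 : a ≠ c ∨ b ≠ d := by
        by_contra h
        push Not at h
        exact hvw (by rw [h.1, h.2])
      rcases h1 with h | h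
      · refine le_trans ?_ (le_max_left _ _)
        have : 1 ≤ ((a : ℤ) - c).natAbs := by omega
        calc 2 * k + 1 = (2 * k + 1) * 1 := by ring
          _ ≤ _ := Nat.mul_le_mul_left _ this
      · refine le_trans ?_ (le_max_right _ _)
        have : 1 ≤ ((b : ℤ) - d).natAbs := by omega
        calc 2 * k + 1 = (2 * k + 1) * 1 := by ring
          _ ≤ _ := Nat.mul_le_mul_left _ this
    have hM1 : 1 ≤ M := by omega
    have h1 := sum_measure_le (perc half) V (fun v => pull (transE v) ⁻¹' BoxEv k (2 * M + 1))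
      (fun v _ => ((box_loc k _).pull (isAuto_transE v)).meas) (8 * M) (by
        intro S
        rw [← card_ring M hM1]
        apply box_count (S := S) (k := k) hM1
        · intro v hv
          exact hVM v (Finset.mem_filter.mp hv).1
        · intro v hv
          exact (Finset.mem_filter.mp hv).2
        · intro v hv w hw
          exact hVd v (Finset.mem_filter.mp hv).1 w (Finset.mem_filter.mp hw).1)
    have h2 : ∀ v ∈ V, η / 2 ≤ (perc half).real (pull (transE v) ⁻¹' BoxEv k (2 * M + 1)) := by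
      intro v _
      rw [perc_pull (isAuto_transE v) half (box_loc k _).meas, box_prob]
      have h3 := hk (2 * M + 1) (by nlinarith)
      rw [← hη]
      nlinarith
    have h3 := Finset.card_nsmul_le_sum V _ (η / 2) h2
    rw [hVcard, nsmul_eq_mul] at h3
    have h4 := h3.trans h1
    push_cast at h4 ⊢
    linarith
  obtain ⟨L, hL⟩ := exists_nat_gt (16 * (3 * (k : ℝ) + 2) / η)
  have hLpos : (0 : ℝ) < L := lt_of_le_of_lt (by positivity) hL
  have hL1 : 1 ≤ L := by exact_mod_cast Nat.pos_of_ne_zero (by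
    intro h
    rw [h] at hLpos
    simp at hLpos)
  have h1 := main L hL1
  rw [div_lt_iff₀ hη0] at hL
  push_cast at h1
  have hL1' : (1 : ℝ) ≤ L := by exact_mod_cast hL1
  have hk0 : (0 : ℝ) ≤ k := by positivity
  nlinarith [mul_lt_mul_of_pos_left hL hLpos, mul_le_mul_of_nonneg_left hL1' hk0]

end Pool.Agent.Lib.MP_566bac_pr
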