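import Pool.Agent.Lib.MP_566bac_pr.Nodal
import Pool.Agent.Lib.MP_566bac_pr.Dual

/-!
# Harmonic functions in a window
-/

open SimpleGraph Finset Module

namespace Pool.Agent.Lib.MP_566bac_pr

/-- the vertices whose cluster is infinite -/
def infSet (G : SimpleGraph (ℤ × ℤ)) : Set (ℤ × ℤ) := {x | {y | G.Reachable x y}.Infinite}

lemma infSet_adj {G : SimpleGraph (ℤ × ℤ)} {x y : ℤ × ℤ} (h : G.Adj x y) (hx : x ∈ infSet G) :
    y ∈ infSet G := by
  refine Set.Infinite.mono ?_ hx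
  intro z hz
  exact h.symm.reachable.trans hz

open Classical in
/-- the degree -/
noncomputable def deg (G : SimpleGraph (ℤ × ℤ)) (x : ℤ × ℤ) : ℝ :=
  ∑ y ∈ nb x, if G.Adj x y then 1 else 0

open Classical in
/-- the matrix of the Laplacian -/
noncomputable def lmat (G : SimpleGraph (ℤ × ℤ)) (x y : ℤ × ℤ) : ℝ :=
  (if x = y then deg G x else 0) - (if G.Adj x y then 1 else 0)

lemma lmat_symm (G : SimpleGraph (ℤ × ℤ)) (x y : ℤ × ℤ) : lmat G x y = lmat G y x := by
  classical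
  unfold lmat
  congr 1
  · by_cases h : x = y
    · subst h; rfl
    · rw [if_neg h, if_neg fun h' => h h'.symm]
  · simp only [G.adj_comm x y]

lemma lap_eq_sum {G : SimpleGraph (ℤ × ℤ)} (hG : G ≤ lattice) {h : ℤ × ℤ → ℝ}
    (Y : Finset (ℤ × ℤ)) (hY : ∀ x, x ∉ Y → h x = 0) (x : ℤ × ℤ) :
    lap G h x = ∑ y ∈ Y, lmat G x y * h y := by
  classical
  unfold lap lmat deg
  simp only [sub_mul, sum_sub_distrib, ite_mul, zero_mul, one_mul]
  have h1 : ∑ y ∈ Y, (if x = y then (∑ y ∈ nb x, if G.Adj x y then (1 : ℝ) else 0) * h y else 0) =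
      (∑ y ∈ nb x, if G.Adj x y then (1 : ℝ) else 0) * h x := by
    rw [Finset.sum_ite_eq]
    split_ifs with hx
    · rfl
    · rw [hY x hx, mul_zero]
  have h2 : ∑ y ∈ Y, (if G.Adj x y then h y else 0) = ∑ y ∈ nb x, if G.Adj x y then h y else 0 := by
    have e1 : ∑ y ∈ Y, (if G.Adj x y then h y else 0) =
        ∑ y ∈ Y ∪ nb x, if G.Adj x y then h y else 0 := by
      apply Finset.sum_subset subset_union_left
      intro y _ hy
      rw [hY y hy]
      simp
    have e2 : ∑ y ∈ nb x, (if G.Adj x y then h y else 0) =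
        ∑ y ∈ Y ∪ nb x, if G.Adj x y then h y else 0 := by
      apply Finset.sum_subset subset_union_right
      intro y _ hy
      rw [if_neg]
      exact fun h => hy (mem_nb.mpr (hG h))
    rw [e1, e2]
  rw [h1, h2, sum_mul, ← sum_sub_distrib]
  apply sum_congr rfl
  intro y _
  split_ifs <;> simp

/-- extension by zero -/
noncomputable def ext0 (Y : Finset (ℤ × ℤ)) (u : Y → ℝ) (x : ℤ × ℤ) : ℝ := by
  classical
  exact if hx : x ∈ Y then u ⟨x, hx⟩ else 0

lemma ext0_of_notMem {Y : Finset (ℤ × ℤ)} {u : Y → ℝ} {x : ℤ × ℤ} (hx : x ∉ Y) :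
    ext0 Y u x = 0 := by
  unfold ext0
  rw [dif_neg hx]

lemma ext0_coe {Y : Finset (ℤ × ℤ)} {u : Y → ℝ} (x : Y) : ext0 Y u x = u x := by
  unfold ext0
  rw [dif_pos x.2]

lemma lap_ext0 {G : SimpleGraph (ℤ × ℤ)} (hG : G ≤ lattice) (Y : Finset (ℤ × ℤ)) (u : Y → ℝ)
    (x : ℤ × ℤ) : lap G (ext0 Y u) x = ∑ y : Y, lmat G x y * u y := by
  rw [lap_eq_sum hG Y (fun x hx => ext0_of_notMem hx)]
  rw [← Finset.sum_coe_sort Y]
  apply sum_congr rfl
  intro y _
  rw [ext0_coe]

/-- the maximum principle in the left part of the window -/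
lemma left_max {G : SimpleGraph (ℤ × ℤ)} {h : ℤ × ℤ → ℝ} (hG : G ≤ lattice)
    (hfin : {x | h x ≠ 0}.Finite) (hC : ∀ x, h x ≠ 0 → x ∈ infSet G)
    (hharm : ∀ x : ℤ × ℤ, h x ≠ 0 → x.1 ≤ 0 → lap G h x = 0)
    (hbd : ∀ x : ℤ × ℤ, h x ≠ 0 → x.1 ≤ 0 → ∀ y, G.Adj x y → 1 ≤ y.1 → |h y| ≤ 1) :
    ∀ x : ℤ × ℤ, x.1 ≤ 0 → |h x| ≤ 1 := by
  classical
  by_contra hcon
  push Not at hcon
  obtain ⟨x, hx1, hx⟩ := hcon
  set K : Set (ℤ × ℤ) := {v | v.1 ≤ 0 ∧ 1 < |h v|} with hK
  have hK0 : ∀ v ∈ K, h v ≠ 0 := by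
    intro v hv h0
    have := hv.2
    rw [h0, abs_zero] at this
    linarith
  have hKfin : K.Finite := hfin.subset hK0
  obtain ⟨y, hyK, hymax⟩ := Set.exists_max_image K (fun y => |h y|) hKfin ⟨x, hx1, hx⟩
  have step : ∀ w, w ∈ K → h w = h y → ∀ z, G.Adj w z → z ∈ K ∧ h z = h y := by
    intro w hw hwy z hz
    have hw0 : h w ≠ 0 := hK0 w hw
    have hlap := hharm w hw0 hw.1
    have hle : ∀ z', G.Adj w z' → |h z'| ≤ |h w| := by
      intro z' hz'
      rcases le_or_gt z'.1 0 with h1 | h1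
      · by_cases h2 : 1 < |h z'|
        · have := hymax z' ⟨h1, h2⟩
          rw [hwy]
          exact this
        · push Not at h2
          exact h2.trans hw.2.le
      · exact (hbd w hw0 hw.1 z' hz' h1).trans hw.2.le
    have hterm : ∀ z' ∈ nb w, 0 ≤ h w * (if G.Adj w z' then h w - h z' else 0) := by
      intro z' _
      split_ifs with hadj
      · have h1 := hle z' hadj
        have h2 : h w * h z' ≤ h w * h w := by
          calc h w * h z' ≤ |h w * h z'| := le_abs_self _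
            _ = |h w| * |h z'| := abs_mul _ _
            _ ≤ |h w| * |h w| := mul_le_mul_of_nonneg_left h1 (abs_nonneg _)
            _ = h w * h w := abs_mul_abs_self _
        linarith
      · simp
    have hsum : ∑ z' ∈ nb w, h w * (if G.Adj w z' then h w - h z' else 0) = 0 := by
      rw [← mul_sum]
      unfold lap at hlap
      rw [hlap, mul_zero]
    have hz' : z ∈ nb w := mem_nb.mpr (hG hz)
    have h1 := (Finset.sum_eq_zero_iff_of_nonneg hterm).mp hsum z hz'
    rw [if_pos hz] at h1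
    have h3 : h z = h w := by
      rcases mul_eq_zero.mp h1 with h | h
      · exact absurd h hw0
      · linarith
    have h4 : 1 < |h z| := by rw [h3]; exact hw.2
    refine ⟨⟨?_, h4⟩, by rw [h3, hwy]⟩
    by_contra h5
    push Not at h5
    have := hbd w hw0 hw.1 z hz h5
    linarith
  have hall : ∀ z, G.Reachable y z → z ∈ K := by
    rintro z ⟨p⟩
    have : ∀ {a b : ℤ × ℤ} (q : G.Walk a b), (a ∈ K ∧ h a = h y) → (b ∈ K ∧ h b = h y) := by
      intro a b q
      induction q with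
      | nil => exact id
      | cons hadj q ih =>
        intro h
        exact ih (step _ h.1 h.2 _ hadj)
    exact (this p ⟨hyK, rfl⟩).1
  exact hC y (hK0 y hyK) (hKfin.subset hall)

/-- **Window theorem.** -/
theorem window {G : SimpleGraph (ℤ × ℤ)} (hG : G ≤ lattice) {m n : ℤ} (hm : 1 ≤ m)
    {ι : Type*} [Fintype ι] (s t : ι → ℤ × ℤ) (γ : ∀ i, G.Walk (s i) (t i))
    (hs : ∀ i, (s i).1 = 1) (ht : ∀ i, (t i).1 = m + 1)
    (hγ : ∀ i, ∀ z ∈ (γ i).support, z = s i ∨ (2 ≤ z.1 ∧ z.1 ≤ m + 1))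
    (hdisj : ∀ i k, i ≠ k → ∀ z ∈ (γ i).support, z ∉ (γ k).support)
    (hwin : ∀ i, 1 ≤ (s i).2 ∧ (s i).2 ≤ n) (hadj : ∀ i, G.Adj (s i) (0, (s i).2))
    (hinf : ∀ i, s i ∈ infSet G) :
    ∃ H : ℤ × ℤ → ℤ × ℤ → ℝ, ∃ D : Finset (ℤ × ℤ),
      (∀ x, x ∈ D ↔ (x ∈ infSet G ∧ x.1 = 1 ∧ 1 ≤ x.2 ∧ x.2 ≤ n ∧ G.Adj x (0, x.2))) ∧
      (Fintype.card ι : ℝ) ≤ ∑ x ∈ D, H x x ∧
      ∀ x ∈ D, (∀ v : ℤ × ℤ, v.1 ≤ 0 → |H x v| ≤ 1) ∧
        (∀ v ∈ infSet G, -m ≤ v.1 → v.1 ≤ m → 1 ≤ v.2 → v.2 ≤ n → lap G (H x) v = 0) ∧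
        ∑ y ∈ D, H x y ^ 2 ≤ 1 := by
  classical
  set R : Finset (ℤ × ℤ) := Finset.Icc (-m) (m + 1) ×ˢ Finset.Icc 0 (n + 1) with hR
  set E : Finset (ℤ × ℤ) := R.filter fun x => x ∈ infSet G ∧ -m ≤ x.1 ∧ x.1 ≤ m ∧ 1 ≤ x.2 ∧ x.2 ≤ n
    with hE
  set Y : Finset (ℤ × ℤ) := R.filter fun x => x ∈ infSet G ∧
    ((x.1 ≤ 0 ∧ 1 ≤ x.2 ∧ x.2 ≤ n) ∨ 1 ≤ x.1) with hY
  set D : Finset (ℤ × ℤ) := R.filter fun x => x ∈ infSet G ∧ x.1 = 1 ∧ 1 ≤ x.2 ∧ x.2 ≤ n ∧
    G.Adj x (0, x.2) with hD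
  have memR : ∀ x : ℤ × ℤ, x ∈ R ↔ (-m ≤ x.1 ∧ x.1 ≤ m + 1) ∧ (0 ≤ x.2 ∧ x.2 ≤ n + 1) := by
    intro x
    rw [hR, Finset.mem_product, Finset.mem_Icc, Finset.mem_Icc]
  have memE : ∀ x, x ∈ E ↔ (x ∈ infSet G ∧ -m ≤ x.1 ∧ x.1 ≤ m ∧ 1 ≤ x.2 ∧ x.2 ≤ n) := by
    intro x
    rw [hE, Finset.mem_filter, memR]
    constructor
    · rintro ⟨_, h⟩; exact h
    · rintro ⟨h1, h2, h3, h4, h5⟩
      exact ⟨⟨⟨by omega, by omega⟩, ⟨by omega, by omega⟩⟩, h1, h2, h3, h4, h5⟩
  have memD : ∀ x, x ∈ D ↔ (x ∈ infSet G ∧ x.1 = 1 ∧ 1 ≤ x.2 ∧ x.2 ≤ n ∧ G.Adj x (0, x.2)) := by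
    intro x
    rw [hD, Finset.mem_filter, memR]
    constructor
    · rintro ⟨_, h⟩; exact h
    · rintro ⟨h1, h2, h3, h4, h5⟩
      exact ⟨⟨⟨by omega, by omega⟩, ⟨by omega, by omega⟩⟩, h1, h2, h3, h4, h5⟩
  have memY : ∀ x, x ∈ Y ↔ (x ∈ infSet G ∧ ((-m ≤ x.1 ∧ x.1 ≤ 0 ∧ 1 ≤ x.2 ∧ x.2 ≤ n) ∨
      (1 ≤ x.1 ∧ x.1 ≤ m + 1 ∧ 0 ≤ x.2 ∧ x.2 ≤ n + 1))) := by
    intro x
    rw [hY, Finset.mem_filter, memR]
    constructor
    · rintro ⟨⟨⟨h1, h2⟩, h3, h4⟩, h5, h6⟩
      refine ⟨h5, ?_⟩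
      omega
    · rintro ⟨h5, h6⟩
      refine ⟨?_, h5, ?_⟩ <;> omega
  have hDY : ∀ x ∈ D, x ∈ Y := by
    intro x hx
    obtain ⟨h1, h2, h3, h4, h5⟩ := (memD x).mp hx
    rw [memY]
    refine ⟨h1, ?_⟩
    omega
  have hDE : ∀ x ∈ D, x ∈ E := by
    intro x hx
    obtain ⟨h1, h2, h3, h4, h5⟩ := (memD x).mp hx
    rw [memE]
    refine ⟨h1, ?_⟩
    omega
  have hsD : ∀ k, s k ∈ D := by
    intro k
    rw [memD]
    exact ⟨hinf k, hs k, (hwin k).1, (hwin k).2, hadj k⟩
  let i : D → Y := fun d => ⟨d.1, hDY d.1 d.2⟩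
  let κ : D → E := fun d => ⟨d.1, hDE d.1 d.2⟩
  have hi : Function.Injective i := by
    intro a b h
    apply Subtype.ext
    exact congrArg (fun z : Y => (z : ℤ × ℤ)) h
  let S : Finset D := Finset.univ.image fun k : ι => (⟨s k, hsD k⟩ : D)
  have hScard : S.card = Fintype.card ι := by
    rw [Finset.card_image_of_injective, Finset.card_univ]
    intro a b h
    by_contra hab
    have h1 : s a = s b := congrArg (fun z : D => (z : ℤ × ℤ)) h
    exact hdisj a b hab (s a) (by simp) (by rw [h1]; simp)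
  let M : Matrix E Y ℝ := Matrix.of fun (e : E) (y : Y) => lmat G e y
  -- injectivity
  have hinj : ∀ φ : E → ℝ, (∀ y : Y, (∀ d, y ≠ i d) → ∑ e, M e y * φ e = 0) →
      (∀ d, d ∉ S → φ (κ d) = 0) → φ = 0 := by
    intro φ h1 h2
    set f : ℤ × ℤ → ℝ := ext0 E φ with hf
    have hf0 : ∀ x, x ∉ E → f x = 0 := fun x hx => ext0_of_notMem hx
    have hfE : ∀ x, f x ≠ 0 → x ∈ E := fun x hx => by
      by_contra h
      exact hx (hf0 x h)
    have hlapY : ∀ y, y ∈ Y → y ∉ D → lap G f y = 0 := by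
      intro y hy hyD
      have h3 := h1 ⟨y, hy⟩ (by
        intro d hd
        apply hyD
        have : y = d.1 := congrArg (fun z : Y => (z : ℤ × ℤ)) hd
        rw [this]
        exact d.2)
      rw [hf, lap_ext0 hG, ← h3]
      apply sum_congr rfl
      intro e _
      change lmat G y e * φ e = lmat G e y * φ e
      rw [lmat_symm]
    -- vertices far from `E` are harmonic
    have hfar : ∀ x : ℤ × ℤ, f x = 0 → (∀ y, G.Adj x y → f y = 0) → lap G f x = 0 := by
      intro x hx hy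
      unfold lap
      apply Finset.sum_eq_zero
      intro y _
      split_ifs with h
      · rw [hx, hy y h, sub_zero]
      · rfl
    -- the part to the right
    set fR : ℤ × ℤ → ℝ := fun x => if 1 ≤ x.1 then f x else 0 with hfR
    have hfRE : ∀ x, fR x ≠ 0 → x ∈ E ∧ 1 ≤ x.1 := by
      intro x hx
      rw [hfR] at hx
      simp only at hx
      split_ifs at hx with h
      · exact ⟨hfE x hx, h⟩
      · exact absurd rfl hx
    have hlapR : ∀ x : ℤ × ℤ, 1 ≤ x.1 → ¬ (x.1 = 1 ∧ G.Adj x (0, x.2)) →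
        lap G fR x = 0 := by
      intro x hx1 hx2
      have hnb : ∀ y, G.Adj x y → 1 ≤ y.1 := by
        intro y hy
        have h3 := hG hy
        rw [lattice_adj_iff] at h3
        rcases h3 with h | h | h | h <;> rw [h] <;> simp only
        · omega
        · by_contra h4
          have h5 : x.1 = 1 := by omega
          apply hx2
          refine ⟨h5, ?_⟩
          rw [h, h5] at hy
          simpa using hy
        · omega
        · omega
      have h3 : lap G fR x = lap G f x := by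
        unfold lap
        apply sum_congr rfl
        intro y _
        split_ifs with h
        · rw [hfR]
          simp only
          rw [if_pos hx1, if_pos (hnb y h)]
        · rfl
      rw [h3]
      by_cases hxY : x ∈ Y
      · apply hlapY x hxY
        intro hxD
        obtain ⟨_, h4, _, _, h5⟩ := (memD x).mp hxD
        exact hx2 ⟨h4, h5⟩
      · by_cases hxC : x ∈ infSet G
        · apply hfar
          · apply hf0
            intro h
            obtain ⟨_, h4⟩ := (memE x).mp h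
            apply hxY
            rw [memY]
            refine ⟨hxC, ?_⟩
            omega
          · intro y hy
            apply hf0
            intro h
            obtain ⟨_, h4⟩ := (memE y).mp h
            apply hxY
            rw [memY]
            refine ⟨hxC, ?_⟩
            have h5 := hG hy
            rw [lattice_adj_iff] at h5
            rcases h5 with h5 | h5 | h5 | h5 <;> rw [h5] at h4 <;> simp only at h4 <;> omega
        · apply hfar
          · apply hf0
            intro h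
            exact hxC ((memE x).mp h).1
          · intro y hy
            apply hf0
            intro h
            exact hxC (infSet_adj hy.symm ((memE y).mp h).1)
    have hR0 : ∀ x, fR x = 0 := by
      refine nodal hG hm ?_ ?_ ?_ s t γ hs ht hγ hdisj hlapR ?_
      · exact E.finite_toSet.subset fun x hx => (hfRE x hx).1
      · intro x hx
        obtain ⟨h3, h4⟩ := hfRE x hx
        exact ⟨h4, ((memE x).mp h3).2.2.1⟩
      · intro x hx
        exact ((memE x).mp (hfRE x hx).1).1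
      · intro x hx1 hx2 hx3
        by_contra h3
        obtain ⟨h4, h5⟩ := hfRE x h3
        obtain ⟨h6, h7⟩ := (memE x).mp h4
        have hxD : x ∈ D := by
          rw [memD]
          exact ⟨h6, hx1, h7.2.2.1, h7.2.2.2, hx2⟩
        apply h3
        rw [hfR]
        simp only
        rw [if_pos h5]
        have h8 := h2 ⟨x, hxD⟩ (by
          intro h8
          rw [Finset.mem_image] at h8
          obtain ⟨k, _, hk⟩ := h8
          exact hx3 k (congrArg (fun z : D => (z : ℤ × ℤ)) hk).symm)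
        rw [hf, ← h8]
        exact ext0_coe (⟨x, h4⟩ : E)
    have hall : ∀ x, f x = 0 := by
      by_contra hcon
      push Not at hcon
      obtain ⟨x, hx⟩ := hcon
      have hfx : ∀ x, f x ≠ 0 → x.1 ≤ 0 := by
        intro x hx
        by_contra h
        push Not at h
        apply hx
        have h3 := hR0 x
        rw [hfR] at h3
        simp only at h3
        rwa [if_pos (by omega)] at h3
      obtain ⟨t, ht, _⟩ := anchor hG (f := f) (E.finite_toSet.subset fun x hx => hfE x hx)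
        (fun x hx => ((memE x).mp (hfE x hx)).1) (T := ∅) (by
          intro x hx _
          obtain ⟨h3, h4⟩ := (memE x).mp (hfE x hx)
          have h5 := hfx x hx
          apply hlapY
          · rw [memY]
            refine ⟨h3, ?_⟩
            omega
          · intro h6
            have := ((memD x).mp h6).2.1
            omega) hx
      exact ht
    ext e
    have h3 := hall e
    rw [hf, ext0_coe] at h3
    exact h3
  have hdim := trace_dim M i hi κ S hinj
  obtain ⟨g, hgW, hg1, hg2⟩ := exists_kernel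
    (Submodule.map (LinearMap.funLeft ℝ ℝ i) (LinearMap.ker M.mulVecLin))
  have hu : ∀ d : D, ∃ u : Y → ℝ, (∀ e : E, ∑ y : Y, lmat G e y * u y = 0) ∧ ∀ d', u (i d') = g d d' := by
    intro d
    obtain ⟨u, hu1, hu2⟩ := Submodule.mem_map.mp (hgW d)
    refine ⟨u, ?_, ?_⟩
    · intro e
      exact congrFun (LinearMap.mem_ker.mp hu1) e
    · intro d'
      exact congrFun hu2 d'
  choose u hu1 hu2 using hu
  let H : ℤ × ℤ → ℤ × ℤ → ℝ := fun x => if hx : x ∈ D then ext0 Y (u ⟨x, hx⟩) else 0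
  have hH : ∀ d : D, H d = ext0 Y (u d) := by
    intro d
    simp only [H]
    rw [dif_pos d.2]
  have hHval : ∀ d d' : D, H d d' = g d d' := by
    intro d d'
    rw [hH, ← hu2 d d']
    exact ext0_coe (i d')
  refine ⟨H, D, memD, ?_, ?_⟩
  · rw [← Finset.sum_coe_sort D]
    have h1 : ∑ d : D, H d d = ∑ d : D, g d d := sum_congr rfl fun d _ => hHval d d
    rw [h1, hg2, ← hScard]
    exact_mod_cast hdim
  · intro x hx
    have hHx : H x = ext0 Y (u ⟨x, hx⟩) := hH ⟨x, hx⟩
    have hsq : ∑ y ∈ D, H x y ^ 2 ≤ 1 := by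
      rw [← Finset.sum_coe_sort D]
      refine le_trans (le_of_eq ?_) (hg1 ⟨x, hx⟩)
      apply sum_congr rfl
      intro d _
      rw [hHval ⟨x, hx⟩ d]
    have hharm : ∀ v ∈ infSet G, -m ≤ v.1 → v.1 ≤ m → 1 ≤ v.2 → v.2 ≤ n → lap G (H x) v = 0 := by
      intro v hv h1 h2 h3 h4
      have hvE : v ∈ E := (memE v).mpr ⟨hv, h1, h2, h3, h4⟩
      rw [hHx, lap_ext0 hG]
      exact hu1 ⟨x, hx⟩ ⟨v, hvE⟩
    refine ⟨?_, hharm, hsq⟩
    have hHY : ∀ v, H x v ≠ 0 → v ∈ Y := by
      intro v hv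
      by_contra h
      apply hv
      rw [hHx]
      exact ext0_of_notMem h
    apply left_max hG (h := H x)
    · exact Y.finite_toSet.subset fun v hv => hHY v hv
    · intro v hv
      exact ((memY v).mp (hHY v hv)).1
    · intro v hv hv0
      obtain ⟨h1, h2⟩ := (memY v).mp (hHY v hv)
      apply hharm v h1 <;> omega
    · intro v hv hv0 y hy hy1
      obtain ⟨h1, h2⟩ := (memY v).mp (hHY v hv)
      have h3 := hG hy
      have hyD : y ∈ D := by
        rw [memD]
        rw [lattice_adj_iff] at h3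
        have h4 : y = (1, v.2) ∧ v.1 = 0 := by
          rcases h3 with h3 | h3 | h3 | h3
          · rw [h3] at hy1
            simp only at hy1
            have : v.1 = 0 := by omega
            refine ⟨?_, this⟩
            rw [h3, this]
            simp
          · rw [h3] at hy1; simp only at hy1; omega
          · rw [h3] at hy1; simp only at hy1; omega
          · rw [h3] at hy1; simp only at hy1; omega
        refine ⟨infSet_adj hy h1, ?_⟩
        rw [h4.1]
        simp only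
        refine ⟨trivial, by omega, by omega, ?_⟩
        have h5 : v = (0, v.2) := Prod.ext h4.2 rfl
        rw [← h5, ← h4.1]
        exact hy.symm
      have h5 : H x y ^ 2 ≤ 1 :=
        (single_le_sum (f := fun y => H x y ^ 2) (fun y _ => sq_nonneg _) hyD).trans hsq
      rw [← sq_abs] at h5
      nlinarith [abs_nonneg (H x y)]

end Pool.Agent.Lib.MP_566bac_pr
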