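import Pool.Agent.Lib.MP_566bac_pr.Perc
import Pool.Agent.Lib.MP_566bac_pr.Window

/-!
# Invariance of the percolation measure, measurability of connectivity
-/

open MeasureTheory ProbabilityTheory Finset unitInterval SimpleGraph
open scoped ENNReal

namespace Pool.Agent.Lib.MP_566bac_pr

/-- an automorphism of the lattice -/
def IsAuto (φ : (ℤ × ℤ) ≃ (ℤ × ℤ)) : Prop := ∀ x y, lattice.Adj (φ x) (φ y) ↔ lattice.Adj x y

/-- the configuration seen through an automorphism -/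
def pull (φ : (ℤ × ℤ) ≃ (ℤ × ℤ)) (S : Set (Sym2 (ℤ × ℤ))) : Set (Sym2 (ℤ × ℤ)) :=
  (Sym2.map φ) ⁻¹' S

lemma pull_adj {φ : (ℤ × ℤ) ≃ (ℤ × ℤ)} (hφ : IsAuto φ) (S : Set (Sym2 (ℤ × ℤ))) (x y : ℤ × ℤ) :
    (openGraph (pull φ S)).Adj x y ↔ (openGraph S).Adj (φ x) (φ y) := by
  change lattice.Adj x y ∧ Sym2.map φ s(x, y) ∈ S ↔ lattice.Adj (φ x) (φ y) ∧ s(φ x, φ y) ∈ S
  rw [hφ, Sym2.map_mk]

lemma measurable_pull (φ : (ℤ × ℤ) ≃ (ℤ × ℤ)) : Measurable (pull φ) := by
  rw [measurable_set_iff]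
  intro e
  exact measurable_set_mem (Sym2.map φ e)

lemma pull_measurePreserving {φ : (ℤ × ℤ) ≃ (ℤ × ℤ)} (hφ : IsAuto φ) (p : I) :
    MeasurePreserving (pull φ) (perc p) (perc p) := by
  classical
  -- the permutation of the edges
  let τ : Sym2 (ℤ × ℤ) ≃ Sym2 (ℤ × ℤ) :=
    { toFun := Sym2.map φ
      invFun := Sym2.map φ.symm
      left_inv := by intro e; rw [Sym2.map_map]; simp
      right_inv := by intro e; rw [Sym2.map_map]; simp }
  have hτ : ∀ e, τ e = Sym2.map φ e := fun e => rfl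
  have hmem : ∀ e, (τ e ∈ lattice.edgeSet) = (e ∈ lattice.edgeSet) := by
    intro e
    rw [hτ]
    induction e using Sym2.ind with
    | _ a b =>
      rw [Sym2.map_mk, SimpleGraph.mem_edgeSet, SimpleGraph.mem_edgeSet]
      exact propext (hφ a b)
  have hmem' : ∀ e, (τ.symm e ∈ lattice.edgeSet) = (e ∈ lattice.edgeSet) := by
    intro e
    rw [← hmem, τ.apply_symm_apply]
  refine ⟨measurable_pull φ, ?_⟩
  set ν : Sym2 (ℤ × ℤ) → Measure Prop := fun i =>
    toNNReal p • Measure.dirac (i ∈ lattice.edgeSet) + toNNReal (unitInterval.symm p) •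
      Measure.dirac False with hν
  have hperc : perc p = (Measure.infinitePi ν).map (fun P : Sym2 (ℤ × ℤ) → Prop ↦ {i | P i}) :=
    setBernoulli_eq_map _ _
  have hmeas : Measurable (fun P : Sym2 (ℤ × ℤ) → Prop ↦ {i | P i}) :=
    MeasurableEquiv.setOfPred.measurable
  have hprob : ∀ i, IsProbabilityMeasure (ν i) := by
    intro i
    rw [hν]
    infer_instance
  have hre : (Measure.infinitePi ν).map (fun P e => P (τ e)) = Measure.infinitePi ν := by
    have h1 := Measure.infinitePi_map_piCongrLeft ν τ.symm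
    have h2 : (fun i => ν (τ.symm i)) = ν := by
      ext1 i
      simp only [hν, hmem']
    rw [h2] at h1
    conv_rhs => rw [← h1]
    congr 1
    ext P e
    have h3 := MeasurableEquiv.piCongrLeft_apply_apply (β := fun _ => Prop) τ.symm P (τ e)
    rw [τ.symm_apply_apply] at h3
    exact iff_of_eq h3.symm
  have hre_meas : Measurable (fun (P : Sym2 (ℤ × ℤ) → Prop) e => P (τ e)) := by
    fun_prop
  rw [hperc, Measure.map_map (measurable_pull φ) hmeas]
  conv_rhs => rw [← hre, Measure.map_map hmeas hre_meas]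
  rfl

lemma pull_ae {φ : (ℤ × ℤ) ≃ (ℤ × ℤ)} (hφ : IsAuto φ) (p : I)
    {P : Set (Sym2 (ℤ × ℤ)) → Prop} (h : ∀ᵐ S ∂(perc p), P S) :
    ∀ᵐ S ∂(perc p), P (pull φ S) :=
  (pull_measurePreserving hφ p).quasiMeasurePreserving.ae h

lemma measurableSet_mem (e : Sym2 (ℤ × ℤ)) : MeasurableSet {S : Set (Sym2 (ℤ × ℤ)) | e ∈ S} :=
  measurableSet_setOfPred.mpr (measurable_set_mem e)

lemma reachable_iff (S : Set (Sym2 (ℤ × ℤ))) (x y : ℤ × ℤ) :
    (openGraph S).Reachable x y ↔
      ∃ l : List (Sym2 (ℤ × ℤ)), (∃ p : lattice.Walk x y, p.edges = l) ∧ ∀ e ∈ l, e ∈ S := by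
  constructor
  · rintro ⟨p⟩
    induction p with
    | nil => exact ⟨[], ⟨Walk.nil, rfl⟩, by simp⟩
    | @cons u v w hadj p ih =>
      obtain ⟨l, ⟨q, hq⟩, hl⟩ := ih
      refine ⟨s(u, v) :: l, ⟨Walk.cons hadj.1 q, by simp [hq]⟩, ?_⟩
      intro e he
      rw [List.mem_cons] at he
      rcases he with he | he
      · rw [he]; exact hadj.2
      · exact hl e he
  · rintro ⟨l, ⟨p, hp⟩, hl⟩
    subst hp
    induction p with
    | nil => exact Reachable.refl _
    | @cons u v w hadj p ih =>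
      have h1 : (openGraph S).Adj u v := ⟨hadj, hl _ (by simp)⟩
      exact h1.reachable.trans (ih fun e he => hl e (by simp [he]))

lemma measurableSet_reachable (x y : ℤ × ℤ) :
    MeasurableSet {S : Set (Sym2 (ℤ × ℤ)) | (openGraph S).Reachable x y} := by
  have h1 : {S : Set (Sym2 (ℤ × ℤ)) | (openGraph S).Reachable x y} =
      ⋃ l : List (Sym2 (ℤ × ℤ)), ⋃ _ : (∃ p : lattice.Walk x y, p.edges = l),
        ⋂ e ∈ l.toFinset, {S | e ∈ S} := by
    ext S
    rw [Set.mem_ofPred_eq, reachable_iff]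
    simp only [Set.mem_iUnion, Set.mem_iInter, List.mem_toFinset, Set.mem_ofPred_eq, exists_prop]
  rw [h1]
  refine MeasurableSet.iUnion fun l => MeasurableSet.iUnion fun _ => ?_
  exact Finset.measurableSet_biInter _ fun e _ => measurableSet_mem e

lemma measurableSet_infSet (x : ℤ × ℤ) :
    MeasurableSet {S : Set (Sym2 (ℤ × ℤ)) | x ∈ infSet (openGraph S)} := by
  have h1 : {S : Set (Sym2 (ℤ × ℤ)) | x ∈ infSet (openGraph S)} =
      ⋂ F : Finset (ℤ × ℤ), ⋃ y : ℤ × ℤ, ⋃ _ : y ∉ F, {S | (openGraph S).Reachable x y} := by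
    ext S
    simp only [Set.mem_iInter, Set.mem_iUnion, Set.mem_ofPred_eq, exists_prop, infSet]
    constructor
    · intro h F
      obtain ⟨y, hy, hyF⟩ := Set.Infinite.exists_notMem_finset h F
      exact ⟨y, hyF, hy⟩
    · intro h hfin
      obtain ⟨y, hyF, hy⟩ := h hfin.toFinset
      apply hyF
      rw [Set.Finite.mem_toFinset]
      exact hy
  rw [h1]
  refine MeasurableSet.iInter fun F => MeasurableSet.iUnion fun y => MeasurableSet.iUnion fun _ => ?_
  exact measurableSet_reachable x y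

end Pool.Agent.Lib.MP_566bac_pr
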