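import Pool.Agent.Lib.MP_566bac_pr.Top
import Pool.Agent.Lib.MP_566bac_pr.Fpp

/-!
# Level lines
-/

open Finset SimpleGraph

namespace Pool.Agent.Lib.MP_566bac_pr

lemma king_refl (f : ℤ × ℤ) : King f f := by
  unfold King
  simp

lemma rk_succ {S : Set Edge} {k : ℕ} {f : ℤ × ℤ} (h : Rk S k f) : Rk S (k + 1) f :=
  Rk.jump h (king_refl f)

lemma rk_mono {S : Set Edge} {k l : ℕ} (hkl : k ≤ l) {f : ℤ × ℤ} (h : Rk S k f) : Rk S l f := by
  obtain ⟨d, rfl⟩ := Nat.exists_eq_add_of_le hkl
  induction d with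
  | zero => exact h
  | succ d ih => exact rk_succ (ih (by omega))

lemma rk_low {S : Set Edge} (k : ℕ) : ∀ {f : ℤ × ℤ}, f.2 < k → Rk S k f := by
  induction k with
  | zero =>
    intro f h
    exact Rk.base (by simpa using h)
  | succ k ih =>
    intro f h
    push_cast at h
    refine Rk.jump (f := (f.1, f.2 - 1)) (ih (by simp only; omega)) ?_
    unfold King
    simp

lemma clos_rk (S : Set Edge) (k : ℕ) : Clos S (Rk S k) := fun _ _ h h1 => Rk.free h1 h

lemma touch_king {z f g : ℤ × ℤ} (hf : FT z f) (hg : FT z g) : King f g := by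
  unfold FT at hf hg
  unfold King
  rw [abs_le, abs_le]
  omega

/-- the vertex is on the `k`-th line -/
def On (S : Set Edge) (k : ℕ) (z : ℤ × ℤ) : Prop := ∃ w, Bdy (Rk S k) s(z, w)

lemma on_disj {S : Set Edge} {k l : ℕ} {z : ℤ × ℤ} (h1 : On S k z) (h2 : On S l z) : k = l := by
  have key : ∀ k l : ℕ, k < l → On S k z → On S l z → False := by
    rintro k l hkl ⟨w, h1⟩ ⟨w', h2⟩
    obtain ⟨f, _, a1, _, _, _, a5, _⟩ := bdy_touch h1
    obtain ⟨_, g, _, b2, _, _, _, b6⟩ := bdy_touch h2
    exact b6 (rk_mono hkl (Rk.jump a5 (touch_king a1 b2)))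
  rcases lt_trichotomy k l with h | h | h
  · exact (key k l h h1 h2).elim
  · exact h
  · exact (key l k h h2 h1).elim

lemma on_low {S : Set Edge} {k : ℕ} {z : ℤ × ℤ} (h : On S k z) : (k : ℤ) ≤ z.2 := by
  obtain ⟨w, h⟩ := h
  obtain ⟨_, g, _, b2, _, _, _, b6⟩ := bdy_touch h
  by_contra hcon
  push Not at hcon
  apply b6
  apply rk_low
  unfold FT at b2
  omega

lemma on_high {S : Set Edge} {k : ℕ} {z : ℤ × ℤ} (h : On S k z) {H : ℤ}
    (h1 : ∀ h, H ≤ h → ¬ Rk S k (z.1, h)) (h2 : ∀ h, H ≤ h → ¬ Rk S k (z.1 - 1, h)) : z.2 ≤ H := by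
  obtain ⟨w, h⟩ := h
  obtain ⟨f, _, b1, _, _, _, b5, _⟩ := bdy_touch h
  by_contra hcon
  push Not at hcon
  obtain ⟨f1, f2⟩ := f
  unfold FT at b1
  simp only at b1
  rcases b1.1 with h3 | h3
  · rw [h3] at b5
    exact h2 f2 (by omega) b5
  · rw [h3] at b5
    exact h1 f2 (by omega) b5

/-- the sets `Rk S k` are bounded above in each column -/
def Tame (S : Set Edge) : Prop := ∀ (k : ℕ) (x : ℤ), ∃ H : ℤ, ∀ h, H ≤ h → ¬ Rk S k (x, h)

section
open Classical

/-- odd number of boundary edges in the column `a` -/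
def Odd' (S : Set Edge) (k : ℕ) (P : ℤ × ℤ → Prop) (a : ℤ) : Prop :=
  ∀ H : ℤ, -1 ≤ H → (∀ h, H ≤ h → ¬ Rk S k (a, h)) → wP (Rk S k) P H a (-1) = 1

lemma tail_indep {g : ℤ → ZMod 2} {H H' b : ℤ} (h : H ≤ H') (hg : ∀ x, H < x → g x = 0) :
    tail g H b = tail g H' b := by
  unfold tail
  apply Finset.sum_subset
  · intro x hx
    rw [Finset.mem_Ioc] at *
    omega
  · intro x hx hx'
    rw [Finset.mem_Ioc] at *
    exact hg x (by omega)

lemma wP_indep {S : Set Edge} {k : ℕ} {P : ℤ × ℤ → Prop} {a b H H' : ℤ}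
    (hH : ∀ h, H ≤ h → ¬ Rk S k (a, h)) (hH' : ∀ h, H' ≤ h → ¬ Rk S k (a, h)) :
    wP (Rk S k) P H a b = wP (Rk S k) P H' a b := by
  have key : ∀ H, (∀ h, H ≤ h → ¬ Rk S k (a, h)) → ∀ x, H < x →
      bh (Rk S k) a x * ind P (a, x) = 0 := by
    intro H hH x hx
    unfold bh
    rw [ind_neg (hH (x - 1) (by omega)), ind_neg (hH x (by omega))]
    ring
  rcases le_total H H' with h | h
  · exact tail_indep h (key H hH)
  · exact (tail_indep h (key H' hH')).symm

lemma odd_of {S : Set Edge} {k : ℕ} {P : ℤ × ℤ → Prop} {a H : ℤ}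
    (hH : ∀ h, H ≤ h → ¬ Rk S k (a, h)) (h : wP (Rk S k) P H a (-1) = 1) : Odd' S k P a := by
  intro H' _ hH'
  rw [wP_indep hH' hH, h]

lemma transport {S : Set Edge} (hS : Tame S) {k : ℕ} {P : ℤ × ℤ → Prop} {a : ℤ}
    (c1 : ∀ h, Bdy (Rk S k) s((a - 1, h), (a, h)) → (P (a - 1, h) ↔ P (a, h)))
    (c2 : ∀ h, Bdy (Rk S k) s((a, h), (a, h + 1)) → (P (a, h) ↔ P (a, h + 1))) :
    Odd' S k P (a - 1) ↔ Odd' S k P a := by
  obtain ⟨H1, hH1⟩ := hS k (a - 1)
  obtain ⟨H2, hH2⟩ := hS k a
  set H := max (-1) (max H1 H2) with hH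
  have g1 : ∀ h, H ≤ h → ¬ Rk S k (a - 1, h) := fun h hh => hH1 h (by omega)
  have g2 : ∀ h, H ≤ h → ¬ Rk S k (a, h) := fun h hh => hH2 h (by omega)
  have hs := wP_h (D := Rk S k) (P := P) (H := H) (a := a) (b := -1) (le_max_left _ _)
    (fun h _ hne => by
      have := bdy_h hne
      rw [sub_add_cancel] at this
      exact c1 h this) (fun h _ hne => c2 h (bdy_v hne))
    ⟨g2 H le_rfl, g1 H le_rfl⟩
  have h0 : bv (Rk S k) a (-1) = 0 := by
    unfold bv
    rw [ind_pos (Rk.base (by norm_num)), ind_pos (Rk.base (by norm_num))]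
    decide
  rw [h0, zero_mul] at hs
  have hs' := CharTwo.add_eq_zero.mp hs
  constructor
  · intro h
    refine odd_of g2 ?_
    rw [← hs']
    exact h H (le_max_left _ _) g1
  · intro h
    refine odd_of g1 ?_
    rw [hs']
    exact h H (le_max_left _ _) g2

lemma exists_of_odd {S : Set Edge} (hS : Tame S) {k : ℕ} {P : ℤ × ℤ → Prop} {a : ℤ}
    (h : Odd' S k P a) : ∃ b, bh (Rk S k) a b ≠ 0 ∧ P (a, b) := by
  obtain ⟨H, hH⟩ := hS k a
  have h1 := h (max (-1) H) (le_max_left _ _) (fun h hh => hH h (by omega))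
  obtain ⟨x, _, _, hx⟩ := exists_of_tail (g := fun h => bh (Rk S k) a h * ind P (a, h))
    (H := max (-1) H) (b := -1) (by
      change wP (Rk S k) P (max (-1) H) a (-1) ≠ 0
      rw [h1]
      decide)
  have h2 := left_ne_zero_of_mul hx
  have h3 := right_ne_zero_of_mul hx
  exact ⟨x, h2, ind_eq_one h3⟩

/-- the cluster which carries the `k`-th line -/
lemma exists_class {S : Set Edge} (hS : Tame S) (k : ℕ) :
    ∃ q : (openGraph S).ConnectedComponent,
      ∀ a, Odd' S k (fun z => (openGraph S).connectedComponentMk z = q) a := by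
  obtain ⟨H0, hH0⟩ := hS k 0
  set H := max (-1) H0 with hH
  have g : ∀ h, H ≤ h → ¬ Rk S k (0, h) := fun h hh => hH0 h (by omega)
  have htot : tail (bh (Rk S k) 0) H (-1) = 1 := by
    rw [bh_total (le_max_left _ _), ind_pos (Rk.base (by norm_num)), ind_neg (g H le_rfl)]
    decide
  obtain ⟨q, hq⟩ := select (fun x => (openGraph S).connectedComponentMk (0, x)) (bh (Rk S k) 0)
    (H := H) (b := -1) (by rw [htot]; decide)
  refine ⟨q, ?_⟩
  have h0 : Odd' S k (fun z => (openGraph S).connectedComponentMk z = q) 0 := by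
    refine odd_of g ?_
    rw [← hq]
    rfl
  have hP : ∀ z w : ℤ × ℤ, Bdy (Rk S k) s(z, w) →
      ((openGraph S).connectedComponentMk z = q ↔ (openGraph S).connectedComponentMk w = q) := by
    intro z w h
    have h1 := bdy_open (clos_rk S k) h
    rw [ConnectedComponent.sound h1.reachable]
  have hstep : ∀ a, Odd' S k (fun z => (openGraph S).connectedComponentMk z = q) (a - 1) ↔
      Odd' S k (fun z => (openGraph S).connectedComponentMk z = q) a :=
    fun a => transport hS (fun h hb => hP _ _ hb) (fun h hb => hP _ _ hb)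
  intro a
  induction a using Int.induction_on with
  | zero => exact h0
  | succ n ih =>
    rw [← hstep, add_sub_cancel_right]
    exact ih
  | pred n ih =>
    rw [hstep]
    exact ih

lemma class_inf {S : Set Edge} (hS : Tame S) {k : ℕ} {q : (openGraph S).ConnectedComponent}
    (hq : ∀ a, Odd' S k (fun z => (openGraph S).connectedComponentMk z = q) a) {z : ℤ × ℤ}
    (hz : (openGraph S).connectedComponentMk z = q) : z ∈ infSet (openGraph S) := by
  choose b hb1 hb2 using fun a => exists_of_odd hS (hq a)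
  have h1 : Set.range (fun a : ℤ => ((a, b a) : ℤ × ℤ)) ⊆ {y | (openGraph S).Reachable z y} := by
    rintro _ ⟨a, rfl⟩
    have := hb2 a
    rw [← hz] at this
    exact (ConnectedComponent.exact this).symm
  refine Set.Infinite.mono h1 (Set.infinite_range_of_injective ?_)
  intro a b h
  exact congrArg Prod.fst h

/-- the graph of the boundary edges -/
def lineG (D : ℤ × ℤ → Prop) : SimpleGraph (ℤ × ℤ) where
  Adj z w := Bdy D s(z, w)
  symm := ⟨fun z w h => by rw [Sym2.eq_swap]; exact h⟩
  loopless := ⟨fun z h => lattice.loopless.irrefl z (bdy_adj h)⟩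

/-- a crossing of a strip -/
lemma strip {S : Set Edge} (hS : Tame S) {k : ℕ} {q : (openGraph S).ConnectedComponent}
    (hq : ∀ a, Odd' S k (fun z => (openGraph S).connectedComponentMk z = q) a) {L R : ℤ}
    (hLR : L < R) : ∃ h0 h1 : ℤ, (openGraph S).connectedComponentMk (L, h0) = q ∧
      (res (lineG (Rk S k)) {z | L ≤ z.1 ∧ z.1 ≤ R}).Reachable (L, h0) (R, h1) := by
  set Hs := res (lineG (Rk S k)) {z | L ≤ z.1 ∧ z.1 ≤ R} with hHs
  set P : ℤ × ℤ → Prop := fun z => (openGraph S).connectedComponentMk z = q with hP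
  obtain ⟨H0, hH0⟩ := hS k L
  set H := max (-1) H0 with hH
  have g : ∀ h, H ≤ h → ¬ Rk S k (L, h) := fun h hh => hH0 h (by omega)
  have htot : tail (fun h => bh (Rk S k) L h * ind P (L, h)) H (-1) = 1 :=
    hq L H (le_max_left _ _) g
  obtain ⟨r, hr⟩ := select (fun x => Hs.connectedComponentMk (L, x))
    (fun h => bh (Rk S k) L h * ind P (L, h)) (H := H) (b := -1) (by rw [htot]; decide)
  set P' : ℤ × ℤ → Prop := fun z => P z ∧ Hs.connectedComponentMk z = r with hP'
  have hind : ∀ z, ind P' z = ind P z * (if Hs.connectedComponentMk z = r then 1 else 0) := by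
    intro z
    by_cases h1 : P z <;> by_cases h2 : Hs.connectedComponentMk z = r
    · rw [ind_pos h1, ind_pos (⟨h1, h2⟩ : P' z), if_pos h2, one_mul]
    · rw [ind_neg (fun h : P' z => h2 h.2), if_neg h2, mul_zero]
    · rw [ind_neg (fun h : P' z => h1 h.1), ind_neg h1, zero_mul]
    · rw [ind_neg (fun h : P' z => h1 h.1), ind_neg h1, zero_mul]
  have hL : Odd' S k P' L := by
    refine odd_of g ?_
    rw [← hr]
    unfold wP
    apply tail_congr
    intro x _ _
    rw [hind, mul_assoc]
  have hPadj : ∀ z w : ℤ × ℤ, L ≤ z.1 → z.1 ≤ R → L ≤ w.1 → w.1 ≤ R → Bdy (Rk S k) s(z, w) →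
      (P' z ↔ P' w) := by
    intro z w h1 h2 h3 h4 h
    have e1 : (openGraph S).connectedComponentMk z = (openGraph S).connectedComponentMk w :=
      ConnectedComponent.sound (bdy_open (clos_rk S k) h).reachable
    have e2 : Hs.connectedComponentMk z = Hs.connectedComponentMk w :=
      ConnectedComponent.sound (Adj.reachable ⟨h, ⟨h1, h2⟩, ⟨h3, h4⟩⟩)
    simp only [hP', hP, e1, e2]
  have hall : ∀ n : ℕ, L + n < R → Odd' S k P' (L + n) := by
    intro n
    induction n with
    | zero => intro _; simpa using hL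
    | succ n ih =>
      intro hn
      push_cast at hn ⊢
      have h1 := ih (by omega)
      have e : L + (n : ℤ) = L + (n + 1) - 1 := by ring
      rw [e] at h1
      rw [← transport hS (a := L + ((n : ℤ) + 1))]
      · exact h1
      · intro h hb
        exact hPadj _ _ (by simp only; omega) (by simp only; omega) (by simp only; omega)
          (by simp only; omega) hb
      · intro h hb
        exact hPadj _ _ (by simp only; omega) (by simp only; omega) (by simp only; omega)
          (by simp only; omega) hb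
  have hR := hall (R - 1 - L).toNat (by omega)
  have e : L + ((R - 1 - L).toNat : ℤ) = R - 1 := by omega
  rw [e] at hR
  obtain ⟨b0, _, hb0⟩ := exists_of_odd hS hL
  obtain ⟨b1, hb1, hb1'⟩ := exists_of_odd hS hR
  have h2 := bdy_h hb1
  rw [sub_add_cancel] at h2
  refine ⟨b0, b1, hb0.1, ?_⟩
  have r1 : Hs.Reachable (L, b0) (R - 1, b1) :=
    ConnectedComponent.exact (hb0.2.trans hb1'.2.symm)
  exact r1.trans (Adj.reachable ⟨h2, ⟨by simp only; omega, by simp only; omega⟩,
    ⟨by simp only; omega, by simp only; omega⟩⟩)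

end

/-- the last vertex in column one with an open left edge -/
lemma last_D {S : Set Edge} {G' : SimpleGraph (ℤ × ℤ)} (hG' : G' ≤ openGraph S) {u v : ℤ × ℤ}
    (p : G'.Walk u v) (hcols : ∀ z ∈ p.support, 0 ≤ z.1) (hv : 2 ≤ v.1) :
    (∃ s ∈ p.support, s.1 = 1 ∧ (openGraph S).Adj s (0, s.2) ∧ ∃ q : G'.Walk s v,
      (∀ z ∈ q.support, z ∈ p.support) ∧ ∀ z ∈ q.support, z = s ∨
        (1 ≤ z.1 ∧ ¬ (z.1 = 1 ∧ (openGraph S).Adj z (0, z.2)))) ∨
    (∀ z ∈ p.support, 1 ≤ z.1 ∧ ¬ (z.1 = 1 ∧ (openGraph S).Adj z (0, z.2))) := by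
  induction p with
  | nil =>
    right
    intro z hz
    simp only [Walk.support_nil, List.mem_singleton] at hz
    subst hz
    exact ⟨by omega, fun h => by omega⟩
  | @cons u w v hadj p ih =>
    rcases ih (fun z hz => hcols z (by simp [hz])) hv with ⟨s, h1, h2, h3, q, h4, h5⟩ | h
    · left
      exact ⟨s, by simp [h1], h2, h3, q, fun z hz => by simp [h4 z hz], h5⟩
    · by_cases hu : u.1 = 1 ∧ (openGraph S).Adj u (0, u.2)
      · left
        refine ⟨u, by simp, hu.1, hu.2, Walk.cons hadj p, fun z hz => hz, ?_⟩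
        intro z hz
        simp only [Walk.support_cons, List.mem_cons] at hz
        rcases hz with hz | hz
        · exact Or.inl hz
        · exact Or.inr (h z hz)
      · have hu0 := hcols u (by simp)
        have hw := h w (by simp)
        have hadj' := hG' hadj
        have hu1 : 1 ≤ u.1 := by
          by_contra hcon
          have hu1 : u.1 = 0 := by omega
          have h1 := hadj'.1
          rw [lattice_adj_iff] at h1
          obtain ⟨a, b⟩ := u
          simp only at hu1 h1
          subst hu1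
          rcases h1 with h1 | h1 | h1 | h1
          · apply hw.2
            rw [h1] at hadj' ⊢
            exact ⟨by simp, hadj'.symm⟩
          · rw [h1] at hw
            simp only at hw
            omega
          · rw [h1] at hw
            simp only at hw
            omega
          · rw [h1] at hw
            simp only at hw
            omega
        right
        intro z hz
        simp only [Walk.support_cons, List.mem_cons] at hz
        rcases hz with hz | hz
        · rw [hz]
          exact ⟨hu1, hu⟩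
        · exact h z hz

/-- **The lines.** -/
theorem line {S : Set Edge} (hS : Tame S) (k : ℕ) {m : ℤ} (hm : 1 ≤ m) :
    ∃ (s t : ℤ × ℤ) (γ : (openGraph S).Walk s t), s.1 = 1 ∧ t.1 = m + 1 ∧
      (∀ z ∈ γ.support, z = s ∨
        (1 ≤ z.1 ∧ z.1 ≤ m + 1 ∧ ¬ (z.1 = 1 ∧ (openGraph S).Adj z (0, z.2)))) ∧
      (openGraph S).Adj s (0, s.2) ∧ s ∈ infSet (openGraph S) ∧ ∀ z ∈ γ.support, On S k z := by
  obtain ⟨q, hq⟩ := exists_class hS k
  obtain ⟨h0, h1, hc, ⟨p⟩⟩ := strip hS hq (L := 0) (R := m + 1) (by omega)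
  have hG' : res (lineG (Rk S k)) {z | 0 ≤ z.1 ∧ z.1 ≤ m + 1} ≤ openGraph S :=
    fun z w h => bdy_open (clos_rk S k) h.1
  have hW : ∀ {a b : ℤ × ℤ} (p : (res (lineG (Rk S k)) {z | 0 ≤ z.1 ∧ z.1 ≤ m + 1}).Walk a b),
      a.1 ≠ b.1 → ∀ z ∈ p.support, (0 ≤ z.1 ∧ z.1 ≤ m + 1) ∧ On S k z := by
    intro a b p hab z hz
    have hnil : ¬ p.Nil := by
      intro hn
      exact hab (by rw [hn.eq])
    obtain ⟨w, hw⟩ : ∃ w, (res (lineG (Rk S k)) {z | 0 ≤ z.1 ∧ z.1 ≤ m + 1}).Adj z w := by
      clear hab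
      induction p with
      | nil => exact absurd Walk.Nil.nil hnil
      | @cons u w v hadj p ih =>
        simp only [Walk.support_cons, List.mem_cons] at hz
        rcases hz with rfl | hz
        · exact ⟨w, hadj⟩
        · by_cases hn : p.Nil
          · have : z = w := by
              cases p with
              | nil => simpa using hz
              | cons _ _ => exact absurd hn Walk.not_nil_cons
            rw [this]
            exact ⟨_, hadj.symm⟩
          · exact ih hz hn
    exact ⟨hw.2.1, w, hw.1⟩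
  have hsup := hW p (by simp only; omega)
  rcases last_D hG' p (fun z hz => (hsup z hz).1.1) (by simp only; omega) with
    ⟨s, k1, k2, k3, r, k4, k5⟩ | h
  · refine ⟨s, (m + 1, h1), r.mapLe hG', k2, rfl, ?_, k3, ?_, ?_⟩
    · intro z hz
      rw [Walk.support_mapLe_eq_support] at hz
      rcases k5 z hz with h | h
      · exact Or.inl h
      · exact Or.inr ⟨h.1, (hsup z (k4 z hz)).1.2, h.2⟩
    · -- the cluster of `s`
      apply class_inf hS hq
      rw [← hc]
      have hr : (openGraph S).Reachable (0, h0) s :=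
        Reachable.mono hG' ⟨p.takeUntil s k1⟩
      exact (ConnectedComponent.sound hr).symm
    · intro z hz
      rw [Walk.support_mapLe_eq_support] at hz
      exact (hsup z (k4 z hz)).2
  · have := (h (0, h0) (by simp)).1
    simp only at this
    omega

/-- the lines meet all columns -/
theorem line_col {S : Set Edge} (hS : Tame S) (k : ℕ) (a : ℤ) :
    ∃ b : ℤ, On S k (a, b) ∧ (a, b) ∈ infSet (openGraph S) ∧
      (Rk S k (a, b - 1) ∨ Rk S k (a, b)) := by
  obtain ⟨q, hq⟩ := exists_class hS k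
  obtain ⟨b, hb1, hb2⟩ := exists_of_odd hS (hq a)
  refine ⟨b, ⟨_, bdy_h hb1⟩, class_inf hS hq hb2, ?_⟩
  rcases ind_add_ne hb1 with h | h
  · exact Or.inl h.1
  · exact Or.inr h.1

end Pool.Agent.Lib.MP_566bac_pr
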