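import Pool.Agent.Lib.MP_566bac_pr.Invariance

/-!
# Lipschitz lines of good vertices
-/

open SimpleGraph Finset

namespace Pool.Agent.Lib.MP_566bac_pr

/-- `(x, h)` can be reached with at most `k` level moves -/
def Rch (S : Set (Sym2 (ℤ × ℤ))) (k : ℕ) (x h : ℤ) : Prop :=
  ∃ w, Valid S (x, h) w ∧ w.count Move.lvl ≤ k

section
variable {S : Set (Sym2 (ℤ × ℤ))} {k : ℕ} {x h : ℤ}

lemma rch_base (hh : h ≤ 0) : Rch S k x h := ⟨[], hh, by simp⟩

lemma rch_dn (hr : Rch S k x h) : Rch S k x (h - 1) := by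
  obtain ⟨w, hw, hc⟩ := hr
  refine ⟨Move.dn :: w, ?_, ?_⟩
  · change Valid S ((x, h - 1) - disp Move.dn) w
    have : ((x, h - 1) - disp Move.dn : ℤ × ℤ) = (x, h) := by simp [disp]
    rw [this]
    exact hw
  · rw [List.count_cons_of_ne (by decide)]
    exact hc

lemma rch_lf (hr : Rch S k x h) : Rch S k (x - 1) (h - 1) := by
  obtain ⟨w, hw, hc⟩ := hr
  refine ⟨Move.lf :: w, ?_, ?_⟩
  · change Valid S ((x - 1, h - 1) - disp Move.lf) w
    have : ((x - 1, h - 1) - disp Move.lf : ℤ × ℤ) = (x, h) := by simp [disp]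
    rw [this]
    exact hw
  · rw [List.count_cons_of_ne (by decide)]
    exact hc

lemma rch_rt (hr : Rch S k x h) : Rch S k (x + 1) (h - 1) := by
  obtain ⟨w, hw, hc⟩ := hr
  refine ⟨Move.rt :: w, ?_, ?_⟩
  · change Valid S ((x + 1, h - 1) - disp Move.rt) w
    have : ((x + 1, h - 1) - disp Move.rt : ℤ × ℤ) = (x, h) := by simp [disp]
    rw [this]
    exact hw
  · rw [List.count_cons_of_ne (by decide)]
    exact hc

lemma rch_up (hr : Rch S k x h) {d : Fin 4} (hd : ed (x, h + 1) d ∉ S) : Rch S k x (h + 1) := by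
  obtain ⟨w, hw, hc⟩ := hr
  refine ⟨Move.up d :: w, ⟨hd, ?_⟩, ?_⟩
  · have : ((x, h + 1) - (0, 1) : ℤ × ℤ) = (x, h) := by simp
    rw [this]
    exact hw
  · rw [List.count_cons_of_ne (by simp)]
    exact hc

lemma rch_lvl (hr : Rch S k x h) : Rch S (k + 1) x (h + 3) := by
  obtain ⟨w, hw, hc⟩ := hr
  refine ⟨Move.lvl :: w, ?_, ?_⟩
  · change Valid S ((x, h + 3) - disp Move.lvl) w
    have : ((x, h + 3) - disp Move.lvl : ℤ × ℤ) = (x, h) := by simp [disp]
    rw [this]
    exact hw
  · rw [List.count_cons_self]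
    omega

lemma rch_mono (hr : Rch S k x h) : ∀ h' ≤ h, Rch S k x h' := by
  have key : ∀ n : ℕ, Rch S k x (h - n) := by
    intro n
    induction n with
    | zero => simpa using hr
    | succ n ih =>
      have := rch_dn ih
      have e : h - (n : ℤ) - 1 = h - ((n + 1 : ℕ) : ℤ) := by push_cast; ring
      rwa [e] at this
  intro h' hh
  have := key (h - h').toNat
  have e : h - ((h - h').toNat : ℤ) = h' := by omega
  rwa [e] at this

end

/-- the heights reachable above each point are bounded -/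
def Fin' (S : Set (Sym2 (ℤ × ℤ))) : Prop := ∀ k x, ∃ h, ¬ Rch S k x h

/-- the `k`-th line -/
noncomputable def FF (S : Set (Sym2 (ℤ × ℤ))) (k : ℕ) (x : ℤ) : ℤ := sSup {h | Rch S k x h} + 1

section
variable {S : Set (Sym2 (ℤ × ℤ))} (hS : Fin' S)
include hS

lemma rch_iff (k : ℕ) (x h : ℤ) : Rch S k x h ↔ h < FF S k x := by
  obtain ⟨b, hb⟩ := hS k x
  have hbdd : BddAbove {h | Rch S k x h} := by
    refine ⟨b, ?_⟩
    intro h hh
    by_contra hcon
    push Not at hcon
    exact hb (rch_mono hh b hcon.le)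
  have hne : {h | Rch S k x h}.Nonempty := ⟨0, rch_base le_rfl⟩
  have hmem : Rch S k x (sSup {h | Rch S k x h}) := Int.csSup_mem hne hbdd
  unfold FF
  constructor
  · intro h1
    have := le_csSup hbdd h1
    omega
  · intro h1
    exact rch_mono hmem h (by omega)

lemma FF_pos (k : ℕ) (x : ℤ) : 1 ≤ FF S k x := by
  have := (rch_iff hS k x 0).mp (rch_base le_rfl)
  omega

lemma FF_good (k : ℕ) (x : ℤ) (d : Fin 4) : ed (x, FF S k x) d ∈ S := by
  by_contra hcon
  have h1 : Rch S k x (FF S k x - 1) := (rch_iff hS k x _).mpr (by omega)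
  have h2 := rch_up h1 (d := d) (by rwa [sub_add_cancel])
  rw [sub_add_cancel, rch_iff hS] at h2
  exact lt_irrefl _ h2

lemma FF_lip1 (k : ℕ) (x : ℤ) : FF S k x - 1 ≤ FF S k (x + 1) := by
  have h1 : Rch S k x (FF S k x - 1) := (rch_iff hS k x _).mpr (by omega)
  have h2 := (rch_iff hS k _ _).mp (rch_rt h1)
  omega

lemma FF_lip2 (k : ℕ) (x : ℤ) : FF S k (x + 1) - 1 ≤ FF S k x := by
  have h1 : Rch S k (x + 1) (FF S k (x + 1) - 1) := (rch_iff hS k _ _).mpr (by omega)
  have h2 := rch_lf h1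
  rw [add_sub_cancel_right] at h2
  have h3 := (rch_iff hS k _ _).mp h2
  omega

lemma FF_succ (k : ℕ) (x : ℤ) : FF S k x + 3 ≤ FF S (k + 1) x := by
  have h1 : Rch S k x (FF S k x - 1) := (rch_iff hS k x _).mpr (by omega)
  have h2 := (rch_iff hS _ _ _).mp (rch_lvl h1)
  omega

lemma FF_lt {k l : ℕ} (hkl : k < l) (x : ℤ) : FF S k x + 3 ≤ FF S l x := by
  obtain ⟨d, rfl⟩ : ∃ d, l = k + 1 + d := ⟨l - (k + 1), by omega⟩
  induction d with
  | zero => exact FF_succ hS k x
  | succ d ih =>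
    have h1 := ih (by omega)
    have h2 := FF_succ hS (k + 1 + d) x
    have e : k + 1 + (d + 1) = k + 1 + d + 1 := by ring
    rw [e]
    omega

lemma FF_ge (k : ℕ) (x : ℤ) : (k : ℤ) + 1 ≤ FF S k x := by
  induction k with
  | zero => have := FF_pos hS 0 x; simpa using this
  | succ k ih =>
    have := FF_succ hS k x
    push_cast
    omega

end

/-- a bi-infinite Lipschitz line of good vertices -/
structure IsLine (S : Set (Sym2 (ℤ × ℤ))) (F : ℤ → ℤ) : Prop where
  lip1 : ∀ x, F x - 1 ≤ F (x + 1)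
  lip2 : ∀ x, F (x + 1) - 1 ≤ F x
  good : ∀ x d, ed (x, F x) d ∈ S

lemma isLine_FF {S : Set (Sym2 (ℤ × ℤ))} (hS : Fin' S) (k : ℕ) : IsLine S (FF S k) :=
  ⟨FF_lip1 hS k, FF_lip2 hS k, FF_good hS k⟩

lemma adj_of_ed {S : Set (Sym2 (ℤ × ℤ))} {v : ℤ × ℤ} {d : Fin 4} (h : ed v d ∈ S) :
    (openGraph S).Adj v (v + dir d) := by
  refine ⟨?_, h⟩
  have := ed_mem v d
  rwa [ed, SimpleGraph.mem_edgeSet] at this

section
variable {S : Set (Sym2 (ℤ × ℤ))} {F : ℤ → ℤ} (hF : IsLine S F)
include hF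

lemma line_step (x : ℤ) : ∃ p : (openGraph S).Walk (x, F x) (x + 1, F (x + 1)),
    ∀ z ∈ p.support, z = (x, F x) ∨ (z.1 = x + 1 ∧ |z.2 - F (x + 1)| ≤ 1) := by
  have h1 := hF.lip1 x
  have h2 := hF.lip2 x
  have a1 : (openGraph S).Adj (x, F x) (x + 1, F x) := by
    have := adj_of_ed (hF.good x 0)
    simpa [dir] using this
  have habs : |F x - F (x + 1)| ≤ 1 := by
    rw [abs_le]; constructor <;> omega
  have hcases : F (x + 1) = F x ∨ F (x + 1) = F x + 1 ∨ F (x + 1) = F x - 1 := by omega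
  rcases hcases with h | h | h
  · rw [h]
    refine ⟨Walk.cons a1 Walk.nil, ?_⟩
    intro z hz
    simp only [Walk.support_cons, Walk.support_nil, List.mem_cons, List.not_mem_nil,
      or_false] at hz
    rcases hz with rfl | rfl
    · exact Or.inl rfl
    · right; simp
  · have a2 : (openGraph S).Adj (x + 1, F x) (x + 1, F (x + 1)) := by
      have := (adj_of_ed (hF.good (x + 1) 3)).symm
      have e : ((x + 1, F (x + 1)) + dir 3 : ℤ × ℤ) = (x + 1, F x) := by
        rw [h]; simp [dir]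
      rwa [e] at this
    refine ⟨Walk.cons a1 (Walk.cons a2 Walk.nil), ?_⟩
    intro z hz
    simp only [Walk.support_cons, Walk.support_nil, List.mem_cons, List.not_mem_nil,
      or_false] at hz
    rcases hz with rfl | rfl | rfl
    · exact Or.inl rfl
    · right; exact ⟨rfl, habs⟩
    · right; simp
  · have a2 : (openGraph S).Adj (x + 1, F x) (x + 1, F (x + 1)) := by
      have := (adj_of_ed (hF.good (x + 1) 2)).symm
      have e : ((x + 1, F (x + 1)) + dir 2 : ℤ × ℤ) = (x + 1, F x) := by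
        rw [h]; simp [dir]
      rwa [e] at this
    refine ⟨Walk.cons a1 (Walk.cons a2 Walk.nil), ?_⟩
    intro z hz
    simp only [Walk.support_cons, Walk.support_nil, List.mem_cons, List.not_mem_nil,
      or_false] at hz
    rcases hz with rfl | rfl | rfl
    · exact Or.inl rfl
    · right; exact ⟨rfl, habs⟩
    · right; simp

lemma line_walk (x : ℤ) (n : ℕ) : ∃ p : (openGraph S).Walk (x, F x) (x + n, F (x + n)),
    ∀ z ∈ p.support, z = (x, F x) ∨ (x + 1 ≤ z.1 ∧ z.1 ≤ x + n ∧ |z.2 - F z.1| ≤ 1) := by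
  induction n with
  | zero =>
    have e : ((x + (0 : ℕ), F (x + (0 : ℕ))) : ℤ × ℤ) = (x, F x) := by simp
    rw [e]
    refine ⟨Walk.nil, ?_⟩
    intro z hz
    left
    simpa using hz
  | succ n ih =>
    obtain ⟨p, hp⟩ := ih
    obtain ⟨q, hq⟩ := line_step hF (x + n)
    have e : x + ((n + 1 : ℕ) : ℤ) = x + n + 1 := by push_cast; ring
    rw [e]
    refine ⟨p.append q, ?_⟩
    intro z hz
    rw [Walk.mem_support_append_iff] at hz
    rcases hz with hz | hz
    · rcases hp z hz with h | h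
      · exact Or.inl h
      · right
        refine ⟨h.1, by omega, h.2.2⟩
    · rcases hq z hz with h | h
      · rcases Nat.eq_zero_or_pos n with hn | hn
        · left
          rw [h, hn]
          simp
        · right
          rw [h]
          simp only
          refine ⟨by omega, by omega, by simp⟩
      · right
        refine ⟨by omega, by omega, ?_⟩
        rw [h.1]
        exact h.2

lemma line_reach (x y : ℤ) : (openGraph S).Reachable (x, F x) (y, F y) := by
  have key : ∀ (x : ℤ) (n : ℕ), (openGraph S).Reachable (x, F x) (x + n, F (x + n)) := by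
    intro x n
    obtain ⟨p, _⟩ := line_walk hF x n
    exact ⟨p⟩
  rcases le_total x y with h | h
  · have := key x (y - x).toNat
    have e : x + ((y - x).toNat : ℤ) = y := by omega
    rwa [e] at this
  · have := key y (x - y).toNat
    have e : y + ((x - y).toNat : ℤ) = x := by omega
    rw [e] at this
    exact this.symm

lemma line_inf (x : ℤ) : (x, F x) ∈ infSet (openGraph S) := by
  have h1 : Set.range (fun y : ℤ => ((y, F y) : ℤ × ℤ)) ⊆
      {y | (openGraph S).Reachable (x, F x) y} := by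
    rintro _ ⟨y, rfl⟩
    exact line_reach hF x y
  refine Set.Infinite.mono h1 (Set.infinite_range_of_injective ?_)
  intro a b h
  exact congrArg Prod.fst h

omit hF in
lemma hit_line (hl1 : ∀ x, F x - 1 ≤ F (x + 1)) (hl2 : ∀ x, F (x + 1) - 1 ≤ F x)
    {G : SimpleGraph (ℤ × ℤ)} (hG : G ≤ lattice) {a b : ℤ × ℤ} (p : G.Walk a b)
    (ha : a.2 < F a.1) (hb : F b.1 ≤ b.2) : ∃ z ∈ p.support, z.2 = F z.1 := by
  induction p with
  | nil => omega
  | @cons u v w hadj p ih =>
    by_cases hv : v.2 < F v.1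
    · obtain ⟨z, hz, hz'⟩ := ih hv hb
      exact ⟨z, by simp [hz], hz'⟩
    · push Not at hv
      refine ⟨v, by simp, ?_⟩
      have h1 := hG hadj
      rw [lattice_adj_iff] at h1
      have h2 := hl1 u.1
      have h3 := hl2 u.1
      have h4 := hl1 (u.1 - 1)
      have h5 := hl2 (u.1 - 1)
      rw [sub_add_cancel] at h4 h5
      rcases h1 with h | h | h | h <;> rw [h] at hv ⊢ <;> simp only at hv ⊢ <;> omega

end

end Pool.Agent.Lib.MP_566bac_pr
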