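import Pool.Agent.Lib.MP_566bac_pr.Cluster

/-!
# Local events
-/

open SimpleGraph Finset Filter MeasureTheory ProbabilityTheory unitInterval
open scoped ENNReal

namespace Pool.Agent.Lib.MP_566bac_pr

/-- the vertices of the infinite cluster in column 1 whose left edge is open -/
def bd (S : Set (Sym2 (ℤ × ℤ))) : Set (ℤ × ℤ) :=
  {z | z ∈ infSet (openGraph S) ∧ z.1 = 1 ∧ (openGraph S).Adj z (0, z.2)}

/-- the local event -/
def Bev (m : ℕ) (y : ℤ) (S : Set (Sym2 (ℤ × ℤ))) : Prop :=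
  (1, y) ∈ bd S ∧ ∃ h : ℤ × ℤ → ℝ,
    (∀ v ∈ infSet (openGraph S), v.1 ≤ 0 → |h v| ≤ 1) ∧
    (∀ v ∈ infSet (openGraph S), |v.1| ≤ m → |v.2 - y| ≤ m → lap (openGraph S) h v = 0) ∧
    1 / 12 ≤ h (1, y) ∧ ∀ F : Finset (ℤ × ℤ), (∀ z ∈ F, z ∈ bd S) → ∑ z ∈ F, h z ^ 2 ≤ 1

lemma lap_congr {G G' : SimpleGraph (ℤ × ℤ)} {h h' : ℤ × ℤ → ℝ} {v : ℤ × ℤ}
    (hG : ∀ w ∈ nb v, G.Adj v w ↔ G'.Adj v w) (hv : h v = h' v) (hw : ∀ w ∈ nb v, h w = h' w) :
    lap G h v = lap G' h' v := by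
  unfold lap
  apply sum_congr rfl
  intro w hwn
  rw [hv, hw w hwn]
  have h1 := hG w hwn
  split_ifs with h2 h3 h3
  · rfl
  · exact absurd (h1.mp h2) h3
  · exact absurd (h1.mpr h3) h2
  · rfl

/-- the box around `(0, y)` -/
noncomputable def box (m : ℕ) (y : ℤ) : Finset (ℤ × ℤ) :=
  Finset.Icc (-(m : ℤ)) m ×ˢ Finset.Icc (y - m) (y + m)

lemma mem_box {m : ℕ} {y : ℤ} {v : ℤ × ℤ} : v ∈ box m y ↔ |v.1| ≤ m ∧ |v.2 - y| ≤ m := by
  rw [box, Finset.mem_product, Finset.mem_Icc, Finset.mem_Icc, abs_le, abs_le]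
  constructor
  · rintro ⟨⟨h1, h2⟩, h3, h4⟩
    exact ⟨⟨h1, h2⟩, by omega, by omega⟩
  · rintro ⟨⟨h1, h2⟩, h3, h4⟩
    exact ⟨⟨h1, h2⟩, by omega, by omega⟩

lemma nb_box {m : ℕ} {y : ℤ} {v w : ℤ × ℤ} (hv : v ∈ box m y) (hw : w ∈ nb v) :
    w ∈ box (m + 1) y := by
  rw [mem_box, abs_le, abs_le] at *
  rw [mem_nb, lattice_adj_iff] at hw
  push_cast
  rcases hw with h | h | h | h <;> rw [h] <;> simp only <;> omega

lemma box_mono {m : ℕ} {y : ℤ} {v : ℤ × ℤ} (hv : v ∈ box m y) : v ∈ box (m + 1) y := by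
  rw [mem_box] at *
  push_cast
  omega

/-- the event is determined by the configuration in a box -/
lemma Bev_local {m : ℕ} {y : ℤ} {S S' : Set (Sym2 (ℤ × ℤ))}
    (h1 : ∀ v ∈ box (m + 1) y, (v ∈ infSet (openGraph S) ↔ v ∈ infSet (openGraph S')))
    (h2 : ∀ v ∈ box (m + 1) y, ∀ w ∈ box (m + 1) y,
      ((openGraph S).Adj v w ↔ (openGraph S').Adj v w))
    (hB : Bev m y S) : Bev m y S' := by
  classical
  have hbd : ∀ z ∈ box (m + 1) y, z ∈ bd S' → z ∈ bd S := by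
    rintro z hz ⟨a1, a2, a3⟩
    have hz0 : (0, z.2) ∈ box (m + 1) y := by
      rw [mem_box] at hz ⊢
      refine ⟨?_, hz.2⟩
      simp only [abs_zero]
      positivity
    exact ⟨(h1 z hz).mpr a1, a2, (h2 z hz _ hz0).mpr a3⟩
  obtain ⟨hy, h, b1, b2, b3, b4⟩ := hB
  have hymem : (1, y) ∈ box (m + 1) y := by
    rw [mem_box]
    constructor
    · simp
    · simp only [sub_self, abs_zero]
      positivity
  have hy0mem : (0, y) ∈ box (m + 1) y := by
    rw [mem_box]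
    constructor
    · simp only [abs_zero]
      positivity
    · simp only [sub_self, abs_zero]
      positivity
  refine ⟨⟨(h1 _ hymem).mp hy.1, rfl, (h2 _ hymem _ hy0mem).mp hy.2.2⟩,
    fun v => if v ∈ box (m + 1) y then h v else 0, ?_, ?_, ?_, ?_⟩
  · intro v hv hv0
    simp only
    split_ifs with hb
    · exact b1 v ((h1 v hb).mpr hv) hv0
    · simp
  · intro v hv hv1 hv2
    have hvb : v ∈ box m y := mem_box.mpr ⟨hv1, hv2⟩
    rw [← b2 v ((h1 v (box_mono hvb)).mpr hv) hv1 hv2]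
    apply lap_congr
    · intro w hw
      exact (h2 v (box_mono hvb) w (nb_box hvb hw)).symm
    · rw [if_pos (box_mono hvb)]
    · intro w hw
      rw [if_pos (nb_box hvb hw)]
  · simp only
    rw [if_pos hymem]
    exact b3
  · intro F hF
    have e1 : ∑ z ∈ F, (if z ∈ box (m + 1) y then h z else 0) ^ 2 =
        ∑ z ∈ F.filter (fun z => z ∈ box (m + 1) y), h z ^ 2 := by
      rw [Finset.sum_filter]
      apply sum_congr rfl
      intro z _
      split_ifs <;> simp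
    simp only
    rw [e1]
    apply b4
    intro z hz
    rw [Finset.mem_filter] at hz
    exact hbd z hz.2 (hF z hz.1)

lemma measurableSet_adj (v w : ℤ × ℤ) :
    MeasurableSet {S : Set (Sym2 (ℤ × ℤ)) | (openGraph S).Adj v w} := by
  have : {S : Set (Sym2 (ℤ × ℤ)) | (openGraph S).Adj v w} =
      {S | lattice.Adj v w} ∩ {S | s(v, w) ∈ S} := rfl
  rw [this]
  exact (MeasurableSet.const _).inter (measurableSet_mem _)

lemma measurableSet_Bev (m : ℕ) (y : ℤ) : MeasurableSet {S | Bev m y S} := by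
  let T : Set (Sym2 (ℤ × ℤ)) → (box (m + 1) y → Prop) × (box (m + 1) y × box (m + 1) y → Prop) :=
    fun S => (fun v => (v : ℤ × ℤ) ∈ infSet (openGraph S),
      fun q => (openGraph S).Adj (q.1 : ℤ × ℤ) (q.2 : ℤ × ℤ))
  have hT : Measurable T := by
    refine Measurable.prodMk ?_ ?_
    · rw [measurable_pi_iff]
      intro v
      exact measurableSet_setOfPred.mp (measurableSet_infSet v)
    · rw [measurable_pi_iff]
      intro q
      exact measurableSet_setOfPred.mp (measurableSet_adj q.1 q.2)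
  have heq : {S | Bev m y S} = T ⁻¹' (T '' {S | Bev m y S}) := by
    apply Set.Subset.antisymm (Set.subset_preimage_image _ _)
    rintro S' ⟨S, hS, hSS'⟩
    have e1 : ∀ v : box (m + 1) y, ((v : ℤ × ℤ) ∈ infSet (openGraph S)) =
        ((v : ℤ × ℤ) ∈ infSet (openGraph S')) := fun v => congrFun (congrArg Prod.fst hSS') v
    have e2 : ∀ q : box (m + 1) y × box (m + 1) y, (openGraph S).Adj (q.1 : ℤ × ℤ) (q.2 : ℤ × ℤ) =
        (openGraph S').Adj (q.1 : ℤ × ℤ) (q.2 : ℤ × ℤ) :=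
      fun q => congrFun (congrArg Prod.snd hSS') q
    refine Bev_local (S := S) ?_ ?_ hS
    · intro v hv
      exact iff_of_eq (e1 ⟨v, hv⟩)
    · intro v hv w hw
      exact iff_of_eq (e2 (⟨v, hv⟩, ⟨w, hw⟩))
  rw [heq]
  exact hT (MeasurableSet.of_discrete)

end Pool.Agent.Lib.MP_566bac_pr
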