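import Pool.Agent.Lib.MP_566bac_pr.Crossing

/-!
# The planar nodal argument
-/

open SimpleGraph Finset

namespace Pool.Agent.Lib.MP_566bac_pr

/-- the four neighbours -/
def nb (x : ℤ × ℤ) : Finset (ℤ × ℤ) :=
  {(x.1 + 1, x.2), (x.1 - 1, x.2), (x.1, x.2 + 1), (x.1, x.2 - 1)}

lemma mem_nb {x y : ℤ × ℤ} : y ∈ nb x ↔ lattice.Adj x y := by
  rw [lattice_adj_iff]
  simp [nb]

open Classical in
/-- the graph Laplacian -/
noncomputable def lap (G : SimpleGraph (ℤ × ℤ)) (h : ℤ × ℤ → ℝ) (x : ℤ × ℤ) : ℝ :=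
  ∑ y ∈ nb x, if G.Adj x y then h x - h y else 0

/-- the graph joining the neighbours at which `f` has the same strict sign -/
def sg (G : SimpleGraph (ℤ × ℤ)) (f : ℤ × ℤ → ℝ) : SimpleGraph (ℤ × ℤ) where
  Adj x y := G.Adj x y ∧ 0 < f x * f y
  symm := ⟨fun x y h => ⟨h.1.symm, by rw [mul_comm]; exact h.2⟩⟩
  loopless := ⟨fun x h => G.loopless.irrefl x h.1⟩

lemma sg_reach_pos {G : SimpleGraph (ℤ × ℤ)} {f : ℤ × ℤ → ℝ} {x y : ℤ × ℤ} (hx : f x ≠ 0)
    (h : (sg G f).Reachable x y) : 0 < f x * f y := by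
  obtain ⟨p⟩ := h
  induction p with
  | nil => exact mul_self_pos.mpr hx
  | @cons u v w hadj p ih =>
    have h1 : 0 < f u * f v := hadj.2
    have hv : f v ≠ 0 := by
      intro h0
      rw [h0, mul_zero] at h1
      exact lt_irrefl _ h1
    have h2 := ih hv
    have h3 : 0 < f v ^ 2 := by positivity
    have h4 : 0 < (f u * f v) * (f v * f w) := mul_pos h1 h2
    by_contra hcon
    push Not at hcon
    nlinarith

/-- every sign component contains a point where `f` is not harmonic -/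
lemma anchor {G : SimpleGraph (ℤ × ℤ)} (hG : G ≤ lattice) {f : ℤ × ℤ → ℝ}
    (hfin : {x | f x ≠ 0}.Finite) (hinf : ∀ x, f x ≠ 0 → {y | G.Reachable x y}.Infinite)
    {T : Set (ℤ × ℤ)} (hharm : ∀ x, f x ≠ 0 → x ∉ T → lap G f x = 0)
    {x : ℤ × ℤ} (hx : f x ≠ 0) : ∃ t ∈ T, (sg G f).Reachable x t := by
  classical
  by_contra hcon
  push Not at hcon
  set K : Set (ℤ × ℤ) := {y | (sg G f).Reachable x y} with hK
  have hKsub : K ⊆ {x | f x ≠ 0} := by
    intro y hy h0
    have := sg_reach_pos hx hy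
    rw [h0, mul_zero] at this
    exact lt_irrefl _ this
  have hKfin : K.Finite := hfin.subset hKsub
  obtain ⟨y, hyK, hymax⟩ := Set.exists_max_image K (fun y => |f y|) hKfin ⟨x, Reachable.refl x⟩
  have hy0 : f y ≠ 0 := hKsub hyK
  have step : ∀ w, w ∈ K → f w = f y → ∀ z, G.Adj w z → z ∈ K ∧ f z = f y := by
    intro w hw hwy z hz
    have hw0 : f w ≠ 0 := by rw [hwy]; exact hy0
    have hwT : w ∉ T := fun h => hcon w h hw
    have hlap := hharm w hw0 hwT
    have hterm : ∀ z' ∈ nb w, 0 ≤ f w * (if G.Adj w z' then f w - f z' else 0) := by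
      intro z' _
      split_ifs with h
      · by_cases hs : 0 < f w * f z'
        · have hz'K : z' ∈ K := by
            refine Reachable.trans hw (Adj.reachable ?_)
            exact ⟨h, hs⟩
          have h1 := hymax z' hz'K
          rw [← hwy] at h1
          have h2 : f w * f z' ≤ f w * f w := by
            calc f w * f z' ≤ |f w * f z'| := le_abs_self _
              _ = |f w| * |f z'| := abs_mul _ _
              _ ≤ |f w| * |f w| := mul_le_mul_of_nonneg_left h1 (abs_nonneg _)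
              _ = f w * f w := abs_mul_abs_self _
          linarith
        · push Not at hs
          have : 0 ≤ f w * f w := mul_self_nonneg _
          linarith
      · simp
    have hsum : ∑ z' ∈ nb w, f w * (if G.Adj w z' then f w - f z' else 0) = 0 := by
      rw [← mul_sum]
      unfold lap at hlap
      rw [hlap, mul_zero]
    have hz' : z ∈ nb w := mem_nb.mpr (hG hz)
    have h1 := (Finset.sum_eq_zero_iff_of_nonneg hterm).mp hsum z hz'
    rw [if_pos hz] at h1
    have h2 : f w - f z = 0 := by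
      rcases mul_eq_zero.mp h1 with h | h
      · exact absurd h hw0
      · exact h
    have h3 : f z = f w := by linarith
    refine ⟨?_, by rw [h3, hwy]⟩
    refine Reachable.trans hw (Adj.reachable ⟨hz, ?_⟩)
    rw [h3]
    exact mul_self_pos.mpr hw0
  have hall : ∀ z, G.Reachable y z → z ∈ K ∧ f z = f y := by
    rintro z ⟨p⟩
    have : ∀ {a b : ℤ × ℤ} (q : G.Walk a b), (a ∈ K ∧ f a = f y) → (b ∈ K ∧ f b = f y) := by
      intro a b q
      induction q with
      | nil => exact id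
      | cons hadj q ih =>
        intro h
        exact ih (step _ h.1 h.2 _ hadj)
    exact this p ⟨hyK, rfl⟩
  exact hinf y hy0 (hfin.subset fun z hz => hKsub (hall z hz).1)

/-- the last visit of a walk to the support of `f` -/
lemma last_exit {G : SimpleGraph (ℤ × ℤ)} {f : ℤ × ℤ → ℝ} {a b : ℤ × ℤ} (p : G.Walk a b)
    (hb : f b = 0) (ha : ∃ z ∈ p.support, f z ≠ 0) :
    ∃ v w, G.Adj v w ∧ f v ≠ 0 ∧ w ∈ p.support ∧ ∃ q : G.Walk w b,
      (∀ z ∈ q.support, f z = 0) ∧ (∀ z ∈ q.support, z ∈ p.support) := by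
  induction p with
  | @nil u =>
    obtain ⟨z, hz, hz0⟩ := ha
    simp only [Walk.support_nil, List.mem_singleton] at hz
    subst hz
    exact absurd hb hz0
  | @cons u u' w hadj p ih =>
    by_cases h : ∃ z ∈ p.support, f z ≠ 0
    · obtain ⟨v, w', h1, h2, h3, q, hq1, hq2⟩ := ih hb h
      exact ⟨v, w', h1, h2, by simp [h3], q, hq1, fun z hz => by simp [hq2 z hz]⟩
    · push Not at h
      obtain ⟨z, hz, hz0⟩ := ha
      have hzu : z = u := by
        simp only [Walk.support_cons, List.mem_cons] at hz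
        rcases hz with hz | hz
        · exact hz
        · exact absurd (h z hz) hz0
      subst hzu
      exact ⟨z, u', hadj, hz0, by simp, p, h, fun z hz => by simp [hz]⟩

/-- the combinatorial contradiction -/
lemma comb_contra {ι : Type*} [Finite ι] (a b : ι → ℤ) (α β : ι → ι) (I : Set ι)
    (hI : I.Nonempty) (hα : ∀ i ∈ I, α i ∈ I) (hβ : ∀ i ∈ I, β i ∈ I)
    (hne : ∀ i ∈ I, α i ≠ β i) (ha : Set.InjOn a I) (hb : Set.InjOn b I)
    (hord : ∀ i ∈ I, ∀ k ∈ I, b i < b k → ∀ x, (x = α i ∨ x = β i) → ∀ y, (y = α k ∨ y = β k) →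
      x ≠ y → a x < a y) : False := by
  classical
  -- the higher and the lower endpoints
  have hlohi : ∀ i ∈ I, ∃ lo hi : ι, (lo = α i ∨ lo = β i) ∧ (hi = α i ∨ hi = β i) ∧
      a lo < a hi ∧ lo ∈ I ∧ hi ∈ I := by
    intro i hi
    rcases lt_trichotomy (a (α i)) (a (β i)) with h | h | h
    · exact ⟨α i, β i, Or.inl rfl, Or.inr rfl, h, hα i hi, hβ i hi⟩
    · exact absurd (ha (hα i hi) (hβ i hi) h) (hne i hi)
    · exact ⟨β i, α i, Or.inr rfl, Or.inl rfl, h, hβ i hi, hα i hi⟩
  choose! lo hi h1 h2 h3 h4 h5 using hlohi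
  have hinj : Set.InjOn hi I := by
    intro i hi' k hk heq
    by_contra hik
    have hbne : b i ≠ b k := fun h => hik (hb hi' hk h)
    have key : ∀ i ∈ I, ∀ k ∈ I, b i < b k → hi i = hi k → False := by
      intro i hi' k hk hlt heq
      have hne' : hi i ≠ lo k := by
        intro h
        have := h3 k hk
        rw [← h, heq] at this
        exact lt_irrefl _ this
      have := hord i hi' k hk hlt (hi i) (h2 i hi') (lo k) (h1 k hk) hne'
      have := h3 k hk
      rw [heq] at *
      omega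
    rcases lt_or_gt_of_ne hbne with h | h
    · exact key i hi' k hk h heq
    · exact key k hk i hi' h heq.symm
  have hsurj : Set.SurjOn hi I I := by
    have hIfin : I.Finite := Set.toFinite I
    exact ((hIfin.injOn_iff_bijOn_of_mapsTo (fun i h => h5 i h)).mp hinj).surjOn
  obtain ⟨i₀, hi₀, hmin⟩ := Set.exists_min_image I b (Set.toFinite I) hI
  obtain ⟨k, hk, hk'⟩ := hsurj (h4 i₀ hi₀)
  rcases eq_or_ne k i₀ with h | h
  · subst h
    have := h3 k hk
    rw [← hk'] at this
    exact lt_irrefl _ this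
  · have hlt : b i₀ < b k := lt_of_le_of_ne (hmin k hk) fun heq => h (hb hi₀ hk heq).symm
    have hne' : hi i₀ ≠ hi k := fun heq => h (hinj hi₀ hk heq).symm
    have e1 := hord i₀ hi₀ k hk hlt (hi i₀) (h2 i₀ hi₀) (hi k) (h2 k hk) hne'
    have e2 := h3 i₀ hi₀
    rw [hk'] at e1
    omega

lemma sg_walk {G : SimpleGraph (ℤ × ℤ)} (hG : G ≤ lattice) {f : ℤ × ℤ → ℝ} {a b : ℤ × ℤ}
    (h : (sg G f).Reachable a b) :
    ∃ r : lattice.Walk a b, ∀ z ∈ r.support, (sg G f).Reachable a z := by
  obtain ⟨p⟩ := h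
  induction p with
  | nil => exact ⟨Walk.nil, by simp⟩
  | @cons u v w hadj p ih =>
    obtain ⟨r, hr⟩ := ih
    refine ⟨Walk.cons (hG hadj.1) r, ?_⟩
    intro z hz
    simp only [Walk.support_cons, List.mem_cons] at hz
    rcases hz with hz | hz
    · rw [hz]
    · exact (Adj.reachable hadj).trans (hr z hz)

/-- **The nodal argument.** -/
theorem nodal {G : SimpleGraph (ℤ × ℤ)} (hG : G ≤ lattice) {m : ℤ} (hm : 1 ≤ m)
    {f : ℤ × ℤ → ℝ} (hfin : {x | f x ≠ 0}.Finite) (hsupp : ∀ x, f x ≠ 0 → 1 ≤ x.1 ∧ x.1 ≤ m)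
    (hinf : ∀ x, f x ≠ 0 → {y | G.Reachable x y}.Infinite)
    {ι : Type*} [Finite ι] (s t : ι → ℤ × ℤ) (γ : ∀ i, G.Walk (s i) (t i))
    (hs : ∀ i, (s i).1 = 1) (ht : ∀ i, (t i).1 = m + 1)
    (hγ : ∀ i, ∀ z ∈ (γ i).support, z = s i ∨ (2 ≤ z.1 ∧ z.1 ≤ m + 1))
    (hdisj : ∀ i k, i ≠ k → ∀ z ∈ (γ i).support, z ∉ (γ k).support)
    (hharm : ∀ x : ℤ × ℤ, 1 ≤ x.1 → ¬ (x.1 = 1 ∧ G.Adj x (0, x.2)) → lap G f x = 0)
    (h0 : ∀ x : ℤ × ℤ, x.1 = 1 → G.Adj x (0, x.2) → (∀ i, x ≠ s i) → f x = 0) :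
    ∀ x, f x = 0 := by
  classical
  by_contra hcon
  push Not at hcon
  obtain ⟨x₀, hx₀⟩ := hcon
  have hanc : ∀ x, f x ≠ 0 → ∃ i, (sg G f).Reachable x (s i) := by
    intro x hx
    obtain ⟨t, ⟨i, rfl⟩, ht⟩ := anchor hG hfin hinf (T := Set.range s) (by
      intro x hx hxT
      apply hharm x (hsupp x hx).1
      rintro ⟨h1, h2⟩
      exact hx (h0 x h1 h2 fun i h => hxT ⟨i, h.symm⟩)) hx
    exact ⟨i, ht⟩
  have : Nonempty ι := ⟨(hanc x₀ hx₀).choose⟩
  have hcomp : ∀ c : (sg G f).ConnectedComponent,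
      (∃ x, (sg G f).connectedComponentMk x = c ∧ f x ≠ 0) →
      ∃ i, (sg G f).connectedComponentMk (s i) = c := by
    rintro c ⟨x, rfl, hx⟩
    obtain ⟨i, hi⟩ := hanc x hx
    exact ⟨i, ConnectedComponent.sound hi.symm⟩
  choose! anc hanc' using hcomp
  have hanc2 : ∀ x, f x ≠ 0 →
      (sg G f).Reachable (s (anc ((sg G f).connectedComponentMk x))) x := by
    intro x hx
    exact ConnectedComponent.exact (hanc' _ ⟨x, rfl, hx⟩)
  set I : Set ι := {i | f (s i) ≠ 0} with hI
  have hancI : ∀ x, f x ≠ 0 → anc ((sg G f).connectedComponentMk x) ∈ I := by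
    intro x hx
    have h1 := sg_reach_pos hx (hanc2 x hx).symm
    intro h2
    rw [h2, mul_zero] at h1
    exact lt_irrefl _ h1
  have hft : ∀ i, f (t i) = 0 := by
    intro i
    by_contra h
    have h1 := (hsupp _ h).2
    have h2 := ht i
    omega
  -- the connectors
  have hconn : ∀ i ∈ I, ∃ P Q : ℤ × ℤ, 0 < f P ∧ f Q < 0 ∧
      (∃ r : lattice.Walk P (t i), ∀ z ∈ r.support, z = P ∨ (f z = 0 ∧ z ∈ (γ i).support)) ∧
      (∃ r : lattice.Walk Q (t i), ∀ z ∈ r.support, z = Q ∨ (f z = 0 ∧ z ∈ (γ i).support)) := by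
    intro i hi
    obtain ⟨v, w, hvw, hv, hw, q, hq1, hq2⟩ := last_exit (γ i) (hft i) ⟨s i, by simp, hi⟩
    have hw0 : f w = 0 := hq1 w (by simp)
    have hws : w ≠ s i := by
      rintro rfl
      exact hi hw0
    have hw2 : 2 ≤ w.1 := by
      rcases hγ i w hw with h | h
      · exact absurd h hws
      · exact h.1
    have hlap := hharm w (by omega) (by rintro ⟨h, _⟩; omega)
    unfold lap at hlap
    have hne : ∃ y ∈ nb w, (if G.Adj w y then f w - f y else 0) ≠ 0 := by
      refine ⟨v, mem_nb.mpr (hG hvw.symm), ?_⟩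
      rw [if_pos hvw.symm, hw0, zero_sub]
      exact neg_ne_zero.mpr hv
    obtain ⟨Q, hQ, hQ'⟩ := Finset.exists_pos_of_sum_zero_of_exists_nonzero _ hlap hne
    have hlap' : ∑ y ∈ nb w, -(if G.Adj w y then f w - f y else 0) = 0 := by
      rw [sum_neg_distrib, hlap, neg_zero]
    obtain ⟨P, hP, hP'⟩ := Finset.exists_pos_of_sum_zero_of_exists_nonzero _ hlap' (by
      obtain ⟨y, hy, hy'⟩ := hne
      exact ⟨y, hy, neg_ne_zero.mpr hy'⟩)
    have hQadj : G.Adj w Q := by
      by_contra h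
      rw [if_neg h] at hQ'
      exact lt_irrefl _ hQ'
    have hPadj : G.Adj w P := by
      by_contra h
      rw [if_neg h, neg_zero] at hP'
      exact lt_irrefl _ hP'
    rw [if_pos hQadj, hw0] at hQ'
    rw [if_pos hPadj, hw0] at hP'
    have hwalk : ∀ X, G.Adj w X → ∃ r : lattice.Walk X (t i),
        ∀ z ∈ r.support, z = X ∨ (f z = 0 ∧ z ∈ (γ i).support) := by
      intro X hX
      refine ⟨Walk.cons (hG hX.symm) (q.mapLe hG), ?_⟩
      intro z hz
      simp only [Walk.support_cons, List.mem_cons, Walk.support_mapLe_eq_support] at hz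
      rcases hz with hz | hz
      · exact Or.inl hz
      · exact Or.inr ⟨hq1 z hz, hq2 z hz⟩
    exact ⟨P, Q, by linarith, by linarith, hwalk P hPadj, hwalk Q hQadj⟩
  choose! P Q hP hQ hPw hQw using hconn
  have hinjs : ∀ i k, s i = s k → i = k := by
    intro i k h
    by_contra hik
    exact hdisj i k hik (s i) (by simp) (by rw [h]; simp)
  have hinjt : ∀ i k, t i = t k → i = k := by
    intro i k h
    by_contra hik
    exact hdisj i k hik (t i) (by simp) (by rw [h]; simp)
  have hIne : I.Nonempty := ⟨_, hancI x₀ hx₀⟩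
  refine comb_contra (fun i => (s i).2) (fun i => (t i).2)
    (fun i => anc ((sg G f).connectedComponentMk (P i)))
    (fun i => anc ((sg G f).connectedComponentMk (Q i))) I hIne
    (fun i hi => hancI _ (hP i hi).ne') (fun i hi => hancI _ (hQ i hi).ne) ?_ ?_ ?_ ?_
  · intro i hi heq
    have h1 := hanc2 _ (hP i hi).ne'
    have h2 := hanc2 _ (hQ i hi).ne
    rw [← heq] at h2
    have h3 := sg_reach_pos (hP i hi).ne' (h1.symm.trans h2)
    have h4 := mul_neg_of_pos_of_neg (hP i hi) (hQ i hi)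
    linarith
  · intro i _ k _ h
    exact hinjs i k (Prod.ext (by rw [hs i, hs k]) h)
  · intro i _ k _ h
    exact hinjt i k (Prod.ext (by rw [ht i, ht k]) h)
  · intro i hi k hk hlt x hx y hy hxy
    have hik : i ≠ k := by
      rintro rfl
      exact lt_irrefl _ hlt
    -- a walk for each endpoint
    have hfull : ∀ j ∈ I, ∀ u, (u = anc ((sg G f).connectedComponentMk (P j)) ∨
        u = anc ((sg G f).connectedComponentMk (Q j))) → ∃ X, f X ≠ 0 ∧
        u = anc ((sg G f).connectedComponentMk X) ∧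
        ∃ r : lattice.Walk (s u) (t j), ∀ z ∈ r.support,
          (sg G f).Reachable X z ∨ (f z = 0 ∧ z ∈ (γ j).support) := by
      intro j hj u hu
      have hgen : ∀ X, f X ≠ 0 → u = anc ((sg G f).connectedComponentMk X) →
          (∃ r : lattice.Walk X (t j), ∀ z ∈ r.support, z = X ∨ (f z = 0 ∧ z ∈ (γ j).support)) →
          ∃ X, f X ≠ 0 ∧ u = anc ((sg G f).connectedComponentMk X) ∧
          ∃ r : lattice.Walk (s u) (t j), ∀ z ∈ r.support,
            (sg G f).Reachable X z ∨ (f z = 0 ∧ z ∈ (γ j).support) := by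
        rintro X hX hu' ⟨r, hr⟩
        refine ⟨X, hX, hu', ?_⟩
        have h1 := hanc2 X hX
        rw [← hu'] at h1
        obtain ⟨r', hr'⟩ := sg_walk hG h1
        refine ⟨r'.append r, ?_⟩
        intro z hz
        rw [Walk.mem_support_append_iff] at hz
        rcases hz with hz | hz
        · exact Or.inl (h1.symm.trans (hr' z hz))
        · rcases hr z hz with h | h
          · rw [h]
            exact Or.inl (Reachable.refl X)
          · exact Or.inr h
      rcases hu with hu | hu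
      · exact hgen (P j) (hP j hj).ne' hu (hPw j hj)
      · exact hgen (Q j) (hQ j hj).ne hu (hQw j hj)
    obtain ⟨X, hX, hxX, r, hr⟩ := hfull i hi x hx
    obtain ⟨Y, hY, hyY, r', hr'⟩ := hfull k hk y hy
    have hstrip : ∀ X j, f X ≠ 0 → ∀ z, ((sg G f).Reachable X z ∨
        (f z = 0 ∧ z ∈ (γ j).support)) → 1 ≤ z.1 ∧ z.1 ≤ m + 1 := by
      rintro X j hX z (h | h)
      · have h1 := sg_reach_pos hX h
        have h2 : f z ≠ 0 := by
          intro h2
          rw [h2, mul_zero] at h1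
          exact lt_irrefl _ h1
        have := hsupp z h2
        omega
      · rcases hγ j z h.2 with h3 | h3
        · rw [h3, hs j]
          omega
        · omega
    have hord := crossing_order (M := m + 1) (by omega) r r' (hs x) (ht i) (hs y) (ht k)
      (fun z hz => hstrip X i hX z (hr z hz)) (fun z hz => hstrip Y k hY z (hr' z hz)) (by
        intro z hz' hz
        rcases hr z hz with h1 | h1 <;> rcases hr' z hz' with h2 | h2
        · have h3 : (sg G f).connectedComponentMk X = (sg G f).connectedComponentMk Y :=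
            ConnectedComponent.sound (h1.trans h2.symm)
          rw [h3, ← hyY] at hxX
          exact hxy hxX
        · have h3 := sg_reach_pos hX h1
          rw [h2.1, mul_zero] at h3
          exact lt_irrefl _ h3
        · have h3 := sg_reach_pos hY h2
          rw [h1.1, mul_zero] at h3
          exact lt_irrefl _ h3
        · exact hdisj i k hik z h1.2 h2.2)
    exact hord.mpr hlt

end Pool.Agent.Lib.MP_566bac_pr
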