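import Pool.Agent.Lib.MP_566bac_pr.Plane

/-!
# Parity functions of closed walks
-/

open Finset SimpleGraph

namespace Pool.Agent.Lib.MP_566bac_pr

/-- indicator of a traversal of the edge `e` -/
noncomputable def hit (e : Edge) (x y : ℤ × ℤ) : ZMod 2 := by
  classical
  exact if s(x, y) = e then 1 else 0

lemma cr_up {a b : ℤ} {x y : ℤ × ℤ} (hxy : lattice.Adj x y) :
    cr a (b - 1) x y + cr a b x y = hit s((a, b), (a + 1, b)) x y := by
  classical
  obtain ⟨x1, x2⟩ := x
  rw [lattice_adj_iff] at hxy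
  unfold cr hit
  rcases hxy with h | h | h | h <;> subst h <;> simp only [Sym2.eq_iff, Prod.mk.injEq] <;>
    split_ifs <;> first | rfl | (exfalso; omega)

lemma cr_side {a b : ℤ} {x y : ℤ × ℤ} (hxy : lattice.Adj x y) :
    cr (a - 1) b x y + cr a b x y = (col a b x + col a b y) + hit s((a, b), (a, b + 1)) x y := by
  classical
  obtain ⟨x1, x2⟩ := x
  rw [lattice_adj_iff] at hxy
  unfold cr hit col
  rcases hxy with h | h | h | h <;> subst h <;> simp only [Sym2.eq_iff, Prod.mk.injEq] <;>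
    split_ifs <;> first | rfl | (exfalso; omega)

lemma wsum_append (g : ℤ × ℤ → ℤ × ℤ → ZMod 2) {u v w : ℤ × ℤ} (p : lattice.Walk u v)
    (q : lattice.Walk v w) : wsum g (p.append q) = wsum g p + wsum g q := by
  induction p with
  | nil => simp [wsum]
  | cons hadj p ih =>
    simp only [Walk.cons_append, wsum, ih]
    ring

lemma wsum_hit_zero {e : Edge} {u v : ℤ × ℤ} (p : lattice.Walk u v) (h : e ∉ p.edges) :
    wsum (hit e) p = 0 := by
  classical
  induction p with
  | nil => rfl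
  | @cons u w v hadj p ih =>
    rw [Walk.edges_cons, List.mem_cons, not_or] at h
    simp only [wsum]
    rw [ih h.2, add_zero]
    unfold hit
    rw [if_neg (fun h' => h.1 h'.symm)]

/-- the parity function of a walk -/
noncomputable def wp {u v : ℤ × ℤ} (p : lattice.Walk u v) (f : ℤ × ℤ) : ZMod 2 :=
  wsum (cr f.1 f.2) p

lemma wsum_eq_of {g g' : ℤ × ℤ → ℤ × ℤ → ZMod 2} {u v : ℤ × ℤ} (p : lattice.Walk u v)
    (h : ∀ x y, lattice.Adj x y → g x y = g' x y) : wsum g p = wsum g' p :=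
  wsum_congr p fun x _ y _ hxy => h x y hxy

lemma wp_v {u : ℤ × ℤ} (p : lattice.Walk u u) (a b : ℤ) :
    wp p (a, b - 1) + wp p (a, b) = wsum (hit s((a, b), (a + 1, b))) p := by
  unfold wp
  rw [← wsum_add]
  exact wsum_eq_of p fun x y hxy => cr_up hxy

lemma wp_h {u : ℤ × ℤ} (p : lattice.Walk u u) (a b : ℤ) :
    wp p (a - 1, b) + wp p (a, b) = wsum (hit s((a, b), (a, b + 1))) p := by
  unfold wp
  rw [← wsum_add, wsum_eq_of (g' := fun x y => (col a b x + col a b y) +
    hit s((a, b), (a, b + 1)) x y) p (fun x y hxy => cr_side hxy),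
    wsum_add (fun x y => col a b x + col a b y) (hit s((a, b), (a, b + 1))), wsum_tele,
    CharTwo.add_self_eq_zero, zero_add]

/-- crossing a dual edge -/
lemma wp_adj {u : ℤ × ℤ} (p : lattice.Walk u u) {f g : ℤ × ℤ} (h : lattice.Adj f g) :
    wp p f + wp p g = wsum (hit (dlt s(f, g))) p := by
  obtain ⟨a, b⟩ := f
  rw [lattice_adj_iff] at h
  rcases h with h | h | h | h <;> subst h
  · have := wp_h p (a + 1) b
    rw [add_sub_cancel_right] at this
    rw [dlt_h]
    exact this
  · have := wp_h p a b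
    have e := dlt_h (a - 1) b
    rw [sub_add_cancel] at e
    rw [Sym2.eq_swap, e, add_comm]
    exact this
  · have := wp_v p a (b + 1)
    rw [add_sub_cancel_right] at this
    rw [dlt_v]
    exact this
  · have := wp_v p a b
    have e := dlt_v a (b - 1)
    rw [sub_add_cancel] at e
    rw [Sym2.eq_swap, e, add_comm]
    exact this

lemma wsum_zero {u v : ℤ × ℤ} (p : lattice.Walk u v) : wsum (fun _ _ => 0) p = 0 := by
  induction p with
  | nil => rfl
  | cons hadj p ih => simp only [wsum, ih, add_zero]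

/-- the parity function vanishes far away -/
lemma wp_far {u : ℤ × ℤ} {n : ℤ} (p : lattice.Walk u u)
    (hp : ∀ x ∈ p.support, -n ≤ x.1 ∧ x.1 ≤ n ∧ -n ≤ x.2 ∧ x.2 ≤ n) {f : ℤ × ℤ}
    (hf : n ≤ f.1 ∨ f.1 < -n ∨ n ≤ f.2 ∨ f.2 < -n) : wp p f = 0 := by
  classical
  obtain ⟨a, b⟩ := f
  unfold wp
  simp only at hf ⊢
  by_cases hb : b < -n ∧ ¬ (n ≤ a ∨ a < -n)
  · have h1 : wsum (cr a b) p = wsum (fun x y => (if x.1 ≤ a then (1 : ZMod 2) else 0) +
        (if y.1 ≤ a then 1 else 0)) p := by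
      apply wsum_congr
      intro x hx y hy hxy
      have hx' := hp x hx
      have hy' := hp y hy
      obtain ⟨x1, x2⟩ := x
      rw [lattice_adj_iff] at hxy
      unfold cr
      rcases hxy with h | h | h | h <;> subst h <;> simp only at hx' hy' ⊢ <;>
        split_ifs <;> first | rfl | (exfalso; omega)
    rw [h1, wsum_tele (fun x => if x.1 ≤ a then (1 : ZMod 2) else 0), CharTwo.add_self_eq_zero]
  · rw [← wsum_zero p]
    apply wsum_congr
    intro x hx y hy hxy
    have hx' := hp x hx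
    have hy' := hp y hy
    unfold cr
    rw [if_neg]
    omega

lemma Lam_conn {v : ℤ × ℤ} {k : ℕ} {a b : ℤ × ℤ} (ha : a ∈ Lam v k) (hb : b ∈ Lam v k) :
    ∃ p : lattice.Walk a b, ∀ z ∈ p.support, z ∈ Lam v k := by
  have hmem : ∀ x : ℤ × ℤ, x ∈ Lam v k ↔ (v.1 - k ≤ x.1 ∧ x.1 ≤ v.1 + k) ∧
      (v.2 - k ≤ x.2 ∧ x.2 ≤ v.2 + k) := by
    intro x
    rw [Lam, Finset.mem_product, Finset.mem_Icc, Finset.mem_Icc]
  -- horizontal moves
  have hh : ∀ (m : ℕ) (x y : ℤ), (x, y) ∈ Lam v k → (x + m, y) ∈ Lam v k →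
      ∃ p : lattice.Walk (x, y) (x + m, y), ∀ z ∈ p.support, z ∈ Lam v k := by
    intro m
    induction m with
    | zero =>
      intro x y h1 _
      have e : ((x + ((0 : ℕ) : ℤ), y) : ℤ × ℤ) = (x, y) := by simp
      rw [e]
      exact ⟨Walk.nil, by simpa using h1⟩
    | succ m ih =>
      intro x y h1 h2
      have h3 : (x + 1, y) ∈ Lam v k := by
        rw [hmem] at *
        push_cast at h2
        simp only at *
        omega
      have e : ((x + ((m + 1 : ℕ) : ℤ), y) : ℤ × ℤ) = (x + 1 + m, y) := by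
        push_cast
        rw [Prod.mk.injEq]
        exact ⟨by ring, rfl⟩
      rw [e] at h2 ⊢
      obtain ⟨p, hp⟩ := ih (x + 1) y h3 h2
      refine ⟨Walk.cons (adj_h x y) p, ?_⟩
      intro z hz
      rw [Walk.support_cons, List.mem_cons] at hz
      rcases hz with rfl | hz
      · exact h1
      · exact hp z hz
  have hv : ∀ (m : ℕ) (x y : ℤ), (x, y) ∈ Lam v k → (x, y + m) ∈ Lam v k →
      ∃ p : lattice.Walk (x, y) (x, y + m), ∀ z ∈ p.support, z ∈ Lam v k := by
    intro m
    induction m with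
    | zero =>
      intro x y h1 _
      have e : ((x, y + ((0 : ℕ) : ℤ)) : ℤ × ℤ) = (x, y) := by simp
      rw [e]
      exact ⟨Walk.nil, by simpa using h1⟩
    | succ m ih =>
      intro x y h1 h2
      have h3 : (x, y + 1) ∈ Lam v k := by
        rw [hmem] at *
        push_cast at h2
        simp only at *
        omega
      have e : ((x, y + ((m + 1 : ℕ) : ℤ)) : ℤ × ℤ) = (x, y + 1 + m) := by
        push_cast
        rw [Prod.mk.injEq]
        exact ⟨rfl, by ring⟩
      rw [e] at h2 ⊢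
      obtain ⟨p, hp⟩ := ih x (y + 1) h3 h2
      refine ⟨Walk.cons (adj_v x y) p, ?_⟩
      intro z hz
      rw [Walk.support_cons, List.mem_cons] at hz
      rcases hz with rfl | hz
      · exact h1
      · exact hp z hz
  have hsymm : ∀ {a b : ℤ × ℤ}, (∃ p : lattice.Walk a b, ∀ z ∈ p.support, z ∈ Lam v k) →
      ∃ p : lattice.Walk b a, ∀ z ∈ p.support, z ∈ Lam v k := by
    rintro a b ⟨p, hp⟩
    exact ⟨p.reverse, fun z hz => hp z (by simpa using hz)⟩
  have htrans : ∀ {a b c : ℤ × ℤ}, (∃ p : lattice.Walk a b, ∀ z ∈ p.support, z ∈ Lam v k) →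
      (∃ p : lattice.Walk b c, ∀ z ∈ p.support, z ∈ Lam v k) →
      ∃ p : lattice.Walk a c, ∀ z ∈ p.support, z ∈ Lam v k := by
    rintro a b c ⟨p, hp⟩ ⟨q, hq⟩
    refine ⟨p.append q, fun z hz => ?_⟩
    rw [Walk.mem_support_append_iff] at hz
    rcases hz with hz | hz
    · exact hp z hz
    · exact hq z hz
  obtain ⟨a1, a2⟩ := a
  obtain ⟨b1, b2⟩ := b
  have hmid : (b1, a2) ∈ Lam v k := by
    rw [hmem] at *
    exact ⟨hb.1, ha.2⟩
  have s1 : ∃ p : lattice.Walk (a1, a2) (b1, a2), ∀ z ∈ p.support, z ∈ Lam v k := by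
    rcases le_total a1 b1 with h | h
    · have e : b1 = a1 + ((b1 - a1).toNat : ℤ) := by omega
      rw [e] at hmid ⊢
      exact hh _ _ _ ha hmid
    · have e : a1 = b1 + ((a1 - b1).toNat : ℤ) := by omega
      apply hsymm
      rw [e] at ha ⊢
      have := hh (a1 - b1).toNat b1 a2 hmid ha
      convert this using 3
  have s2 : ∃ p : lattice.Walk (b1, a2) (b1, b2), ∀ z ∈ p.support, z ∈ Lam v k := by
    rcases le_total a2 b2 with h | h
    · have e : b2 = a2 + ((b2 - a2).toNat : ℤ) := by omega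
      rw [e] at hb ⊢
      exact hv _ _ _ hmid hb
    · have e : a2 = b2 + ((a2 - b2).toNat : ℤ) := by omega
      apply hsymm
      rw [e] at hmid ⊢
      have := hv (a2 - b2).toNat b1 b2 hb hmid
      convert this using 3
  exact htrans s1 s2

/-- the edge `e` touches the box -/
def Tch (k : ℕ) (e : Edge) : Prop := ∃ v ∈ Lam 0 k, v ∈ e

/-- the parity function of a connection outside the box between two outward edges -/
theorem exists_w {S : Set Edge} {k n : ℕ} (hkn : k ≤ n) {z1 z1' z2 z2' : ℤ × ℤ}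
    (h1 : z1 ∈ Lam 0 k) (h1' : z1' ∉ Lam 0 k) (ha1 : lattice.Adj z1 z1')
    (h2 : z2 ∈ Lam 0 k) (ha2 : lattice.Adj z2 z2') (hz : z1' ∈ Lam 0 n)
    (hr : (res (openGraph S) ((Lam 0 n \ Lam 0 k : Finset (ℤ × ℤ)) : Set (ℤ × ℤ))).Reachable z1' z2') :
    ∃ w : ℤ × ℤ → ZMod 2,
      (∀ f g, lattice.Adj f g → dlt s(f, g) ∉ S → ¬ Tch k (dlt s(f, g)) → w f = w g) ∧
      (∀ f : ℤ × ℤ, ((n : ℤ) ≤ f.1 ∨ f.1 < -n ∨ (n : ℤ) ≤ f.2 ∨ f.2 < -n) → w f = 0) ∧
      (∀ f g a b, lattice.Adj f g → dlt s(f, g) = s(a, b) → a ∈ Lam 0 k → b ∉ Lam 0 k →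
        w f + w g = hit s(a, b) z1 z1' + hit s(a, b) z2 z2') := by
  classical
  have hW : z1' ∈ ((Lam 0 n \ Lam 0 k : Finset (ℤ × ℤ)) : Set (ℤ × ℤ)) := by
    rw [Finset.mem_coe, Finset.mem_sdiff]
    exact ⟨hz, h1'⟩
  obtain ⟨γ, hγ⟩ := res_walk hr hW
  obtain ⟨q, hq⟩ := Lam_conn h2 h1
  set Γ : lattice.Walk z1' z1' := (γ.mapLe (openGraph_le' S)).append
    (Walk.cons ha2.symm (q.append (Walk.cons ha1 Walk.nil))) with hΓ
  have hsum : ∀ g : ℤ × ℤ → ℤ × ℤ → ZMod 2, wsum g Γ = wsum g (γ.mapLe (openGraph_le' S)) +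
      (g z2' z2 + (wsum g q + (g z1 z1' + 0))) := by
    intro g
    rw [hΓ, wsum_append]
    simp only [wsum, wsum_append]
  have hγS : ∀ e ∈ γ.edges, e ∈ S := by
    intro e he
    induction e using Sym2.ind with
    | _ x y => exact (γ.adj_of_mem_edges he).2
  have hγedges : (γ.mapLe (openGraph_le' S)).edges = γ.edges := Walk.edges_mapLe_eq_edges _ _
  have hmemsup : ∀ x ∈ Γ.support, x ∈ Lam 0 n := by
    intro x hx
    rw [hΓ, Walk.mem_support_append_iff, Walk.support_mapLe_eq_support, Walk.support_cons,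
      List.mem_cons, Walk.mem_support_append_iff, Walk.support_cons, List.mem_cons,
      Walk.support_nil, List.mem_singleton] at hx
    have hbox : ∀ y, y ∈ Lam 0 k → y ∈ Lam 0 n := by
      intro y hy
      rw [mem_Lam] at hy ⊢
      omega
    have hγ' : ∀ y ∈ γ.support, y ∈ Lam 0 n := fun y hy => (Finset.mem_sdiff.mp (hγ y hy)).1
    rcases hx with hx | hx | hx | hx | hx
    · exact hγ' x hx
    · rw [hx]; exact hγ' _ (by simp)
    · exact hbox x (hq x hx)
    · rw [hx]; exact hbox _ h1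
    · rw [hx]; exact hz
  refine ⟨wp Γ, ?_, ?_, ?_⟩
  · intro f g hfg hS ht
    have h3 := wp_adj Γ hfg
    set e := dlt s(f, g) with he
    have h4 : wsum (hit e) Γ = 0 := by
      rw [hsum, wsum_hit_zero _ (by rw [hγedges]; exact fun h => hS (hγS e h)),
        wsum_hit_zero q]
      · have e1 : hit e z2' z2 = 0 := by
          unfold hit
          rw [if_neg]
          intro h
          exact ht ⟨z2, h2, by rw [← h]; simp⟩
        have e2 : hit e z1 z1' = 0 := by
          unfold hit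
          rw [if_neg]
          intro h
          exact ht ⟨z1, h1, by rw [← h]; simp⟩
        rw [e1, e2]
        simp
      · intro h
        apply ht
        clear_value e
        induction e using Sym2.ind with
        | _ x y => exact ⟨x, hq x (q.fst_mem_support_of_mem_edges h), by simp⟩
    rw [h4] at h3
    exact CharTwo.add_eq_zero.mp h3
  · intro f hf
    refine wp_far (n := n) Γ ?_ hf
    intro x hx
    have := hmemsup x hx
    rw [mem_Lam, dst_le, abs_le, abs_le] at this
    simp only [Prod.fst_zero, Prod.snd_zero, sub_zero] at this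
    omega
  · intro f g a b hfg hab ha hb
    rw [wp_adj Γ hfg, hab, hsum, wsum_hit_zero, wsum_hit_zero q]
    · have e1 : hit s(a, b) z2' z2 = hit s(a, b) z2 z2' := by
        unfold hit
        rw [Sym2.eq_swap]
      rw [e1]
      ring
    · intro h
      exact hb (hq b (q.snd_mem_support_of_mem_edges h))
    · rw [hγedges]
      intro h
      have := hγ a (γ.fst_mem_support_of_mem_edges h)
      rw [Finset.mem_coe, Finset.mem_sdiff] at this
      exact this.2 ha

end Pool.Agent.Lib.MP_566bac_pr
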