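import Pool.Agent.Lib.MP_566bac_pr.Words

/-!
# The percolation measure: closed edges, invariance, measurability, a tail bound
-/

open MeasureTheory ProbabilityTheory Finset unitInterval
open scoped ENNReal

namespace Pool.Agent.Lib.MP_566bac_pr

/-- Bernoulli bond percolation: the law of the set of open edges. -/
noncomputable abbrev perc (p : I) : Measure (Set (Sym2 (ℤ × ℤ))) :=
  setBernoulli lattice.edgeSet p

lemma closed_prob (p : I) (T : Finset (Sym2 (ℤ × ℤ))) (hT : ∀ e ∈ T, e ∈ lattice.edgeSet) :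
    perc p {S | ∀ e ∈ T, e ∉ S} = (toNNReal (σ p) : ℝ≥0∞) ^ T.card := by
  classical
  rw [perc, setBernoulli_apply']
  have h1 : ((fun P : Sym2 (ℤ × ℤ) → Prop ↦ {i | P i}) ⁻¹' {S | ∀ e ∈ T, e ∉ S}) =
      Set.pi T (fun _ => {False}) := by
    ext P
    simp [Set.mem_pi]
  rw [h1, Measure.infinitePi_pi _ (by intro i _; exact MeasurableSet.of_discrete)]
  rw [← Finset.prod_const]
  apply prod_congr rfl
  intro e he
  have := hT e he
  simp [this]

lemma card_move : Fintype.card Move = 8 := by decide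

lemma exists_isMin {S : Set (Sym2 (ℤ × ℤ))} {k : ℕ} {v : ℤ × ℤ}
    (h : ∃ w, Valid S v w ∧ w.count Move.lvl ≤ k) : ∃ w, IsMin S k v w := by
  classical
  have h' : ∃ n, ∃ w, (Valid S v w ∧ w.count Move.lvl ≤ k) ∧ w.length = n := by
    obtain ⟨w, hw⟩ := h
    exact ⟨_, w, hw, rfl⟩
  obtain ⟨w, hw, hn⟩ := Nat.find_spec h'
  refine ⟨w, hw.1, hw.2, ?_⟩
  intro w' h1 h2
  rw [hn]
  exact Nat.find_min' h' ⟨w', ⟨h1, h2⟩, rfl⟩

lemma word_prob (p : I) (hp : (toNNReal (σ p) : ℝ≥0∞) ≤ (16⁻¹) ^ 4) (k r : ℕ) (v : ℤ × ℤ)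
    (hv : v.2 = 4 * k + r) (w : List Move) :
    perc p {S | IsMin S k v w} ≤ (16⁻¹ : ℝ≥0∞) ^ (w.length + r) := by
  classical
  by_cases hne : ∃ S, IsMin S k v w
  · obtain ⟨S, hS⟩ := hne
    have h1 := card_upEdges (nodup_of_isMin hS)
    have h2 := balance w v hS.1
    have h3 := hS.2.1
    set T := (upEdges v w).toFinset with hT
    have h4 : w.length + r ≤ 4 * T.card := by
      rw [hv] at h2
      omega
    calc perc p {S | IsMin S k v w} ≤ perc p {S | ∀ e ∈ T, e ∉ S} := by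
          apply measure_mono
          intro S hS e he
          exact upEdges_closed w v hS.1 e (List.mem_toFinset.mp he)
      _ = (toNNReal (σ p) : ℝ≥0∞) ^ T.card :=
          closed_prob p T fun e he => upEdges_lattice w v e (List.mem_toFinset.mp he)
      _ ≤ ((16⁻¹ : ℝ≥0∞) ^ 4) ^ T.card := by gcongr
      _ = (16⁻¹ : ℝ≥0∞) ^ (4 * T.card) := by rw [pow_mul]
      _ ≤ (16⁻¹ : ℝ≥0∞) ^ (w.length + r) := by
          apply pow_le_pow_right_of_le_one' _ h4
          simp
  · have : {S | IsMin S k v w} = ∅ := by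
      ext S
      simp only [Set.mem_ofPred_eq, Set.mem_empty_iff_false, iff_false]
      exact fun h => hne ⟨S, h⟩
    rw [this, measure_empty]
    exact bot_le

/-- **Tail bound.** -/
theorem valid_prob (p : I) (hp : (toNNReal (σ p) : ℝ≥0∞) ≤ (16⁻¹) ^ 4) (k r : ℕ) (v : ℤ × ℤ)
    (hv : v.2 = 4 * k + r) :
    perc p {S | ∃ w, Valid S v w ∧ w.count Move.lvl ≤ k} ≤ 2 * (16⁻¹ : ℝ≥0∞) ^ r := by
  have hsub : {S | ∃ w, Valid S v w ∧ w.count Move.lvl ≤ k} ⊆
      ⋃ N : ℕ, ⋃ f : Fin N → Move, {S | IsMin S k v (List.ofFn f)} := by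
    intro S hS
    obtain ⟨w, hw⟩ := exists_isMin hS
    rw [Set.mem_iUnion]
    refine ⟨w.length, ?_⟩
    rw [Set.mem_iUnion]
    refine ⟨w.get, ?_⟩
    rw [List.ofFn_get]
    exact hw
  calc perc p {S | ∃ w, Valid S v w ∧ w.count Move.lvl ≤ k}
      ≤ perc p (⋃ N : ℕ, ⋃ f : Fin N → Move, {S | IsMin S k v (List.ofFn f)}) :=
        measure_mono hsub
    _ ≤ ∑' N : ℕ, perc p (⋃ f : Fin N → Move, {S | IsMin S k v (List.ofFn f)}) :=
        measure_iUnion_le _
    _ ≤ ∑' N : ℕ, (2⁻¹ : ℝ≥0∞) ^ N * (16⁻¹ : ℝ≥0∞) ^ r := by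
        apply ENNReal.tsum_le_tsum
        intro N
        calc perc p (⋃ f : Fin N → Move, {S | IsMin S k v (List.ofFn f)})
            ≤ ∑ f : Fin N → Move, perc p {S | IsMin S k v (List.ofFn f)} :=
              measure_iUnion_fintype_le _ _
          _ ≤ ∑ f : Fin N → Move, (16⁻¹ : ℝ≥0∞) ^ (N + r) := by
              apply sum_le_sum
              intro f _
              have := word_prob p hp k r v hv (List.ofFn f)
              rwa [List.length_ofFn] at this
          _ = (2⁻¹ : ℝ≥0∞) ^ N * (16⁻¹ : ℝ≥0∞) ^ r := by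
              rw [sum_const, card_univ, Fintype.card_fun, card_move, Fintype.card_fin,
                nsmul_eq_mul, pow_add, ← mul_assoc]
              congr 1
              push_cast
              rw [← mul_pow]
              congr 1
              rw [show (16 : ℝ≥0∞) = 8 * 2 by norm_num, ENNReal.mul_inv (by simp) (by simp),
                ← mul_assoc, ENNReal.mul_inv_cancel (by simp) (by simp), one_mul]
    _ = 2 * (16⁻¹ : ℝ≥0∞) ^ r := by
        rw [ENNReal.tsum_mul_right, ENNReal.tsum_geometric_two]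

end Pool.Agent.Lib.MP_566bac_pr
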