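import Pool.Agent.Lib.MP_566bac_pr.SharpA

/-!
# The dual configuration
-/

open MeasureTheory ProbabilityTheory Finset unitInterval SimpleGraph
open scoped ENNReal

namespace Pool.Agent.Lib.MP_566bac_pr

/-- the primal edge between two adjacent faces; a face is named by its lower left corner -/
noncomputable def dl (x y : ℤ × ℤ) : Edge := by
  classical
  exact if x.2 = y.2 then s((max x.1 y.1, max x.2 y.2), (max x.1 y.1, max x.2 y.2 + 1))
    else s((max x.1 y.1, max x.2 y.2), (max x.1 y.1 + 1, max x.2 y.2))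

/-- the primal edge crossed by a dual edge -/
noncomputable def dlt : Edge → Edge := Sym2.lift ⟨dl, by
  intro x y
  unfold dl
  rw [max_comm x.1, max_comm x.2]
  by_cases h : x.2 = y.2
  · rw [if_pos h, if_pos h.symm]
  · rw [if_neg h, if_neg (fun h' => h h'.symm)]⟩

/-- the dual configuration: a dual edge is open when the primal edge which it crosses is closed -/
def dualize (S : Set Edge) : Set Edge := {e | e ∈ lattice.edgeSet ∧ dlt e ∉ S}

lemma dlt_h (a b : ℤ) : dlt s((a, b), (a + 1, b)) = s((a + 1, b), (a + 1, b + 1)) := by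
  change dl (a, b) (a + 1, b) = _
  unfold dl
  rw [if_pos rfl]
  simp

lemma dlt_v (a b : ℤ) : dlt s((a, b), (a, b + 1)) = s((a, b + 1), (a + 1, b + 1)) := by
  change dl (a, b) (a, b + 1) = _
  unfold dl
  rw [if_neg (by simp)]
  simp

lemma adj_h (a b : ℤ) : lattice.Adj (a, b) (a + 1, b) := by
  rw [lattice_adj_iff]
  exact Or.inl rfl

lemma adj_v (a b : ℤ) : lattice.Adj (a, b) (a, b + 1) := by
  rw [lattice_adj_iff]
  exact Or.inr (Or.inr (Or.inl rfl))

lemma edge_form {e : Edge} (he : e ∈ lattice.edgeSet) :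
    (∃ a b : ℤ, e = s((a, b), (a + 1, b))) ∨ (∃ a b : ℤ, e = s((a, b), (a, b + 1))) := by
  induction e using Sym2.ind with
  | _ x y =>
    rw [SimpleGraph.mem_edgeSet, lattice_adj_iff] at he
    obtain ⟨a, b⟩ := x
    rcases he with h | h | h | h
    · left; exact ⟨a, b, by rw [h]⟩
    · left; refine ⟨a - 1, b, ?_⟩
      rw [h, Sym2.eq_swap]
      simp
    · right; exact ⟨a, b, by rw [h]⟩
    · right; refine ⟨a, b - 1, ?_⟩
      rw [h, Sym2.eq_swap]
      simp

lemma dlt_mem {e : Edge} (he : e ∈ lattice.edgeSet) : dlt e ∈ lattice.edgeSet := by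
  rcases edge_form he with ⟨a, b, rfl⟩ | ⟨a, b, rfl⟩
  · rw [dlt_h, SimpleGraph.mem_edgeSet]
    exact adj_v _ _
  · rw [dlt_v, SimpleGraph.mem_edgeSet]
    exact adj_h _ _

lemma dlt_inj {e f : Edge} (he : e ∈ lattice.edgeSet) (hf : f ∈ lattice.edgeSet)
    (h : dlt e = dlt f) : e = f := by
  rcases edge_form he with ⟨a, b, rfl⟩ | ⟨a, b, rfl⟩ <;>
    rcases edge_form hf with ⟨c, d, rfl⟩ | ⟨c, d, rfl⟩ <;>
    simp only [dlt_h, dlt_v, Sym2.eq_iff, Prod.mk.injEq] at h
  · have h1 : a = c := by omega
    have h2 : b = d := by omega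
    rw [h1, h2]
  · omega
  · omega
  · have h1 : a = c := by omega
    have h2 : b = d := by omega
    rw [h1, h2]

section
open Classical

lemma dual_det {E : Finset Edge} {A : Set (Set Edge)} (hA : Det E A) :
    Det (E.image dlt) (dualize ⁻¹' A) := by
  intro S S' h h1
  refine hA (dualize S) (dualize S') ?_ h1
  intro e he
  have := h (dlt e) (Finset.mem_image_of_mem _ he)
  simp only [dualize, Set.mem_ofPred_eq, this]

lemma dual_lat {E : Finset Edge} (hE : Lat E) : Lat (E.image dlt) := by
  intro e he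
  obtain ⟨f, hf, rfl⟩ := Finset.mem_image.mp he
  exact dlt_mem (hE f hf)

/-- **Duality.** The dual configuration is percolation with the complementary density. -/
theorem perc_dual (p : I) {A : Set (Set Edge)} (hA : Loc A) :
    (perc p).real (dualize ⁻¹' A) = (perc (σ p)).real A := by
  obtain ⟨E, hE, hA⟩ := hA
  rw [perc_det p (dual_lat hE) (dual_det hA), perc_det (σ p) hE hA, coe_symm_eq]
  have hinj : Set.InjOn dlt (E : Set Edge) := fun e he f hf h => dlt_inj (hE e he) (hE f hf) h
  have hcardE : (E.image dlt).card = E.card := Finset.card_image_of_injOn hinj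
  unfold pr
  symm
  refine Finset.sum_bij' (fun η _ => (E \ η).image dlt) (fun ω _ => E.filter fun e => dlt e ∉ ω)
    ?_ ?_ ?_ ?_ ?_
  · intro η _
    rw [mem_powerset]
    exact Finset.image_subset_image sdiff_subset
  · intro ω _
    rw [mem_powerset]
    exact Finset.filter_subset _ _
  · intro η hη
    rw [mem_powerset] at hη
    ext e
    simp only [Finset.mem_filter, Finset.mem_image, Finset.mem_sdiff, not_exists, not_and]
    constructor
    · rintro ⟨h1, h2⟩
      by_contra h3
      exact h2 e ⟨h1, h3⟩ rfl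
    · intro h
      refine ⟨hη h, ?_⟩
      rintro f ⟨h1, h2⟩ h3
      have : f = e := hinj h1 (hη h) h3
      exact h2 (this ▸ h)
  · intro ω hω
    rw [mem_powerset] at hω
    ext e
    simp only [Finset.mem_image, Finset.mem_sdiff, Finset.mem_filter, not_and, not_not]
    constructor
    · rintro ⟨f, ⟨h1, h2⟩, rfl⟩
      exact h2 h1
    · intro h
      obtain ⟨f, hf, rfl⟩ := Finset.mem_image.mp (hω h)
      exact ⟨f, ⟨hf, fun _ => h⟩, rfl⟩
  · intro η hη
    rw [mem_powerset] at hη
    have hcard : ((E \ η).image dlt).card = E.card - η.card := by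
      rw [Finset.card_image_of_injOn (hinj.mono (by
        intro e he
        exact (Finset.mem_sdiff.mp he).1)), Finset.card_sdiff_of_subset hη]
    have hle := Finset.card_le_card hη
    have hmem : (η : Set Edge) ∈ A ↔ (((E \ η).image dlt : Finset Edge) : Set Edge) ∈ dualize ⁻¹' A := by
      apply det_iff hA
      intro e he
      simp only [dualize, Set.mem_ofPred_eq, Finset.mem_coe, Finset.mem_image, Finset.mem_sdiff,
        not_exists, not_and]
      constructor
      · intro h
        refine ⟨hE e he, ?_⟩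
        rintro f ⟨h1, h2⟩ h3
        have : f = e := hinj h1 he h3
        exact h2 (this ▸ h)
      · rintro ⟨_, h2⟩
        by_contra h3
        exact h2 e ⟨he, h3⟩ rfl
    rw [hcard, hcardE]
    have e1 : E.card - (E.card - η.card) = η.card := by omega
    rw [e1, sub_sub_cancel, mul_comm]
    simp only [hmem]

end

lemma Loc.dual {A : Set (Set Edge)} (hA : Loc A) : Loc (dualize ⁻¹' A) := by
  classical
  obtain ⟨E, hE, hA⟩ := hA
  exact ⟨_, dual_lat hE, dual_det hA⟩

lemma Inc.dual {A : Set (Set Edge)} (hA : Inc A) : Dec (dualize ⁻¹' A) := by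
  intro S S' h h1 h2
  exact h1 (hA _ _ (fun e he => ⟨he.1, fun h3 => he.2 (h h3)⟩) h2)

lemma dual_adj (S : Set Edge) (f g : ℤ × ℤ) : (openGraph (dualize S)).Adj f g ↔
    lattice.Adj f g ∧ dlt s(f, g) ∉ S := by
  change lattice.Adj f g ∧ (s(f, g) ∈ lattice.edgeSet ∧ dlt s(f, g) ∉ S) ↔ _
  rw [SimpleGraph.mem_edgeSet]
  tauto

end Pool.Agent.Lib.MP_566bac_pr
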