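import Pool.Agent.Lib.MP_566bac_pr.Count

/-!
# The local events have probability bounded below, and so has their intersection
-/

open SimpleGraph Finset Filter MeasureTheory ProbabilityTheory unitInterval
open scoped ENNReal

namespace Pool.Agent.Lib.MP_566bac_pr

open Classical in
theorem Bev_prob (p : I) (hp : (toNNReal (σ p) : ℝ≥0∞) ≤ (16⁻¹) ^ 4) (m : ℕ) :
    (32⁻¹ : ℝ≥0∞) ≤ perc p {S | Bev m 0 S} := by
  set B : ℤ → Set (Set (Sym2 (ℤ × ℤ))) := fun y => {S | Bev m y S} with hB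
  set R : Finset ℤ := Finset.Icc (1 : ℤ) (96 * (m + 1)) with hR
  set f : Set (Sym2 (ℤ × ℤ)) → ℝ≥0∞ := fun S => ∑ y ∈ R, (B y).indicator 1 S with hf
  have hmeas : Measurable f := by
    apply Finset.measurable_sum
    intro y _
    exact measurable_one.indicator (measurableSet_Bev m y)
  have hint : ∫⁻ S, f S ∂(perc p) ≤ (96 * (m + 1) : ℕ) * perc p {S | Bev m 0 S} := by
    rw [hf, lintegral_finsetSum _ (fun y _ => measurable_one.indicator (measurableSet_Bev m y))]
    have h1 : ∀ y ∈ R, ∫⁻ S, (B y).indicator 1 S ∂(perc p) ≤ perc p {S | Bev m 0 S} := by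
      intro y _
      rw [lintegral_indicator_one (measurableSet_Bev m y)]
      exact Bev_prob_shift p m y
    refine (sum_le_sum h1).trans ?_
    rw [sum_const, nsmul_eq_mul, hR, Int.card_Icc]
    have : (96 * ((m : ℤ) + 1) + 1 - 1).toNat = 96 * (m + 1) := by omega
    rw [this]
  have hgood : (2⁻¹ : ℝ≥0∞) ≤ perc p {S | ((6 * (m + 1) : ℕ) : ℝ≥0∞) ≤ f S} := by
    have hbad : perc p {S | ((6 * (m + 1) : ℕ) : ℝ≥0∞) ≤ f S}ᶜ ≤ 2⁻¹ := by
      have h1 : {S | ((6 * (m + 1) : ℕ) : ℝ≥0∞) ≤ f S}ᶜ ⊆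
          {S | Rch S (16 * m + 15) 1 (4 * ((16 * m + 15 : ℕ) : ℤ) + ((32 * m + 36 : ℕ) : ℤ))} ∪
            {S | ¬ Fin' S} := by
        intro S hS
        by_contra hcon
        rw [Set.mem_union, not_or] at hcon
        obtain ⟨h2, h3⟩ := hcon
        simp only [Set.mem_ofPred_eq, not_not] at h2 h3
        apply hS
        rw [rch_iff h3] at h2
        push Not at h2
        have h4 := count h3 m (by
          have e : 16 * (m + 1) - 1 = 16 * m + 15 := by omega
          rw [e]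
          push_cast at h2
          linarith)
        have h5 : f S = ((({y ∈ R | Bev m y S}.card : ℕ)) : ℝ≥0∞) := by
          simp only [hf, Set.indicator_apply, Pi.one_apply]
          rw [Finset.card_filter]
          push_cast
          rfl
        change ((6 * (m + 1) : ℕ) : ℝ≥0∞) ≤ f S
        rw [h5]
        exact_mod_cast h4
      have h2 : perc p {S | ¬ Fin' S} = 0 := ae_iff.mp (ae_fin p hp)
      calc perc p {S | ((6 * (m + 1) : ℕ) : ℝ≥0∞) ≤ f S}ᶜ
          ≤ perc p {S | Rch S (16 * m + 15) 1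
            (4 * ((16 * m + 15 : ℕ) : ℤ) + ((32 * m + 36 : ℕ) : ℤ))} + perc p {S | ¬ Fin' S} :=
            (measure_mono h1).trans (measure_union_le _ _)
        _ ≤ 2 * (16⁻¹ : ℝ≥0∞) ^ (32 * m + 36) + 0 := by
            rw [h2]
            gcongr
            exact rch_prob p hp (16 * m + 15) (32 * m + 36) 1
        _ ≤ 2 * (16⁻¹ : ℝ≥0∞) ^ 1 := by
            rw [add_zero]
            gcongr 2 * ?_
            apply pow_le_pow_right_of_le_one'
            · simp
            · omega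
        _ ≤ 2⁻¹ := by
            rw [pow_one]
            have : (16⁻¹ : ℝ≥0∞) ≤ 4⁻¹ := by
              rw [ENNReal.inv_le_inv]
              norm_num
            calc (2 : ℝ≥0∞) * 16⁻¹ ≤ 2 * 4⁻¹ := by gcongr
              _ = 2⁻¹ := by
                  rw [show (4 : ℝ≥0∞) = 2 * 2 by norm_num, ENNReal.mul_inv (by simp) (by simp),
                    ← mul_assoc, ENNReal.mul_inv_cancel (by simp) (by simp), one_mul]
    have hm2 : MeasurableSet {S | ((6 * (m + 1) : ℕ) : ℝ≥0∞) ≤ f S} :=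
      measurableSet_le measurable_const hmeas
    have h3 := prob_add_prob_compl (μ := perc p) hm2
    have h4 : (1 : ℝ≥0∞) ≤ perc p {S | ((6 * (m + 1) : ℕ) : ℝ≥0∞) ≤ f S} + 2⁻¹ := by
      rw [← h3]
      gcongr
    have h5 : (2⁻¹ : ℝ≥0∞) + 2⁻¹ = 1 := ENNReal.inv_two_add_inv_two
    rw [← h5] at h4
    exact (ENNReal.add_le_add_iff_right (by simp)).mp h4
  have h1 := mul_meas_ge_le_lintegral hmeas ((6 * (m + 1) : ℕ) : ℝ≥0∞) (μ := perc p)
  have h2 : ((6 * (m + 1) : ℕ) : ℝ≥0∞) * 2⁻¹ ≤ (96 * (m + 1) : ℕ) * perc p {S | Bev m 0 S} :=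
    ((mul_le_mul_right hgood _).trans h1).trans hint
  have h3 : ((6 * (m + 1) : ℕ) : ℝ≥0∞) * 2⁻¹ = ((96 * (m + 1) : ℕ) : ℝ≥0∞) * 32⁻¹ := by
    have e1 : ((6 * (m + 1) : ℕ) : ℝ≥0∞) = (3 * (m + 1) : ℕ) * 2 := by
      push_cast
      ring
    have e2 : ((96 * (m + 1) : ℕ) : ℝ≥0∞) = (3 * (m + 1) : ℕ) * 32 := by
      push_cast
      ring
    rw [e1, e2, mul_assoc, mul_assoc, ENNReal.mul_inv_cancel (by simp) (by simp),
      ENNReal.mul_inv_cancel (by simp) (by simp)]
  rw [h3] at h2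
  refine (ENNReal.mul_le_mul_iff_right ?_ (ENNReal.natCast_ne_top _)).mp h2
  rw [Nat.cast_ne_zero]
  omega

lemma Bev_anti {m : ℕ} {y : ℤ} {S : Set (Sym2 (ℤ × ℤ))} (h : Bev (m + 1) y S) : Bev m y S := by
  obtain ⟨h0, u, h1, h2, h3, h4⟩ := h
  refine ⟨h0, u, h1, ?_, h3, h4⟩
  intro v hv a1 a2
  apply h2 v hv
  · push_cast; linarith
  · push_cast; linarith

theorem Bev_all_prob (p : I) (hp : (toNNReal (σ p) : ℝ≥0∞) ≤ (16⁻¹) ^ 4) :
    (32⁻¹ : ℝ≥0∞) ≤ perc p {S | ∀ m, Bev m 0 S} := by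
  have h1 : {S | ∀ m, Bev m 0 S} = ⋂ m : ℕ, {S | Bev m 0 S} := by
    ext S
    simp
  have hanti : Antitone fun m : ℕ => {S | Bev m 0 S} := by
    apply antitone_nat_of_succ_le
    intro m S hS
    exact Bev_anti hS
  have h2 := tendsto_measure_iInter_atTop (μ := perc p)
    (fun m => (measurableSet_Bev m 0).nullMeasurableSet) hanti ⟨0, measure_ne_top _ _⟩
  rw [h1]
  exact ge_of_tendsto h2 (Eventually.of_forall fun m => Bev_prob p hp m)

end Pool.Agent.Lib.MP_566bac_pr
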