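import Pool.Agent.Lib.MP_566bac_pr.Par

/-!
# Dual arms separate primal arms
-/

open Finset SimpleGraph

namespace Pool.Agent.Lib.MP_566bac_pr

/-- the square `[c - k, k]²` -/
noncomputable def sq (c : ℤ) (k : ℕ) : Finset (ℤ × ℤ) :=
  Finset.Icc (c - k) k ×ˢ Finset.Icc (c - k) k

lemma mem_sq {c : ℤ} {k : ℕ} {x : ℤ × ℤ} : x ∈ sq c k ↔
    (c - k ≤ x.1 ∧ x.1 ≤ k) ∧ (c - k ≤ x.2 ∧ x.2 ≤ k) := by
  rw [sq, Finset.mem_product, Finset.mem_Icc, Finset.mem_Icc]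

lemma mem_Lam0 {k : ℕ} {x : ℤ × ℤ} : x ∈ Lam 0 k ↔
    (-(k : ℤ) ≤ x.1 ∧ x.1 ≤ k) ∧ (-(k : ℤ) ≤ x.2 ∧ x.2 ≤ k) := by
  rw [mem_Lam, dst_le, abs_le, abs_le]
  simp only [Prod.fst_zero, Prod.snd_zero, sub_zero]

lemma not_tch {k : ℕ} {f g : ℤ × ℤ} (hfg : lattice.Adj f g) (hf : f ∉ sq (-1) k) :
    ¬ Tch k (dlt s(f, g)) := by
  rintro ⟨v, hv, hve⟩
  apply hf
  rw [mem_Lam0] at hv
  rw [mem_sq]
  obtain ⟨a, b⟩ := f
  rw [lattice_adj_iff] at hfg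
  rcases hfg with h | h | h | h <;> subst h
  · rw [dlt_h, Sym2.mem_iff] at hve
    rcases hve with h | h <;> rw [h] at hv <;> simp only at hv ⊢ <;> omega
  · have e := dlt_h (a - 1) b
    rw [sub_add_cancel] at e
    rw [Sym2.eq_swap, e, Sym2.mem_iff] at hve
    rcases hve with h | h <;> rw [h] at hv <;> simp only at hv ⊢ <;> omega
  · rw [dlt_v, Sym2.mem_iff] at hve
    rcases hve with h | h <;> rw [h] at hv <;> simp only at hv ⊢ <;> omega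
  · have e := dlt_v a (b - 1)
    rw [sub_add_cancel] at e
    rw [Sym2.eq_swap, e, Sym2.mem_iff] at hve
    rcases hve with h | h <;> rw [h] at hv <;> simp only at hv ⊢ <;> omega

lemma const_range {f : ℤ → ZMod 2} {l r : ℤ} (h : l ≤ r)
    (hs : ∀ a, l < a → a ≤ r → f (a - 1) + f a = 0) : f l = f r := by
  have key : ∀ m : ℕ, l + m ≤ r → f l = f (l + m) := by
    intro m
    induction m with
    | zero => intro _; simp
    | succ m ih =>
      intro hm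
      push_cast at hm
      rw [ih (by omega)]
      have := hs (l + (m + 1)) (by omega) (by omega)
      have e : l + ((m : ℤ) + 1) - 1 = l + m := by ring
      rw [e] at this
      push_cast
      exact CharTwo.add_eq_zero.mp this
  have := key (r - l).toNat (by omega)
  have e : l + ((r - l).toNat : ℤ) = r := by omega
  rwa [e] at this

/-- the dual arm: a connection from the face `f` to the far faces -/
def DArm (S : Set Edge) (k n : ℕ) (f : ℤ × ℤ) : Prop :=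
  ∃ g, g ∈ sq (-1) n ∧ g ∉ sq (-1) (n - 1) ∧
    (res (openGraph (dualize S)) ((sq (-1) n \ sq (-1) k : Finset (ℤ × ℤ)) : Set (ℤ × ℤ))).Reachable f g

lemma darm_zero {S : Set Edge} {k n : ℕ} {w : ℤ × ℤ → ZMod 2} (hn : 1 ≤ n)
    (hw1 : ∀ f g, lattice.Adj f g → dlt s(f, g) ∉ S → ¬ Tch k (dlt s(f, g)) → w f = w g)
    (hw2 : ∀ f : ℤ × ℤ, ((n : ℤ) ≤ f.1 ∨ f.1 < -n ∨ (n : ℤ) ≤ f.2 ∨ f.2 < -n) → w f = 0)
    {f0 f : ℤ × ℤ} (h0 : s(f0, f) ∈ dualize S) (hf : f ∉ sq (-1) k) (h : DArm S k n f) :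
    w f0 = 0 := by
  have h0' : (openGraph (dualize S)).Adj f0 f := by
    refine ⟨?_, h0⟩
    have := h0.1
    rwa [SimpleGraph.mem_edgeSet] at this
  rw [dual_adj] at h0'
  have e1 : w f0 = w f := by
    symm
    apply hw1 f f0 h0'.1.symm
    · rw [Sym2.eq_swap]; exact h0'.2
    · exact not_tch h0'.1.symm hf
  rw [e1]
  obtain ⟨g, hg1, hg2, ⟨p⟩⟩ := h
  have key : ∀ {a b : ℤ × ℤ} (p : (res (openGraph (dualize S))
      ((sq (-1) n \ sq (-1) k : Finset (ℤ × ℤ)) : Set (ℤ × ℤ))).Walk a b), w a = w b := by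
    intro a b p
    induction p with
    | nil => rfl
    | @cons u v x hadj p ih =>
      rw [← ih]
      have h1 := hadj.1
      rw [dual_adj] at h1
      have h2 := hadj.2.1
      rw [Finset.mem_coe, Finset.mem_sdiff] at h2
      exact hw1 u v h1.1 h1.2 (not_tch h1.1 h2.2)
  rw [key p]
  apply hw2
  rw [mem_sq] at hg1 hg2
  omega

lemma hit_self (x y : ℤ × ℤ) : hit s(x, y) x y = 1 := by
  unfold hit
  rw [if_pos rfl]

lemma hit_ne {e : Edge} {x y : ℤ × ℤ} (h : s(x, y) ≠ e) : hit e x y = 0 := by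
  unfold hit
  rw [if_neg h]

/-- separation at the top side -/
theorem sep_top {S : Set Edge} {k n : ℕ} (hkn : k < n) {i2 i3 j4 : ℤ}
    (hi2 : 0 ≤ i2 ∧ i2 ≤ k) (hi3 : -(k : ℤ) ≤ i3 ∧ i3 ≤ 0) (hj4 : 0 ≤ j4 ∧ j4 ≤ k)
    (c2 : s(((i2, (k : ℤ)) : ℤ × ℤ), (i2, (k : ℤ) + 1)) ∈ dualize S)
    (d2 : DArm S k n (i2, (k : ℤ) + 1))
    (c4 : s(((-1 - (k : ℤ), j4) : ℤ × ℤ), (-1 - ((k : ℤ) + 1), j4)) ∈ dualize S)
    (d4 : DArm S k n (-1 - ((k : ℤ) + 1), j4))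
    {z z' : ℤ × ℤ} (hz : z ∈ Lam 0 k) (hzz' : lattice.Adj z z')
    (ht : ∀ a : ℤ, s(z, z') ≠ s((a, (k : ℤ)), (a, (k : ℤ) + 1)))
    (hl : ∀ b : ℤ, j4 < b → s(z, z') ≠ s((-(k : ℤ), b), (-1 - (k : ℤ), b)))
    (hr : (res (openGraph S) ((Lam 0 n \ Lam 0 k : Finset (ℤ × ℤ)) : Set (ℤ × ℤ))).Reachable
      (i3, (k : ℤ) + 1) z') : False := by
  obtain ⟨w, hw1, hw2, hw3⟩ := exists_w (n := n) hkn.le (z1 := (i3, (k : ℤ))) (z1' := (i3, (k : ℤ) + 1))
    (by rw [mem_Lam0]; simp only; omega) (by rw [mem_Lam0]; simp only; omega) (adj_v _ _) hz hzz'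
    (by rw [mem_Lam0]; simp only; omega) hr
  have z2 : w (i2, k) = 0 := darm_zero (by omega) hw1 hw2 c2 (by rw [mem_sq]; simp only; omega) d2
  have z4 : w (-1 - (k : ℤ), j4) = 0 :=
    darm_zero (by omega) hw1 hw2 c4 (by rw [mem_sq]; simp only; omega) d4
  have top : ∀ a : ℤ, -(k : ℤ) ≤ a → a ≤ k →
      w (a - 1, k) + w (a, k) = hit s((a, (k : ℤ)), (a, (k : ℤ) + 1)) (i3, (k : ℤ)) (i3, (k : ℤ) + 1) := by
    intro a h1 h2
    have e := dlt_h (a - 1) k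
    rw [sub_add_cancel] at e
    have had := adj_h (a - 1) k
    rw [sub_add_cancel] at had
    rw [hw3 (a - 1, k) (a, k) (a, k) (a, (k : ℤ) + 1) had e
      (by rw [mem_Lam0]; simp only; omega) (by rw [mem_Lam0]; simp only; omega), hit_ne (ht a), add_zero]
  have left : ∀ b : ℤ, j4 < b → b ≤ k → w (-1 - (k : ℤ), b - 1) + w (-1 - (k : ℤ), b) = 0 := by
    intro b h1 h2
    have e := dlt_v (-1 - (k : ℤ)) (b - 1)
    rw [sub_add_cancel, Sym2.eq_swap] at e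
    have e2 : (-1 - (k : ℤ) + 1) = -k := by ring
    have e3 : dlt s(((-1 - (k : ℤ), b - 1) : ℤ × ℤ), (-1 - (k : ℤ), b)) =
        s((-(k : ℤ), b), (-1 - (k : ℤ), b)) := by
      rw [Sym2.eq_swap, e, e2, Sym2.eq_swap]
    have had := adj_v (-1 - (k : ℤ)) (b - 1)
    rw [sub_add_cancel] at had
    rw [hw3 (-1 - (k : ℤ), b - 1) (-1 - (k : ℤ), b) (-(k : ℤ), b) (-1 - (k : ℤ), b) had e3
      (by rw [mem_Lam0]; simp only; omega) (by rw [mem_Lam0]; simp only; omega), hit_ne (hl b h1),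
      add_zero, hit_ne]
    simp only [ne_eq, Sym2.eq_iff, Prod.mk.injEq]
    omega
  have hne : ∀ a : ℤ, a ≠ i3 →
      hit s((a, (k : ℤ)), (a, (k : ℤ) + 1)) (i3, (k : ℤ)) (i3, (k : ℤ) + 1) = 0 := by
    intro a ha
    apply hit_ne
    simp only [ne_eq, Sym2.eq_iff, Prod.mk.injEq]
    omega
  have r1 : w (i3, k) = w (i2, k) := const_range (f := fun a => w (a, k)) (by omega) fun a h1 h2 => by
    rw [top a (by omega) (by omega), hne a (by omega)]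
  have r2 : w (-1 - (k : ℤ), k) = w (i3 - 1, k) :=
    const_range (f := fun a => w (a, k)) (by omega) fun a h1 h2 => by
      rw [top a (by omega) (by omega), hne a (by omega)]
  have r3 : w (-1 - (k : ℤ), j4) = w (-1 - (k : ℤ), k) :=
    const_range (f := fun b => w (-1 - (k : ℤ), b)) (by omega) fun b h1 h2 => left b h1 h2
  have h5 := top i3 (by omega) (by omega)
  rw [hit_self, r1, z2, ← r2, ← r3, z4] at h5
  exact absurd h5 (by decide)

/-- separation at the left side -/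
theorem sep_left {S : Set Edge} {k n : ℕ} (hkn : k < n) {j4 j5 i6 : ℤ}
    (hj4 : 0 ≤ j4 ∧ j4 ≤ k) (hj5 : -(k : ℤ) ≤ j5 ∧ j5 ≤ 0) (hi6 : -1 - (k : ℤ) ≤ i6 ∧ i6 ≤ -1)
    (c4 : s(((-1 - (k : ℤ), j4) : ℤ × ℤ), (-1 - ((k : ℤ) + 1), j4)) ∈ dualize S)
    (d4 : DArm S k n (-1 - ((k : ℤ) + 1), j4))
    (c6 : s(((i6, -1 - (k : ℤ)) : ℤ × ℤ), (i6, -1 - ((k : ℤ) + 1))) ∈ dualize S)
    (d6 : DArm S k n (i6, -1 - ((k : ℤ) + 1)))
    {z z' : ℤ × ℤ} (hz : z ∈ Lam 0 k) (hzz' : lattice.Adj z z')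
    (ht : ∀ a : ℤ, s(z, z') ≠ s((a, -(k : ℤ)), (a, -1 - (k : ℤ))))
    (hl : ∀ b : ℤ, s(z, z') ≠ s((-(k : ℤ), b), (-1 - (k : ℤ), b)))
    (hr : (res (openGraph S) ((Lam 0 n \ Lam 0 k : Finset (ℤ × ℤ)) : Set (ℤ × ℤ))).Reachable
      (-1 - (k : ℤ), j5) z') : False := by
  have hadj1 : lattice.Adj (-(k : ℤ), j5) (-1 - (k : ℤ), j5) := by
    rw [lattice_adj_iff]
    right; left
    rw [Prod.mk.injEq]
    exact ⟨by ring, rfl⟩
  obtain ⟨w, hw1, hw2, hw3⟩ := exists_w (n := n) hkn.le (z1 := (-(k : ℤ), j5))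
    (z1' := (-1 - (k : ℤ), j5))
    (by rw [mem_Lam0]; simp only; omega) (by rw [mem_Lam0]; simp only; omega) hadj1 hz hzz'
    (by rw [mem_Lam0]; simp only; omega) hr
  have z4 : w (-1 - (k : ℤ), j4) = 0 :=
    darm_zero (by omega) hw1 hw2 c4 (by rw [mem_sq]; simp only; omega) d4
  have z6 : w (i6, -1 - (k : ℤ)) = 0 :=
    darm_zero (by omega) hw1 hw2 c6 (by rw [mem_sq]; simp only; omega) d6
  have left : ∀ b : ℤ, -(k : ℤ) ≤ b → b ≤ k → w (-1 - (k : ℤ), b - 1) + w (-1 - (k : ℤ), b) =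
      hit s((-(k : ℤ), b), (-1 - (k : ℤ), b)) (-(k : ℤ), j5) (-1 - (k : ℤ), j5) := by
    intro b h1 h2
    have e := dlt_v (-1 - (k : ℤ)) (b - 1)
    rw [sub_add_cancel, Sym2.eq_swap] at e
    have e2 : (-1 - (k : ℤ) + 1) = -k := by ring
    have e3 : dlt s(((-1 - (k : ℤ), b - 1) : ℤ × ℤ), (-1 - (k : ℤ), b)) =
        s((-(k : ℤ), b), (-1 - (k : ℤ), b)) := by
      rw [Sym2.eq_swap, e, e2, Sym2.eq_swap]
    have had := adj_v (-1 - (k : ℤ)) (b - 1)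
    rw [sub_add_cancel] at had
    rw [hw3 (-1 - (k : ℤ), b - 1) (-1 - (k : ℤ), b) (-(k : ℤ), b) (-1 - (k : ℤ), b) had e3
      (by rw [mem_Lam0]; simp only; omega) (by rw [mem_Lam0]; simp only; omega), hit_ne (hl b),
      add_zero]
  have bot : ∀ a : ℤ, -(k : ℤ) ≤ a → a ≤ k →
      w (a - 1, -1 - (k : ℤ)) + w (a, -1 - (k : ℤ)) = 0 := by
    intro a h1 h2
    have e := dlt_h (a - 1) (-1 - (k : ℤ))
    rw [sub_add_cancel] at e
    have e2 : (-1 - (k : ℤ) + 1) = -k := by ring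
    rw [e2, Sym2.eq_swap (a := (a, -1 - (k : ℤ)))] at e
    have had := adj_h (a - 1) (-1 - (k : ℤ))
    rw [sub_add_cancel] at had
    rw [hw3 (a - 1, -1 - (k : ℤ)) (a, -1 - (k : ℤ)) (a, -(k : ℤ)) (a, -1 - (k : ℤ)) had e
      (by rw [mem_Lam0]; simp only; omega) (by rw [mem_Lam0]; simp only; omega), hit_ne (ht a),
      add_zero, hit_ne]
    simp only [ne_eq, Sym2.eq_iff, Prod.mk.injEq]
    omega
  have hne : ∀ b : ℤ, b ≠ j5 →
      hit s((-(k : ℤ), b), (-1 - (k : ℤ), b)) (-(k : ℤ), j5) (-1 - (k : ℤ), j5) = 0 := by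
    intro b hb
    apply hit_ne
    simp only [ne_eq, Sym2.eq_iff, Prod.mk.injEq]
    omega
  have r1 : w (-1 - (k : ℤ), j5) = w (-1 - (k : ℤ), j4) :=
    const_range (f := fun b => w (-1 - (k : ℤ), b)) (by omega) fun b h1 h2 => by
      rw [left b (by omega) (by omega), hne b (by omega)]
  have r2 : w (-1 - (k : ℤ), -1 - (k : ℤ)) = w (-1 - (k : ℤ), j5 - 1) :=
    const_range (f := fun b => w (-1 - (k : ℤ), b)) (by omega) fun b h1 h2 => by
      rw [left b (by omega) (by omega), hne b (by omega)]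
  have r3 : w (-1 - (k : ℤ), -1 - (k : ℤ)) = w (i6, -1 - (k : ℤ)) :=
    const_range (f := fun a => w (a, -1 - (k : ℤ))) (by omega) fun a h1 h2 =>
      bot a (by omega) (by omega)
  have h5 := left j5 (by omega) (by omega)
  rw [hit_self, r1, z4, ← r2, r3, z6] at h5
  exact absurd h5 (by decide)

end Pool.Agent.Lib.MP_566bac_pr
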