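import Pool.Agent.Lib.MP_566bac_pr.Conn

/-!
# Sharpness, first half: `φ < 1` implies exponential decay
-/

open MeasureTheory ProbabilityTheory Finset unitInterval SimpleGraph
open scoped ENNReal

namespace Pool.Agent.Lib.MP_566bac_pr

lemma perc_mono (p : I) {A B : Set (Set Edge)} (h : A ⊆ B) : (perc p).real A ≤ (perc p).real B :=
  measureReal_mono h (measure_ne_top _ _)

lemma edge_prob (p : I) {e : Edge} (he : e ∈ lattice.edgeSet) :
    (perc p).real {S | e ∈ S} = p := by
  classical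
  have hE : Lat {e} := by
    intro f hf
    rw [Finset.mem_singleton] at hf
    rw [hf]
    exact he
  have hD : Det {e} {S | e ∈ S} := by
    intro S S' h h1
    exact (h e (by simp)).mp h1
  rw [perc_det p hE hD]
  have h1 : ({e} : Finset Edge) = insert e ∅ := by simp
  rw [h1, pr_insert (by simp), pr_empty, pr_empty]
  simp

lemma far_gen {G : SimpleGraph (ℤ × ℤ)} (hG : G ≤ lattice) {n : ℕ} {y z : ℤ × ℤ}
    (h1 : n ≤ dst z y) (h2 : G.Reachable y z) :
    ∃ z, dst z y = n ∧ (res G (Lam y n)).Reachable y z := by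
  rcases Nat.eq_zero_or_pos n with rfl | hn
  · exact ⟨y, dst_self y, Reachable.refl _⟩
  · obtain ⟨u, v, h3, h4, h5, h6⟩ := exit_first (W := (Lam y (n - 1) : Set (ℤ × ℤ))) h2
      (by rw [Finset.mem_coe, mem_Lam, dst_self]; exact Nat.zero_le _)
      (by rw [Finset.mem_coe, mem_Lam]; omega)
    rw [Finset.mem_coe, mem_Lam] at h3 h4
    have h7 := dst_adj (hG h5) y
    refine ⟨v, by omega, ?_⟩
    have h8 : (res G (Lam y n)).Reachable y u := by
      refine Reachable.mono (res_mono le_rfl ?_) h6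
      intro w hw
      rw [Finset.mem_coe, mem_Lam] at hw ⊢
      omega
    refine h8.trans (Adj.reachable ⟨h5, ?_, ?_⟩)
    · rw [Finset.mem_coe, mem_Lam]; omega
    · rw [Finset.mem_coe, mem_Lam]; omega

section
open Classical

/-- the quantity of Duminil-Copin and Tassion -/
noncomputable def phi (p : I) (W : Finset (ℤ × ℤ)) : ℝ :=
  p * ∑ x ∈ W, ((nb x \ W).card : ℝ) * (perc p).real {S | (res (openGraph S) W).Reachable 0 x}

/-- the cluster of the origin inside `W` -/
noncomputable def comp (W : Finset (ℤ × ℤ)) (S : Set Edge) : Finset (ℤ × ℤ) :=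
  W.filter fun x => (res (openGraph S) W).Reachable 0 x

lemma comp_det {W C : Finset (ℤ × ℤ)} (h0 : (0 : ℤ × ℤ) ∈ W) :
    Det (Ein W \ Ein (W \ C)) {S | comp W S = C} := by
  intro S S' h h1
  rw [Set.mem_ofPred_eq] at h1 ⊢
  have hC : ∀ x, x ∈ C ↔ x ∈ W ∧ (res (openGraph S) W).Reachable 0 x := by
    intro x
    rw [← h1, comp, Finset.mem_filter]
  have h0C : (0 : ℤ × ℤ) ∈ C := (hC 0).mpr ⟨h0, Reachable.refl _⟩
  have hmem : ∀ u v : ℤ × ℤ, u ∈ C → u ∈ W → v ∈ W → lattice.Adj u v →
      s(u, v) ∈ Ein W \ Ein (W \ C) := by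
    intro u v hu huW hvW huv
    rw [Finset.mem_sdiff, mem_Ein, mem_Ein, Finset.mem_sdiff]
    exact ⟨⟨huW, hvW, huv⟩, fun h => h.1.2 hu⟩
  have hfwd : ∀ x, (res (openGraph S) W).Reachable 0 x → (res (openGraph S') W).Reachable 0 x := by
    rintro x ⟨p⟩
    have key : ∀ {a b : ℤ × ℤ} (q : (res (openGraph S) W).Walk a b),
        (res (openGraph S) W).Reachable 0 a → (res (openGraph S') W).Reachable 0 a →
        (res (openGraph S') W).Reachable 0 b := by
      intro a b q
      induction q with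
      | nil => exact fun _ h => h
      | @cons u v w hadj q ih =>
        intro a1 a2
        refine ih (a1.trans hadj.reachable) (a2.trans (Adj.reachable ⟨⟨hadj.1.1, ?_⟩, hadj.2⟩))
        exact (h _ (hmem u v ((hC u).mpr ⟨hadj.2.1, a1⟩) hadj.2.1 hadj.2.2 hadj.1.1)).mp hadj.1.2
    exact key p (Reachable.refl _) (Reachable.refl _)
  have hbwd : ∀ x, (res (openGraph S') W).Reachable 0 x → (res (openGraph S) W).Reachable 0 x := by
    rintro x ⟨p⟩
    have key : ∀ {a b : ℤ × ℤ} (q : (res (openGraph S') W).Walk a b),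
        (res (openGraph S) W).Reachable 0 a →
        (res (openGraph S) W).Reachable 0 b := by
      intro a b q
      induction q with
      | nil => exact fun h => h
      | @cons u v w hadj q ih =>
        intro a1
        refine ih (a1.trans (Adj.reachable ⟨⟨hadj.1.1, ?_⟩, hadj.2⟩))
        exact (h _ (hmem u v ((hC u).mpr ⟨hadj.2.1, a1⟩) hadj.2.1 hadj.2.2 hadj.1.1)).mpr hadj.1.2
    exact key p (Reachable.refl _)
  rw [← h1]
  ext x
  rw [comp, comp, Finset.mem_filter, Finset.mem_filter]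
  exact and_congr_right fun _ => ⟨hbwd x, hfwd x⟩

/-- connection to distance `n` avoiding `C` -/
def FarC (C : Finset (ℤ × ℤ)) (n : ℕ) (y : ℤ × ℤ) : Set (Set Edge) :=
  {S | ∃ z, dst z y = n ∧ (res (openGraph S) ((Lam y n \ C : Finset (ℤ × ℤ)) : Set (ℤ × ℤ))).Reachable y z}

lemma farC_det (C : Finset (ℤ × ℤ)) (n : ℕ) (y : ℤ × ℤ) : Det (Ein (Lam y n \ C)) (FarC C n y) :=
  det_res (W := Lam y n \ C) (fun G : SimpleGraph (ℤ × ℤ) => ∃ z, dst z y = n ∧ G.Reachable y z)

lemma farC_le (p : I) (C : Finset (ℤ × ℤ)) (n : ℕ) (y : ℤ × ℤ) :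
    (perc p).real (FarC C n y) ≤ (perc p).real (Far n 0) := by
  rw [← perc_far p n y]
  apply perc_mono
  rintro S ⟨z, h1, h2⟩
  exact ⟨z, h1.ge, Reachable.mono (res_le _ _) h2⟩

/-- **First half of the sharpness theorem.** -/
theorem far_add (p : I) {W : Finset (ℤ × ℤ)} (h0 : (0 : ℤ × ℤ) ∈ W) {L : ℕ}
    (hL : ∀ x ∈ W, dst x 0 + 1 ≤ L) (n : ℕ) :
    (perc p).real (Far (n + L) 0) ≤ phi p W * (perc p).real (Far n 0) := by
  set f := (perc p).real (Far n 0) with hf
  -- the covering
  have hcov : Far (n + L) 0 ⊆ ⋃ x ∈ W, ⋃ y ∈ nb x \ W, ⋃ C ∈ W.powerset.filter (fun C => x ∈ C),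
      ({S | comp W S = C} ∩ ({S | s(x, y) ∈ S} ∩ FarC C n y)) := by
    rintro S ⟨z, h1, h2⟩
    have hzC : z ∉ comp W S := by
      intro hz
      have h3 := hL z (Finset.mem_filter.mp hz).1
      omega
    have h0C : (0 : ℤ × ℤ) ∈ comp W S := Finset.mem_filter.mpr ⟨h0, Reachable.refl _⟩
    obtain ⟨u, v, h3, h4, h5, h6⟩ := exit_last (W := (comp W S : Set (ℤ × ℤ))) h2 h0C hzC
    rw [Finset.mem_coe] at h3 h4
    have h3' := Finset.mem_filter.mp h3
    have hvW : v ∉ W := by
      intro hv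
      apply h4
      rw [comp, Finset.mem_filter]
      exact ⟨hv, h3'.2.trans (Adj.reachable ⟨h5, h3'.1, hv⟩)⟩
    have h7 : n ≤ dst z v := by
      have t1 := dst_tri z v 0
      have t2 := dst_adj h5.1 0
      have t3 := hL u h3'.1
      omega
    obtain ⟨z', h8, h9⟩ := far_gen (G := res (openGraph S) (comp W S : Set (ℤ × ℤ))ᶜ)
      (fun _ _ h => h.1.1) h7 h6
    simp only [Set.mem_iUnion, exists_prop]
    refine ⟨u, h3'.1, v, ?_, comp W S, ?_, rfl, h5.2, z', h8, ?_⟩
    · rw [Finset.mem_sdiff, mem_nb]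
      exact ⟨h5.1, hvW⟩
    · rw [Finset.mem_filter, Finset.mem_powerset]
      exact ⟨Finset.filter_subset _ _, h3⟩
    · refine Reachable.mono ?_ h9
      rintro a b ⟨⟨h10, h11, h12⟩, h13, h14⟩
      refine ⟨h10, ?_, ?_⟩
      · rw [Finset.coe_sdiff]; exact ⟨h13, h11⟩
      · rw [Finset.coe_sdiff]; exact ⟨h14, h12⟩
  -- the probability of one term
  have hterm : ∀ x ∈ W, ∀ y ∈ nb x \ W, ∀ C ∈ W.powerset.filter (fun C => x ∈ C),
      (perc p).real ({S | comp W S = C} ∩ ({S | s(x, y) ∈ S} ∩ FarC C n y)) ≤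
      (perc p).real {S | comp W S = C} * (p * f) := by
    intro x hx y hy C hC
    rw [Finset.mem_sdiff, mem_nb] at hy
    rw [Finset.mem_filter, Finset.mem_powerset] at hC
    have hlat : Lat {s(x, y)} := by
      intro e he
      rw [Finset.mem_singleton] at he
      rw [he]
      exact hy.1
    have hdet : Det {s(x, y)} {S | s(x, y) ∈ S} := by
      intro S S' h h1
      exact (h _ (by simp)).mp h1
    have d1 : Disjoint ({s(x, y)} : Finset Edge) (Ein (Lam y n \ C)) := by
      rw [Finset.disjoint_singleton_left, mem_Ein, Finset.mem_sdiff]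
      exact fun h => h.1.2 hC.2
    have d2 : Disjoint (Ein W \ Ein (W \ C)) ({s(x, y)} ∪ Ein (Lam y n \ C)) := by
      rw [Finset.disjoint_union_right]
      constructor
      · rw [Finset.disjoint_singleton_right, Finset.mem_sdiff, mem_Ein]
        exact fun h => hy.2 h.1.2.1
      · rw [Finset.disjoint_left]
        intro e
        induction e using Sym2.ind with
        | _ a b =>
          rw [Finset.mem_sdiff, mem_Ein, mem_Ein, mem_Ein]
          simp only [Finset.mem_sdiff]
          rintro ⟨⟨a1, a2, a3⟩, a4⟩ ⟨a5, a6, a7⟩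
          exact a4 ⟨⟨a1, a5.2⟩, ⟨a2, a6.2⟩, a3⟩
    have hl1 : Lat (Ein W \ Ein (W \ C)) := fun e he => lat_Ein W e (Finset.mem_sdiff.mp he).1
    rw [perc_indep p hl1 (lat_union hlat (lat_Ein _)) d2 (comp_det h0)
      (det_inter (det_mono subset_union_left hdet) (det_mono subset_union_right (farC_det C n y))),
      perc_indep p hlat (lat_Ein _) d1 hdet (farC_det C n y), edge_prob p hy.1]
    have h1 := farC_le p C n y
    have h2 : (0 : ℝ) ≤ p := p.2.1
    gcongr
  -- summation over `C`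
  have hsumC : ∀ x ∈ W, ∑ C ∈ W.powerset.filter (fun C => x ∈ C),
      (perc p).real {S | comp W S = C} = (perc p).real {S | (res (openGraph S) W).Reachable 0 x} := by
    intro x hx
    rw [← measureReal_biUnion_finset]
    · congr 1
      ext S
      simp only [Set.mem_iUnion, Set.mem_ofPred_eq, exists_prop, Finset.mem_filter,
        Finset.mem_powerset]
      constructor
      · rintro ⟨C, ⟨_, h2⟩, rfl⟩
        exact (Finset.mem_filter.mp h2).2
      · intro h
        exact ⟨comp W S, ⟨Finset.filter_subset _ _, Finset.mem_filter.mpr ⟨hx, h⟩⟩, rfl⟩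
    · intro C _ C' _ hne
      rw [Function.onFun, Set.disjoint_left]
      intro S h1 h2
      exact hne (h1.symm.trans h2)
    · intro C _
      exact det_measurable (comp_det h0)
  calc (perc p).real (Far (n + L) 0)
      ≤ (perc p).real (⋃ x ∈ W, ⋃ y ∈ nb x \ W, ⋃ C ∈ W.powerset.filter (fun C => x ∈ C),
      ({S | comp W S = C} ∩ ({S | s(x, y) ∈ S} ∩ FarC C n y))) := perc_mono p hcov
    _ ≤ ∑ x ∈ W, ∑ y ∈ nb x \ W, ∑ C ∈ W.powerset.filter (fun C => x ∈ C),
        (perc p).real ({S | comp W S = C} ∩ ({S | s(x, y) ∈ S} ∩ FarC C n y)) := by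
        refine (measureReal_biUnion_finset_le _ _).trans (sum_le_sum fun x _ => ?_)
        refine (measureReal_biUnion_finset_le _ _).trans (sum_le_sum fun y _ => ?_)
        exact measureReal_biUnion_finset_le _ _
    _ ≤ ∑ x ∈ W, ∑ y ∈ nb x \ W, ∑ C ∈ W.powerset.filter (fun C => x ∈ C),
        (perc p).real {S | comp W S = C} * (p * f) :=
        sum_le_sum fun x hx => sum_le_sum fun y hy => sum_le_sum fun C hC => hterm x hx y hy C hC
    _ = phi p W * f := by
        unfold phi
        rw [mul_sum, sum_mul]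
        apply sum_congr rfl
        intro x hx
        rw [sum_const, nsmul_eq_mul, ← sum_mul, hsumC x hx]
        ring

end

/-- exponential decay from `φ < 1` -/
theorem decay_of_phi (p : I) {W : Finset (ℤ × ℤ)} (h0 : (0 : ℤ × ℤ) ∈ W) (hφ : phi p W < 1) :
    ∃ C γ : ℝ, 0 ≤ C ∧ 0 < γ ∧ γ < 1 ∧ ∀ n, (perc p).real (Far n 0) ≤ C * γ ^ n := by
  classical
  set L : ℕ := W.sup (fun x => dst x 0) + 1 with hLdef
  have hL : ∀ x ∈ W, dst x 0 + 1 ≤ L := by
    intro x hx
    have h1 : dst x 0 ≤ W.sup (fun x => dst x 0) := Finset.le_sup (f := fun x => dst x 0) hx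
    omega
  have hL1 : 1 ≤ L := by omega
  have hphi0 : 0 ≤ phi p W := by
    unfold phi
    have : (0 : ℝ) ≤ p := p.2.1
    positivity
  set φ := max (phi p W) (1 / 2) with hφdef
  have hφ1 : φ < 1 := max_lt hφ (by norm_num)
  have hφ0 : 0 < φ := lt_of_lt_of_le (by norm_num) (le_max_right _ _)
  have hiter : ∀ j r : ℕ, (perc p).real (Far (r + j * L) 0) ≤ φ ^ j := by
    intro j
    induction j with
    | zero =>
      intro r
      rw [pow_zero]
      exact measureReal_le_one
    | succ j ih =>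
      intro r
      have h1 := far_add p h0 hL (r + j * L)
      have h2 := ih r
      have e : r + (j + 1) * L = r + j * L + L := by ring
      rw [e]
      refine h1.trans ?_
      have h3 : phi p W ≤ φ := le_max_left _ _
      have h4 : 0 ≤ (perc p).real (Far (r + j * L) 0) := measureReal_nonneg
      rw [pow_succ, mul_comm (φ ^ j)]
      exact mul_le_mul h3 h2 h4 hφ0.le
  -- the rate
  set γ := φ ^ (1 / (L : ℝ)) with hγ
  have hLpos : (0 : ℝ) < L := by exact_mod_cast hL1
  have hγ0 : 0 < γ := Real.rpow_pos_of_pos hφ0 _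
  have hγ1 : γ < 1 := Real.rpow_lt_one hφ0.le hφ1 (by positivity)
  have hγL : γ ^ L = φ := by
    rw [hγ, ← Real.rpow_natCast, ← Real.rpow_mul hφ0.le]
    rw [one_div, inv_mul_cancel₀ hLpos.ne', Real.rpow_one]
  refine ⟨φ⁻¹, γ, by positivity, hγ0, hγ1, ?_⟩
  intro n
  have h1 := hiter (n / L) (n % L)
  have e : n % L + n / L * L = n := by
    rw [mul_comm]
    exact Nat.mod_add_div n L
  rw [e] at h1
  refine h1.trans ?_
  rw [inv_mul_eq_div, le_div_iff₀ hφ0, ← pow_succ]
  conv_lhs => rw [← hγL, ← pow_mul]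
  apply pow_le_pow_of_le_one hγ0.le hγ1.le
  have h3 := Nat.mod_lt n (by omega : 0 < L)
  have h4 := Nat.mod_add_div n L
  nlinarith

end Pool.Agent.Lib.MP_566bac_pr
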