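import Pool.Agent.Lib.MP_566bac_pr.SharpA

/-!
# Sharpness, second half: `φ ≥ 1` implies connections at larger densities
-/

open MeasureTheory ProbabilityTheory Finset unitInterval SimpleGraph
open scoped ENNReal

namespace Pool.Agent.Lib.MP_566bac_pr

section
open Classical

/-- the vertices of the box not connected to its boundary -/
noncomputable def Un (n : ℕ) (S : Set Edge) : Finset (ℤ × ℤ) :=
  (Lam 0 n).filter fun x => ∀ z, dst z 0 = n → ¬ (res (openGraph S) (Lam 0 n)).Reachable x z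

lemma mem_Un {n : ℕ} {S : Set Edge} {x : ℤ × ℤ} : x ∈ Un n S ↔ x ∈ Lam 0 n ∧
    ∀ z, dst z 0 = n → ¬ (res (openGraph S) (Lam 0 n)).Reachable x z := by
  rw [Un, Finset.mem_filter]

lemma un_adj {n : ℕ} {S : Set Edge} {x y : ℤ × ℤ} (hx : x ∈ Un n S)
    (h : (res (openGraph S) (Lam 0 n)).Adj x y) : y ∈ Un n S := by
  rw [mem_Un] at *
  exact ⟨h.2.2, fun z hz hyz => hx.2 z hz (h.reachable.trans hyz)⟩

lemma un_det {n : ℕ} {W : Finset (ℤ × ℤ)} :
    Det (Ein (Lam 0 n) \ Ein W) {S | Un n S = W} := by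
  intro S S' h h1
  rw [Set.mem_ofPred_eq] at h1 ⊢
  have hW : ∀ x, x ∈ W ↔ x ∈ Un n S := by
    intro x
    rw [h1]
  have hmem : ∀ u v : ℤ × ℤ, u ∈ Lam 0 n → v ∈ Lam 0 n → lattice.Adj u v → (u ∉ W ∨ v ∉ W) →
      s(u, v) ∈ Ein (Lam 0 n) \ Ein W := by
    intro u v hu hv huv hor
    rw [Finset.mem_sdiff, mem_Ein, mem_Ein]
    refine ⟨⟨hu, hv, huv⟩, ?_⟩
    rintro ⟨h2, h3, _⟩
    rcases hor with h4 | h4
    · exact h4 h2
    · exact h4 h3
  rw [← h1]
  ext x
  constructor
  · -- connected in `S` implies connected in `S'`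
    intro hx
    rw [mem_Un] at hx ⊢
    refine ⟨hx.1, ?_⟩
    rintro z hz ⟨p⟩
    have key : ∀ {a b : ℤ × ℤ} (q : (res (openGraph S) (Lam 0 n)).Walk a b), dst b 0 = n →
        (res (openGraph S') (Lam 0 n)).Reachable a b := by
      intro a b q
      induction q with
      | nil => exact fun _ => Reachable.refl _
      | @cons u v w hadj q ih =>
        intro hw
        have hv : v ∉ W := by
          rw [hW, mem_Un]
          exact fun h3 => h3.2 w hw ⟨q⟩
        refine Reachable.trans (Adj.reachable ⟨⟨hadj.1.1, ?_⟩, hadj.2⟩) (ih hw)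
        exact (h _ (hmem u v hadj.2.1 hadj.2.2 hadj.1.1 (Or.inr hv))).mp hadj.1.2
    exact hx.2 z hz (key p hz)
  · intro hx
    rw [mem_Un]
    refine ⟨(mem_Un.mp hx).1, ?_⟩
    rintro z hz ⟨p⟩
    have key : ∀ {a b : ℤ × ℤ} (q : (res (openGraph S') (Lam 0 n)).Walk a b), dst b 0 = n →
        a ∉ Un n S := by
      intro a b q
      induction q with
      | nil =>
        intro hw h3
        exact (mem_Un.mp h3).2 _ hw (Reachable.refl _)
      | @cons u v w hadj q ih =>
        intro hw hu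
        have hv := ih hw
        apply hv
        refine un_adj hu ⟨⟨hadj.1.1, ?_⟩, hadj.2⟩
        exact (h _ (hmem u v hadj.2.1 hadj.2.2 hadj.1.1 (Or.inr (by rw [hW]; exact hv)))).mpr
          hadj.1.2
    exact key p hz hx

lemma far_iff_un {n : ℕ} {S : Set Edge} : S ∈ Far n 0 ↔ (0 : ℤ × ℤ) ∉ Un n S := by
  rw [far_iff, mem_Un, not_and]
  constructor
  · rintro ⟨z, h1, h2⟩ _ h3
    exact h3 z h1 h2
  · intro h
    have := h (by rw [mem_Lam, dst_self]; exact Nat.zero_le _)
    push Not at this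
    exact this

lemma un_sub {n : ℕ} (hn : 1 ≤ n) (S : Set Edge) : Un n S ⊆ Lam 0 (n - 1) := by
  intro x hx
  rw [mem_Un, mem_Lam] at hx
  rw [mem_Lam]
  have h1 : dst x 0 ≠ n := fun h => hx.2 x h (Reachable.refl _)
  omega

lemma un_piv {n : ℕ} (hn : 1 ≤ n) {S : Set Edge} {x y : ℤ × ℤ} (h0 : (0 : ℤ × ℤ) ∈ Un n S)
    (hx : x ∈ Un n S) (hy : y ∉ Un n S) (hxy : lattice.Adj x y)
    (hr : (res (openGraph S) (Un n S : Set (ℤ × ℤ))).Reachable 0 x) :
    S ∈ piv s(x, y) (Far n 0) ∧ s(x, y) ∉ S ∧ s(x, y) ∈ Ein (Lam 0 n) := by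
  have hxL := mem_Lam.mp (un_sub hn S hx)
  have hyL : y ∈ Lam 0 n := by
    rw [mem_Lam]
    have := dst_adj hxy 0
    omega
  have hxL' : x ∈ Lam 0 n := by rw [mem_Lam]; omega
  have hcl : s(x, y) ∉ S := fun h => hy (un_adj hx ⟨⟨hxy, h⟩, hxL', hyL⟩)
  refine ⟨⟨?_, ?_⟩, hcl, mem_Ein.mpr ⟨hxL', hyL, hxy⟩⟩
  · have hy' : ∃ z, dst z 0 = n ∧ (res (openGraph S) (Lam 0 n)).Reachable y z := by
      by_contra hcon
      push Not at hcon
      exact hy (mem_Un.mpr ⟨hyL, hcon⟩)
    obtain ⟨z, hz, hyz⟩ := hy'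
    rw [far_iff]
    refine ⟨z, hz, ?_⟩
    have hsub : openGraph S ≤ openGraph (insert s(x, y) S) :=
      openGraph_mono (Set.subset_insert _ _)
    have r1 : (res (openGraph (insert s(x, y) S)) (Lam 0 n)).Reachable 0 x := by
      refine Reachable.mono (res_mono hsub ?_) hr
      intro w hw
      exact (mem_Un.mp hw).1
    have r2 : (res (openGraph (insert s(x, y) S)) (Lam 0 n)).Reachable y z :=
      Reachable.mono (res_mono hsub le_rfl) hyz
    exact (r1.trans (Adj.reachable ⟨⟨hxy, Set.mem_insert _ _⟩, hxL', hyL⟩)).trans r2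
  · intro h
    have h2 : S ∈ Far n 0 := far_inc n 0 _ _ Set.sdiff_subset h
    exact far_iff_un.mp h2 h0

lemma piv_closed {q : ℝ} {E : Finset Edge} {e : Edge} (he : e ∈ E) (A : Set (Set Edge)) :
    pr q E (piv e A ∩ {S | e ∉ S}) = (1 - q) * pr q E (piv e A) := by
  have h1 : E = insert e (E.erase e) := (Finset.insert_erase he).symm
  have h2 : e ∉ E.erase e := Finset.notMem_erase e E
  rw [h1, pr_insert h2, pr_insert h2, piv_self_one, piv_self_zero]
  have e1 : {S : Set Edge | insert e S ∈ piv e A ∩ {S | e ∉ S}} = ∅ := by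
    ext S
    simp
  have e2 : {S : Set Edge | S \ {e} ∈ piv e A ∩ {S | e ∉ S}} = piv e A := by
    rw [← piv_self_zero]
    ext S
    simp [piv_self_zero]
  rw [e1, e2]
  have e3 : pr q (E.erase e) (∅ : Set (Set Edge)) = 0 := by simp [pr]
  rw [e3]
  ring

/-- the lower bound for the derivative -/
lemma russo_lower (p : I) (hp0 : 0 < (p : ℝ)) (hp1 : (p : ℝ) < 1)
    (hφ : ∀ W : Finset (ℤ × ℤ), (0 : ℤ × ℤ) ∈ W → 1 ≤ phi p W) {n : ℕ} (hn : 1 ≤ n) :
    4 * (1 - (perc p).real (Far n 0)) ≤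
      ∑ e ∈ Ein (Lam 0 n), pr p (Ein (Lam 0 n)) (piv e (Far n 0)) := by
  set E := Ein (Lam 0 n) with hE
  set A := Far n 0 with hA
  set μ := perc p with hμ
  have hAdet : Det E A := far_det n 0
  have hpivdet : ∀ e ∈ E, Det E (piv e A) := by
    intro e he S S' h h1
    have h2 : ∀ f ∈ E, (f ∈ insert e S ↔ f ∈ insert e S') := by
      intro f hf
      simp only [Set.mem_insert_iff, h f hf]
    have h3 : ∀ f ∈ E, (f ∈ S \ {e} ↔ f ∈ S' \ {e}) := by
      intro f hf
      simp only [Set.mem_sdiff, h f hf]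
    exact ⟨(det_iff hAdet h2).mp h1.1, fun h4 => h1.2 ((det_iff hAdet h3).mpr h4)⟩
  have hcldet : ∀ e ∈ E, Det E {S : Set Edge | e ∉ S} := by
    intro e he S S' h h1 h2
    exact h1 ((h e he).mpr h2)
  have hclosed : ∀ e ∈ E, pr p E (piv e A) = (1 - (p : ℝ))⁻¹ * μ.real (piv e A ∩ {S | e ∉ S}) := by
    intro e he
    rw [perc_det p (lat_Ein _) (det_inter (hpivdet e he) (hcldet e he)), piv_closed he,
      ← mul_assoc, inv_mul_cancel₀ (by linarith), one_mul]
  set 𝒲 := (Lam 0 (n - 1)).powerset.filter (fun W => (0 : ℤ × ℤ) ∈ W) with hW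
  have hUdet : ∀ W : Finset (ℤ × ℤ), Det (E \ Ein W) {S | Un n S = W} := fun W => un_det
  have hUmeas : ∀ W : Finset (ℤ × ℤ), MeasurableSet {S | Un n S = W} :=
    fun W => det_measurable (hUdet W)
  -- splitting according to `Un`
  have hsplit : ∀ e ∈ E, ∑ W ∈ 𝒲, μ.real ((piv e A ∩ {S | e ∉ S}) ∩ {S | Un n S = W}) ≤
      μ.real (piv e A ∩ {S | e ∉ S}) := by
    intro e he
    rw [← measureReal_biUnion_finset]
    · apply perc_mono
      intro S hS
      simp only [Set.mem_iUnion] at hS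
      obtain ⟨W, _, h⟩ := hS
      exact h.1
    · intro W _ W' _ hne
      rw [Function.onFun, Set.disjoint_left]
      intro S h1 h2
      exact hne (h1.2.symm.trans h2.2)
    · intro W _
      exact (det_measurable (det_inter (hpivdet e he) (hcldet e he))).inter (hUmeas W)
  -- for a given `W`
  have hWterm : ∀ W ∈ 𝒲, μ.real {S | Un n S = W} * (phi p W / p) ≤
      ∑ e ∈ E, μ.real ((piv e A ∩ {S | e ∉ S}) ∩ {S | Un n S = W}) := by
    intro W hWW
    rw [hW, Finset.mem_filter, Finset.mem_powerset] at hWW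
    have h1 : μ.real {S | Un n S = W} * (phi p W / p) =
        ∑ x ∈ W, ∑ y ∈ nb x \ W, μ.real {S | Un n S = W} *
          μ.real {S | (res (openGraph S) W).Reachable 0 x} := by
      unfold phi
      rw [mul_div_cancel_left₀ _ hp0.ne', mul_sum]
      apply sum_congr rfl
      intro x _
      rw [sum_const, nsmul_eq_mul]
      ring
    rw [h1, Finset.sum_sigma']
    have hinj : Set.InjOn (fun t : (_ : ℤ × ℤ) × (ℤ × ℤ) => (s(t.1, t.2) : Edge))
        (W.sigma fun x => nb x \ W : Finset ((_ : ℤ × ℤ) × (ℤ × ℤ))) := by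
      rintro ⟨x, y⟩ h2 ⟨x', y'⟩ h3 h4
      rw [Finset.mem_coe, Finset.mem_sigma, Finset.mem_sdiff] at h2 h3
      simp only [Sym2.eq_iff] at h4
      rcases h4 with ⟨rfl, rfl⟩ | ⟨rfl, rfl⟩
      · rfl
      · exact absurd h2.1 h3.2.2
    calc ∑ t ∈ W.sigma fun x => nb x \ W, μ.real {S | Un n S = W} *
          μ.real {S | (res (openGraph S) W).Reachable 0 t.1}
        ≤ ∑ t ∈ W.sigma fun x => nb x \ W, μ.real ((piv s(t.1, t.2) A ∩
          {S | s(t.1, t.2) ∉ S}) ∩ {S | Un n S = W}) := by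
          apply sum_le_sum
          rintro ⟨x, y⟩ h2
          rw [Finset.mem_sigma, Finset.mem_sdiff] at h2
          have h3 : Disjoint (E \ Ein W) (Ein W) := Finset.sdiff_disjoint
          rw [← perc_indep p (fun e he => lat_Ein _ e (Finset.mem_sdiff.mp he).1) (lat_Ein W) h3
            (hUdet W) (det_res (W := W) (fun G : SimpleGraph (ℤ × ℤ) => G.Reachable 0 x))]
          apply perc_mono
          rintro S ⟨h4, h5⟩
          have h4' : Un n S = W := h4
          have h5' : (res (openGraph S) W).Reachable 0 x := h5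
          subst h4'
          obtain ⟨a1, a2, _⟩ := un_piv hn hWW.2 h2.1 h2.2.2 (mem_nb.mp h2.2.1) h5'
          exact ⟨⟨a1, a2⟩, rfl⟩
      _ = ∑ e ∈ (W.sigma fun x => nb x \ W).image (fun t => (s(t.1, t.2) : Edge)),
          μ.real ((piv e A ∩ {S | e ∉ S}) ∩ {S | Un n S = W}) := by
          rw [Finset.sum_image hinj]
      _ ≤ ∑ e ∈ E, μ.real ((piv e A ∩ {S | e ∉ S}) ∩ {S | Un n S = W}) := by
          apply sum_le_sum_of_subset_of_nonneg
          · intro e he
            rw [Finset.mem_image] at he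
            obtain ⟨⟨x, y⟩, h2, rfl⟩ := he
            rw [Finset.mem_sigma, Finset.mem_sdiff] at h2
            have h3 := mem_Lam.mp (hWW.1 h2.1)
            have h4 := mem_nb.mp h2.2.1
            have h5 := dst_adj h4 0
            rw [hE, mem_Ein, mem_Lam, mem_Lam]
            simp only at h3 h4 h5 ⊢
            exact ⟨by omega, by omega, h4⟩
          · intro e _ _
            exact measureReal_nonneg
  -- the total mass
  have hmass : ∑ W ∈ 𝒲, μ.real {S | Un n S = W} = 1 - μ.real A := by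
    rw [← measureReal_biUnion_finset]
    · have h1 : (⋃ W ∈ 𝒲, {S | Un n S = W}) = Aᶜ := by
        ext S
        simp only [Set.mem_iUnion, Set.mem_ofPred_eq, exists_prop, exists_eq_right']
        rw [hW, Finset.mem_filter, Finset.mem_powerset, Set.mem_compl_iff, hA, far_iff_un, not_not]
        exact ⟨fun h => h.2, fun h => ⟨un_sub hn S, h⟩⟩
      rw [h1, measureReal_compl (far_loc n 0).meas, probReal_univ]
    · intro W _ W' _ hne
      rw [Function.onFun, Set.disjoint_left]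
      intro S h1 h2
      exact hne (h1.symm.trans h2)
    · intro W _
      exact hUmeas W
  have hq : 0 < 1 - (p : ℝ) := by linarith
  calc 4 * (1 - μ.real A) ≤ (1 - (p : ℝ))⁻¹ * ((1 - μ.real A) * (1 / p)) := by
        have h1 : 0 ≤ 1 - μ.real A := by
          have : μ.real A ≤ 1 := measureReal_le_one
          linarith
        have h2 : 4 ≤ (1 - (p : ℝ))⁻¹ * (1 / p) := by
          rw [one_div, ← mul_inv, le_inv_comm₀ (by norm_num) (by positivity)]
          nlinarith [sq_nonneg ((p : ℝ) - 1 / 2)]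
        nlinarith
    _ ≤ (1 - (p : ℝ))⁻¹ * ∑ W ∈ 𝒲, μ.real {S | Un n S = W} * (phi p W / p) := by
        apply mul_le_mul_of_nonneg_left _ (by positivity)
        rw [← hmass, sum_mul]
        apply sum_le_sum
        intro W hWW
        apply mul_le_mul_of_nonneg_left _ measureReal_nonneg
        rw [hW, Finset.mem_filter] at hWW
        have := hφ W hWW.2
        gcongr
    _ ≤ (1 - (p : ℝ))⁻¹ * ∑ W ∈ 𝒲, ∑ e ∈ E,
        μ.real ((piv e A ∩ {S | e ∉ S}) ∩ {S | Un n S = W}) := by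
        apply mul_le_mul_of_nonneg_left _ (by positivity)
        exact sum_le_sum hWterm
    _ ≤ (1 - (p : ℝ))⁻¹ * ∑ e ∈ E, μ.real (piv e A ∩ {S | e ∉ S}) := by
        apply mul_le_mul_of_nonneg_left _ (by positivity)
        rw [sum_comm]
        exact sum_le_sum hsplit
    _ = ∑ e ∈ E, pr p E (piv e A) := by
        rw [mul_sum]
        exact sum_congr rfl fun e he => (hclosed e he).symm

end

lemma phi_mono {p p' : I} (h : p ≤ p') (W : Finset (ℤ × ℤ)) : phi p W ≤ phi p' W := by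
  unfold phi
  have h1 : (p : ℝ) ≤ p' := h
  have h2 : (0 : ℝ) ≤ p := p.2.1
  apply mul_le_mul h1 _ (by positivity) (h2.trans h1)
  apply sum_le_sum
  intro x _
  apply mul_le_mul_of_nonneg_left _ (by positivity)
  exact perc_mono_q h (loc_res (W := W) fun G : SimpleGraph (ℤ × ℤ) => G.Reachable 0 x)
    (inc_reach _ _ _)

/-- **Second half of the sharpness theorem.** -/
theorem far_lower {p q : I} (hp0 : 0 < (p : ℝ)) (hpq : (p : ℝ) < q) (hq1 : (q : ℝ) < 1)
    (hφ : ∀ W : Finset (ℤ × ℤ), (0 : ℤ × ℤ) ∈ W → 1 ≤ phi p W) (n : ℕ) :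
    4 * ((q : ℝ) - p) / (1 + 4 * (q - p)) ≤ (perc q).real (Far n 0) := by
  have hd : 0 < (q : ℝ) - p := by linarith
  rcases Nat.eq_zero_or_pos n with rfl | hn
  · have : Far 0 0 = Set.univ := by
      ext S
      simp only [Set.mem_univ, iff_true]
      exact ⟨0, Nat.zero_le _, Reachable.refl _⟩
    rw [this, probReal_univ, div_le_one (by positivity)]
    linarith
  set E := Ein (Lam 0 n) with hE
  have hdet : ∀ r : I, (perc r).real (Far n 0) = pr r E (Far n 0) :=
    fun r => perc_det r (lat_Ein _) (far_det n 0)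
  have hder := fun x : ℝ => russo x E (far_inc n 0)
  obtain ⟨c, hc, hc'⟩ := exists_hasDerivAt_eq_slope (fun q => pr q E (Far n 0))
    (fun x => ∑ e ∈ E, pr x E (piv e (Far n 0))) hpq
    (fun x _ => (hder x).continuousAt.continuousWithinAt) (fun x _ => hder x)
  have hcI : c ∈ Set.Icc (0 : ℝ) 1 := ⟨by linarith [hc.1], by linarith [hc.2]⟩
  set r : I := ⟨c, hcI⟩ with hr
  have hrc : (r : ℝ) = c := rfl
  have h1 := russo_lower r (by rw [hrc]; linarith [hc.1]) (by rw [hrc]; linarith [hc.2])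
    (fun W h0 => (hφ W h0).trans (phi_mono (by
      change (p : ℝ) ≤ c
      exact hc.1.le) W)) (n := n) hn
  rw [hrc, ← hE, hc', le_div_iff₀ hd, hdet r] at h1
  have h2 : pr (r : ℝ) E (Far n 0) ≤ pr (q : ℝ) E (Far n 0) :=
    pr_mono_q hcI.1 hc.2.le q.2.2 E (far_inc n 0)
  have h3 : 0 ≤ pr (p : ℝ) E (Far n 0) := pr_nonneg p.2.1 p.2.2 E _
  rw [hdet q, div_le_iff₀ (by positivity)]
  nlinarith

end Pool.Agent.Lib.MP_566bac_pr
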