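import Pool.Agent.Lib.MP_566bac_pr.HarrisB
import Pool.Agent.Lib.MP_566bac_pr.SharpB

/-!
# Exponential decay below one half
-/

open MeasureTheory ProbabilityTheory Finset unitInterval SimpleGraph Filter
open scoped ENNReal

namespace Pool.Agent.Lib.MP_566bac_pr

lemma far_half {δ : ℝ} (hδ : 0 < δ) : ∃ n, (perc half).real (Far n 0) < δ := by
  have hsub : (⋂ n, Far n 0) ⊆ {S | (0 : ℤ × ℤ) ∈ infSet (openGraph S)} := by
    intro S hS hfin
    rw [Set.mem_iInter] at hS
    obtain ⟨n, hn⟩ := (hfin.image (fun z => dst z 0)).bddAbove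
    obtain ⟨z, hz1, hz2⟩ := hS (n + 1)
    have := hn ⟨z, hz2, rfl⟩
    simp only at this
    omega
  have h1 : (perc half) (⋂ n, Far n 0) = 0 := by
    have h2 := perc_mono half hsub
    rw [harris] at h2
    have h3 : (perc half).real (⋂ n, Far n 0) = 0 := le_antisymm h2 measureReal_nonneg
    rw [measureReal_def, ENNReal.toReal_eq_zero_iff] at h3
    rcases h3 with h | h
    · exact h
    · exact absurd h (measure_ne_top _ _)
  have hanti : Antitone fun n => Far n 0 := fun a b hab => far_anti hab 0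
  have h2 : Tendsto (fun n => (perc half) (Far n 0)) atTop (nhds 0) := by
    rw [← h1]
    exact tendsto_measure_iInter_atTop (fun n => (far_loc n 0).meas.nullMeasurableSet) hanti
      ⟨0, measure_ne_top _ _⟩
  have h3 : Tendsto (fun n => (perc half).real (Far n 0)) atTop (nhds 0) := by
    have := (ENNReal.tendsto_toReal (by simp : (0 : ℝ≥0∞) ≠ ∞)).comp h2
    rw [ENNReal.toReal_zero] at this
    exact this
  exact (h3.eventually (gt_mem_nhds hδ)).exists

/-- **Exponential decay below one half.** -/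
theorem subcritical {q : I} (hq : (q : ℝ) < 1 / 2) :
    ∃ C γ : ℝ, 0 ≤ C ∧ 0 < γ ∧ γ < 1 ∧ ∀ n, (perc q).real (Far n 0) ≤ C * γ ^ n := by
  by_contra hcon
  have hφ : ∀ W : Finset (ℤ × ℤ), (0 : ℤ × ℤ) ∈ W → 1 ≤ phi q W := by
    intro W h0
    by_contra h
    push Not at h
    exact hcon (decay_of_phi q h0 h)
  have hq0 : 0 < (q : ℝ) := by
    by_contra h
    have h1 : (q : ℝ) = 0 := le_antisymm (not_lt.mp h) q.2.1
    have h2 := hφ {0} (by simp)
    unfold phi at h2
    rw [h1, zero_mul] at h2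
    linarith
  have hhalf : ((half : I) : ℝ) = 1 / 2 := rfl
  have h1 := fun n => far_lower (p := q) (q := half) hq0 (by rw [hhalf]; exact hq)
    (by rw [hhalf]; norm_num) hφ n
  rw [hhalf] at h1
  have hδ : 0 < 4 * ((1 : ℝ) / 2 - q) / (1 + 4 * (1 / 2 - q)) := by
    have : 0 < (1 : ℝ) / 2 - q := by linarith
    positivity
  obtain ⟨n, hn⟩ := far_half hδ
  linarith [h1 n]

end Pool.Agent.Lib.MP_566bac_pr
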