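import Pool.Agent.Lib.MP_566bac_pr.Plane

/-!
# Boundaries of sets of faces: parity
-/

open Finset SimpleGraph

namespace Pool.Agent.Lib.MP_566bac_pr

section
open Classical

/-- indicator with values in `ZMod 2` -/
noncomputable def ind (P : ℤ × ℤ → Prop) (z : ℤ × ℤ) : ZMod 2 := if P z then 1 else 0

lemma ind_congr {P : ℤ × ℤ → Prop} {z w : ℤ × ℤ} (h : P z ↔ P w) : ind P z = ind P w := by
  unfold ind
  simp only [h]

lemma ind_eq_one {P : ℤ × ℤ → Prop} {z : ℤ × ℤ} (h : ind P z ≠ 0) : P z := by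
  unfold ind at h
  by_contra h'
  rw [if_neg h'] at h
  exact h rfl

lemma ind_pos {P : ℤ × ℤ → Prop} {z : ℤ × ℤ} (h : P z) : ind P z = 1 := if_pos h

lemma ind_neg {P : ℤ × ℤ → Prop} {z : ℤ × ℤ} (h : ¬ P z) : ind P z = 0 := if_neg h

variable (D : ℤ × ℤ → Prop)

/-- boundary of the set of faces `D` at the horizontal edge from `(a, b)` -/
noncomputable def bh (a b : ℤ) : ZMod 2 := ind D (a, b - 1) + ind D (a, b)

/-- boundary of the set of faces `D` at the vertical edge from `(a, b)` -/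
noncomputable def bv (a b : ℤ) : ZMod 2 := ind D (a - 1, b) + ind D (a, b)

lemma vertex_even (a b : ℤ) : bh D (a - 1) b + bh D a b = bv D a (b - 1) + bv D a b := by
  unfold bh bv
  ring

lemma zmod_double (x : ZMod 2) : x + x = 0 := CharTwo.add_self_eq_zero x

/-- sum of `g` over the heights in `(b, H]` -/
noncomputable def tail (g : ℤ → ZMod 2) (H b : ℤ) : ZMod 2 := ∑ h ∈ Finset.Ioc b H, g h

lemma tail_top (g : ℤ → ZMod 2) {H b : ℤ} (h : H ≤ b) : tail g H b = 0 := by
  unfold tail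
  rw [Finset.Ioc_eq_empty (by omega), sum_empty]

lemma tail_step (g : ℤ → ZMod 2) {H b : ℤ} (h : b ≤ H) :
    tail g H (b - 1) = g b + tail g H b := by
  unfold tail
  have e : Finset.Ioc (b - 1) H = insert b (Finset.Ioc b H) := by
    ext x
    rw [Finset.mem_insert, Finset.mem_Ioc, Finset.mem_Ioc]
    omega
  rw [e, sum_insert (by simp)]

lemma tail_congr {g g' : ℤ → ZMod 2} {H b : ℤ} (h : ∀ x, b < x → x ≤ H → g x = g' x) :
    tail g H b = tail g' H b := by
  unfold tail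
  apply sum_congr rfl
  intro x hx
  rw [Finset.mem_Ioc] at hx
  exact h x hx.1 hx.2

lemma tail_add (g g' : ℤ → ZMod 2) (H b : ℤ) :
    tail (fun x => g x + g' x) H b = tail g H b + tail g' H b := by
  unfold tail
  rw [sum_add_distrib]

/-- telescoping -/
lemma tail_tele (t : ℤ → ZMod 2) {H b : ℤ} (h : b ≤ H) :
    tail (fun x => t (x - 1) + t x) H b = t b + t H := by
  have key : ∀ n : ℕ, tail (fun x => t (x - 1) + t x) H (H - n) = t (H - n) + t H := by
    intro n
    induction n with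
    | zero =>
      simp only [Nat.cast_zero, sub_zero]
      rw [tail_top _ le_rfl, zmod_double]
    | succ n ih =>
      have e : H - ((n + 1 : ℕ) : ℤ) = H - n - 1 := by push_cast; ring
      rw [e, tail_step _ (by omega), ih]
      linear_combination zmod_double (t (H - n))
  have := key (H - b).toNat
  have e : H - ((H - b).toNat : ℤ) = b := by omega
  rwa [e] at this

lemma exists_of_tail {g : ℤ → ZMod 2} {H b : ℤ} (h : tail g H b ≠ 0) :
    ∃ x, b < x ∧ x ≤ H ∧ g x ≠ 0 := by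
  unfold tail at h
  obtain ⟨x, hx, hx'⟩ := Finset.exists_ne_zero_of_sum_ne_zero h
  rw [Finset.mem_Ioc] at hx
  exact ⟨x, hx.1, hx.2, hx'⟩

/-- selection of a class with an odd sum -/
lemma select {Q : Type*} (comp : ℤ → Q) (g : ℤ → ZMod 2) {H b : ℤ} (h : tail g H b ≠ 0) :
    ∃ q : Q, tail (fun x => g x * (if comp x = q then 1 else 0)) H b = 1 := by
  by_contra hcon
  push Not at hcon
  have h0 : ∀ q, tail (fun x => g x * (if comp x = q then 1 else 0)) H b = 0 := by
    intro q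
    have h2 : ∀ z : ZMod 2, z ≠ 1 → z = 0 := by decide
    exact h2 _ (hcon q)
  apply h
  unfold tail at h0 ⊢
  rw [← Finset.sum_fiberwise_of_maps_to (s := Finset.Ioc b H) (t := (Finset.Ioc b H).image comp)
    (g := comp) (fun x hx => Finset.mem_image_of_mem _ hx)]
  apply Finset.sum_eq_zero
  intro q _
  rw [← h0 q, Finset.sum_filter]
  apply sum_congr rfl
  intro x _
  by_cases hq : comp x = q
  · simp [hq]
  · simp [hq]

/-- the weighted number of boundary edges above `(a, b)` -/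
noncomputable def wP (P : ℤ × ℤ → Prop) (H a b : ℤ) : ZMod 2 :=
  tail (fun h => bh D a h * ind P (a, h)) H b

variable {D}

lemma wP_v {P : ℤ × ℤ → Prop} {H a b : ℤ} (h : b ≤ H) :
    wP D P H a (b - 1) = bh D a b * ind P (a, b) + wP D P H a b := tail_step _ h

lemma wP_h {P : ℤ × ℤ → Prop} {H a b : ℤ} (hb : b ≤ H)
    (c1 : ∀ h, b < h → bh D (a - 1) h ≠ 0 → (P (a - 1, h) ↔ P (a, h)))
    (c2 : ∀ h, b ≤ h → bv D a h ≠ 0 → (P (a, h) ↔ P (a, h + 1)))
    (c3 : ¬ D (a, H) ∧ ¬ D (a - 1, H)) :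
    wP D P H (a - 1) b + wP D P H a b = bv D a b * ind P (a, b) := by
  unfold wP
  rw [← tail_add]
  have h1 : tail (fun x => bh D (a - 1) x * ind P (a - 1, x) + bh D a x * ind P (a, x)) H b =
      tail (fun x => bv D a (x - 1) * ind P (a, x - 1) + bv D a x * ind P (a, x)) H b := by
    apply tail_congr
    intro x hx _
    have e1 : bh D (a - 1) x * ind P (a - 1, x) = bh D (a - 1) x * ind P (a, x) := by
      by_cases h : bh D (a - 1) x = 0
      · rw [h, zero_mul, zero_mul]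
      · rw [ind_congr (c1 x hx h)]
    have e2 : bv D a (x - 1) * ind P (a, x - 1) = bv D a (x - 1) * ind P (a, x) := by
      by_cases h : bv D a (x - 1) = 0
      · rw [h, zero_mul, zero_mul]
      · have := c2 (x - 1) (by omega) h
        rw [sub_add_cancel] at this
        rw [ind_congr this]
    rw [e1, e2, ← add_mul, ← add_mul, vertex_even]
  rw [h1, tail_tele (fun x => bv D a x * ind P (a, x)) hb]
  have e3 : bv D a H = 0 := by
    unfold bv
    rw [ind_neg c3.1, ind_neg c3.2, add_zero]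
  rw [e3, zero_mul, add_zero]

/-- total number of boundary edges in a column -/
lemma bh_total {H a b : ℤ} (hb : b ≤ H) : tail (bh D a) H b = ind D (a, b) + ind D (a, H) := by
  have : bh D a = fun x => ind D (a, x - 1) + ind D (a, x) := rfl
  rw [this, tail_tele (fun x => ind D (a, x)) hb]

/-- an edge is in the boundary -/
def Bdy (D : ℤ × ℤ → Prop) (e : Edge) : Prop :=
  ∃ f g, lattice.Adj f g ∧ dlt s(f, g) = e ∧ D f ∧ ¬ D g

lemma ind_add_ne {P : ℤ × ℤ → Prop} {z w : ℤ × ℤ} (h : ind P z + ind P w ≠ 0) :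
    (P z ∧ ¬ P w) ∨ (P w ∧ ¬ P z) := by
  by_cases h1 : P z <;> by_cases h2 : P w
  · rw [ind_pos h1, ind_pos h2] at h
    exact absurd (by decide) h
  · exact Or.inl ⟨h1, h2⟩
  · exact Or.inr ⟨h2, h1⟩
  · rw [ind_neg h1, ind_neg h2] at h
    exact absurd (by decide) h

lemma bdy_h {a b : ℤ} (h : bh D a b ≠ 0) : Bdy D s((a, b), (a + 1, b)) := by
  have e := dlt_v a (b - 1)
  rw [sub_add_cancel] at e
  have had := adj_v a (b - 1)
  rw [sub_add_cancel] at had
  rcases ind_add_ne h with ⟨h1, h2⟩ | ⟨h1, h2⟩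
  · exact ⟨_, _, had, e, h1, h2⟩
  · exact ⟨_, _, had.symm, by rw [Sym2.eq_swap, e], h1, h2⟩

lemma bdy_v {a b : ℤ} (h : bv D a b ≠ 0) : Bdy D s((a, b), (a, b + 1)) := by
  have e := dlt_h (a - 1) b
  rw [sub_add_cancel] at e
  have had := adj_h (a - 1) b
  rw [sub_add_cancel] at had
  rcases ind_add_ne h with ⟨h1, h2⟩ | ⟨h1, h2⟩
  · exact ⟨_, _, had, e, h1, h2⟩
  · exact ⟨_, _, had.symm, by rw [Sym2.eq_swap, e], h1, h2⟩

/-- the faces touching a vertex -/
def FT (z f : ℤ × ℤ) : Prop := (f.1 = z.1 - 1 ∨ f.1 = z.1) ∧ (f.2 = z.2 - 1 ∨ f.2 = z.2)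

lemma bdy_touch {z w : ℤ × ℤ} (h : Bdy D s(z, w)) :
    ∃ f g, FT z f ∧ FT z g ∧ FT w f ∧ FT w g ∧ D f ∧ ¬ D g := by
  obtain ⟨f, g, hfg, he, hf, hg⟩ := h
  refine ⟨f, g, ?_⟩
  have key : FT z f ∧ FT z g ∧ FT w f ∧ FT w g := by
    obtain ⟨a, b⟩ := f
    obtain ⟨z1, z2⟩ := z
    obtain ⟨w1, w2⟩ := w
    rw [lattice_adj_iff] at hfg
    unfold FT
    rcases hfg with h | h | h | h <;> subst h
    · rw [dlt_h, Sym2.eq_iff] at he
      simp only [Prod.mk.injEq] at he ⊢
      omega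
    · have e := dlt_h (a - 1) b
      rw [sub_add_cancel] at e
      rw [Sym2.eq_swap, e, Sym2.eq_iff] at he
      simp only [Prod.mk.injEq] at he ⊢
      omega
    · rw [dlt_v, Sym2.eq_iff] at he
      simp only [Prod.mk.injEq] at he ⊢
      omega
    · have e := dlt_v a (b - 1)
      rw [sub_add_cancel] at e
      rw [Sym2.eq_swap, e, Sym2.eq_iff] at he
      simp only [Prod.mk.injEq] at he ⊢
      omega
  exact ⟨key.1, key.2.1, key.2.2.1, key.2.2.2, hf, hg⟩

lemma bdy_adj {z w : ℤ × ℤ} (h : Bdy D s(z, w)) : lattice.Adj z w := by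
  obtain ⟨f, g, hfg, he, _⟩ := h
  have := dlt_mem (e := s(f, g)) hfg
  rw [he, SimpleGraph.mem_edgeSet] at this
  exact this

/-- closed under crossing closed edges -/
def Clos (S : Set Edge) (D : ℤ × ℤ → Prop) : Prop :=
  ∀ f g, (openGraph (dualize S)).Adj f g → D f → D g

lemma bdy_open {S : Set Edge} (hD : Clos S D) {z w : ℤ × ℤ} (h : Bdy D s(z, w)) :
    (openGraph S).Adj z w := by
  refine ⟨bdy_adj h, ?_⟩
  obtain ⟨f, g, hfg, he, hf, hg⟩ := h
  by_contra hS
  apply hg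
  refine hD f g ?_ hf
  rw [dual_adj, he]
  exact ⟨hfg, hS⟩

end

end Pool.Agent.Lib.MP_566bac_pr
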