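import Pool.Agent.Lib.MP_566bac_pr.Levels

/-!
# Uniqueness of the infinite cluster
-/

open Finset SimpleGraph

namespace Pool.Agent.Lib.MP_566bac_pr

/-- all dual clusters are finite -/
def DualFin (S : Set Edge) : Prop :=
  ∀ f, {g | (openGraph (dualize S)).Reachable f g}.Finite

lemma uniq_aux {S : Set Edge} (h : DualFin S) (n : ℕ) :
    ∃ q : (openGraph S).ConnectedComponent, ∀ x ∈ Lam 0 n, x ∈ infSet (openGraph S) →
      (openGraph S).connectedComponentMk x = q := by
  classical
  set R : Set (ℤ × ℤ) := ⋃ f ∈ Lam 0 (n + 1), {g | (openGraph (dualize S)).Reachable f g} with hR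
  have hRfin : R.Finite := Set.Finite.biUnion (Finset.finite_toSet _) fun f _ => h f
  set D : ℤ × ℤ → Prop := fun f => f ∈ R with hD
  have hclos : Clos S D := by
    intro f g hfg hf
    simp only [hD, hR, Set.mem_iUnion] at hf ⊢
    obtain ⟨f0, h0, h1⟩ := hf
    exact ⟨f0, h0, Reachable.trans h1 hfg.reachable⟩
  have hbox : ∀ f ∈ Lam 0 (n + 1), D f := by
    intro f hf
    simp only [hD, hR, Set.mem_iUnion]
    exact ⟨f, hf, Reachable.refl _⟩
  obtain ⟨B, hB⟩ := (hRfin.image fun f => f.1.natAbs + f.2.natAbs).bddAbove
  set H : ℤ := B + 1 with hH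
  have hDH : ∀ f, D f → -H < f.1 ∧ f.1 < H ∧ -H < f.2 ∧ f.2 < H := by
    intro f hf
    have := hB ⟨f, hf, rfl⟩
    simp only at this
    omega
  have hH0 : 0 < H := by omega
  -- the class
  have htot : tail (bh D 0) H 0 = 1 := by
    rw [bh_total hH0.le, ind_pos (hbox (0, 0) (by rw [mem_Lam, dst_le]; simp; positivity)),
      ind_neg (fun hc => by have := hDH _ hc; omega)]
    decide
  obtain ⟨q, hq⟩ := select (fun x => (openGraph S).connectedComponentMk (0, x)) (bh D 0)
    (H := H) (b := 0) (by rw [htot]; decide)
  set P : ℤ × ℤ → Prop := fun z => (openGraph S).connectedComponentMk z = q with hP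
  have hPadj : ∀ z w : ℤ × ℤ, Bdy D s(z, w) → (P z ↔ P w) := by
    intro z w hb
    have h1 := bdy_open hclos hb
    simp only [hP, ConnectedComponent.sound h1.reachable]
  set w : ℤ → ℤ → ZMod 2 := fun a b => wP D P H a b with hw
  have hw0 : w 0 0 = 1 := by
    rw [← hq]
    rfl
  have wtop : ∀ a b, H ≤ b → w a b = 0 := fun a b hb => tail_top _ hb
  have wv : ∀ a b, w a (b - 1) = bh D a b * ind P (a, b) + w a b := by
    intro a b
    rcases le_or_gt b H with hb | hb
    · exact wP_v hb
    · rw [wtop a (b - 1) (by omega), wtop a b (by omega)]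
      have : bh D a b = 0 := by
        unfold bh
        rw [ind_neg (fun hc => by have := hDH _ hc; simp only at this; omega),
          ind_neg (fun hc => by have := hDH _ hc; simp only at this; omega), add_zero]
      rw [this]
      ring
  have wh : ∀ a b, w (a - 1) b + w a b = bv D a b * ind P (a, b) := by
    intro a b
    rcases le_or_gt b H with hb | hb
    · refine wP_h hb ?_ ?_ ⟨fun hc => by have := hDH _ hc; simp only at this; omega,
        fun hc => by have := hDH _ hc; simp only at this; omega⟩
      · intro h _ hne
        have := bdy_h hne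
        rw [sub_add_cancel] at this
        exact hPadj _ _ this
      · intro h _ hne
        exact hPadj _ _ (bdy_v hne)
    · rw [wtop (a - 1) b (by omega), wtop a b (by omega)]
      have : bv D a b = 0 := by
        unfold bv
        rw [ind_neg (fun hc => by have := hDH _ hc; simp only at this; omega),
          ind_neg (fun hc => by have := hDH _ hc; simp only at this; omega), add_zero]
      rw [this]
      ring
  -- constancy on the faces of the box
  have hin : ∀ f g : ℤ × ℤ, lattice.Adj f g → D f → D g → w f.1 f.2 = w g.1 g.2 := by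
    intro f g hfg hf hg
    obtain ⟨a, b⟩ := f
    rw [lattice_adj_iff] at hfg
    rcases hfg with h | h | h | h <;> subst h <;> simp only
    · have := wh (a + 1) b
      rw [add_sub_cancel_right] at this
      unfold bv at this
      rw [add_sub_cancel_right, ind_pos hf, ind_pos hg, zmod_double, zero_mul] at this
      exact CharTwo.add_eq_zero.mp this
    · have := wh a b
      unfold bv at this
      rw [ind_pos hf, ind_pos hg, zmod_double, zero_mul] at this
      exact (CharTwo.add_eq_zero.mp this).symm
    · have := wv a (b + 1)
      rw [add_sub_cancel_right] at this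
      unfold bh at this
      rw [add_sub_cancel_right, ind_pos hf, ind_pos hg, zmod_double, zero_mul, zero_add] at this
      exact this
    · have := wv a b
      unfold bh at this
      rw [ind_pos hf, ind_pos hg, zmod_double, zero_mul, zero_add] at this
      exact this.symm
  have hbox1 : ∀ f ∈ Lam 0 (n + 1), w f.1 f.2 = 1 := by
    intro f hf
    have h00 : ((0, 0) : ℤ × ℤ) ∈ Lam 0 (n + 1) := by
      rw [mem_Lam, dst_le]; simp; positivity
    obtain ⟨p, hp⟩ := Lam_conn h00 hf
    have key : ∀ {a b : ℤ × ℤ} (p : lattice.Walk a b), (∀ z ∈ p.support, z ∈ Lam 0 (n + 1)) →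
        w a.1 a.2 = w b.1 b.2 := by
      intro a b p
      induction p with
      | nil => exact fun _ => rfl
      | @cons u v x hadj p ih =>
        intro h
        rw [hin u v hadj (hbox u (h u (by simp))) (hbox v (h v (by simp)))]
        exact ih fun z hz => h z (by simp [hz])
    rw [← key p hp]
    exact hw0
  -- the faces around a vertex outside `P`
  have hfour : ∀ a b : ℤ, ¬ P (a, b) → w (a - 1) (b - 1) = w a b ∧ w (a - 1) b = w a b ∧
      w a (b - 1) = w a b := by
    intro a b hab
    have e1 : w a (b - 1) = w a b := by
      rw [wv, ind_neg hab, mul_zero, zero_add]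
    have e2 : w (a - 1) b = w a b := by
      have := wh a b
      rw [ind_neg hab, mul_zero] at this
      exact CharTwo.add_eq_zero.mp this
    have e3 : w (a - 1) (b - 1) = w (a - 1) b := by
      rw [wv (a - 1) b]
      have : bh D (a - 1) b * ind P (a - 1, b) = 0 := by
        by_cases h0 : bh D (a - 1) b = 0
        · rw [h0, zero_mul]
        · have h1 := bdy_h h0
          rw [sub_add_cancel] at h1
          rw [ind_congr (hPadj _ _ h1), ind_neg hab, mul_zero]
      rw [this, zero_add]
    exact ⟨e3.trans e2, e2, e1⟩
  have hstep : ∀ u v : ℤ × ℤ, lattice.Adj u v → ¬ P u → ¬ P v → w u.1 u.2 = w v.1 v.2 := by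
    intro u v huv hu hv
    obtain ⟨a, b⟩ := u
    rw [lattice_adj_iff] at huv
    rcases huv with h | h | h | h <;> subst h <;> simp only
    · have := (hfour (a + 1) b hv).2.1
      rw [add_sub_cancel_right] at this
      exact this
    · exact ((hfour a b hu).2.1).symm
    · have := (hfour a (b + 1) hv).2.2
      rw [add_sub_cancel_right] at this
      exact this
    · exact ((hfour a b hu).2.2).symm
  -- far away
  have hside : ∀ a b, (H ≤ a ∨ a ≤ -H) → w a b = 0 := by
    intro a b ha
    have h0 : ∀ x, bh D a x = 0 := by
      intro x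
      unfold bh
      rw [ind_neg (fun hc => by have := hDH _ hc; simp only at this; omega),
        ind_neg (fun hc => by have := hDH _ hc; simp only at this; omega), add_zero]
    simp only [hw, wP]
    unfold tail
    apply Finset.sum_eq_zero
    intro x _
    rw [h0, zero_mul]
  have hbot : ∀ a b, b ≤ -H → w a b = 0 := by
    intro a b hb
    have hc : ∀ n : ℕ, w (H - n) b = 0 := by
      intro n
      induction n with
      | zero => exact hside _ _ (Or.inl (by simp))
      | succ n ih =>
        have h1 := wh (H - n) b
        have h0 : bv D (H - n) b = 0 := by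
          unfold bv
          rw [ind_neg (fun hc => by have := hDH _ hc; simp only at this; omega),
            ind_neg (fun hc => by have := hDH _ hc; simp only at this; omega), add_zero]
        rw [h0, zero_mul, ih, add_zero] at h1
        have e : H - ((n + 1 : ℕ) : ℤ) = H - n - 1 := by push_cast; ring
        rw [e]
        exact h1
    rcases le_or_gt H a with ha | ha
    · exact hside a b (Or.inl ha)
    · have := hc (H - a).toNat
      have e : H - ((H - a).toNat : ℤ) = a := by omega
      rwa [e] at this
  have hfar : ∀ a b, (H ≤ a ∨ a ≤ -H ∨ H ≤ b ∨ b ≤ -H) → w a b = 0 := by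
    intro a b hab
    rcases hab with h | h | h | h
    · exact hside a b (Or.inl h)
    · exact hside a b (Or.inr h)
    · exact wtop a b h
    · exact hbot a b h
  refine ⟨q, ?_⟩
  intro x hx hxinf
  by_contra hxq
  -- a far vertex of the cluster of `x`
  obtain ⟨z, hz1, hz2⟩ : ∃ z, (openGraph S).Reachable x z ∧ z ∉ Lam 0 H.toNat := by
    by_contra hcon
    push Not at hcon
    exact hxinf ((Lam 0 H.toNat).finite_toSet.subset fun z hz => hcon z hz)
  obtain ⟨p⟩ := hz1
  have key : ∀ {a b : ℤ × ℤ} (p : (openGraph S).Walk a b), ¬ P a → w a.1 a.2 = w b.1 b.2 := by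
    intro a b p
    induction p with
    | nil => exact fun _ => rfl
    | @cons u v y hadj p ih =>
      intro hu
      have hv : ¬ P v := by
        simp only [hP, ← ConnectedComponent.sound hadj.reachable]
        exact hu
      rw [hstep u v hadj.1 hu hv]
      exact ih hv
  have h1 := key p hxq
  rw [hbox1 x (by rw [mem_Lam] at hx ⊢; omega)] at h1
  rw [mem_Lam0] at hz2
  rw [hfar z.1 z.2 (by omega)] at h1
  exact absurd h1 (by decide)

/-- **Uniqueness of the infinite cluster.** -/
theorem unique2 {S : Set Edge} (h : DualFin S) {x y : ℤ × ℤ} (hx : x ∈ infSet (openGraph S))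
    (hy : y ∈ infSet (openGraph S)) : (openGraph S).Reachable x y := by
  obtain ⟨q, hq⟩ := uniq_aux h (max (dst x 0) (dst y 0))
  have h1 := hq x (by rw [mem_Lam]; exact le_max_left _ _) hx
  have h2 := hq y (by rw [mem_Lam]; exact le_max_right _ _) hy
  exact ConnectedComponent.exact (h1.trans h2.symm)

end Pool.Agent.Lib.MP_566bac_pr
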