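import Pool.Agent.Lib.MP_566bac_pr.Nodal

/-!
# Admissible words and a counting inequality
-/

open SimpleGraph Finset

namespace Pool.Agent.Lib.MP_566bac_pr

/-- the moves of an admissible path -/
inductive Move
  | up (d : Fin 4)
  | lvl
  | dn
  | lf
  | rt
  deriving DecidableEq, Fintype

/-- the four directions -/
def dir : Fin 4 → ℤ × ℤ
  | 0 => (1, 0)
  | 1 => (-1, 0)
  | 2 => (0, 1)
  | 3 => (0, -1)

/-- the displacement of a move -/
def disp : Move → ℤ × ℤ
  | .up _ => (0, 1)
  | .lvl => (0, 3)
  | .dn => (0, -1)
  | .lf => (-1, -1)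
  | .rt => (1, -1)

/-- the edge at `v` in direction `d` -/
def ed (v : ℤ × ℤ) (d : Fin 4) : Sym2 (ℤ × ℤ) := s(v, v + dir d)

lemma ed_mem (v : ℤ × ℤ) (d : Fin 4) : ed v d ∈ lattice.edgeSet := by
  rw [ed, SimpleGraph.mem_edgeSet, lattice_adj_iff]
  obtain ⟨a, b⟩ := v
  fin_cases d <;> simp [dir, sub_eq_add_neg]

/-- the path described by the word `w`, read backwards from `v`, starts at a nonpositive height
and every up-move in direction `d` arrives at a vertex whose edge `d` is not in `S` -/
def Valid (S : Set (Sym2 (ℤ × ℤ))) : ℤ × ℤ → List Move → Prop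
  | v, [] => v.2 ≤ 0
  | v, Move.up d :: w => ed v d ∉ S ∧ Valid S (v - (0, 1)) w
  | v, a :: w => Valid S (v - disp a) w

/-- the positions of the path -/
def sites : ℤ × ℤ → List Move → List (ℤ × ℤ)
  | v, [] => [v]
  | v, a :: w => v :: sites (v - disp a) w

/-- the arrival points of the up-moves -/
def upSites : ℤ × ℤ → List Move → List (ℤ × ℤ)
  | _, [] => []
  | v, Move.up _ :: w => v :: upSites (v - (0, 1)) w
  | v, a :: w => upSites (v - disp a) w

/-- the closed edges of the path -/
def upEdges : ℤ × ℤ → List Move → List (Sym2 (ℤ × ℤ))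
  | _, [] => []
  | v, Move.up d :: w => ed v d :: upEdges (v - (0, 1)) w
  | v, a :: w => upEdges (v - disp a) w

lemma valid_cons {S : Set (Sym2 (ℤ × ℤ))} {v : ℤ × ℤ} {a : Move} {w : List Move}
    (h : Valid S v (a :: w)) : Valid S (v - disp a) w := by
  cases a with
  | up d => exact h.2
  | lvl => exact h
  | dn => exact h
  | lf => exact h
  | rt => exact h

lemma mem_sites_self (v : ℤ × ℤ) (w : List Move) : v ∈ sites v w := by
  cases w <;> simp [sites]

lemma exists_suffix {S : Set (Sym2 (ℤ × ℤ))} {z : ℤ × ℤ} :
    ∀ {v : ℤ × ℤ} {w : List Move}, Valid S v w → z ∈ sites v w →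
      ∃ w', Valid S z w' ∧ w'.count Move.lvl ≤ w.count Move.lvl ∧ w'.length ≤ w.length := by
  intro v w
  induction w generalizing v with
  | nil =>
    intro h hz
    simp only [sites, List.mem_singleton] at hz
    subst hz
    exact ⟨[], h, le_rfl, le_rfl⟩
  | cons a w ih =>
    intro h hz
    simp only [sites, List.mem_cons] at hz
    rcases hz with hz | hz
    · subst hz
      exact ⟨a :: w, h, le_rfl, le_rfl⟩
    · obtain ⟨w', h1, h2, h3⟩ := ih (valid_cons h) hz
      refine ⟨w', h1, h2.trans ?_, h3.trans ?_⟩
      · exact List.count_le_count_cons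
      · simp

/-- `w` is a shortest valid word for `v` with at most `k` level moves -/
def IsMin (S : Set (Sym2 (ℤ × ℤ))) (k : ℕ) (v : ℤ × ℤ) (w : List Move) : Prop :=
  Valid S v w ∧ w.count Move.lvl ≤ k ∧
    ∀ w', Valid S v w' → w'.count Move.lvl ≤ k → w.length ≤ w'.length

lemma valid_of_tail {S : Set (Sym2 (ℤ × ℤ))} {v : ℤ × ℤ} {a : Move} {w w' : List Move}
    (h : Valid S v (a :: w)) (h' : Valid S (v - disp a) w') : Valid S v (a :: w') := by
  cases a with
  | up d => exact ⟨h.1, h'⟩
  | lvl => exact h'
  | dn => exact h'
  | lf => exact h'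
  | rt => exact h'

lemma nodup_of_isMin {S : Set (Sym2 (ℤ × ℤ))} :
    ∀ {w : List Move} {k : ℕ} {v : ℤ × ℤ}, IsMin S k v w → (sites v w).Nodup := by
  intro w
  induction w with
  | nil => intro k v _; simp [sites]
  | cons a w ih =>
    intro k v h
    obtain ⟨h1, h2, h3⟩ := h
    simp only [sites, List.nodup_cons]
    constructor
    · intro hv
      obtain ⟨w', h4, h5, h6⟩ := exists_suffix (valid_cons h1) hv
      have h7 := h3 w' h4 (h5.trans (List.count_le_count_cons.trans h2))
      simp only [List.length_cons] at h7
      omega
    · have hc : (a :: w).count Move.lvl = w.count Move.lvl + if a = Move.lvl then 1 else 0 := by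
        rw [List.count_cons]
        simp
      apply ih (k := k - if a = Move.lvl then 1 else 0)
      refine ⟨valid_cons h1, by omega, ?_⟩
      intro w' h4 h5
      have h6 := h3 (a :: w') (valid_of_tail h1 h4) (by
        have hc' : (a :: w').count Move.lvl = w'.count Move.lvl + if a = Move.lvl then 1 else 0 := by
          rw [List.count_cons]
          simp
        omega)
      simpa using h6

lemma upSites_sublist (w : List Move) : ∀ v : ℤ × ℤ, (upSites v w).Sublist (sites v w) := by
  induction w with
  | nil => intro v; simp [upSites]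
  | cons a w ih =>
    intro v
    cases a with
    | up d => exact (ih _).cons_cons _
    | lvl => exact (ih _).cons _
    | dn => exact (ih _).cons _
    | lf => exact (ih _).cons _
    | rt => exact (ih _).cons _

lemma upEdges_closed {S : Set (Sym2 (ℤ × ℤ))} (w : List Move) :
    ∀ v : ℤ × ℤ, Valid S v w → ∀ e ∈ upEdges v w, e ∉ S := by
  induction w with
  | nil => intro v _ e he; simp [upEdges] at he
  | cons a w ih =>
    intro v h e he
    have h' := valid_cons h
    cases a with
    | up d =>
      simp only [upEdges, List.mem_cons] at he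
      rcases he with he | he
      · rw [he]; exact h.1
      · exact ih _ h' e he
    | lvl => exact ih _ h' e he
    | dn => exact ih _ h' e he
    | lf => exact ih _ h' e he
    | rt => exact ih _ h' e he

lemma upEdges_lattice (w : List Move) :
    ∀ v : ℤ × ℤ, ∀ e ∈ upEdges v w, e ∈ lattice.edgeSet := by
  induction w with
  | nil => intro v e he; simp [upEdges] at he
  | cons a w ih =>
    intro v e he
    cases a with
    | up d =>
      simp only [upEdges, List.mem_cons] at he
      rcases he with he | he
      · rw [he]; exact ed_mem v d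
      · exact ih _ e he
    | lvl => exact ih _ e he
    | dn => exact ih _ e he
    | lf => exact ih _ e he
    | rt => exact ih _ e he

lemma upSites_edge (w : List Move) :
    ∀ v : ℤ × ℤ, ∀ z ∈ upSites v w, ∃ e ∈ upEdges v w, z ∈ e := by
  induction w with
  | nil => intro v z hz; simp [upSites] at hz
  | cons a w ih =>
    intro v z hz
    cases a with
    | up d =>
      simp only [upSites, List.mem_cons] at hz
      rcases hz with hz | hz
      · subst hz
        exact ⟨ed z d, by simp [upEdges], by simp [ed]⟩
      · obtain ⟨e, he, hze⟩ := ih _ z hz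
        exact ⟨e, by simp [upEdges, he], hze⟩
    | lvl => exact ih _ z hz
    | dn => exact ih _ z hz
    | lf => exact ih _ z hz
    | rt => exact ih _ z hz

/-- length and height balance -/
lemma balance {S : Set (Sym2 (ℤ × ℤ))} (w : List Move) :
    ∀ v : ℤ × ℤ, Valid S v w →
      (w.length : ℤ) + v.2 ≤ 2 * (upSites v w).length + 4 * w.count Move.lvl := by
  induction w with
  | nil =>
    intro v h
    simp only [List.length_nil, upSites, List.count_nil]
    have : v.2 ≤ 0 := h
    push_cast
    omega
  | cons a w ih =>
    intro v h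
    have h' := ih _ (valid_cons h)
    cases a with
    | up d =>
      simp only [disp, upSites, List.length_cons, List.count_cons, Prod.snd_sub] at h' ⊢
      have h2 : (Move.up d == Move.lvl) = false := rfl
      rw [h2]
      push_cast
      omega
    | lvl =>
      simp only [disp, upSites, List.length_cons, List.count_cons, Prod.snd_sub] at h' ⊢
      have h2 : (Move.lvl == Move.lvl) = true := rfl
      rw [h2]
      push_cast
      simp only [if_true]
      omega
    | dn =>
      simp only [disp, upSites, List.length_cons, List.count_cons, Prod.snd_sub] at h' ⊢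
      have h2 : (Move.dn == Move.lvl) = false := rfl
      rw [h2]
      push_cast
      omega
    | lf =>
      simp only [disp, upSites, List.length_cons, List.count_cons, Prod.snd_sub] at h' ⊢
      have h2 : (Move.lf == Move.lvl) = false := rfl
      rw [h2]
      push_cast
      omega
    | rt =>
      simp only [disp, upSites, List.length_cons, List.count_cons, Prod.snd_sub] at h' ⊢
      have h2 : (Move.rt == Move.lvl) = false := rfl
      rw [h2]
      push_cast
      omega

/-- the number of distinct closed edges -/
lemma card_upEdges {w : List Move} {v : ℤ × ℤ} (h : (sites v w).Nodup) :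
    (upSites v w).length ≤ 2 * (upEdges v w).toFinset.card := by
  have h1 : (upSites v w).Nodup := h.sublist (upSites_sublist w v)
  rw [← List.toFinset_card_of_nodup h1]
  have h2 : (upSites v w).toFinset ⊆ (upEdges v w).toFinset.biUnion fun e => e.toFinset := by
    intro z hz
    rw [List.mem_toFinset] at hz
    obtain ⟨e, he, hze⟩ := upSites_edge w v z hz
    rw [Finset.mem_biUnion]
    exact ⟨e, List.mem_toFinset.mpr he, Sym2.mem_toFinset.mpr hze⟩
  refine (Finset.card_le_card h2).trans ?_
  refine (Finset.card_biUnion_le_card_mul _ _ 2 ?_).trans (by rw [mul_comm])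
  intro e _
  induction e using Sym2.ind with
  | _ a b =>
    rw [Sym2.toFinset_mk_eq]
    exact Finset.card_le_two

end Pool.Agent.Lib.MP_566bac_pr
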